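import Mathlib.Data.Sign.Defs
import Mathlib.Data.List.OfFn
import Mathlib.Algebra.Ring.Int.Defs

/-! Deterministic Turing machines with a read-only input tape; weighted edit distance. -/

namespace Pool.Agent.MP_1a6d78_lc.ED

/-- A deterministic Turing machine with a read-only binary input tape and `k` work tapes.
`out q = some r` marks `q` as a halting state with answer `r`.  The transition function sees the
state, the scanned input symbol (`none` is the end marker) and the scanned work symbols; it gives
the next state, the move of the input head and, for every work tape, a symbol and a move. -/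
structure TM where
  k : ℕ
  Q : Type
  Γ : Type
  finQ : Finite Q
  finΓ : Finite Γ
  blank : Γ
  start : Q
  out : Q → Option Bool
  δ : Q → Option Bool → (Fin k → Γ) → Q × SignType × (Fin k → Γ × SignType)

/-- State, position of the input head, work tapes, positions of the work heads. -/
structure TM.Cfg (M : TM) where
  q : M.Q
  pos : ℕ
  tape : Fin M.k → ℕ → M.Γ
  head : Fin M.k → ℕ

/-- Head move by -1, 0 or 1 (a left move in cell 0 stays there). -/
def move (p : ℕ) (d : SignType) : ℕ := ((p : ℤ) + (d : ℤ)).toNat

/-- One step on input `x`; the input head stays in the cells `0, ..., |x|`. -/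
def TM.step (M : TM) (x : List Bool) (c : M.Cfg) : M.Cfg :=
  if (M.out c.q).isSome then c else
    let a := M.δ c.q x[c.pos]? fun i => c.tape i (c.head i)
    ⟨a.1, min (move c.pos a.2.1) x.length,
      fun i => Function.update (c.tape i) (c.head i) (a.2.2 i).1,
      fun i => move (c.head i) (a.2.2 i).2⟩

/-- The configuration after `t` steps on input `x`, starting with blank work tapes. -/
def TM.run (M : TM) (x : List Bool) (t : ℕ) : M.Cfg :=
  (M.step x)^[t] ⟨M.start, 0, fun _ _ => M.blank, fun _ => 0⟩

/-- `Align del ins sub u v c`: the word `u` is turned into `v` by deletions, insertions and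
substitutions (one per aligned pair of letters) of total cost `c`. -/
inductive Align {α : Type} (del ins : α → ℕ) (sub : α → α → ℕ) : List α → List α → ℕ → Prop
  | nil : Align del ins sub [] [] 0
  | del (a : α) {u v : List α} {c : ℕ} :
      Align del ins sub u v c → Align del ins sub (a :: u) v (del a + c)
  | ins (b : α) {u v : List α} {c : ℕ} :
      Align del ins sub u v c → Align del ins sub u (b :: v) (ins b + c)
  | sub (a b : α) {u v : List α} {c : ℕ} :
      Align del ins sub u v c → Align del ins sub (a :: u) (b :: v) (sub a b + c)

/-- A list of numbers in unary, each followed by a zero. -/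
def unary (l : List ℕ) : List Bool := l.flatMap fun a => List.replicate a true ++ [false]

/-- The code of an instance: alphabet size, lengths, threshold, the two words, the cost tables. -/
def code {m : ℕ} (del ins : Fin m → ℕ) (sub : Fin m → Fin m → ℕ) (u v : List (Fin m)) (t : ℕ) :
    List Bool :=
  unary ([m, u.length, v.length, t] ++ u.map Fin.val ++ v.map Fin.val ++ List.ofFn del ++
    List.ofFn ins ++ (List.ofFn fun a => List.ofFn (sub a)).flatten)

end Pool.Agent.MP_1a6d78_lc.ED
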