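import Mathlib.Analysis.SpecialFunctions.Pow.Real
import Pool.Agent.MP_1a6d78_lc.ED.Defs

/-! PROJECT ED: models, the algorithm, module statements.  Blueprint: ED1a6d78_BLUEPRINT.md. -/

namespace Pool.Agent.MP_1a6d78_lc.ED

open Function

/-! ### Structured programs -/

inductive Prog (A C : Type) : Type
  | act (a : A)
  | seq (p q : Prog A C)
  | ite (c : C) (p q : Prog A C)
  | loop (c : C) (p : Prog A C)

/-- Big-step semantics with a time bound; `G` holds after every action. -/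
inductive Exec {A C S : Type} (act : A → S → S) (tst : C → S → Bool) (G : S → Prop) :
    Prog A C → S → S → ℕ → Prop
  | act (a : A) (s : S) : G (act a s) → Exec act tst G (.act a) s (act a s) 1
  | seq {p q : Prog A C} {s s' s'' : S} {m n : ℕ} : Exec act tst G p s s' m →
      Exec act tst G q s' s'' n → Exec act tst G (.seq p q) s s'' (m + n)
  | iteT {c : C} {p q : Prog A C} {s s' : S} {n : ℕ} : tst c s = true →
      Exec act tst G p s s' n → Exec act tst G (.ite c p q) s s' (n + 1)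
  | iteF {c : C} {p q : Prog A C} {s s' : S} {n : ℕ} : tst c s = false →
      Exec act tst G q s s' n → Exec act tst G (.ite c p q) s s' (n + 1)
  | loopF {c : C} {p : Prog A C} {s : S} : tst c s = false → Exec act tst G (.loop c p) s s 1
  | loopT {c : C} {p : Prog A C} {s s' s'' : S} {m n : ℕ} : tst c s = true →
      Exec act tst G p s s' m → Exec act tst G (.loop c p) s' s'' n →
      Exec act tst G (.loop c p) s s'' (m + n + 1)
  | weak {p : Prog A C} {s s' : S} {m n : ℕ} : Exec act tst G p s s' m → m ≤ n →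
      Exec act tst G p s s' n

/-- Replace actions by programs and rename the tests. -/
def Prog.bind {A C A' C' : Type} (f : A → Prog A' C') (g : C → C') : Prog A C → Prog A' C'
  | .act a => f a
  | .seq p q => .seq (p.bind f g) (q.bind f g)
  | .ite c p q => .ite (g c) (p.bind f g) (q.bind f g)
  | .loop c p => .loop (g c) (p.bind f g)

/-! ### Level 0: tapes -/

/-- `none` blank, `some none` separator, `some (some b)` digit. -/
abbrev Sym : Type := Option (Option Bool)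

inductive A0 : Type
  | mv (i : ℕ) (d : SignType)
  | wr (i : ℕ) (γ : Sym)
  | inp (d : SignType)

inductive C0 : Type
  | sc (i : ℕ) (f : Sym → Bool)
  | rd (f : Option Bool → Bool)

structure S0 : Type where
  tape : ℕ → ℕ → Sym
  head : ℕ → ℕ
  pos : ℕ

def act0 (x : List Bool) : A0 → S0 → S0
  | .mv i d, s => ⟨s.tape, update s.head i (move (s.head i) d), s.pos⟩
  | .wr i γ, s => ⟨update s.tape i (update (s.tape i) (s.head i) γ), s.head, s.pos⟩
  | .inp d, s => ⟨s.tape, s.head, min (move s.pos d) x.length⟩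

def tst0 (x : List Bool) : C0 → S0 → Bool
  | .sc i f, s => f (s.tape i (s.head i))
  | .rd f, s => f x[s.pos]?

def init0 : S0 := ⟨fun _ _ => none, fun _ => 0, 0⟩

/-! ### Level 2: stacks of symbols; level 1: stacks of numbers -/

/-- All stacks have height at most `K`. -/
def Len {α : Type} (K : ℕ) (s : (ℕ → List α) × ℕ) : Prop := ∀ i, (s.1 i).length ≤ K

inductive A2 : Type
  | push (i : ℕ) (γ : Option Bool)
  | pop (i : ℕ)
  | inp (d : SignType)

abbrev S2 : Type := (ℕ → List (Option Bool)) × ℕ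

def act2 (x : List Bool) : A2 → S2 → S2
  | .push i γ, s => (update s.1 i (γ :: s.1 i), s.2)
  | .pop i, s => (update s.1 i (s.1 i).tail, s.2)
  | .inp d, s => (s.1, min (move s.2 d) x.length)

def tst2 (x : List Bool) : C0 → S2 → Bool
  | .sc i f, s => f (s.1 i).head?
  | .rd f, s => f x[s.2]?

inductive A1 : Type
  | push (i : ℕ)
  | pop (i : ℕ)
  | inc (i : ℕ)
  | dec (i : ℕ)
  | inp (d : SignType)

inductive C1 : Type
  | ne (i : ℕ)
  | nz (i : ℕ)
  | rd (f : Option Bool → Bool)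

abbrev S1 : Type := (ℕ → List ℕ) × ℕ

/-- Top of a stack of numbers (0 if empty). -/
def hd (l : List ℕ) : ℕ := l.headD 0

def act1 (x : List Bool) : A1 → S1 → S1
  | .push i, s => (update s.1 i (0 :: s.1 i), s.2)
  | .pop i, s => (update s.1 i (s.1 i).tail, s.2)
  | .inc i, s => (update s.1 i ((s.1 i).modifyHead (· + 1)), s.2)
  | .dec i, s => (update s.1 i ((s.1 i).modifyHead (· - 1)), s.2)
  | .inp d, s => (s.1, min (move s.2 d) x.length)

def tst1 (x : List Bool) : C1 → S1 → Bool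
  | .ne i, s => !(s.1 i).isEmpty
  | .nz i, s => hd (s.1 i) != 0
  | .rd f, s => f x[s.2]?

/-- Level 1 execution with stacks of height at most `K`. -/
abbrev Ex (x : List Bool) (K : ℕ) : Prog A1 C1 → S1 → S1 → ℕ → Prop :=
  Exec (act1 x) (tst1 x) (Len K)

/-- CTL: a tape program is a Turing machine. -/
def CtlS : Prop :=
  ∀ (p : Prog A0 C0) (c : C0), ∃ M : TM, ∀ (x : List Bool) (w : ℕ) (s : S0) (T : ℕ),
    Exec (act0 x) (tst0 x) (fun s => ∀ i, s.head i ≤ w) p init0 s T →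
      M.out (M.run x (T + 1)).q = some (tst0 x c s) ∧ ∀ t i, (M.run x t).head i ≤ w

/-- L20: stacks of symbols on tapes. -/
def L20S : Prop :=
  ∀ p : Prog A2 C0, ∃ p' : Prog A0 C0, ∀ (x : List Bool) (w : ℕ) (s : S2) (T : ℕ),
    Exec (act2 x) (tst2 x) (Len w) p (fun _ => [], 0) s T →
      ∃ t, Exec (act0 x) (tst0 x) (fun s => ∀ i, s.head i ≤ w) p' init0 t (T * 2) ∧
        ∀ c, tst0 x c t = tst2 x c s

/-- L12: numbers in bijective base two. -/
def L12S : Prop :=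
  ∀ (p : Prog A1 C1) (c : C1), ∃ (p' : Prog A2 C0) (c' : C0),
    ∀ (x : List Bool) (K L : ℕ) (s : S1) (T : ℕ), T < 2 ^ L → Ex x K p (fun _ => [], 0) s T →
      ∃ s', Exec (act2 x) (tst2 x) (Len ((K + 1) * (L + 1))) p' (fun _ => [], 0) s'
        (T * (8 * L + 8)) ∧ tst2 x c' s' = tst1 x c s

/-! ### The closure calculus -/

abbrev Env : Type := ℕ → List ℕ

def cons (v : List ℕ) (ρ : Env) : Env
  | 0 => v
  | i + 1 => ρ i

def tl (ρ : Env) : Env := fun i => ρ (i + 1)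

def pw (B c : ℕ) : ℕ := (B + 2) ^ c

def gt (l : List ℕ) (i : ℕ) : ℕ := l.getD i 0

def tab (n : ℕ) (f : ℕ → ℕ) : List ℕ := (List.range n).map f

def itr {α : Type} (f : ℕ → α → α) (z : α) : ℕ → α
  | 0 => z
  | m + 1 => f m (itr f z m)

def bit (x : List Bool) (p : ℕ) : ℕ := if x[p]? = some true then 1 else 0

def Bd (κ : List Bool → ℕ) (x : List Bool) (ρ : Env) (B : ℕ) : Prop :=
  1 ≤ κ x ∧ κ x ≤ B ∧ x.length ≤ B ∧ ∀ i, ∀ a ∈ ρ i, a ≤ B

/-- `f` is computed in polynomial time with stacks of height `κ x`: the slots of the environment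
sit on the stacks `ℓ i < b`, the value is put on stack `b`, higher stacks are scratch. -/
def Cm (κ : List Bool → ℕ) (f : List Bool → Env → List ℕ) : Prop :=
  ∃ c : ℕ, (∀ x ρ B, Bd κ x ρ B → ∀ a ∈ f x ρ, a ≤ pw B c) ∧
    ∀ (ℓ : ℕ → ℕ) (b : ℕ), (∀ i, ℓ i < b) → ∃ p : Prog A1 C1,
      ∀ (x : List Bool) (σ : ℕ → List ℕ) (B : ℕ), Bd κ x (fun i => σ (ℓ i)) B →
        Len (κ x) (σ, 0) → (∀ j, b ≤ j → σ j = []) →
          Ex x (κ x) p (σ, 0) (update σ b (f x fun i => σ (ℓ i)), 0) (pw B c)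

def Cn (κ : List Bool → ℕ) (f : List Bool → Env → ℕ) : Prop := Cm κ fun x ρ => [f x ρ]

/-- PA -/
structure KitA (κ : List Bool → ℕ) : Prop where
  var : ∀ i, Cm κ fun _ ρ => ρ i
  ren : ∀ (f : List Bool → Env → List ℕ) (r : ℕ → ℕ), Cm κ f → Cm κ fun x ρ => f x fun i => ρ (r i)
  bind : ∀ e f : List Bool → Env → List ℕ, Cm κ e → Cm κ f →
    Cm κ fun x ρ => f x (cons (e x ρ) ρ)
  ifz : ∀ f g : List Bool → Env → List ℕ, Cm κ f → Cm κ g →
    Cm κ fun x ρ => if hd (ρ 0) = 0 then f x ρ else g x ρ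

/-- PB -/
structure KitB (κ : List Bool → ℕ) : Prop where
  zero : Cn κ fun _ _ => 0
  succ : Cn κ fun _ ρ => hd (ρ 0) + 1
  pred : Cn κ fun _ ρ => hd (ρ 0) - 1
  get : Cn κ fun _ ρ => gt (ρ 0) (hd (ρ 1))
  inp : Cn κ fun x ρ => bit x (hd (ρ 0))
  len : Cn κ fun x _ => x.length

/-- PC -/
def IterS (κ : List Bool → ℕ) : Prop :=
  ∀ f : List Bool → Env → List ℕ, Cm κ f →
    (∃ c, ∀ x ρ B, Bd κ x ρ B → ∀ m ≤ hd (ρ 0),
      ∀ a ∈ itr (fun m acc => f x (cons acc (cons [m] ρ))) (ρ 1) m, a ≤ pw B c) →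
    Cm κ fun x ρ => itr (fun m acc => f x (cons acc (cons [m] ρ))) (ρ 1) (hd (ρ 0))

/-- PD -/
def TabS (κ : List Bool → ℕ) : Prop :=
  ∀ (n : List Bool → ℕ) (f : List Bool → Env → ℕ), (∀ x, n x ≤ κ x) → Cn κ (fun x _ => n x) →
    Cn κ f → Cm κ fun x ρ => tab (n x) fun e => f x (cons [e] ρ)

/-- ARA: structural rules, loops, sums. -/
structure Kit1 (κ : List Bool → ℕ) : Prop where
  var : ∀ i, Cm κ fun _ ρ => ρ i
  tl : ∀ {f : List Bool → Env → List ℕ}, Cm κ f → Cm κ fun x ρ => f x (tl ρ)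
  tlN : ∀ {f : List Bool → Env → ℕ}, Cn κ f → Cn κ fun x ρ => f x (ED.tl ρ)
  hdv : ∀ i, Cn κ fun _ ρ => hd (ρ i)
  const : ∀ n, Cn κ fun _ _ => n
  len : Cn κ fun x _ => x.length
  bit : ∀ {p : List Bool → Env → ℕ}, Cn κ p → Cn κ fun x ρ => bit x (p x ρ)
  gt : ∀ {l : List Bool → Env → List ℕ} {i : List Bool → Env → ℕ}, Cm κ l → Cn κ i →
    Cn κ fun x ρ => gt (l x ρ) (i x ρ)
  add : ∀ {a b : List Bool → Env → ℕ}, Cn κ a → Cn κ b → Cn κ fun x ρ => a x ρ + b x ρ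
  sub : ∀ {a b : List Bool → Env → ℕ}, Cn κ a → Cn κ b → Cn κ fun x ρ => a x ρ - b x ρ
  ile : ∀ {a b f g : List Bool → Env → ℕ}, Cn κ a → Cn κ b → Cn κ f → Cn κ g →
    Cn κ fun x ρ => if a x ρ ≤ b x ρ then f x ρ else g x ρ
  fold : ∀ {n z : List Bool → Env → ℕ} (f : List Bool → Env → ℕ → ℕ → ℕ)
    (g : List Bool → Env → ℕ → ℕ), Cn κ n → Cn κ z →
    (Cn κ fun x ρ => f x (ED.tl (ED.tl ρ)) (hd (ρ 1)) (hd (ρ 0))) →
    (Cn κ fun x ρ => g x (ED.tl ρ) (hd (ρ 0))) →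
    (∀ x ρ m acc b, acc ≤ b → g x ρ m ≤ b → f x ρ m acc ≤ b) →
    Cn κ fun x ρ => itr (f x ρ) (z x ρ) (n x ρ)
  foldL : ∀ {n : List Bool → Env → ℕ} {z : List Bool → Env → List ℕ}
    (f : List Bool → Env → ℕ → List ℕ → List ℕ) (g : List Bool → Env → ℕ → ℕ), Cn κ n → Cm κ z →
    (Cm κ fun x ρ => f x (ED.tl (ED.tl ρ)) (hd (ρ 1)) (ρ 0)) →
    (Cn κ fun x ρ => g x (ED.tl ρ) (hd (ρ 0))) →
    (∀ x ρ m acc b, (∀ a ∈ acc, a ≤ b) → g x ρ m ≤ b → ∀ a ∈ f x ρ m acc, a ≤ b) →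
    Cm κ fun x ρ => itr (f x ρ) (z x ρ) (n x ρ)
  sum : ∀ {n : List Bool → Env → ℕ} (g : List Bool → Env → ℕ → ℕ), Cn κ n →
    (Cn κ fun x ρ => g x (ED.tl ρ) (hd (ρ 0))) →
    Cn κ fun x ρ => ∑ m ∈ Finset.range (n x ρ), g x ρ m
  tab : ∀ {n : List Bool → ℕ} (f : List Bool → Env → ℕ → ℕ), (∀ x, n x ≤ κ x) →
    Cn κ (fun x _ => n x) → (Cn κ fun x ρ => f x (ED.tl ρ) (hd (ρ 0))) →
    Cm κ fun x ρ => tab (n x) (f x ρ)

/-- ARB: arithmetic derived from `Kit1`. -/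
structure Kit2 (κ : List Bool → ℕ) : Prop where
  mul : ∀ {a b : List Bool → Env → ℕ}, Cn κ a → Cn κ b → Cn κ fun x ρ => a x ρ * b x ρ
  pow : ∀ {a : List Bool → Env → ℕ} (e : ℕ), Cn κ a → Cn κ fun x ρ => a x ρ ^ e
  div : ∀ {a b : List Bool → Env → ℕ}, Cn κ a → Cn κ b → Cn κ fun x ρ => a x ρ / b x ρ
  mod : ∀ {a b : List Bool → Env → ℕ}, Cn κ a → Cn κ b → Cn κ fun x ρ => a x ρ % b x ρ
  min : ∀ {a b : List Bool → Env → ℕ}, Cn κ a → Cn κ b → Cn κ fun x ρ => min (a x ρ) (b x ρ)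
  max : ∀ {a b : List Bool → Env → ℕ}, Cn κ a → Cn κ b → Cn κ fun x ρ => max (a x ρ) (b x ρ)
  ieq : ∀ {a b f g : List Bool → Env → ℕ}, Cn κ a → Cn κ b → Cn κ f → Cn κ g →
    Cn κ fun x ρ => if a x ρ = b x ρ then f x ρ else g x ρ

/-! ### The algorithm on a Monge system (chains of boxes) -/

/-- Cost of the path `s, p 0, ..., p (i - 1), x` through the strips `0, ..., i`. -/
def cst (d : ℕ → ℕ → ℕ → ℕ) (s : ℕ) (p : ℕ → ℕ) (i x : ℕ) : ℕ :=
  ∑ j ∈ Finset.range (i + 1), d j (if j = 0 then s else p (j - 1)) (if j = i then x else p j)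

section
variable (k w : ℕ) (f : List ℕ → ℕ → ℕ → ℕ) (B T : List ℕ)

/-- Row `a` of the table: the left ends of a box. -/
def rowOf (a : ℕ) : List ℕ := tab k fun m => gt T (a * k + m)

/-- Least index of a best box for the target `y`. -/
def bi (j y : ℕ) : ℕ :=
  itr (fun a acc => if f (rowOf k T acc) j y ≤ f (rowOf k T a) j y then acc else a) 0
    (1 + j * (k - 1))

/-- The block of line `j` used by row `r` of the next table. -/
def ts (j r : ℕ) : ℕ :=
  ∑ t ∈ Finset.range (k - 1), if bi k f T j (gt B j + (t + 1) * w) + (t + 1) ≤ r then 1 else 0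

/-- Entry `e` of the next table. -/
def stp (j e : ℕ) : ℕ :=
  if e % k = j then gt B j + ts k w f B T j (e / k) * w
  else gt T ((e / k - ts k w f B T j (e / k)) * k + e % k)

/-- The table after `i` lines. -/
def tbl (i : ℕ) : List ℕ :=
  itr (fun j T => tab ((k + 1) ^ 3) (stp k w f B T j)) (tab ((k + 1) ^ 3) fun _ => 0) i

end

def Val (k s : ℕ) (d : ℕ → ℕ → ℕ → ℕ) : ℕ → List ℕ → ℕ → ℕ → ℕ
  | 0 => fun B i x => cst d s (gt B) i x
  | t + 1 => fun B i x => Val k s d t (rowOf k (tbl k (k ^ t) (Val k s d t) B i)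
      (bi k (Val k s d t) (tbl k (k ^ t) (Val k s d t) B i) i x)) i x

/-- Least cost of a path from `s` to `x` that crosses line `m < i` in `[l m, l m + W)`. -/
noncomputable def opt (d : ℕ → ℕ → ℕ → ℕ) (s W : ℕ) (l : ℕ → ℕ) : ℕ → ℕ → ℕ
  | 0 => fun x => d 0 s x
  | i + 1 => fun x =>
      sInf ((fun z => opt d s W l i z + d (i + 1) z x) '' Set.Ico (l i) (l i + W))

def Mon (d : ℕ → ℕ → ℕ → ℕ) : Prop :=
  ∀ j a a' b b', a ≤ a' → b ≤ b' → d j a b + d j a' b' ≤ d j a b' + d j a' b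

/-- BOX -/
structure BoxK (d : ℕ → ℕ → ℕ → ℕ) (s : ℕ) : Prop where
  monge : Mon d → ∀ (W : ℕ) (l l' : ℕ → ℕ) (i x x' : ℕ), 0 < W → (∀ m < i, l m ≤ l' m) → x ≤ x' →
    opt d s W l i x + opt d s W l' i x' ≤ opt d s W l i x' + opt d s W l' i x
  congr : ∀ (W : ℕ) (l l' : ℕ → ℕ) (i x : ℕ), (∀ m < i, l m = l' m) →
    opt d s W l i x = opt d s W l' i x
  one : ∀ (l : ℕ → ℕ) (i x : ℕ), opt d s 1 l i x = cst d s l i x
  sub : ∀ (W W' : ℕ) (l l' : ℕ → ℕ) (i x : ℕ), 0 < W' →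
    (∀ m < i, l m ≤ l' m ∧ l' m + W' ≤ l m + W) → opt d s W l i x ≤ opt d s W' l' i x

/-- The first `1 + j (k - 1)` rows are a chain of sub-boxes that contains an optimal path to every
target. -/
structure Inv (d : ℕ → ℕ → ℕ → ℕ) (s k w : ℕ) (B : List ℕ) (j : ℕ) (T : List ℕ) : Prop where
  chain : ∀ a a', a ≤ a' → a' < 1 + j * (k - 1) → ∀ m < j, gt T (a * k + m) ≤ gt T (a' * k + m)
  inside : ∀ a < 1 + j * (k - 1), ∀ m < j,
    gt B m ≤ gt T (a * k + m) ∧ gt T (a * k + m) + w ≤ gt B m + k * w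
  cover : ∀ x, ∃ a < 1 + j * (k - 1),
    opt d s w (fun m => gt T (a * k + m)) j x ≤ opt d s (k * w) (gt B) j x

/-- `b` picks the least best row, monotonically. -/
structure BiK (d : ℕ → ℕ → ℕ → ℕ) (s k w j : ℕ) (T : List ℕ) (b : ℕ → ℕ) : Prop where
  lt : ∀ y, b y < 1 + j * (k - 1)
  best : ∀ y, ∀ a < 1 + j * (k - 1), opt d s w (fun m => gt T (b y * k + m)) j y ≤
    opt d s w (fun m => gt T (a * k + m)) j y
  mono : ∀ y y', y ≤ y' → b y ≤ b y'

/-- BI -/
def BiS : Prop :=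
  ∀ (d : ℕ → ℕ → ℕ → ℕ) (s k w j : ℕ) (f : List ℕ → ℕ → ℕ → ℕ) (B T : List ℕ), Mon d → BoxK d s →
    0 < w → j ≤ k → Inv d s k w B j T → (∀ l y, f l j y = opt d s w (gt l) j y) →
      BiK d s k w j T (bi k f T j)

/-- STEP -/
def StepS : Prop :=
  ∀ (d : ℕ → ℕ → ℕ → ℕ) (s k w j : ℕ) (f : List ℕ → ℕ → ℕ → ℕ) (B T : List ℕ), BoxK d s →
    0 < w → j < k → Inv d s k w B j T → BiK d s k w j T (bi k f T j) →
      Inv d s k w B (j + 1) (tab ((k + 1) ^ 3) (stp k w f B T j))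

/-- VAL -/
def ValS : Prop :=
  ∀ (d : ℕ → ℕ → ℕ → ℕ) (s k : ℕ), Mon d → 1 ≤ k → ∀ (t : ℕ) (B : List ℕ) (i x : ℕ), i ≤ k →
    Val k s d t B i x = opt d s (k ^ t) (gt B) i x

/-! ### Edit distance -/

def lev {α : Type} (dl is : α → ℕ) (sb : α → α → ℕ) : List α → List α → ℕ
  | [], v => (v.map is).sum
  | a :: u, [] => dl a + lev dl is sb u []
  | a :: u, b :: v => min (dl a + lev dl is sb u (b :: v))
      (min (is b + lev dl is sb (a :: u) v) (sb a b + lev dl is sb u v))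

/-- LEVA -/
structure LevA {α : Type} (dl is : α → ℕ) (sb : α → α → ℕ) : Prop where
  align : ∀ u v t, (∃ c ≤ t, Align dl is sb u v c) ↔ lev dl is sb u v ≤ t
  app : ∀ u u' v v', lev dl is sb (u ++ u') (v ++ v') ≤ lev dl is sb u v + lev dl is sb u' v'
  split : ∀ u u' w, ∃ v v', w = v ++ v' ∧
    lev dl is sb (u ++ u') w = lev dl is sb u v + lev dl is sb u' v'
  nil : ∀ u, lev dl is sb u [] = (u.map dl).sum
  drop : ∀ P u v1 v v2, (∀ a, dl a ≤ P) →
    lev dl is sb u v ≤ lev dl is sb u (v1 ++ v ++ v2) + (v1.length + v2.length) * P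

/-- MONGE -/
def MongeS : Prop :=
  ∀ {α : Type} (dl is : α → ℕ) (sb : α → α → ℕ) (u w1 w2 w3 : List α),
    lev dl is sb u (w1 ++ w2) + lev dl is sb u (w2 ++ w3) ≤
      lev dl is sb u (w1 ++ w2 ++ w3) + lev dl is sb u w2

/-- Number of zeros before position `p`. -/
def zc (x : List Bool) (p : ℕ) : ℕ := ∑ p' ∈ Finset.range p, (1 - bit x p')

/-- The `i`-th unary number of the input. -/
def num (x : List Bool) (i : ℕ) : ℕ :=
  ∑ p ∈ Finset.range x.length, if zc x p = i then bit x p else 0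

def dlx (x : List Bool) (i : ℕ) : ℕ := num x (4 + num x 1 + num x 2 + num x (4 + i))

def isx (x : List Bool) (j : ℕ) : ℕ :=
  num x (4 + num x 1 + num x 2 + num x 0 + num x (4 + num x 1 + j))

def sbx (x : List Bool) (i j : ℕ) : ℕ :=
  num x (4 + num x 1 + num x 2 + num x 0 + num x 0 +
    (num x (4 + i) * num x 0 + num x (4 + num x 1 + j)))

def insS (x : List Bool) (a b : ℕ) : ℕ := ∑ t ∈ Finset.range (b - a), isx x (a + t)

def delS (x : List Bool) (o h : ℕ) : ℕ := ∑ t ∈ Finset.range (min h (num x 1 - o)), dlx x (o + t)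

/-- The least `k` with `k ^ r > |x|`. -/
def kk (r : ℕ) (x : List Bool) : ℕ :=
  itr (fun m acc => if m ^ r ≤ x.length then m + 1 else acc) 0 (x.length + 1)

/-- Distance for one row. -/
def row (x : List Bool) (o a b : ℕ) : ℕ :=
  if o + 1 ≤ num x 1 then
    itr (fun z acc => min acc (insS x a (a + z) + sbx x o (a + z) + insS x (a + z + 1) b))
      (dlx x o + insS x a b) (b - a)
  else insS x a b

/-- Distance between the rows `o, ..., o + k ^ s - 1` and the columns `a, ..., b - 1` (clipped at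
the length of the second word, with a penalty for `b < a`). -/
def Dist (r : ℕ) (x : List Bool) : ℕ → ℕ → ℕ → ℕ → ℕ
  | 0 => fun o a b => if min a (num x 2) ≤ min b (num x 2) then
      row x o (min a (num x 2)) (min b (num x 2))
      else delS x o 1 + (min a (num x 2) - min b (num x 2)) * x.length
  | s + 1 => fun o a b => if min a (num x 2) ≤ min b (num x 2) then
      Val (kk r x) (min a (num x 2)) (fun i => Dist r x s (o + i * kk r x ^ s)) r
        (tab (kk r x) fun _ => min a (num x 2)) (kk r x - 1) (min b (num x 2))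
      else delS x o (kk r x ^ (s + 1)) + (min a (num x 2) - min b (num x 2)) * x.length

def ans (r : ℕ) (x : List Bool) : ℕ := if Dist r x r 0 0 (num x 2) ≤ num x 3 then 1 else 0

/-- The true distance on index lists. -/
def dd (x : List Bool) (o h a b : ℕ) : ℕ :=
  lev (dlx x) (isx x) (sbx x) (List.range' o (min h (num x 1 - o))) (List.range' a (b - a))

/-- ROW -/
def RowS : Prop := ∀ (x : List Bool) (o a b : ℕ), a ≤ b → row x o a b = dd x o 1 a b

/-- KK -/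
def KkS : Prop :=
  ∀ (r : ℕ) (x : List Bool), 1 ≤ r → 1 ≤ kk r x ∧ x.length < kk r x ^ r ∧
    (kk r x - 1) ^ r ≤ x.length ∧ ∀ i, num x i ≤ x.length

/-- The distance extended to `b < a` by a penalty. -/
def ee (x : List Bool) (o h a b : ℕ) : ℕ :=
  if a ≤ b then dd x o h a b else delS x o h + (a - b) * x.length

/-- EE -/
structure EeK (x : List Bool) : Prop where
  mon : ∀ o h a a' b b', a ≤ a' → b ≤ b' →
    ee x o h a b + ee x o h a' b' ≤ ee x o h a b' + ee x o h a' b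
  tri : ∀ o h h' a z b, ee x o (h + h') a b ≤ ee x o h a z + ee x (o + h) h' z b
  spl : ∀ o h h' a b, a ≤ b →
    ∃ z, a ≤ z ∧ z ≤ b ∧ ee x o (h + h') a b = ee x o h a z + ee x (o + h) h' z b

/-- DIST -/
def DistS : Prop :=
  ∀ (r : ℕ) (x : List Bool) (s o a b : ℕ), 1 ≤ r →
    Dist r x s o a b = ee x o (kk r x ^ s) (min a (num x 2)) (min b (num x 2))

/-- CODE -/
def CodeS : Prop :=
  ∀ {m : ℕ} (del ins : Fin m → ℕ) (sub : Fin m → Fin m → ℕ) (u v : List (Fin m)) (t : ℕ),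
    num (code del ins sub u v t) 1 = u.length ∧ num (code del ins sub u v t) 3 = t ∧
      ∀ h, u.length ≤ h →
        dd (code del ins sub u v t) 0 h 0 (num (code del ins sub u v t) 2) = lev del ins sub u v

/-- ALGV: one application of `Val` is computable, in substitution form. -/
def AlgVS : Prop :=
  ∀ (κ k : List Bool → ℕ) (d : List Bool → ℕ → ℕ → ℕ → ℕ → ℕ), Kit1 κ → Kit2 κ →
    (∀ x, (k x + 1) ^ 3 ≤ κ x) → Cn κ (fun x _ => k x) →
    (∀ o i a b : List Bool → Env → ℕ, Cn κ o → Cn κ i → Cn κ a → Cn κ b →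
      Cn κ fun x ρ => d x (o x ρ) (i x ρ) (a x ρ) (b x ρ)) →
    ∀ (t : ℕ) (o s i y : List Bool → Env → ℕ) (B : List Bool → Env → List ℕ),
      Cn κ o → Cn κ s → Cm κ B → Cn κ i → Cn κ y →
        Cn κ fun x ρ => Val (k x) (s x ρ) (d x (o x ρ)) t (B x ρ) (i x ρ) (y x ρ)

/-- ALGD -/
def AlgDS : Prop :=
  ∀ r : ℕ, Kit1 (fun x => (kk r x + 1) ^ 3) → Kit2 (fun x => (kk r x + 1) ^ 3) →
    Cn (fun x => (kk r x + 1) ^ 3) fun x _ => ans r x

/-- MACH: from the calculus to a machine. -/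
def MachS : Prop :=
  ∀ (κ f : List Bool → ℕ), Cn κ (fun x _ => f x) → ∃ (M : TM) (c : ℕ),
    ∀ (x : List Bool) (B : ℕ), 1 ≤ κ x → κ x ≤ B → x.length ≤ B →
      M.out (M.run x (pw B c)).q = some (f x != 0) ∧
        ∀ t i, (M.run x t).head i ≤ (κ x + 1) * (c * Nat.log 2 (B + 2) + c)

/-- The theorem. -/
def MainS : Prop :=
  ∀ ε : ℝ, 0 < ε → ∃ (M : TM) (c : ℕ), ∀ x : List Bool, ∃ r : Bool,
    M.out (M.run x ((x.length + 2) ^ c)).q = some r ∧
    (∀ t i, ((M.run x t).head i : ℝ) ≤ c * ((x.length : ℝ) + 1) ^ ε) ∧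
    ∀ (m : ℕ) (del ins : Fin m → ℕ) (sub : Fin m → Fin m → ℕ) (u v : List (Fin m)) (t : ℕ),
      x = code del ins sub u v t → (r = true ↔ ∃ c ≤ t, Align del ins sub u v c)

end Pool.Agent.MP_1a6d78_lc.ED
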