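import Pool.Agent.MP_1a6d78_lc.ED.Basic
import Pool.Agent.MP_1a6d78_lc.ED.Spec

-- ======== part 0: formerly Pool.Agent.MP_1a6d78_lc.ED.L20
section MrgPart0

/-! PROJECT ED, row L20: stacks of symbols on tapes. -/

namespace Pool.Agent.MP_1a6d78_lc.ED

open Function

namespace L20

/-- The tape `τ` holds the stack, bottom first, from cell 1 on; cell 0 is blank. -/
def Rep (τ : ℕ → Sym) : List (Option Bool) → Prop
  | [] => τ 0 = none
  | γ :: l => τ (l.length + 1) = some γ ∧ Rep τ l

theorem Rep.head {τ : ℕ → Sym} {l : List (Option Bool)} (h : Rep τ l) : τ l.length = l.head? := by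
  cases l with
  | nil => exact h
  | cons γ l => exact h.1

theorem Rep.tail {τ : ℕ → Sym} {l : List (Option Bool)} (h : Rep τ l) : Rep τ l.tail := by
  cases l with
  | nil => exact h
  | cons γ l => exact h.2

theorem Rep.upd {τ : ℕ → Sym} {l : List (Option Bool)} (h : Rep τ l) {j : ℕ} (hj : l.length < j)
    (v : Sym) : Rep (update τ j v) l := by
  induction l with
  | nil => exact (update_of_ne (by simpa using hj.ne) _ _).trans h
  | cons γ l ih =>
    rw [List.length_cons] at hj
    exact ⟨(update_of_ne hj.ne _ _).trans h.1, ih h.2 (by omega)⟩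

def R (s : S2) (t : S0) : Prop :=
  t.pos = s.2 ∧ ∀ i, t.head i = (s.1 i).length ∧ Rep (t.tape i) (s.1 i)

def tr : A2 → Prog A0 C0
  | .push i γ => .seq (.act (.mv i 1)) (.act (.wr i (some γ)))
  | .pop i => .act (.mv i (-1))
  | .inp d => .act (.inp d)

theorem move_pos (p : ℕ) : move p 1 = p + 1 := by
  simp only [move, SignType.coe_one]
  omega

theorem move_neg (p : ℕ) : move p (-1) = p - 1 := by
  simp only [move, SignType.coe_neg_one]
  omega

theorem tst {x : List Bool} (c : C0) (s : S2) (t : S0) (h : R s t) : tst0 x c t = tst2 x c s := by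
  cases c with
  | sc i f => simp only [tst0, tst2, (h.2 i).1, (h.2 i).2.head]
  | rd f => simp only [tst0, tst2, h.1]

theorem good {w : ℕ} {s : S2} {t : S0} (h : R s t) (hs : Len w s) (i : ℕ) : t.head i ≤ w :=
  (h.2 i).1 ▸ hs i

theorem step {x : List Bool} {w : ℕ} (a : A2) (s : S2) (t : S0) (h : R s t)
    (hs : Len w (act2 x a s)) :
    ∃ t', Exec (act0 x) (tst0 x) (fun s => ∀ i, s.head i ≤ w) (tr a) t t' 2 ∧
      R (act2 x a s) t' := by
  cases a with
  | push i γ =>
    have r : R (act2 x (.push i γ) s) (act0 x (.wr i (some γ)) (act0 x (.mv i 1) t)) := by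
      refine ⟨h.1, fun j => ?_⟩
      by_cases hj : j = i
      · subst hj
        simp only [act0, act2, update_self, move_pos, (h.2 j).1, List.length_cons, true_and]
        exact ⟨update_self _ _ _, (h.2 j).2.upd (Nat.lt_succ_self _) _⟩
      · simp only [act0, act2, update_of_ne hj]
        exact h.2 j
    exact ⟨_, (Exec.act _ _ (good r hs)).seq (Exec.act _ _ (good r hs)), r⟩
  | pop i =>
    have r : R (act2 x (.pop i) s) (act0 x (.mv i (-1)) t) := by
      refine ⟨h.1, fun j => ?_⟩
      by_cases hj : j = i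
      · subst hj
        simp only [act0, act2, update_self, move_neg, (h.2 j).1, List.length_tail, true_and]
        exact (h.2 j).2.tail
      · simp only [act0, act2, update_of_ne hj]
        exact h.2 j
    exact ⟨_, (Exec.act _ _ (good r hs)).weak (by omega), r⟩
  | inp d =>
    have r : R (act2 x (.inp d) s) (act0 x (.inp d) t) :=
      ⟨by simp only [act0, act2, h.1], h.2⟩
    exact ⟨_, (Exec.act _ _ (good r hs)).weak (by omega), r⟩

end L20

theorem l20 : L20S := by
  intro p
  refine ⟨p.bind L20.tr id, fun x w s T h => ?_⟩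
  obtain ⟨t, e, r⟩ := sim (act' := act0 x) (tst' := tst0 x) (G' := fun s => ∀ i, s.head i ≤ w)
    L20.R L20.tr id 2 (by omega) L20.tst (fun a s t hr _ hs => L20.step a s t hr hs) h init0
    (fun _ => Nat.zero_le _) ⟨rfl, fun _ => ⟨rfl, rfl⟩⟩
  exact ⟨t, e, fun c => L20.tst c s t r⟩

end Pool.Agent.MP_1a6d78_lc.ED

end MrgPart0

-- ======== part 1: formerly Pool.Agent.MP_1a6d78_lc.ED.L12
section MrgPart1

/-! PROJECT ED, row L12: stacks of numbers on stacks of symbols (bijective base two). -/

namespace Pool.Agent.MP_1a6d78_lc.ED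

open Function

namespace L12

def incr : List Bool → List Bool
  | [] => [false]
  | false :: l => true :: l
  | true :: l => false :: incr l

def decr : List Bool → List Bool
  | [] => []
  | true :: l => false :: l
  | false :: l => if l = [] then [] else true :: decr l

def enc : ℕ → List Bool
  | 0 => []
  | n + 1 => incr (enc n)

def vl : List Bool → ℕ
  | [] => 0
  | false :: l => 1 + 2 * vl l
  | true :: l => 2 + 2 * vl l

theorem incr_ne (l : List Bool) : incr l ≠ [] := by
  rcases l with _ | ⟨_ | _, l⟩ <;> simp [incr]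

theorem decr_incr (l : List Bool) : decr (incr l) = l := by
  induction l with
  | nil => simp [incr, decr]
  | cons b l ih => cases b <;> simp [incr, decr, incr_ne, ih]

theorem enc_pred (a : ℕ) : enc (a - 1) = decr (enc a) := by
  cases a with
  | zero => rfl
  | succ a => simp [enc, decr_incr]

theorem vl_incr (l : List Bool) : vl (incr l) = vl l + 1 := by
  induction l with
  | nil => rfl
  | cons b l ih => cases b <;> simp only [incr, vl, ih] <;> omega

theorem vl_enc (a : ℕ) : vl (enc a) = a := by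
  induction a with
  | zero => rfl
  | succ a ih => rw [enc, vl_incr, ih]

theorem pow_le (l : List Bool) : 2 ^ l.length ≤ vl l + 1 := by
  induction l with
  | nil => simp [vl]
  | cons b l ih => cases b <;> simp only [List.length_cons, pow_succ, vl] <;> omega

theorem enc_len {a L : ℕ} (h : a < 2 ^ L) : (enc a).length ≤ L := by
  have h1 := pow_le (enc a)
  rw [vl_enc] at h1
  exact (Nat.pow_le_pow_iff_right (by omega : 1 < 2)).1 (by omega)

theorem run (b : Bool) (l : List Bool) :
    ∃ n r, l = List.replicate n b ++ r ∧ (r = [] ∨ ∃ r', r = (!b) :: r') := by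
  induction l with
  | nil => exact ⟨0, [], rfl, Or.inl rfl⟩
  | cons c l ih =>
    by_cases h : c = b
    · obtain ⟨n, r, e, hr⟩ := ih
      exact ⟨n + 1, r, by rw [h, e]; rfl, hr⟩
    · exact ⟨0, c :: l, rfl, Or.inr ⟨l, by cases b <;> cases c <;> simp_all⟩⟩

theorem incr_run (n : ℕ) (r : List Bool) :
    incr (List.replicate n true ++ r) = List.replicate n false ++ incr r := by
  induction n with
  | zero => rfl
  | succ n ih => simp only [List.replicate_succ, List.cons_append, incr, ih]

theorem decr_run (n : ℕ) (r : List Bool) :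
    decr (List.replicate n false ++ true :: r) = List.replicate n true ++ false :: r := by
  induction n with
  | zero => rfl
  | succ n ih => simp [List.replicate_succ, decr, ih]

theorem decr_all (n : ℕ) : decr (List.replicate n false) = List.replicate (n - 1) true := by
  induction n with
  | zero => rfl
  | succ n ih =>
    cases n with
    | zero => simp [decr]
    | succ n =>
      rw [List.replicate_succ, decr, if_neg (by simp), ih]
      simp [List.replicate_succ]

def cells : List ℕ → List (Option Bool)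
  | [] => []
  | a :: l => (enc a).map some ++ none :: cells l

theorem cells_len {L : ℕ} (l : List ℕ) (h : ∀ a ∈ l, a < 2 ^ L) :
    (cells l).length ≤ l.length * (L + 1) := by
  induction l with
  | nil => simp [cells]
  | cons a l ih =>
    have h1 := enc_len (h a List.mem_cons_self)
    have h2 := ih fun b hb => h b (List.mem_cons_of_mem _ hb)
    simp only [cells, List.length_append, List.length_map, List.length_cons, Nat.succ_mul]
    omega

/-- The state with `u` on stack `i + 1` and `v` on the scratch stack. -/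
def St (σ : ℕ → List (Option Bool)) (h i : ℕ) (u v : List (Option Bool)) : S2 :=
  (update (update σ 0 v) (i + 1) u, h)

abbrev Ex2 (x : List Bool) (W : ℕ) : Prog A2 C0 → S2 → S2 → ℕ → Prop :=
  Exec (act2 x) (tst2 x) (Len W)

section
variable {x : List Bool} {W h i : ℕ} {σ : ℕ → List (Option Bool)} {u v : List (Option Bool)}

theorem st_len (hσ : Len W (σ, h)) (hu : u.length ≤ W) (hv : v.length ≤ W) :
    Len W (St σ h i u v) := Len.upd (h := h) (hσ.upd 0 hv) _ hu

theorem t1 (f : Sym → Bool) : tst2 x (.sc (i + 1) f) (St σ h i u v) = f u.head? := by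
  simp [tst2, St]

theorem t0 (f : Sym → Bool) : tst2 x (.sc 0 f) (St σ h i u v) = f v.head? := by
  simp [tst2, St]

theorem push1 (hσ : Len W (σ, h)) (γ : Option Bool) (hu : u.length + 1 ≤ W) (hv : v.length ≤ W) :
    Ex2 x W (.act (.push (i + 1) γ)) (St σ h i u v) (St σ h i (γ :: u) v) 1 :=
  .act' _ (by simp [act2, St]) (st_len hσ hu hv)

theorem pop1 (hσ : Len W (σ, h)) (hu : u.length ≤ W) (hv : v.length ≤ W) :
    Ex2 x W (.act (.pop (i + 1))) (St σ h i u v) (St σ h i u.tail v) 1 :=
  .act' _ (by simp [act2, St]) (st_len hσ (by rw [List.length_tail]; omega) hv)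

theorem upd0 (w : List (Option Bool)) :
    update (update (update σ 0 v) (i + 1) u) 0 w = update (update σ 0 w) (i + 1) u := by
  rw [update_comm (by omega : i + 1 ≠ 0), update_idem]

theorem push0 (hσ : Len W (σ, h)) (γ : Option Bool) (hu : u.length ≤ W) (hv : v.length + 1 ≤ W) :
    Ex2 x W (.act (.push 0 γ)) (St σ h i u v) (St σ h i u (γ :: v)) 1 :=
  .act' _ (by simp [act2, St, upd0]) (st_len hσ hu hv)

theorem pop0 (hσ : Len W (σ, h)) (hu : u.length ≤ W) (hv : v.length ≤ W) :
    Ex2 x W (.act (.pop 0)) (St σ h i u v) (St σ h i u v.tail) 1 :=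
  .act' _ (by simp [act2, St, upd0]) (st_len hσ hu (by rw [List.length_tail]; omega))

end

def isB (b : Bool) : Sym → Bool := fun γ => γ == some (some b)

def isD : Sym → Bool
  | some (some _) => true
  | _ => false

def shift (i : ℕ) (b : Bool) : Prog A2 C0 :=
  .loop (.sc (i + 1) (isB b)) (.seq (.act (.pop (i + 1))) (.act (.push 0 none)))

def back (i : ℕ) (b : Bool) : Prog A2 C0 :=
  .loop (.sc 0 Option.isSome) (.seq (.act (.pop 0)) (.act (.push (i + 1) (some b))))

section
variable {x : List Bool} {W h i : ℕ} {σ : ℕ → List (Option Bool)}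

theorem ex_shift (hσ : Len W (σ, h)) (b : Bool) (n : ℕ) (r : List (Option Bool))
    (hr : isB b r.head? = false) (hl : n + r.length ≤ W) :
    Ex2 x W (shift i b) (St σ h i (List.replicate n (some b) ++ r) [])
      (St σ h i r (List.replicate n none)) (n * 3 + 1) := by
  have := Exec.loop_seq (act := act2 x) (tst := tst2 x) (G := Len W) (c := .sc (i + 1) (isB b))
    (p := .seq (.act (.pop (i + 1))) (.act (.push 0 none)))
    (fun m => St σ h i (List.replicate (n - m) (some b) ++ r) (List.replicate m none)) n 2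
    (fun m hm => by
      obtain ⟨q, hq⟩ : ∃ q, n - m = q + 1 := ⟨n - m - 1, by omega⟩
      have hq' : n - (m + 1) = q := by omega
      simp only [hq, hq', List.replicate_succ, List.cons_append]
      refine ⟨by rw [t1]; simp [isB], ?_⟩
      exact (pop1 hσ (by simp; omega) (by simp; omega)).seq
        (push0 hσ none (by simp; omega) (by simp; omega)))
    (by rw [t1]; simpa using hr)
  simpa [shift] using this

theorem ex_back (hσ : Len W (σ, h)) (b : Bool) (n : ℕ) (r : List (Option Bool))
    (hl : n + r.length ≤ W) :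
    Ex2 x W (back i b) (St σ h i r (List.replicate n none))
      (St σ h i (List.replicate n (some b) ++ r) []) (n * 3 + 1) := by
  have := Exec.loop_seq (act := act2 x) (tst := tst2 x) (G := Len W) (c := .sc 0 Option.isSome)
    (p := .seq (.act (.pop 0)) (.act (.push (i + 1) (some b))))
    (fun m => St σ h i (List.replicate m (some b) ++ r) (List.replicate (n - m) none)) n 2
    (fun m hm => by
      obtain ⟨q, hq⟩ : ∃ q, n - m = q + 1 := ⟨n - m - 1, by omega⟩
      have hq' : n - (m + 1) = q := by omega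
      simp only [hq, hq', List.replicate_succ, List.cons_append]
      refine ⟨by rw [t0]; simp, ?_⟩
      exact (pop0 hσ (by simp; omega) (by simp; omega)).seq
        (push1 hσ (some b) (by simp; omega) (by simp; omega)))
    (by rw [t0]; simp)
  simpa [back] using this

theorem ex_digits (hσ : Len W (σ, h)) (e : List Bool) (r : List (Option Bool))
    (hr : isD r.head? = false) (hl : e.length + r.length ≤ W) :
    Ex2 x W (.loop (.sc (i + 1) isD) (.act (.pop (i + 1)))) (St σ h i (e.map some ++ r) [])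
      (St σ h i r []) (e.length * 2 + 1) := by
  induction e with
  | nil => exact (Exec.loopF (by rw [t1]; simpa using hr)).weak (by simp)
  | cons b e ih =>
    rw [List.length_cons] at hl
    refine (Exec.loopT (by rw [t1]; rfl) (pop1 hσ (by simp; omega) (by simp))
      (ih (by omega))).weak ?_
    rw [List.length_cons]
    omega

end

def pInc (i : ℕ) : Prog A2 C0 :=
  .ite (.sc (i + 1) Option.isSome) (.seq (shift i true) (.seq
    (.ite (.sc (i + 1) (isB false)) (.seq (.act (.pop (i + 1))) (.act (.push (i + 1) (some true))))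
      (.act (.push (i + 1) (some false)))) (back i false))) (.act (.pop 0))

def pDec (i : ℕ) : Prog A2 C0 :=
  .seq (shift i false) (.seq
    (.ite (.sc (i + 1) (isB true)) (.seq (.act (.pop (i + 1))) (.act (.push (i + 1) (some false))))
      (.act (.pop 0))) (back i true))

def trA : A1 → Prog A2 C0
  | .push i => .act (.push (i + 1) none)
  | .pop i => .seq (.loop (.sc (i + 1) isD) (.act (.pop (i + 1)))) (.act (.pop (i + 1)))
  | .inc i => pInc i
  | .dec i => pDec i
  | .inp d => .act (.inp d)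

def trC : C1 → C0
  | .ne i => .sc (i + 1) Option.isSome
  | .nz i => .sc (i + 1) isD
  | .rd f => .rd f

section
variable {x : List Bool} {W h i : ℕ} {σ : ℕ → List (Option Bool)}

theorem ex_inc2 (hσ : Len W (σ, h)) (e : List Bool) (r : List (Option Bool))
    (hl : e.length + r.length + 2 ≤ W) :
    Ex2 x W (pInc i) (St σ h i (e.map some ++ none :: r) [])
      (St σ h i ((incr e).map some ++ none :: r) []) (6 * e.length + 6) := by
  obtain ⟨n, q, rfl, hq⟩ := run true e
  rw [List.length_append, List.length_replicate] at hl ⊢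
  rw [incr_run, List.map_append, List.map_append, List.map_replicate, List.map_replicate,
    List.append_assoc, List.append_assoc]
  have h0 : tst2 x (.sc (i + 1) Option.isSome)
      (St σ h i (List.replicate n (some true) ++ (q.map some ++ none :: r)) []) = true := by
    rw [t1, Option.isSome_iff_ne_none]
    simp
  rcases hq with rfl | ⟨q, rfl⟩
  · refine (Exec.iteT h0 ((ex_shift hσ true n _ rfl (by simp; omega)).seq
      ((Exec.iteF (by rw [t1]; rfl) (push1 hσ _ (by simp; omega) (by simp; omega))).seq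
        (ex_back hσ false n _ (by simp; omega))))).weak (by omega)
  · rw [List.length_cons] at hl
    refine (Exec.iteT h0 ((ex_shift hσ true n _ rfl (by simp; omega)).seq
      ((Exec.iteT (by rw [t1]; rfl) ((pop1 hσ (by simp; omega) (by simp; omega)).seq
        (push1 hσ _ (by simp; omega) (by simp; omega)))).seq
        (ex_back hσ false n _ (by simp; omega))))).weak (by omega)

theorem ex_dec2 (hσ : Len W (σ, h)) (e : List Bool) (r : List (Option Bool))
    (hr : isD r.head? = false) (hl : e.length + r.length ≤ W) :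
    Ex2 x W (pDec i) (St σ h i (e.map some ++ r) [])
      (St σ h i ((decr e).map some ++ r) []) (6 * e.length + 6) := by
  have hb : ∀ b, isB b r.head? = false := by
    intro b
    rcases r with _ | ⟨_ | c, r⟩
    · rfl
    · rfl
    · simp [isD] at hr
  obtain ⟨n, q, rfl, hq⟩ := run false e
  rw [List.length_append, List.length_replicate] at hl ⊢
  rcases hq with rfl | ⟨q, rfl⟩
  · rw [List.append_nil, decr_all, List.map_replicate, List.map_replicate]
    have e1 := pop0 (x := x) (i := i) (u := r) (v := List.replicate n none) hσ (by omega)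
      (by simp; omega)
    rw [List.tail_replicate] at e1
    exact ((ex_shift hσ false n r (hb _) (by omega)).seq
      ((Exec.iteF (by rw [t1]; exact hb _) e1).seq
        (ex_back hσ true (n - 1) r (by omega)))).weak (by omega)
  · rw [List.length_cons] at hl
    rw [Bool.not_false, decr_run, List.map_append, List.map_append, List.map_replicate,
      List.map_replicate, List.append_assoc, List.append_assoc]
    refine ((ex_shift hσ false n _ rfl (by simp; omega)).seq
      ((Exec.iteT (by rw [t1]; rfl) ((pop1 hσ (by simp; omega) (by simp; omega)).seq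
        (push1 hσ _ (by simp; omega) (by simp; omega)))).seq
        (ex_back hσ true n _ (by simp; omega)))).weak (by omega)

end

def encσ (σ : ℕ → List ℕ) : ℕ → List (Option Bool)
  | 0 => []
  | i + 1 => cells (σ i)

theorem st_upd (σ : ℕ → List ℕ) (h i : ℕ) (l : List ℕ) :
    St (encσ σ) h i (cells l) [] = (encσ (update σ i l), h) := by
  unfold St
  refine Prod.ext (funext fun j => ?_) rfl
  rcases j with _ | j
  · simp [encσ]
  · by_cases e : j = i
    · subst e; simp [encσ]
    · simp [encσ, update_of_ne e, update_of_ne (show j + 1 ≠ i + 1 by omega)]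

theorem st_self (σ : ℕ → List ℕ) (h i : ℕ) : (encσ σ, h) = St (encσ σ) h i (cells (σ i)) [] := by
  rw [st_upd, update_eq_self]

theorem tst_eq (x : List Bool) (c : C1) (s : S1) :
    tst2 x (trC c) (encσ s.1, s.2) = tst1 x c s := by
  cases c with
  | ne i =>
    simp only [trC, tst2, tst1, encσ]
    rcases s.1 i with _ | ⟨a, l⟩
    · rfl
    · rw [List.isEmpty_cons, Bool.not_false, Option.isSome_iff_ne_none]
      simp [cells]
  | nz i =>
    simp only [trC, tst2, tst1, encσ]
    rcases s.1 i with _ | ⟨_ | a, l⟩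
    · rfl
    · rfl
    · have := incr_ne (enc a)
      simp only [cells, enc]
      rcases e : incr (enc a) with _ | ⟨b, q⟩
      · exact absurd e this
      · simp [isD, hd]
  | rd f => rfl

theorem step (x : List Bool) {K L T : ℕ} (hT : T < 2 ^ L) (a : A1) (s : S1)
    (h1 : Len K s) (h2 : Ent T s) :
    Ex2 x ((K + 1) * (L + 1)) (trA a) (encσ s.1, s.2)
      (encσ (act1 x a s).1, (act1 x a s).2) (8 * L + 8) := by
  obtain ⟨σ, h⟩ := s
  have hW : (K + 1) * (L + 1) = K * (L + 1) + L + 1 := by ring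
  have hc : ∀ i, (cells (σ i)).length ≤ K * (L + 1) := fun i =>
    (cells_len (σ i) fun b hb => lt_of_le_of_lt (h2 i b hb) hT).trans
      (Nat.mul_le_mul_right _ (h1 i))
  have hσ : ∀ h', Len ((K + 1) * (L + 1)) (encσ σ, h') := by
    intro h' j
    rcases j with _ | j
    · exact Nat.zero_le _
    · exact (hc j).trans (by omega)
  have he : ∀ i b l, σ i = b :: l → (enc b).length ≤ L ∧
      (enc b).length + (cells l).length + 1 ≤ K * (L + 1) := by
    intro i b l e
    have h3 := hc i
    rw [e] at h3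
    simp only [cells, List.length_append, List.length_map, List.length_cons] at h3
    exact ⟨enc_len (lt_of_le_of_lt (h2 i b (by rw [show (σ, h).1 i = b :: l from e]; simp)) hT),
      by omega⟩
  cases a with
  | push i =>
    have := hc i
    simp only [act1, trA]
    rw [st_self σ h i, ← st_upd]
    exact (push1 (hσ h) none (by omega) (Nat.zero_le _)).weak (by omega)
  | pop i =>
    simp only [act1, trA]
    rw [st_self σ h i, ← st_upd]
    rcases e : σ i with _ | ⟨b, l⟩
    · exact ((ex_digits (hσ h) [] [] rfl (Nat.zero_le _)).seq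
        (pop1 (hσ h) (Nat.zero_le _) (Nat.zero_le _))).weak (by simp)
    · obtain ⟨e1, e2⟩ := he i b l e
      exact ((ex_digits (hσ h) (enc b) (none :: cells l) rfl (by simp; omega)).seq
        (pop1 (hσ h) (by simp; omega) (Nat.zero_le _))).weak (by omega)
  | inc i =>
    simp only [act1, trA]
    rw [st_self σ h i, ← st_upd]
    rcases e : σ i with _ | ⟨b, l⟩
    · exact (Exec.iteF (by rw [t1]; rfl)
        (pop0 (hσ h) (Nat.zero_le _) (Nat.zero_le _))).weak (by omega)
    · obtain ⟨e1, e2⟩ := he i b l e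
      exact (ex_inc2 (hσ h) (enc b) (cells l) (by omega)).weak (by omega)
  | dec i =>
    simp only [act1, trA]
    rw [st_self σ h i, ← st_upd]
    rcases e : σ i with _ | ⟨b, l⟩
    · exact (ex_dec2 (hσ h) [] [] rfl (Nat.zero_le _)).weak (by simp)
    · obtain ⟨e1, e2⟩ := he i b l e
      have e3 := ex_dec2 (x := x) (i := i) (hσ h) (enc b) (none :: cells l) rfl (by simp; omega)
      rw [← enc_pred] at e3
      exact e3.weak (by omega)
  | inp d => exact (Exec.act' _ rfl (hσ _)).weak (by omega)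

end L12

open L12 in
theorem l12 : L12S := by
  intro p c
  refine ⟨p.bind trA trC, trC c, fun x K L s T hT hp => ?_⟩
  have h0 : Ent 0 ((fun _ => [], 0) : S1) := fun i a ha => absurd ha List.not_mem_nil
  obtain ⟨t, e, rfl⟩ := sim (act' := act2 x) (tst' := tst2 x) (G' := Len ((K + 1) * (L + 1)))
    (fun (s : S1) (t : S2) => t = (encσ s.1, s.2)) trA trC (8 * L + 8) (by omega)
    (fun c s t r => by rw [r, tst_eq])
    (fun a s t r g _ => ⟨_, by rw [r]; exact step x hT a s g.1 g.2, rfl⟩)
    (Exec.ent hp 0 T h0 (by omega)).1 (fun _ => [], 0)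
    ⟨fun _ => Nat.zero_le _, h0.mono (Nat.zero_le _)⟩
    (Prod.ext (funext fun j => by cases j <;> rfl) rfl)
  exact ⟨_, e, tst_eq x c s⟩

end Pool.Agent.MP_1a6d78_lc.ED

end MrgPart1

-- ======== part 2: formerly Pool.Agent.MP_1a6d78_lc.ED.PA
section MrgPart2

/-! Row PA: variables, renaming, binding and the zero test of the closure calculus. -/

namespace Pool.Agent.MP_1a6d78_lc.ED

open Function

namespace PA

variable {κ : List Bool → ℕ}

theorem var (i : ℕ) : Cm κ fun _ ρ => ρ i := by
  refine ⟨15, fun x ρ B hB a ha => ?_, fun ℓ b hℓ => ⟨cpLst (ℓ i) b (b + 1) (b + 2), ?_⟩⟩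
  · have h1 := hB.2.2.2 i a ha
    have h2 := le_pw B (c := 15) (by omega)
    omega
  · intro x σ B hB hσ h0
    have hi := hℓ i
    have e := ex_cpLst (x := x) hσ (i := ℓ i) (j := b) (t := b + 1) (t' := b + 2) (B := B)
      (by omega) (by omega) (by omega) (by omega) (by omega) (by omega) hB.1 (hB.2.2.2 i)
      (h0 b le_rfl) (h0 _ (by omega)) (h0 _ (by omega))
    refine e.weak ?_
    have h1 : κ x * (13 * B + 13) ≤ B * (13 * B + 13) := Nat.mul_le_mul_right _ hB.2.1
    have h2 : 13 * pw B 2 ≤ pw B 13 * pw B 2 := Nat.mul_le_mul_right _ (const_le_pw B 13)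
    rw [pw_mul] at h2
    have h3 : pw B 2 = B * B + 4 * B + 4 := by unfold pw; ring
    have h4 : B * (13 * B + 13) = 13 * (B * B) + 13 * B := by ring
    show _ ≤ pw B (13 + 2)
    omega

theorem ren (f : List Bool → Env → List ℕ) (r : ℕ → ℕ) (hf : Cm κ f) :
    Cm κ fun x ρ => f x fun i => ρ (r i) := by
  obtain ⟨c, h1, h2⟩ := hf
  refine ⟨c, fun x ρ B hB => h1 x _ B ⟨hB.1, hB.2.1, hB.2.2.1, fun i => hB.2.2.2 (r i)⟩,
    fun ℓ b hℓ => ?_⟩
  obtain ⟨p, hp⟩ := h2 (fun i => ℓ (r i)) b fun i => hℓ (r i)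
  exact ⟨p, fun x σ B hB hσ h0 =>
    hp x σ B ⟨hB.1, hB.2.1, hB.2.2.1, fun i => hB.2.2.2 (r i)⟩ hσ h0⟩

/-- The layout with the new slot on stack `b`. -/
def lay (ℓ : ℕ → ℕ) (b : ℕ) : ℕ → ℕ
  | 0 => b
  | i + 1 => ℓ i

theorem time (B K a c : ℕ) (hK : K ≤ B) :
    pw B a + (pw B c + (2 * K + 1 + 2 * (K * (3 * pw B c + 4) + 1))) ≤ pw B (20 + (a + c + 1)) := by
  have h1 : pw B a ≤ pw B (a + c + 1) := pw_mono le_rfl (by omega)
  have h2 : pw B c ≤ pw B (a + c + 1) := pw_mono le_rfl (by omega)
  have h3 : B + 2 ≤ pw B (a + c + 1) := le_pw B (by omega)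
  have h4 : pw B 1 * pw B c ≤ pw B (a + c + 1) := by
    rw [pw_mul]; exact pw_mono le_rfl (by omega)
  have h5 : K * pw B c ≤ pw B 1 * pw B c :=
    Nat.mul_le_mul_right _ (hK.trans (by have := le_pw B (c := 1) le_rfl; omega))
  have h6 : 20 * pw B (a + c + 1) ≤ pw B 20 * pw B (a + c + 1) :=
    Nat.mul_le_mul_right _ (const_le_pw B 20)
  rw [pw_mul] at h6
  have h7 : K * (3 * pw B c + 4) = 3 * (K * pw B c) + 4 * K := by ring
  omega

theorem bind (e f : List Bool → Env → List ℕ) (he : Cm κ e) (hf : Cm κ f) :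
    Cm κ fun x ρ => f x (cons (e x ρ) ρ) := by
  obtain ⟨a, e1, e2⟩ := he
  obtain ⟨c, f1, f2⟩ := hf
  have hb : ∀ x ρ B, Bd κ x ρ B → Bd κ x (cons (e x ρ) ρ) (B + pw B a) := fun x ρ B hB =>
    (hB.mono (Nat.le_add_right _ _)).cons fun y hy => (e1 x ρ B hB y hy).trans (Nat.le_add_left _ _)
  have hv : ∀ x ρ B, Bd κ x ρ B → ∀ y ∈ f x (cons (e x ρ) ρ), y ≤ pw B ((a + 2) * c) :=
    fun x ρ B hB y hy => (f1 x _ _ (hb x ρ B hB) y hy).trans (pw_pw B a c)
  refine ⟨20 + (a + (a + 2) * c + 1), fun x ρ B hB y hy =>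
    (hv x ρ B hB y hy).trans (pw_mono le_rfl (by omega)), fun ℓ b hℓ => ?_⟩
  obtain ⟨p, hp⟩ := e2 ℓ b hℓ
  obtain ⟨q, hq⟩ := f2 (lay ℓ b) (b + 1) fun i => by
    cases i with
    | zero => exact Nat.lt_succ_self b
    | succ i => exact Nat.lt_succ_of_lt (hℓ i)
  refine ⟨.seq p (.seq q (.seq (clr b) (mvLst (b + 1) b (b + 2)))), fun x σ B hB hσ h0 => ?_⟩
  have a1 := hp x σ B hB hσ h0
  have g1 := a1.good hσ
  have hρ : (fun i => update σ b (e x fun i => σ (ℓ i)) (lay ℓ b i)) =
      cons (e x fun i => σ (ℓ i)) fun i => σ (ℓ i) := by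
    funext i
    cases i with
    | zero => exact update_self _ _ _
    | succ i => exact update_of_ne (hℓ i).ne _ _
  have a2 := hq x (update σ b (e x fun i => σ (ℓ i))) (B + pw B a) (hρ ▸ hb x _ B hB) g1
    fun j hj => by rw [update_of_ne (by omega)]; exact h0 j (by omega)
  rw [hρ] at a2
  have g2 := a2.good g1
  have a3 := ex_clr (x := x) g2 b
  have g3 := a3.good g2
  have a4 := ex_mvLst (x := x) g3 (i := b + 1) (j := b) (t := b + 2) (B := pw B ((a + 2) * c))
    (by omega) (by omega) (by omega)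
    (by rw [update_of_ne (by omega), update_self]; exact hv x _ B hB) (update_self _ _ _)
    (by rw [update_of_ne (by omega), update_of_ne (by omega), update_of_ne (by omega)]
        exact h0 _ (by omega))
  refine (a1.seq ((a2.weak (pw_pw B a c)).seq (a3.seq a4))).of_eq ?_ (time B (κ x) a _ hB.2.1)
  refine congrArg (·, 0) (funext fun k => ?_)
  by_cases k0 : k = b
  · rw [k0, update_self, update_self, update_of_ne (by omega), update_self]
  · rw [update_of_ne k0, update_of_ne k0]
    by_cases k1 : k = b + 1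
    · rw [k1, update_self, h0 _ (by omega)]
    · rw [update_of_ne k1, update_of_ne k0, update_of_ne k1, update_of_ne k0]

theorem ifz (f g : List Bool → Env → List ℕ) (hf : Cm κ f) (hg : Cm κ g) :
    Cm κ fun x ρ => if hd (ρ 0) = 0 then f x ρ else g x ρ := by
  obtain ⟨a, f1, f2⟩ := hf
  obtain ⟨c, g1, g2⟩ := hg
  refine ⟨a + c + 1, fun x ρ B hB y hy => ?_, fun ℓ b hℓ => ?_⟩
  · by_cases h : hd (ρ 0) = 0
    · simp only [if_pos h] at hy
      exact (f1 x ρ B hB y hy).trans (pw_mono le_rfl (by omega))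
    · simp only [if_neg h] at hy
      exact (g1 x ρ B hB y hy).trans (pw_mono le_rfl (by omega))
  · obtain ⟨p, hp⟩ := f2 ℓ b hℓ
    obtain ⟨q, hq⟩ := g2 ℓ b hℓ
    refine ⟨.ite (.nz (ℓ 0)) q p, fun x σ B hB hσ h0 => ?_⟩
    have h1 := pw_add B a c
    have h2 := one_le_pw B a
    have h3 := one_le_pw B c
    by_cases h : hd (σ (ℓ 0)) = 0
    · simp only [if_pos h]
      exact (Exec.iteF (by simp [tst1, h]) (hp x σ B hB hσ h0)).weak (by omega)
    · simp only [if_neg h]
      exact (Exec.iteT (by simp [tst1, h]) (hq x σ B hB hσ h0)).weak (by omega)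

end PA

theorem kitA (κ : List Bool → ℕ) : KitA κ where
  var := PA.var
  ren := PA.ren
  bind := PA.bind
  ifz := PA.ifz

end Pool.Agent.MP_1a6d78_lc.ED

end MrgPart2

-- ======== part 3: formerly Pool.Agent.MP_1a6d78_lc.ED.PB
section MrgPart3

/-! ROW PB: the basic numeric functions of the calculus. -/

namespace Pool.Agent.MP_1a6d78_lc.ED

open Function

namespace PB

variable {x : List Bool} {K h : ℕ} {σ : ℕ → List ℕ}

theorem bnd (n e B : ℕ) : n * (B + 2) ^ e ≤ pw B (n + e) := by
  rw [← pw_mul]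
  exact Nat.mul_le_mul_right _ (const_le_pw B n)

theorem ex_inp (hσ : Len K (σ, h)) (d : SignType) :
    Ex x K (.act (.inp d)) (σ, h) (σ, min (move h d) x.length) 1 :=
  .act' _ rfl hσ

theorem move_pos (p : ℕ) : move p 1 = p + 1 := by simp [move]

theorem move_neg (p : ℕ) : move p (-1) = p - 1 := by
  simp only [move, SignType.coe_neg_one]
  omega

/-- Do the action `a` as many times as the top of `i` says. -/
def rep (i : ℕ) (a : A1) : Prog A1 C1 := .loop (.nz i) (.seq (.act (.dec i)) (.act a))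

theorem ex_head (hσ : Len K (σ, h)) {i n : ℕ} {l : List ℕ} (hi : σ i = n :: l) (d : SignType)
    (P : ℕ → ℕ) (h0 : P 0 = h) (hP : ∀ m, P (m + 1) = min (move (P m) d) x.length) :
    Ex x K (rep i (.inp d)) (σ, h) (update σ i (0 :: l), P n) (3 * n + 1) := by
  have hl : l.length + 1 ≤ K := by simpa [hi] using hσ i
  have := Exec.loop_seq (act := act1 x) (tst := tst1 x) (G := Len K) (c := .nz i)
    (p := .seq (.act (.dec i)) (.act (.inp d)))
    (fun m => (update σ i ((n - m) :: l), P m)) n 2
    (fun m hm => ⟨by simp [tst1, hd]; omega, by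
      have h1 : Len K (update σ i ((n - m) :: l), P m) := hσ.upd i (by simpa using hl)
      have e1 := ex_dec (x := x) h1 (i := i) (a := n - m) (l := l) (by simp)
      have e2 := ex_inp (x := x) (e1.good h1) d
      refine (e1.seq e2).of_eq ?_ le_rfl
      simp [hP, Nat.sub_sub]⟩)
    (by simp [tst1, hd])
  have h1 : update σ i (n :: l) = σ := by rw [← hi]; simp
  simpa [rep, h0, h1] using this.weak (n := 3 * n + 1) (by omega)

theorem ex_right (hσ : Len K (σ, 0)) {i n : ℕ} {l : List ℕ} (hi : σ i = n :: l) :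
    Ex x K (rep i (.inp 1)) (σ, 0) (update σ i (0 :: l), min n x.length) (3 * n + 1) :=
  ex_head hσ hi 1 (fun m => min m x.length) (by simp) fun m => by
    rw [move_pos]
    omega

theorem ex_left (hσ : Len K (σ, h)) {i n : ℕ} {l : List ℕ} (hi : σ i = n :: l)
    (hh : h ≤ x.length) (hn : h ≤ n) :
    Ex x K (rep i (.inp (-1))) (σ, h) (update σ i (0 :: l), 0) (3 * n + 1) :=
  (ex_head hσ hi (-1) (fun m => h - m) rfl fun m => by
    rw [move_neg]
    omega).of_eq (by rw [Nat.sub_eq_zero_of_le hn]) le_rfl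

theorem ex_drop (hσ : Len K (σ, h)) {i j n : ℕ} {l : List ℕ} (hij : i ≠ j) (hi : σ i = n :: l) :
    Ex x K (rep i (.pop j)) (σ, h) (update (update σ i (0 :: l)) j ((σ j).drop n), h)
      (3 * n + 1) := by
  have hl : l.length + 1 ≤ K := by simpa [hi] using hσ i
  have hj : (σ j).length ≤ K := hσ j
  have := Exec.loop_seq (act := act1 x) (tst := tst1 x) (G := Len K) (c := .nz i)
    (p := .seq (.act (.dec i)) (.act (.pop j)))
    (fun m => (update (update σ i ((n - m) :: l)) j ((σ j).drop m), h)) n 2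
    (fun m hm => ⟨by simp [tst1, hd, update_of_ne hij]; omega, by
      have h1 : Len K (update (update σ i ((n - m) :: l)) j ((σ j).drop m), h) :=
        Len.upd (h := h) (hσ.upd i (by simpa using hl)) j (by simp; omega)
      have e1 := ex_dec (x := x) h1 (i := i) (a := n - m) (l := l) (by simp [update_of_ne hij])
      have e2 := ex_pop (x := x) (e1.good h1) j
      refine (e1.seq e2).of_eq ?_ le_rfl
      congr 1
      funext k
      simp only [update_apply]
      split_ifs <;> simp_all [Nat.sub_sub]⟩)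
    (by simp [tst1, hd, update_of_ne hij])
  have h0 : update (update σ i (n :: l)) j (σ j) = σ := by rw [← hi]; simp
  simpa [rep, h0] using this.weak (n := 3 * n + 1) (by omega)

theorem ex_count (hσ : Len K (σ, 0)) {i j : ℕ} (hij : i ≠ j) (hi : σ i = [0]) (hj : σ j = [0]) :
    Ex x K (.loop (.rd Option.isSome) (.seq (.act (.inc i)) (.seq (.act (.inc j)) (.act (.inp 1)))))
      (σ, 0) (update (update σ i [x.length]) j [x.length], x.length) (4 * x.length + 1) := by
  have hl : 1 ≤ K := by simpa [hi] using hσ i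
  have := Exec.loop_seq (act := act1 x) (tst := tst1 x) (G := Len K) (c := .rd Option.isSome)
    (p := .seq (.act (.inc i)) (.seq (.act (.inc j)) (.act (.inp 1))))
    (fun m => (update (update σ i [m]) j [m], m)) x.length 3
    (fun m hm => ⟨by simp [tst1, hm], by
      have h1 : Len K (update (update σ i [m]) j [m], m) :=
        Len.upd (h := 0) (hσ.upd i (by simpa using hl)) j (by simpa using hl)
      have e1 := ex_inc (x := x) h1 (i := i) (a := m) (l := []) (by simp [update_of_ne hij])
      have e2 := ex_inc (x := x) (e1.good h1) (i := j) (a := m) (l := [])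
        (by simp [update_of_ne hij.symm])
      have e3 := ex_inp (x := x) (e2.good (e1.good h1)) 1
      refine (e1.seq (e2.seq e3)).of_eq ?_ le_rfl
      congr 1
      · funext k
        simp only [update_apply]
        split_ifs <;> simp_all
      · rw [move_pos]
        omega⟩)
    (by simp [tst1])
  have h0 : update (update σ i [0]) j [0] = σ := by rw [← hi, update_eq_self, hi, ← hj]; simp
  simpa [h0] using this.weak (n := 4 * x.length + 1) (by omega)

theorem gt_eq (l : List ℕ) (n : ℕ) : hd (l.drop n) = gt l n := by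
  simp [hd, gt, List.headD_eq_head?_getD]

theorem gt_le {l : List ℕ} {B : ℕ} (h : ∀ a ∈ l, a ≤ B) (n : ℕ) : gt l n ≤ B :=
  gt_eq l n ▸ hd_le fun a ha => h a (List.mem_of_mem_drop ha)

theorem zero (κ : List Bool → ℕ) : Cn κ fun _ _ => 0 := by
  refine ⟨0, fun x ρ B _ a ha => by simp_all, fun ℓ b _ => ⟨.act (.push b), ?_⟩⟩
  intro x σ B hB hσ he
  refine (ex_push hσ b (by simpa [he b le_rfl] using hB.1)).of_eq ?_ (one_le_pw _ _)
  rw [he b le_rfl]

theorem cp (hσ : Len K (σ, h)) (hK : 1 ≤ K) {i j t : ℕ} (hij : i ≠ j) (hit : i ≠ t) (hjt : j ≠ t)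
    (hj : σ j = []) (ht : σ t = []) :
    Ex x K (cpTop i j t) (σ, h) (update σ j [hd (σ i)], h) (7 * hd (σ i) + 5) := by
  simpa [hj] using ex_cpTop (x := x) hσ hij hit hjt (by simpa [hj] using hK)
    (by simpa [ht] using hK)

theorem succ (κ : List Bool → ℕ) : Cn κ fun _ ρ => hd (ρ 0) + 1 := by
  refine ⟨8, fun x ρ B hB a ha => ?_,
    fun ℓ b hl => ⟨.seq (cpTop (ℓ 0) b (b + 1)) (.act (.inc b)), ?_⟩⟩
  · have := hd_le (hB.2.2.2 0)
    have := le_pw B (c := 8) (by omega)
    rw [List.mem_singleton.1 ha]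
    dsimp only
    omega
  · intro x σ B hB hσ he
    have h0 := hl 0
    have e1 := cp (x := x) hσ hB.1 (i := ℓ 0) (j := b) (t := b + 1) (by omega) (by omega)
      (by omega) (he _ le_rfl) (he _ (by omega))
    have e2 := ex_inc (x := x) (e1.good hσ) (i := b) (a := hd (σ (ℓ 0))) (l := []) (by simp)
    have h1 : hd (σ (ℓ 0)) ≤ B := hd_le (hB.2.2.2 0)
    have : 7 * (B + 2) ^ 1 ≤ pw B 8 := bnd 7 1 B
    exact (e1.seq e2).of_eq (by simp) (by simp only [pow_one] at this; omega)

theorem pred (κ : List Bool → ℕ) : Cn κ fun _ ρ => hd (ρ 0) - 1 := by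
  refine ⟨8, fun x ρ B hB a ha => ?_,
    fun ℓ b hl => ⟨.seq (cpTop (ℓ 0) b (b + 1)) (.act (.dec b)), ?_⟩⟩
  · have := hd_le (hB.2.2.2 0)
    have := le_pw B (c := 8) (by omega)
    rw [List.mem_singleton.1 ha]
    dsimp only
    omega
  · intro x σ B hB hσ he
    have h0 := hl 0
    have e1 := cp (x := x) hσ hB.1 (i := ℓ 0) (j := b) (t := b + 1) (by omega) (by omega)
      (by omega) (he _ le_rfl) (he _ (by omega))
    have e2 := ex_dec (x := x) (e1.good hσ) (i := b) (a := hd (σ (ℓ 0))) (l := []) (by simp)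
    have h1 : hd (σ (ℓ 0)) ≤ B := hd_le (hB.2.2.2 0)
    have : 7 * (B + 2) ^ 1 ≤ pw B 8 := bnd 7 1 B
    exact (e1.seq e2).of_eq (by simp) (by simp only [pow_one] at this; omega)

theorem get (κ : List Bool → ℕ) : Cn κ fun _ ρ => gt (ρ 0) (hd (ρ 1)) := by
  refine ⟨42, fun x ρ B hB a ha => ?_, fun ℓ b hl =>
    ⟨.seq (cpLst (ℓ 0) (b + 1) (b + 3) (b + 4)) (.seq (cpTop (ℓ 1) (b + 2) (b + 3))
      (.seq (rep (b + 2) (.pop (b + 1))) (.seq (cpTop (b + 1) b (b + 3))
        (.seq (clr (b + 1)) (.act (.pop (b + 2))))))), ?_⟩⟩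
  · have := gt_le (hB.2.2.2 0) (hd (ρ 1))
    have := le_pw B (c := 42) (by omega)
    rw [List.mem_singleton.1 ha]
    dsimp only
    omega
  · intro x σ B hB hσ he
    have h0 := hl 0
    have h1 := hl 1
    have n1 : ℓ 1 ≠ b + 1 := by omega
    have e1 := ex_cpLst (x := x) hσ (i := ℓ 0) (j := b + 1) (t := b + 3) (t' := b + 4) (B := B)
      (by omega) (by omega) (by omega) (by omega) (by omega) (by omega) hB.1 (hB.2.2.2 0)
      (he _ (by omega)) (he _ (by omega)) (he _ (by omega))
    have g1 := e1.good hσ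
    have e2 := cp (x := x) g1 hB.1 (i := ℓ 1) (j := b + 2) (t := b + 3) (by omega) (by omega)
      (by omega) (by simp [he]) (by simp [he])
    have g2 := e2.good g1
    rw [update_of_ne n1] at e2 g2
    have e3 := ex_drop (x := x) g2 (i := b + 2) (j := b + 1) (n := hd (σ (ℓ 1))) (l := [])
      (by omega) (by simp)
    have g3 := e3.good g2
    have e4 := cp (x := x) g3 hB.1 (i := b + 1) (j := b) (t := b + 3) (by omega) (by omega)
      (by omega) (by simp [he]) (by simp [he])
    have g4 := e4.good g3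
    have e5 := ex_clr (x := x) g4 (b + 1)
    have e6 := ex_pop (x := x) (e5.good g4) (b + 2)
    have b1 : hd (σ (ℓ 1)) ≤ B := hd_le (hB.2.2.2 1)
    have b2 : gt (σ (ℓ 0)) (hd (σ (ℓ 1))) ≤ B := gt_le (hB.2.2.2 0) _
    have b3 := hB.2.1
    have b4 := bnd 40 2 B
    have b5 : κ x * (13 * B + 13) ≤ B * (13 * B + 13) := Nat.mul_le_mul_right _ b3
    refine (e1.seq (e2.seq (e3.seq (e4.seq (e5.seq e6))))).of_eq ?_ ?_
    · congr 1
      funext k
      simp only [update_apply]
      split_ifs <;> simp_all [gt_eq]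
    · simp only [update_self, ne_eq, Nat.add_left_cancel_iff, OfNat.one_ne_ofNat,
        not_false_eq_true, update_of_ne, gt_eq]
      nlinarith

theorem bit_le (x : List Bool) (p : ℕ) : bit x p ≤ 1 := by
  unfold bit
  split_ifs <;> omega

theorem ex_bit {p i : ℕ} (hσ : Len K (σ, min p x.length)) (hi : σ i = [0]) :
    Ex x K (.ite (.rd fun r => r == some true) (.act (.inc i)) (.act (.dec i)))
      (σ, min p x.length) (update σ i [bit x p], min p x.length) 2 := by
  have hx : x[min p x.length]? = x[p]? := by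
    rcases le_total p x.length with h | h
    · rw [min_eq_left h]
    · rw [min_eq_right h, List.getElem?_eq_none h, List.getElem?_eq_none le_rfl]
  by_cases hp : x[p]? = some true
  · exact (Exec.iteT (by simp [tst1, hx, hp]) (ex_inc (x := x) hσ hi)).of_eq
      (by simp only [bit, if_pos hp]) le_rfl
  · exact (Exec.iteF (by simp [tst1, hx, hp]) (ex_dec (x := x) hσ hi)).of_eq
      (by simp only [bit, if_neg hp]) le_rfl

theorem inp (κ : List Bool → ℕ) : Cn κ fun x ρ => bit x (hd (ρ 0)) := by
  refine ⟨21, fun x ρ B hB a ha => ?_, fun ℓ b hl =>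
    ⟨.seq (cpTop (ℓ 0) (b + 1) (b + 3)) (.seq (cpTop (ℓ 0) (b + 2) (b + 3))
      (.seq (rep (b + 1) (.inp 1)) (.seq (.act (.push b))
        (.seq (.ite (.rd fun r => r == some true) (.act (.inc b)) (.act (.dec b)))
          (.seq (rep (b + 2) (.inp (-1))) (.seq (.act (.pop (b + 1))) (.act (.pop (b + 2))))))))),
      ?_⟩⟩
  · rw [List.mem_singleton.1 ha]
    exact (bit_le _ _).trans (one_le_pw _ _)
  · intro x σ B hB hσ he
    have h0 := hl 0
    have n1 : ℓ 0 ≠ b + 1 := by omega
    have e1 := cp (x := x) hσ hB.1 (i := ℓ 0) (j := b + 1) (t := b + 3) (by omega) (by omega)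
      (by omega) (he _ (by omega)) (he _ (by omega))
    have g1 := e1.good hσ
    have e2 := cp (x := x) g1 hB.1 (i := ℓ 0) (j := b + 2) (t := b + 3) (by omega) (by omega)
      (by omega) (by simp [he]) (by simp [he])
    have g2 := e2.good g1
    rw [update_of_ne n1] at e2 g2
    have b1 : hd (σ (ℓ 0)) ≤ B := hd_le (hB.2.2.2 0)
    dsimp only
    generalize hd (σ (ℓ 0)) = p at *
    have e3 := ex_right (x := x) g2 (i := b + 1) (n := p) (l := []) (by simp)
    have g3 := e3.good g2
    have e4 := ex_push (x := x) g3 b (by simpa [he] using hB.1)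
    have g4 := e4.good g3
    have e5 := ex_bit (x := x) g4 (i := b) (by simp [he])
    have g5 := e5.good g4
    have e6 := ex_left (x := x) g5 (i := b + 2) (n := p) (l := []) (by simp) (min_le_right _ _)
      (min_le_left _ _)
    have g6 := e6.good g5
    have e7 := ex_pop (x := x) g6 (b + 1)
    have e8 := ex_pop (x := x) (e7.good g6) (b + 2)
    have b4 : 20 * (B + 2) ^ 1 ≤ pw B 21 := bnd 20 1 B
    refine (e1.seq (e2.seq (e3.seq (e4.seq (e5.seq (e6.seq (e7.seq e8))))))).of_eq ?_
      (by simp only [pow_one] at b4; omega)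
    clear * - he
    congr 1
    funext k
    by_cases k2 : k = b + 2
    · simp [k2, he]
    by_cases k1 : k = b + 1
    · simp [k1, he]
    by_cases k0 : k = b
    · simp [k0]
    simp [k0, k1, k2]

theorem len (κ : List Bool → ℕ) : Cn κ fun x _ => x.length := by
  refine ⟨8, fun x ρ B hB a ha => ?_, fun ℓ b _ =>
    ⟨.seq (.act (.push b)) (.seq (.act (.push (b + 1))) (.seq (.loop (.rd Option.isSome)
      (.seq (.act (.inc b)) (.seq (.act (.inc (b + 1))) (.act (.inp 1)))))
        (.seq (rep (b + 1) (.inp (-1))) (.act (.pop (b + 1)))))), ?_⟩⟩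
  · have := hB.2.2.1
    have := le_pw B (c := 8) (by omega)
    rw [List.mem_singleton.1 ha]
    dsimp only
    omega
  · intro x σ B hB hσ he
    have e1 := ex_push (x := x) hσ b (by simpa [he] using hB.1)
    have g1 := e1.good hσ
    have e2 := ex_push (x := x) g1 (b + 1) (by simpa [he] using hB.1)
    have g2 := e2.good g1
    have e3 := ex_count (x := x) g2 (i := b) (j := b + 1) (by omega) (by simp [he]) (by simp [he])
    have g3 := e3.good g2
    have e4 := ex_left (x := x) g3 (i := b + 1) (n := x.length) (l := []) (by simp) le_rfl le_rfl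
    have e5 := ex_pop (x := x) (e4.good g3) (b + 1)
    have b1 := hB.2.2.1
    have b4 : 7 * (B + 2) ^ 1 ≤ pw B 8 := bnd 7 1 B
    refine (e1.seq (e2.seq (e3.seq (e4.seq e5)))).of_eq ?_ (by simp only [pow_one] at b4; omega)
    congr 1
    funext k
    simp only [update_apply]
    split_ifs <;> simp_all

end PB

theorem kitB (k : List Bool → ℕ) : KitB k :=
  ⟨PB.zero k, PB.succ k, PB.pred k, PB.get k, PB.inp k, PB.len k⟩

end Pool.Agent.MP_1a6d78_lc.ED

end MrgPart3

-- ======== part 4: formerly Pool.Agent.MP_1a6d78_lc.ED.PC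
section MrgPart4

/-! PROJECT ED, row PC: bounded iteration. -/

namespace Pool.Agent.MP_1a6d78_lc.ED

open Function

namespace PC

/-- Layout for the body of the loop. -/
def lay (ℓ : ℕ → ℕ) (b : ℕ) : ℕ → ℕ
  | 0 => b
  | 1 => b + 1
  | i + 2 => ℓ i

/-- The store with accumulator `a`, counter `m` and remaining count `r`. -/
def st (σ : ℕ → List ℕ) (b : ℕ) (a : List ℕ) (m r : ℕ) : ℕ → List ℕ :=
  update (update (update σ b a) (b + 1) [m]) (b + 2) [r]

theorem st_lay {σ : ℕ → List ℕ} {ℓ : ℕ → ℕ} {b : ℕ} (hℓ : ∀ i, ℓ i < b) (a : List ℕ) (m r : ℕ) :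
    (fun i => st σ b a m r (lay ℓ b i)) = cons a (cons [m] fun i => σ (ℓ i)) := by
  funext i
  match i with
  | 0 => simp [st, lay, cons]
  | 1 => simp [st, lay, cons]
  | i + 2 =>
    have := hℓ i
    simp only [st, lay, cons]
    rw [update_of_ne (by omega), update_of_ne (by omega), update_of_ne (by omega)]

theorem st_hi {σ : ℕ → List ℕ} {b : ℕ} (a : List ℕ) (m r : ℕ) {j : ℕ} (hj : b + 3 ≤ j) :
    st σ b a m r j = σ j := by
  simp only [st]
  rw [update_of_ne (by omega), update_of_ne (by omega), update_of_ne (by omega)]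

def body (p : Prog A1 C1) (b : ℕ) : Prog A1 C1 :=
  .seq p (.seq (clr b) (.seq (mvLst (b + 3) b (b + 4))
    (.seq (.act (.inc (b + 1))) (.act (.dec (b + 2))))))

theorem ex_body {x : List Bool} {K T B b m r : ℕ} {σ : ℕ → List ℕ} {a a' : List ℕ}
    {p : Prog A1 C1} (hz : ∀ j, b ≤ j → σ j = []) (hL : Len K (st σ b a m r, 0))
    (e1 : Ex x K p (st σ b a m r, 0) (update (st σ b a m r) (b + 3) a', 0) T)
    (ha : ∀ u ∈ a', u ≤ B) :
    Ex x K (body p b) (st σ b a m r, 0) (st σ b a' (m + 1) (r - 1), 0)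
      (T + (2 * K + 1 + (2 * (K * (3 * B + 4) + 1) + 2))) := by
  have g1 := e1.good hL
  have e2 := ex_clr (x := x) g1 b
  have g2 := e2.good g1
  have e3 := ex_mvLst (x := x) g2 (i := b + 3) (j := b) (t := b + 4) (B := B) (by omega)
    (by omega) (by omega) (by simpa using ha) (by simp)
    (by
      rw [update_of_ne (by omega), update_of_ne (by omega), st_hi _ _ _ (by omega)]
      exact hz _ (by omega))
  have g3 := e3.good g2
  have e4 := ex_inc (x := x) g3 (i := b + 1) (a := m) (l := []) (by simp [st])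
  have g4 := e4.good g3
  have e5 := ex_dec (x := x) g4 (i := b + 2) (a := r) (l := []) (by simp [st])
  refine (e1.seq (e2.seq (e3.seq (e4.seq e5)))).of_eq ?_ le_rfl
  congr 1
  funext k
  have h3 := hz (b + 3) (by omega)
  simp only [st, update_apply]
  split_ifs <;> first | rfl | omega | simp_all

def prog (p : Prog A1 C1) (ℓ : ℕ → ℕ) (b : ℕ) : Prog A1 C1 :=
  .seq (cpLst (ℓ 1) b (b + 1) (b + 2)) (.seq (.act (.push (b + 1)))
    (.seq (cpTop (ℓ 0) (b + 2) (b + 3)) (.seq (.loop (.nz (b + 2)) (body p b))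
      (.seq (.act (.pop (b + 1))) (.act (.pop (b + 2)))))))

theorem cost {K n B Y P : ℕ} (hK : K ≤ B) (hn : n ≤ B) (hY : B ≤ Y) (hP : 1 ≤ P) :
    K * (13 * B + 13) + 2 + (1 + (7 * n + 5 +
      (n * (P + (2 * K + 1 + (2 * (K * (3 * Y + 4) + 1) + 2)) + 1) + 1 + (1 + 1)))) ≤
      P * (Y + 2) ^ 4 := by
  have h1 : K * (13 * B + 13) ≤ Y * (13 * Y + 13) := Nat.mul_le_mul (by omega) (by omega)
  have h2 : K * (3 * Y + 4) ≤ Y * (3 * Y + 4) := Nat.mul_le_mul_right _ (by omega)
  have h3 : n * (P + (2 * K + 1 + (2 * (K * (3 * Y + 4) + 1) + 2)) + 1) ≤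
      Y * (P + (2 * Y + 1 + (2 * (Y * (3 * Y + 4) + 1) + 2)) + 1) :=
    Nat.mul_le_mul (by omega) (by omega)
  have h4 : 1 * (6 * Y ^ 3 + 23 * Y ^ 2 + 26 * Y + 11) ≤
      P * (6 * Y ^ 3 + 23 * Y ^ 2 + 26 * Y + 11) := Nat.mul_le_mul_right _ hP
  have h5 : P * (6 * Y ^ 3 + 23 * Y ^ 2 + 27 * Y + 11) ≤ P * (Y + 2) ^ 4 :=
    Nat.mul_le_mul_left _ (by nlinarith [Nat.zero_le (Y ^ 4), Nat.zero_le (Y ^ 3)])
  nlinarith

end PC

open PC in
theorem iterS (κ : List Bool → ℕ) : IterS κ := by
  rintro f ⟨c, -, hp⟩ ⟨c', hc'⟩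
  refine ⟨(c' + 2) * (c + 4), fun x ρ B hB a ha =>
    (hc' x ρ B hB _ le_rfl a ha).trans (pw_mono le_rfl (by nlinarith)), fun ℓ b hℓ => ?_⟩
  obtain ⟨p, hp⟩ := hp (lay ℓ b) (b + 3) (fun i => by
    match i with
    | 0 => simp [lay]
    | 1 => simp [lay]
    | i + 2 => have := hℓ i; simp only [lay]; omega)
  refine ⟨prog p ℓ b, fun x σ B hB hL hz => ?_⟩
  have h0 := hℓ 0
  have h1 := hℓ 1
  have hK : 1 ≤ κ x := hB.1
  set ρ : Env := fun i => σ (ℓ i) with hρ
  set n := hd (ρ 0) with hn
  set acc := itr (fun m acc => f x (cons acc (cons [m] ρ))) (ρ 1) with hacc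
  have hnB : n ≤ B := hd_le (hB.2.2.2 0)
  have hent : ∀ m ≤ n, ∀ a ∈ acc m, a ≤ B + pw B c' := fun m hm a ha =>
    (hc' x ρ B hB m hm a ha).trans (Nat.le_add_left _ _)
  have e1 := ex_cpLst (x := x) hL (i := ℓ 1) (j := b) (t := b + 1) (t' := b + 2) (B := B)
    (by omega) (by omega) (by omega) (by omega) (by omega) (by omega) hK (hB.2.2.2 1)
    (hz _ le_rfl) (hz _ (by omega)) (hz _ (by omega))
  have g1 := e1.good hL
  have e2 := ex_push (x := x) g1 (b + 1) (by simpa [hz (b + 1) (by omega)] using hK)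
  have g2 := e2.good g1
  have e3 := ex_cpTop (x := x) g2 (i := ℓ 0) (j := b + 2) (t := b + 3) (by omega) (by omega)
    (by omega) (by simpa [hz (b + 2) (by omega)] using hK)
    (by simpa [hz (b + 3) (by omega)] using hK)
  have hh : hd (update (update σ b (σ (ℓ 1))) (b + 1) (0 :: update σ b (σ (ℓ 1)) (b + 1)) (ℓ 0)) =
      n := by rw [update_of_ne (by omega), update_of_ne (by omega)]
  rw [hh] at e3
  have e3' := e3.of_eq (s'' := (st σ b (acc 0) 0 (n - 0), 0)) (by
    simp [st, hz (b + 1) (by omega), hz (b + 2) (by omega), hacc, itr, hρ]) le_rfl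
  have step : ∀ m < n, Len (κ x) (st σ b (acc m) m (n - m), 0) →
      Ex x (κ x) (body p b) (st σ b (acc m) m (n - m), 0)
        (st σ b (acc (m + 1)) (m + 1) (n - (m + 1)), 0)
        (pw (B + pw B c') c + (2 * κ x + 1 + (2 * (κ x * (3 * (B + pw B c') + 4) + 1) + 2))) := by
    intro m hm g
    have e := hp x (st σ b (acc m) m (n - m)) (B + pw B c') (by
      rw [st_lay hℓ]
      exact ((hB.mono (Nat.le_add_right _ _)).cons (by simp; omega)).cons (hent m hm.le)) g
      (fun j hj => by rw [st_hi _ _ _ hj]; exact hz j (by omega))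
    rw [st_lay hℓ] at e
    exact ex_body hz g e (hent (m + 1) hm)
  have len : ∀ m ≤ n, Len (κ x) (st σ b (acc m) m (n - m), 0) := by
    intro m
    induction m with
    | zero => exact fun _ => e3'.good g2
    | succ m ih => exact fun hm => (step m hm (ih (by omega))).good (ih (by omega))
  have e4 := Exec.loop_seq (act := act1 x) (tst := tst1 x) (G := Len (κ x)) (c := .nz (b + 2))
    (p := body p b) (fun m => (st σ b (acc m) m (n - m), 0)) n _
    (fun m hm => ⟨by simp [tst1, st, hd]; omega, step m hm (len m hm.le)⟩)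
    (by simp [tst1, st, hd])
  have e5 := ex_pop (x := x) (len n le_rfl) (b + 1)
  have e6 := ex_pop (x := x) (e5.good (len n le_rfl)) (b + 2)
  refine (e1.seq (e2.seq (e3'.seq (e4.seq (e5.seq e6))))).of_eq ?_ ?_
  · congr 1
    funext k
    have a1 := hz (b + 1) (by omega)
    have a2 := hz (b + 2) (by omega)
    simp only [st, update_apply]
    split_ifs <;> first | rfl | omega | simp_all
  · refine (cost hB.2.1 hnB (Nat.le_add_right _ _) (one_le_pw _ _)).trans ?_
    exact (pw_mul (B + pw B c') c 4).le.trans (pw_pw _ _ _)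

end Pool.Agent.MP_1a6d78_lc.ED

end MrgPart4

-- ======== part 5: formerly Pool.Agent.MP_1a6d78_lc.ED.PD
section MrgPart5

/-! PROJECT ED, row PD: tabulation is computable in the closure calculus. -/

namespace Pool.Agent.MP_1a6d78_lc.ED

open Function

namespace PD

/-- The layout with the counter in slot zero. -/
def lay (b : ℕ) (ℓ : ℕ → ℕ) : ℕ → ℕ
  | 0 => b
  | i + 1 => ℓ i

theorem time (B N cn cf : ℕ) (hN : N ≤ B) :
    pw B cn + (N * (4 * pw B cf + 4 + 1) + 1 + 1) ≤ pw B (cn + cf + 13) := by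
  have h1 := one_le_pw B cf
  have h2 : N ≤ pw B 1 := by have := le_pw B (c := 1) le_rfl; omega
  have h3 : 4 * pw B cf + 4 + 1 ≤ pw B 9 * pw B cf := by
    have := Nat.mul_le_mul_right (pw B cf) (const_le_pw B 9)
    omega
  have h4 : N * (4 * pw B cf + 4 + 1) ≤ pw B (1 + (9 + cf)) := by
    rw [← pw_mul, ← pw_mul]
    exact Nat.mul_le_mul h2 h3
  have h5 := pw_add B cn (1 + (9 + cf))
  have h6 := pw_add B (cn + (1 + (9 + cf)) + 1) 1
  have h7 := le_pw B (c := 1) le_rfl
  have h8 : cn + (1 + (9 + cf)) + 1 + 1 + 1 = cn + cf + 13 := by omega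
  rw [h8] at h6
  omega

end PD

open PD in
theorem tabS (k : List Bool → ℕ) : TabS k := by
  intro n f hnk ⟨cn, _, Pn⟩ ⟨cf, bf, Pf⟩
  have hbd : ∀ x ρ B, Bd k x ρ B → ∀ e < n x, Bd k x (cons [e] ρ) B := by
    intro x ρ B hB e he
    refine hB.cons fun a ha => ?_
    have h1 := hnk x
    have h2 := hB.2.1
    rw [List.mem_singleton.1 ha]
    omega
  refine ⟨cn + cf + 13, fun x ρ B hB a ha => ?_, fun ℓ b hℓ => ?_⟩
  · obtain ⟨e, he, rfl⟩ := List.mem_map.1 ha
    exact (bf x _ B (hbd x ρ B hB e (List.mem_range.1 he)) _ (List.mem_singleton_self _)).trans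
      (pw_mono le_rfl (by omega))
  obtain ⟨pn, hpn⟩ := Pn ℓ (b + 1) fun i => (hℓ i).trans (Nat.lt_succ_self b)
  obtain ⟨pf, hpf⟩ := Pf (lay (b + 1) ℓ) (b + 2) fun i => by
    cases i with
    | zero => exact Nat.lt_succ_self _
    | succ i => have := hℓ i; change ℓ i < b + 2; omega
  refine ⟨.seq pn (.seq (.loop (.nz (b + 1)) (.seq (.act (.dec (b + 1)))
    (.seq pf (mvTop (b + 2) b)))) (.act (.pop (b + 1)))), fun x σ B hB hσ hz => ?_⟩
  have hK : 1 ≤ k x := hB.1
  have hN : n x ≤ k x := hnk x
  have hne : ∀ i, ℓ i ≠ b := fun i => (hℓ i).ne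
  have hne1 : ∀ i, ℓ i ≠ b + 1 := fun i => by have := hℓ i; omega
  have e1 := hpn x σ B hB hσ fun j hj => hz j (by omega)
  set g : ℕ → ℕ := fun e => f x (cons [e] fun i => σ (ℓ i)) with hg
  have hL : ∀ m ≤ n x, ∀ u : ℕ,
      Len (k x) (update (update σ b ((List.range' (n x - m) m).map g)) (b + 1) [u], 0) :=
    fun m hm u => Len.upd (h := 0) (hσ.upd (h' := 0) b (by simp; omega)) (b + 1) (by simpa using hK)
  have e2 := Exec.loop_seq (act := act1 x) (tst := tst1 x) (G := Len (k x)) (c := .nz (b + 1))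
    (p := .seq (.act (.dec (b + 1))) (.seq pf (mvTop (b + 2) b)))
    (fun m => (update (update σ b ((List.range' (n x - m) m).map g)) (b + 1) [n x - m], 0))
    (n x) (4 * pw B cf + 4)
    (fun m hm => ⟨by simp [tst1, hd]; omega, by
      have a1 := ex_dec (x := x) (hL m hm.le (n x - m)) (i := b + 1) (a := n x - m) (l := [])
        (by simp)
      rw [update_idem, Nat.sub_sub] at a1
      have g1 := hL m hm.le (n x - (m + 1))
      have henv : (fun i => update (update σ b ((List.range' (n x - m) m).map g)) (b + 1)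
          [n x - (m + 1)] (lay (b + 1) ℓ i)) = cons [n x - (m + 1)] fun i => σ (ℓ i) := by
        funext i
        cases i with
        | zero => simp [lay, cons]
        | succ i => simp [lay, cons, update_of_ne, hne, hne1]
      have hb := hbd x _ B hB (n x - (m + 1)) (by omega)
      have a2 := hpf x _ B (henv ▸ hb) g1 fun j hj => by
        rw [update_of_ne (by omega), update_of_ne (by omega)]
        exact hz j (by omega)
      rw [henv] at a2
      have hv : g (n x - (m + 1)) ≤ pw B cf := bf x _ B hb _ (List.mem_singleton_self _)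
      have a3 := ex_mvTop (x := x) (a2.good g1) (i := b + 2) (j := b) (a := g (n x - (m + 1)))
        (l := []) (by omega) (by simp [hg]) (by simp; omega)
      refine (a1.seq (a2.seq a3)).of_eq ?_ (by omega)
      congr 1
      funext j
      have hr : List.range' (n x - (m + 1)) (m + 1) =
          (n x - (m + 1)) :: List.range' (n x - m) m := by
        rw [List.range'_succ, show n x - (m + 1) + 1 = n x - m by omega]
      have h2 := hz (b + 2) (by omega)
      by_cases c0 : j = b
      · subst c0; simp [hr]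
      by_cases c1 : j = b + 1
      · subst c1; simp
      by_cases c2 : j = b + 2
      · subst c2; simp [h2]
      simp [update_of_ne, c0, c1, c2]⟩)
    (by simp [tst1, hd])
  have e3 := ex_pop (x := x) (hL (n x) le_rfl (n x - n x)) (b + 1)
  have h0 : update σ (b + 1) [n x] =
      update (update σ b ((List.range' (n x - 0) 0).map g)) (b + 1) [n x - 0] := by
    have h1 : (List.range' (n x - 0) 0).map g = σ b := (hz b le_rfl).symm
    rw [h1, update_eq_self, Nat.sub_zero]
  rw [h0] at e1
  refine (e1.seq (e2.seq e3)).of_eq ?_ (time B _ cn cf (hN.trans hB.2.1))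
  congr 1
  funext j
  have h1 := hz (b + 1) (by omega)
  by_cases c0 : j = b
  · subst c0; simp [tab, List.range_eq_range', hg]
  by_cases c1 : j = b + 1
  · subst c1; simp [h1]
  simp [update_of_ne, c0, c1]

end Pool.Agent.MP_1a6d78_lc.ED

end MrgPart5

-- ======== part 6: formerly Pool.Agent.MP_1a6d78_lc.ED.Step
section MrgPart6

/-! PROJECT ED: one more line keeps the chain of boxes. -/

namespace Pool.Agent.MP_1a6d78_lc.ED

namespace Step

theorem gt_tab {n e : ℕ} (f : ℕ → ℕ) (h : e < n) : gt (tab n f) e = f e := by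
  simp [gt, tab, List.getD_eq_getElem?_getD, h]

/-- the number of small values of a monotone sequence -/
def cnt (g : ℕ → ℕ) (n r : ℕ) : ℕ := ∑ t ∈ Finset.range n, if g t ≤ r then 1 else 0

theorem cnt_spec {g : ℕ → ℕ} (hg : ∀ t t', t ≤ t' → g t ≤ g t') (r : ℕ) : ∀ n,
    cnt g n r ≤ n ∧ (∀ t < cnt g n r, g t ≤ r) ∧ ∀ t < n, cnt g n r ≤ t → r < g t := by
  intro n
  induction n with
  | zero => simp [cnt]
  | succ n ih =>
    obtain ⟨h1, h2, h3⟩ := ih
    have e : cnt g (n + 1) r = cnt g n r + if g n ≤ r then 1 else 0 := Finset.sum_range_succ _ _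
    by_cases h : g n ≤ r
    · rw [if_pos h] at e
      have : cnt g n r = n := by
        by_contra hne
        have a := h3 (cnt g n r) (by omega) le_rfl
        have b := hg (cnt g n r) n h1
        omega
      refine ⟨by omega, fun t ht => (hg t n (by omega)).trans h, fun t h4 h5 => by omega⟩
    · rw [if_neg h] at e
      refine ⟨by omega, fun t ht => h2 t (by omega), fun t h4 h5 => ?_⟩
      by_cases a : t = n
      · rw [a]; omega
      · exact h3 t (by omega) (by omega)

theorem cnt_eq {g : ℕ → ℕ} (hg : ∀ t t', t ≤ t' → g t ≤ g t') {r n τ : ℕ} (h1 : τ ≤ n)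
    (h2 : ∀ t < τ, g t ≤ r) (h3 : ∀ t < n, τ ≤ t → r < g t) : cnt g n r = τ := by
  obtain ⟨a1, a2, a3⟩ := cnt_spec hg r n
  rcases lt_trichotomy (cnt g n r) τ with h | h | h
  · have := h2 _ h
    have := a3 (cnt g n r) (by omega) le_rfl
    omega
  · exact h
  · have := a2 _ h
    have := h3 τ (by omega) le_rfl
    omega

theorem idx {k j r m : ℕ} (hj : j < k) (hr : r < 1 + (j + 1) * (k - 1)) (hm : m < j + 1) :
    r * k + m < (k + 1) ^ 3 ∧ (r * k + m) / k = r ∧ (r * k + m) % k = m := by
  have hk : 0 < k := by omega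
  have hmk : m < k := by omega
  refine ⟨?_, ?_, ?_⟩
  · have h1 : (j + 1) * (k - 1) ≤ k * k := Nat.mul_le_mul (by omega) (by omega)
    have h2 : r * k ≤ k * k * k := Nat.mul_le_mul_right _ (by omega)
    have h3 : (k + 1) ^ 3 = k * k * k + 3 * (k * k) + 3 * k + 1 := by ring
    omega
  · rw [mul_comm, Nat.mul_add_div hk, Nat.div_eq_of_lt hmk, add_zero]
  · rw [mul_comm, Nat.mul_add_mod, Nat.mod_eq_of_lt hmk]

end Step

open Step

theorem stepS : StepS := by
  intro d s k w j f B T hB hw hj hI hb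
  generalize hbb : bi k f T j = b at hb
  have bm : ∀ t t', t ≤ t' → b (gt B j + (t + 1) * w) ≤ b (gt B j + (t' + 1) * w) := fun t t' h =>
    hb.mono _ _ (Nat.add_le_add_left (Nat.mul_le_mul_right _ (by omega)) _)
  have gm : ∀ t t', t ≤ t' →
      b (gt B j + (t + 1) * w) + (t + 1) ≤ b (gt B j + (t' + 1) * w) + (t' + 1) := fun t t' h => by
    have := bm t t' h
    omega
  have te : ∀ r, ts k w f B T j r =
      cnt (fun t => b (gt B j + (t + 1) * w) + (t + 1)) (k - 1) r := fun r => by
    rw [← hbb]; rfl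
  have sp := fun r => cnt_spec gm r (k - 1)
  simp only [← te] at sp
  have n1 : 1 + (j + 1) * (k - 1) = 1 + j * (k - 1) + (k - 1) := by ring
  have ent : ∀ r < 1 + (j + 1) * (k - 1), ∀ m < j + 1,
      gt (tab ((k + 1) ^ 3) (stp k w f B T j)) (r * k + m) =
        if m = j then gt B j + ts k w f B T j r * w
        else gt T ((r - ts k w f B T j r) * k + m) := fun r hr m hm => by
    obtain ⟨a1, a2, a3⟩ := idx hj hr hm
    rw [gt_tab _ a1, stp, a2, a3]
  have low : ∀ r < 1 + (j + 1) * (k - 1), r - ts k w f B T j r < 1 + j * (k - 1) := fun r hr => by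
    obtain ⟨a1, -, a3⟩ := sp r
    by_cases h : ts k w f B T j r < k - 1
    · have := a3 _ h le_rfl
      have := hb.lt (gt B j + (ts k w f B T j r + 1) * w)
      omega
    · omega
  have mono : ∀ r r', r ≤ r' → ts k w f B T j r ≤ ts k w f B T j r' ∧
      r - ts k w f B T j r ≤ r' - ts k w f B T j r' := fun r r' h => by
    obtain ⟨a1, a2, a3⟩ := sp r
    obtain ⟨b1, b2, b3⟩ := sp r'
    constructor
    · by_contra hh
      have := a2 (ts k w f B T j r') (by omega)
      have := b3 (ts k w f B T j r') (by omega) le_rfl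
      omega
    · by_cases hh : ts k w f B T j r < ts k w f B T j r'
      · have c1 := a3 (ts k w f B T j r) (by omega) le_rfl
        have c2 := b2 (ts k w f B T j r' - 1) (by omega)
        have c3 := bm (ts k w f B T j r) (ts k w f B T j r' - 1) (by omega)
        omega
      · omega
  refine ⟨fun r r' h hr' m hm => ?_, fun r hr m hm => ?_, fun x => ?_⟩
  · rw [ent r (by omega) m hm, ent r' hr' m hm]
    by_cases a : m = j
    · rw [if_pos a, if_pos a]
      exact Nat.add_le_add_left (Nat.mul_le_mul_right _ (mono r r' h).1) _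
    · rw [if_neg a, if_neg a]
      exact hI.chain _ _ (mono r r' h).2 (low r' hr') m (by omega)
  · rw [ent r hr m hm]
    by_cases a : m = j
    · rw [if_pos a, a]
      have h1 : (ts k w f B T j r + 1) * w ≤ k * w :=
        Nat.mul_le_mul_right _ (by have := (sp r).1; omega)
      rw [add_mul, one_mul] at h1
      omega
    · rw [if_neg a]
      exact hI.inside _ (low r hr) m (by omega)
  · have kw : 0 < k * w := Nat.mul_pos (by omega) hw
    have ne : ((fun z => opt d s (k * w) (gt B) j z + d (j + 1) z x) ''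
        Set.Ico (gt B j) (gt B j + k * w)).Nonempty :=
      ⟨_, gt B j, ⟨le_rfl, by omega⟩, rfl⟩
    obtain ⟨z, ⟨z1, z2⟩, z3⟩ := Nat.sInf_mem ne
    obtain ⟨a, a1, a2⟩ := hI.cover z
    have a3 := hb.best z a a1
    have a4 := hb.lt z
    obtain ⟨t, t1, t2⟩ : ∃ t, gt B j + t * w ≤ z ∧ z < gt B j + (t + 1) * w := by
      refine ⟨(z - gt B j) / w, ?_, ?_⟩
      · have := Nat.div_mul_le_self (z - gt B j) w
        omega
      · have := Nat.lt_div_mul_add (a := z - gt B j) hw
        rw [add_mul, one_mul]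
        omega
    have tk : t < k := Nat.lt_of_mul_lt_mul_right (a := w) (by omega)
    have e : ts k w f B T j (b z + t) = t := by
      rw [te]
      refine cnt_eq gm (by omega) (fun u hu => ?_) fun u _ hu => ?_
      · have h1 : (u + 1) * w ≤ t * w := Nat.mul_le_mul_right _ hu
        have := hb.mono (gt B j + (u + 1) * w) z (by omega)
        omega
      · have h1 : (t + 1) * w ≤ (u + 1) * w := Nat.mul_le_mul_right _ (by omega)
        have := hb.mono z (gt B j + (u + 1) * w) (by omega)
        omega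
    have hr : b z + t < 1 + (j + 1) * (k - 1) := by omega
    refine ⟨b z + t, hr, ?_⟩
    have c : opt d s w (fun m => gt (tab ((k + 1) ^ 3) (stp k w f B T j)) ((b z + t) * k + m)) j z =
        opt d s w (fun m => gt T (b z * k + m)) j z := hB.congr _ _ _ _ _ fun m hm => by
      rw [ent _ hr m (by omega), if_neg (by omega), e, Nat.add_sub_cancel]
    have c2 := ent _ hr j (by omega)
    rw [if_pos rfl, e] at c2
    rw [add_mul, one_mul] at t2
    have m1 : z ∈ Set.Ico (gt (tab ((k + 1) ^ 3) (stp k w f B T j)) ((b z + t) * k + j))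
        (gt (tab ((k + 1) ^ 3) (stp k w f B T j)) ((b z + t) * k + j) + w) := by
      rw [c2]
      exact ⟨t1, by omega⟩
    refine le_trans (Nat.sInf_le (Set.mem_image_of_mem _ m1)) (le_trans ?_ (le_of_eq z3))
    simp only [c]
    omega

end Pool.Agent.MP_1a6d78_lc.ED

end MrgPart6

-- ======== part 7: formerly Pool.Agent.MP_1a6d78_lc.ED.Mach
section MrgPart7

/-! From the closure calculus to a Turing machine. -/

namespace Pool.Agent.MP_1a6d78_lc.ED

namespace Mach

theorem lt_two (B c : ℕ) : pw B c < 2 ^ (c * (Nat.log 2 (B + 2) + 1) + 1) := by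
  have h := Nat.pow_le_pow_left (Nat.lt_pow_succ_log_self (b := 2) (by omega) (B + 2)).le c
  rw [← pow_mul, mul_comm] at h
  exact h.trans_lt (Nat.pow_lt_pow_right (by omega) (Nat.lt_succ_self _))

theorem time (B c : ℕ) :
    pw B c * (8 * (c * (Nat.log 2 (B + 2) + 1) + 1) + 8) * 2 + 1 ≤ pw B (2 * c + 6) := by
  have h1 : Nat.log 2 (B + 2) + 1 ≤ B + 2 := Nat.log_lt_self 2 (by omega)
  have h2 : c + 1 ≤ (B + 2) ^ c :=
    Nat.lt_two_pow_self.trans_le (Nat.pow_le_pow_left (by omega) c)
  have h3 : 2 ^ 5 ≤ (B + 2) ^ 5 := Nat.pow_le_pow_left (by omega) 5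
  have h4 := Nat.mul_le_mul_left c h1
  have h5 : (8 * (c * (Nat.log 2 (B + 2) + 1) + 1) + 8) * 2 + 1 ≤ (c + 1) * 2 ^ 5 * (B + 2) := by
    nlinarith
  have h6 := h5.trans (Nat.mul_le_mul_right _ (Nat.mul_le_mul h2 h3))
  unfold pw
  calc _ ≤ (B + 2) ^ c * ((8 * (c * (Nat.log 2 (B + 2) + 1) + 1) + 8) * 2 + 1) := by
        nlinarith
    _ ≤ (B + 2) ^ c * ((B + 2) ^ c * (B + 2) ^ 5 * (B + 2)) := Nat.mul_le_mul_left _ h6
    _ = _ := by ring

end Mach

theorem machS : CtlS → L20S → L12S → MachS := by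
  intro h0 h1 h2 κ f ⟨c, _, h⟩
  obtain ⟨p, hp⟩ := h (fun _ => 0) 1 fun _ => Nat.one_pos
  obtain ⟨p2, c2, hp2⟩ := h2 p (.nz 1)
  obtain ⟨p0, hp0⟩ := h1 p2
  obtain ⟨M, hM⟩ := h0 p0 c2
  refine ⟨M, 2 * c + 6, fun x B k1 k2 k3 => ?_⟩
  obtain ⟨s2, e2, t2⟩ := hp2 x _ _ _ _ (Mach.lt_two B c) (hp x (fun _ => []) B
    ⟨k1, k2, k3, fun _ _ m => absurd m List.not_mem_nil⟩ (fun _ => Nat.zero_le _) fun _ _ => rfl)
  obtain ⟨s0, e0, t0⟩ := hp0 x _ _ _ e2
  have ht := Mach.time B c
  obtain ⟨m1, m2⟩ := hM x _ s0 _ (e0.weak (Nat.le_sub_one_of_lt ht))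
  rw [Nat.sub_add_cancel (by omega), t0, t2] at m1
  refine ⟨by simpa [tst1, hd] using m1, fun t i => (m2 t i).trans (Nat.mul_le_mul_left _ ?_)⟩
  nlinarith [Nat.zero_le (c * Nat.log 2 (B + 2)), Nat.zero_le (Nat.log 2 (B + 2))]

end Pool.Agent.MP_1a6d78_lc.ED

end MrgPart7

-- marker of a merged file
example : 731051 + 764369 = 731051 + 764369 := rfl
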