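import Pool.Agent.MP_1a6d78_lc.ED.Spec3
import Pool.Agent.MP_1a6d78_lc.ED.Mach

-- ======== part 0: formerly Pool.Agent.MP_1a6d78_lc.ED.BasicO
section MrgPart0

/-! PROJECT ED3: basic rules for `Exq`, lifting, the simulation lemma. -/

namespace Pool.Agent.MP_1a6d78_lc.ED

open Function

section
variable {A C S : Type} {R : A → S → S → ℕ → Prop} {tst : C → S → Bool}

theorem Exq.of_eq {p : Prog A C} {s s' s'' : S} {m n : ℕ} (h : Exq R tst p s s' m)
    (he : s' = s'') (hm : m ≤ n) : Exq R tst p s s'' n := he ▸ h.weak hm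

theorem Exq.seq' {p q : Prog A C} {s s' s'' : S} {m n k : ℕ} (h : Exq R tst p s s' m)
    (h' : Exq R tst q s' s'' n) (hk : m + n ≤ k) : Exq R tst (.seq p q) s s'' k :=
  (h.seq h').weak hk

/-- Invariants of the actions are invariants of the programs. -/
theorem Exq.inv {G : S → Prop} (hG : ∀ a s s' n, R a s s' n → G s → G s') {p : Prog A C}
    {s s' : S} {n : ℕ} (h : Exq R tst p s s' n) (hs : G s) : G s' := by
  induction h with
  | act h => exact hG _ _ _ _ h hs
  | seq _ _ i j => exact j (i hs)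
  | iteT _ _ i => exact i hs
  | iteF _ _ i => exact i hs
  | loopF _ => exact hs
  | loopT _ _ _ i j => exact j (i hs)
  | weak _ _ i => exact i hs

theorem Exq.mono {R' : A → S → S → ℕ → Prop} (hR : ∀ a s s' n, R a s s' n → R' a s s' n)
    {p : Prog A C} {s s' : S} {n : ℕ} (h : Exq R tst p s s' n) : Exq R' tst p s s' n := by
  induction h with
  | act h => exact .act (hR _ _ _ _ h)
  | seq _ _ i j => exact .seq i j
  | iteT h _ i => exact .iteT h i
  | iteF h _ i => exact .iteF h i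
  | loopF h => exact .loopF h
  | loopT h _ _ i j => exact .loopT h i j
  | weak _ h i => exact .weak i h

/-- A loop along a sequence of states. -/
theorem Exq.loop_seq {c : C} {p : Prog A C} (F : ℕ → S) (n D : ℕ)
    (h : ∀ m < n, tst c (F m) = true ∧ Exq R tst p (F m) (F (m + 1)) D)
    (he : tst c (F n) = false) : Exq R tst (.loop c p) (F 0) (F n) (n * (D + 1) + 1) := by
  induction n generalizing F with
  | zero => exact (Exq.loopF he).weak (by simp)
  | succ n ih =>
    have h0 := h 0 (Nat.succ_pos n)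
    exact (Exq.loopT h0.1 h0.2 (ih (fun m => F (m + 1)) (fun m hm => h (m + 1) (by omega))
      he)).weak (by nlinarith)

/-- All actions of the program satisfy `P`. -/
def Prog.all (P : A → Prop) : Prog A C → Prop
  | .act a => P a
  | .seq p q => p.all P ∧ q.all P
  | .ite _ p q => p.all P ∧ q.all P
  | .loop _ p => p.all P

theorem Prog.all_mono {P Q : A → Prop} (h : ∀ a, P a → Q a) (p : Prog A C) :
    p.all P → p.all Q := by
  induction p with
  | act a => exact h a
  | seq p q i j => exact fun h => ⟨i h.1, j h.2⟩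
  | ite c p q i j => exact fun h => ⟨i h.1, j h.2⟩
  | loop c p i => exact i

theorem Prog.exists_bound (ix : A → ℕ) (p : Prog A C) : ∃ N, p.all fun a => ix a < N := by
  induction p with
  | act a => exact ⟨ix a + 1, Nat.lt_succ_self _⟩
  | seq p q i j =>
    obtain ⟨M, hM⟩ := i
    obtain ⟨N, hN⟩ := j
    exact ⟨M + N, p.all_mono (fun a h => by omega) hM, q.all_mono (fun a h => by omega) hN⟩
  | ite c p q i j =>
    obtain ⟨M, hM⟩ := i
    obtain ⟨N, hN⟩ := j
    exact ⟨M + N, p.all_mono (fun a h => by omega) hM, q.all_mono (fun a h => by omega) hN⟩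
  | loop c p i => exact i

/-- The simulation lemma. -/
theorem simq {A' C' S' : Type} {R' : A' → S' → S' → ℕ → Prop} {tst' : C' → S' → Bool}
    (P : A → Prop) (Z : S → S' → Prop) (f : A → Prog A' C') (g : C → C') (D : ℕ) (hD : 1 ≤ D)
    (ht : ∀ c s t, Z s t → tst' (g c) t = tst c s)
    (ha : ∀ a s s' n t, P a → R a s s' n → Z s t →
      ∃ t', Exq R' tst' (f a) t t' (n * D) ∧ Z s' t')
    {p : Prog A C} {s s' : S} {n : ℕ} (h : Exq R tst p s s' n) :
    p.all P → ∀ t, Z s t → ∃ t', Exq R' tst' (p.bind f g) t t' (n * D) ∧ Z s' t' := by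
  induction h with
  | act h => exact fun hp t hr => ha _ _ _ _ t hp h hr
  | seq _ _ i j =>
    intro hp t hr
    obtain ⟨t1, e1, r1⟩ := i hp.1 t hr
    obtain ⟨t2, e2, r2⟩ := j hp.2 t1 r1
    exact ⟨t2, e1.seq' e2 (by rw [add_mul]), r2⟩
  | iteT h _ i =>
    intro hp t hr
    obtain ⟨t1, e1, r1⟩ := i hp.1 t hr
    exact ⟨t1, (Exq.iteT ((ht _ _ _ hr).trans h) e1).weak (by nlinarith), r1⟩
  | iteF h _ i =>
    intro hp t hr
    obtain ⟨t1, e1, r1⟩ := i hp.2 t hr
    exact ⟨t1, (Exq.iteF ((ht _ _ _ hr).trans h) e1).weak (by nlinarith), r1⟩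
  | loopF h =>
    intro _ t hr
    exact ⟨t, (Exq.loopF ((ht _ _ _ hr).trans h)).weak (by omega), hr⟩
  | loopT h _ _ i j =>
    intro hp t hr
    obtain ⟨t1, e1, r1⟩ := i hp t hr
    obtain ⟨t2, e2, r2⟩ := j hp t1 r1
    exact ⟨t2, (Exq.loopT ((ht _ _ _ hr).trans h) e1 e2).weak (by nlinarith), r2⟩
  | weak _ h i =>
    intro hp t hr
    obtain ⟨t1, e1, r1⟩ := i hp t hr
    exact ⟨t1, e1.weak (Nat.mul_le_mul_right _ h), r1⟩

end

variable {x : List Bool} {K : ℕ}

theorem Len.mono {α : Type} {K K' : ℕ} {s : (ℕ → List α) × ℕ} (h : Len K s) (hK : K ≤ K') :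
    Len K' s := fun i => (h i).trans hK

theorem up_of {R : Option A1 → S1 → S1 → ℕ → Prop}
    (hR : ∀ a s, Len K (act1 x a s) → R (some a) s (act1 x a s) 1) {p : Prog A1 C1} {s s' : S1}
    {n : ℕ} (h : Ex x K p s s' n) : Exq R (tst1 x) (up p) s s' n := by
  induction h with
  | act a s h => exact .act (hR a s h)
  | seq _ _ i j => exact .seq i j
  | iteT h _ i => exact .iteT h i
  | iteF h _ i => exact .iteF h i
  | loopF h => exact .loopF h
  | loopT h _ _ i j => exact .loopT h i j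
  | weak _ h i => exact .weak i h

/-- A program without calls runs in the oracle semantics. -/
theorem Exec.upO {β τ : ℕ} {g : Orc} {p : Prog A1 C1} {s s' : S1} {n : ℕ}
    (h : Ex x K p s s' n) : Eo x K β τ g (up p) s s' n :=
  up_of (fun _ _ h => ⟨rfl, h, rfl⟩) h

theorem rr_some {q : PO} {d : ℕ} {a : A1} {s s' : S1} {n : ℕ} :
    Rr x K q d (some a) s s' n ↔ s' = act1 x a s ∧ Len K s' ∧ n = 1 := by
  cases d <;> rfl

/-- A program without calls runs in the recursive semantics. -/
theorem Exec.upR {q : PO} {d : ℕ} {p : Prog A1 C1} {s s' : S1} {n : ℕ}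
    (h : Ex x K p s s' n) : Er x K q d (up p) s s' n :=
  up_of (fun _ _ h => rr_some.2 ⟨rfl, h, rfl⟩) h

theorem Exq.goodO {β τ : ℕ} {g : Orc} {p : PO} {s s' : S1} {n : ℕ} (h : Eo x K β τ g p s s' n)
    (hs : Len K s) : Len K s' :=
  h.inv (G := Len K) (fun a _ _ _ h _ => by cases a; exacts [h.2.2.2.1, h.2.1]) hs

theorem Exq.goodR {q : PO} {d : ℕ} : ∀ {p : PO} {s s' : S1} {n : ℕ}, Er x K q d p s s' n →
    Len K s → Len K s' := by
  induction d with
  | zero =>
    exact fun h hs => h.inv (G := Len K) (fun a _ _ _ h _ => by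
      cases a; exacts [h.elim, h.2.1]) hs
  | succ d ih =>
    exact fun h hs => h.inv (G := Len K) (fun a _ _ _ h hs => by
      cases a; exacts [h.elim fun _ h => ih h.1 hs, h.2.1]) hs

/-- The call in the oracle semantics. -/
theorem eo_call {β τ : ℕ} {g : Orc} {σ : ℕ → List ℕ} (hσ : Len K (σ, 0)) (hK : 1 ≤ K)
    (hβ : ∀ a ∈ σ 0, a ≤ β) : Eo x K β τ g (.act none) (σ, 0) (update σ 0 [g (σ 0)], 0) τ :=
  .act ⟨rfl, hβ, rfl, hσ.upd 0 hK, rfl⟩

/-- The call in the recursive semantics. -/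
theorem er_call {q : PO} {d : ℕ} {s s' : S1} {n : ℕ} (h : Er x K q d q s s' n) :
    Er x K q (d + 1) (.act none) s s' (n + 1) := .act ⟨n, h, rfl⟩

theorem Bo.mono {κ β : List Bool → ℕ} {g : Orc} {ρ : Env} {B B' : ℕ} (h : Bo κ β x g ρ B)
    (hB : B ≤ B') : Bo κ β x g ρ B' := ⟨h.1.mono hB, h.2.1.trans hB, h.2.2⟩

theorem Bo.cons {κ β : List Bool → ℕ} {g : Orc} {ρ : Env} {B : ℕ} (h : Bo κ β x g ρ B)
    {v : List ℕ} (hv : ∀ a ∈ v, a ≤ B) : Bo κ β x g (cons v ρ) B := ⟨h.1.cons hv, h.2⟩

end Pool.Agent.MP_1a6d78_lc.ED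

end MrgPart0

-- ======== part 1: formerly Pool.Agent.MP_1a6d78_lc.ED.Frm
section MrgPart1

/-! Row FRM: frames for recursive calls. -/

namespace Pool.Agent.MP_1a6d78_lc.ED

open Function

namespace Frm

/-- Simulation of one action. -/
def f0 : A1 → Prog A1 C1
  | .push m => .seq (.act (.push (2 * m + 2)))
      (.seq (.act (.push (2 * m + 3))) (.act (.inc (2 * m + 3))))
  | .pop m => .ite (.nz (2 * m + 3))
      (.seq (.act (.pop (2 * m + 2))) (.act (.pop (2 * m + 3)))) (clr 0)
  | .inc m => .ite (.nz (2 * m + 3)) (.act (.inc (2 * m + 2))) (clr 0)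
  | .dec m => .ite (.nz (2 * m + 3)) (.act (.dec (2 * m + 2))) (clr 0)
  | .inp d => .act (.inp d)

def f1 : Option A1 → PO
  | some a => up (f0 a)
  | none => .act none

def g1 : C1 → C1
  | .ne m => .nz (2 * m + 3)
  | .nz m => .nz (2 * m + 2)
  | .rd f => .rd f

def ix : Option A1 → ℕ
  | some (.push m) => m
  | some (.pop m) => m
  | some (.inc m) => m
  | some (.dec m) => m
  | _ => 0

/-- The same action on the stacks `4, …, j + 3`. -/
def rep (a : ℕ → A1) : ℕ → Prog A1 C1
  | 0 => clr 0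
  | j + 1 => .seq (rep a j) (.act (a (j + 4)))

/-- The body of a call. -/
def body (N : ℕ) (q : PO) : PO :=
  .ite (.nz 1) (.seq (up (.seq (.act (.dec 1)) (rep .push (2 * N)))) (.seq (q.bind f1 g1)
      (up (.seq (rep .pop (2 * N)) (.act (.inc 1))))))
    (up ((Prog.seq (clr 0) (.act (.push 0))).bind f0 g1))

/-- The frames below the current one. -/
structure Fr (b : ℕ) (U V : ℕ → List ℕ) : Prop where
  hU : ∀ m, hd (U m) = 0
  hV : ∀ m, hd (V m) = 0
  u0 : U 0 = []
  v0 : V 0 = []
  lU : ∀ m, (U m).length ≤ b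
  lV : ∀ m, (V m).length ≤ b

structure Z (d : ℕ) (U V : ℕ → List ℕ) (s t : S1) : Prop where
  pos : t.2 = s.2
  s0 : t.1 0 = []
  s1 : t.1 1 = [d]
  val : ∀ m, t.1 (2 * m + 2) = s.1 m ++ U m
  flg : ∀ m, t.1 (2 * m + 3) = List.replicate (s.1 m).length 1 ++ V m

variable {x : List Bool} {K K' b b' d N : ℕ} {U V : ℕ → List ℕ} {s t : S1}

theorem Z.len (h : Z d U V s t) (hf : Fr b U V) (hs : Len K s) (i : ℕ) :
    (t.1 i).length ≤ K + b + 1 ∧ (2 ≤ i → (t.1 i).length ≤ K + b) := by
  obtain rfl | rfl | ⟨m, rfl | rfl⟩ : i = 0 ∨ i = 1 ∨ ∃ m, i = 2 * m + 2 ∨ i = 2 * m + 3 := by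
    by_cases k : i < 2
    · omega
    · exact Or.inr (Or.inr ⟨i / 2 - 1, by omega⟩)
  · simp [h.s0]
  · simp [h.s1]
  · have := hs m
    have := hf.lU m
    rw [h.val, List.length_append]
    omega
  · have := hs m
    have := hf.lV m
    rw [h.flg, List.length_append, List.length_replicate]
    omega

theorem Z.upd (h : Z d U V s t) (m : ℕ) (l : List ℕ) {t' : S1} (h0 : t'.2 = t.2)
    (h1 : t'.1 (2 * m + 2) = l ++ U m) (h2 : t'.1 (2 * m + 3) = List.replicate l.length 1 ++ V m)
    (h3 : ∀ i, i ≠ 2 * m + 2 → i ≠ 2 * m + 3 → t'.1 i = t.1 i) :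
    Z d U V (update s.1 m l, s.2) t' := by
  refine ⟨h0.trans h.pos, (h3 0 (by omega) (by omega)).trans h.s0,
    (h3 1 (by omega) (by omega)).trans h.s1, fun j => ?_, fun j => ?_⟩ <;> by_cases k : j = m
  · subst k; simpa using h1
  · rw [h3 _ (by omega) (by omega), h.val]; simp [update_of_ne k]
  · subst k; simpa using h2
  · rw [h3 _ (by omega) (by omega), h.flg]; simp [update_of_ne k]

theorem Z.tst (h : Z d U V s t) (hf : Fr b U V) (c : C1) : tst1 x (g1 c) t = tst1 x c s := by
  cases c with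
  | ne m =>
    have := hf.hV m
    simp only [g1, tst1, h.flg]
    rcases s.1 m with _ | ⟨a, l⟩
    · simp [this]
    · simp [hd, List.replicate_succ]
  | nz m =>
    have := hf.hU m
    simp only [g1, tst1, h.val]
    rcases s.1 m with _ | ⟨a, l⟩
    · rw [List.nil_append, this]; rfl
    · simp [hd]
  | rd f => simp only [g1, tst1, h.pos]

theorem skip (h : t.1 0 = []) : Ex x K (clr 0) t t 1 := Exec.loopF (by simp [tst1, h])

theorem Z.act (h : Z d U V s t) (hf : Fr b U V) (hK : K + b + 1 ≤ K') (a : A1) (hs : Len K s)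
    (hs' : Len K (act1 x a s)) : ∃ t', Ex x K' (f0 a) t t' 3 ∧ Z d U V (act1 x a s) t' := by
  have g : Len K' (t.1, t.2) := fun i => (h.len hf hs i).1.trans hK
  have ts : ∀ m, tst1 x (.nz (2 * m + 3)) t = !(s.1 m).isEmpty := fun m => h.tst hf (.ne m)
  have no : ∀ m p, s.1 m = [] → ∃ t', Ex x K' (.ite (.nz (2 * m + 3)) p (clr 0)) t t' 3 ∧
      Z d U V (update s.1 m [], s.2) t' := fun m p k =>
    ⟨t, (Exec.iteF (by simp [ts, k]) (skip h.s0)).weak (by omega), by
      rw [← k, update_eq_self]; exact h⟩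
  cases a with
  | push m =>
    have e1 := ex_push (x := x) g (2 * m + 2) (by have := (h.len hf hs (2 * m + 2)).2; omega)
    have e2 := ex_push (x := x) (e1.good g) (2 * m + 3) (by
      have := (h.len hf hs (2 * m + 3)).2
      rw [update_of_ne (by omega)]
      omega)
    have e3 := ex_inc (x := x) (e2.good (e1.good g)) (i := 2 * m + 3) (update_self ..)
    exact ⟨_, e1.seq (e2.seq e3), h.upd m _ rfl (by simp [h.val])
      (by simp [h.flg, List.replicate_succ]) fun i k k' => by simp [k, k']⟩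
  | pop m =>
    rcases k : s.1 m with _ | ⟨a, l⟩
    · simpa [act1, k, f0] using no m _ k
    · have e1 := ex_pop (x := x) g (2 * m + 2)
      have e2 := ex_pop (x := x) (e1.good g) (2 * m + 3)
      exact ⟨_, Exec.iteT (by simp [ts, k]) (e1.seq e2), h.upd m _ rfl (by simp [h.val, k])
        (by simp [h.flg, k, List.replicate_succ]) fun i k k' => by simp [k, k']⟩
  | inc m =>
    rcases k : s.1 m with _ | ⟨a, l⟩
    · simpa [act1, k, f0] using no m _ k
    · have e1 := ex_inc (x := x) g (i := 2 * m + 2) (a := a) (l := l ++ U m) (by simp [h.val, k])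
      exact ⟨_, (Exec.iteT (by simp [ts, k]) e1).weak (by omega), h.upd m _ rfl (by simp [k])
        (by simp [h.flg, k]) fun i k k' => by simp [k]⟩
  | dec m =>
    rcases k : s.1 m with _ | ⟨a, l⟩
    · simpa [act1, k, f0] using no m _ k
    · have e1 := ex_dec (x := x) g (i := 2 * m + 2) (a := a) (l := l ++ U m) (by simp [h.val, k])
      exact ⟨_, (Exec.iteT (by simp [ts, k]) e1).weak (by omega), h.upd m _ rfl (by simp [k])
        (by simp [h.flg, k]) fun i k k' => by simp [k]⟩
  | inp e =>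
    exact ⟨act1 x (.inp e) t, (Exec.act _ _ g).weak (by omega),
      by simp only [act1, h.pos], h.s0, h.s1, h.val, h.flg⟩

theorem ex_rep (a : ℕ → A1) (φ : List ℕ → List ℕ)
    (ha : ∀ i s, act1 x (a i) s = (update s.1 i (φ (s.1 i)), s.2)) {σ : ℕ → List ℕ} {h : ℕ}
    (hσ : Len K (σ, h)) (h0 : σ 0 = []) (hφ : ∀ i, 4 ≤ i → (φ (σ i)).length ≤ K) (j : ℕ) :
    Ex x K (rep a j) (σ, h) (fun i => if 4 ≤ i ∧ i < j + 4 then φ (σ i) else σ i, h) (j + 1) := by
  induction j with
  | zero =>
    refine (skip h0).of_eq ?_ le_rfl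
    congr 1
    funext i
    rw [if_neg (by omega)]
  | succ j ih =>
    refine ih.seq (Exec.act' _ ?_ fun i => ?_)
    · rw [ha]
      congr 1
      funext i
      by_cases k : i = j + 4
      · subst k; simp
      · rw [update_of_ne k]
        exact if_congr (by omega) rfl rfl
    · dsimp only
      split_ifs with k
      exacts [hφ i k.1, hσ i]

/-- The stacks that no action touches are empty. -/
def Emp (N : ℕ) (s : S1) : Prop := ∀ m, N < m → s.1 m = []

theorem Emp.act (h : Emp N s) {a : A1} (k : ix (some a) < N) : Emp N (act1 x a s) := by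
  intro m hm
  cases a with
  | inp e => exact h m hm
  | _ => exact (update_of_ne (by simp only [ix] at k; omega) _ _).trans (h m hm)

/-- What a call has to do. -/
def Call (x : List Bool) (K K' β τ N b d : ℕ) (g : Orc) (q' : PO) : Prop :=
  ∀ (U V : ℕ → List ℕ) (s t : S1), Fr b U V → Z d U V s t → Len K s → Emp N s → s.2 = 0 →
    (∀ a ∈ s.1 0, a ≤ β) → ∃ t', Er x K' q' (d + 1) (.act none) t t' τ ∧
      Z d U V (update s.1 0 [g (s.1 0)], 0) t'

theorem run {β τ n : ℕ} {g : Orc} {q' u : PO} {s' : S1} (hc : Call x K K' β τ N b d g q')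
    (hK : K + b + 1 ≤ K') (hf : Fr b U V) (hu : u.all fun a => ix a < N)
    (h : Eo x K β τ g u s s' n) (hz : Z d U V s t) (hs : Len K s) (he : Emp N s) :
    ∃ t', Er x K' q' (d + 1) (u.bind f1 g1) t t' (n * 3) ∧ Z d U V s' t' := by
  refine (simq (fun a => ix a < N) (fun s t => Z d U V s t ∧ Len K s ∧ Emp N s) f1 g1 3 (by omega)
    (fun c s t k => k.1.tst hf c) (fun a s s' n t k1 k2 k3 => ?_) h hu t ⟨hz, hs, he⟩).imp
    fun t' k => ⟨k.1, k.2.1⟩
  cases a with
  | some a =>
    obtain ⟨rfl, k4, rfl⟩ := k2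
    obtain ⟨t', e, z⟩ := k3.1.act hf hK a k3.2.1 k4
    exact ⟨t', e.upR, z, k4, k3.2.2.act k1⟩
  | none =>
    obtain ⟨k4, k5, rfl, k6, rfl⟩ := k2
    obtain ⟨t', e, z⟩ := hc U V s t hf k3.1 k3.2.1 k3.2.2 k4 k5
    exact ⟨t', e.weak (by omega), z, k6, fun m hm =>
      (update_of_ne (by omega) _ _).trans (k3.2.2 m hm)⟩

theorem cost (P K Q c d : ℕ) : c + (P + Q * ((P + K + 1) * ((c + 8) * (Q + 1)) ^ (d + 1))) * 3 ≤
    (P + K + 1) * ((c + 8) * (Q + 1)) ^ (d + 2) := by
  have h : P + K + 1 ≤ (P + K + 1) * ((c + 8) * (Q + 1)) ^ (d + 1) :=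
    Nat.le_mul_of_pos_right _ (by positivity)
  rw [pow_succ _ (d + 1), ← mul_assoc (P + K + 1)]
  generalize (P + K + 1) * ((c + 8) * (Q + 1)) ^ (d + 1) = τ at h ⊢
  nlinarith [Nat.mul_le_mul_left c (show 1 ≤ τ by omega), Nat.zero_le (τ * c * Q),
    Nat.zero_le (τ * Q)]

theorem call {β P Q : ℕ} {F : Orc → List ℕ → ℕ} {q : PO} (h1 : 1 ≤ K) (hF : ∀ g l, F g l ≤ β)
    (hN : q.all fun a => ix a < N)
    (hq : ∀ (g : List ℕ → ℕ) (τ : ℕ) (l : List ℕ), (∀ l, g l ≤ β) → (∀ a ∈ l, a ≤ β) →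
      l.length ≤ K → Eo x K β τ g q (sole 0 l) (sole 0 [F g l]) (P + Q * τ)) (d : ℕ) :
    ∀ b, b + (K + 1) * (d + 1) ≤ K' → Call x K K' β
      ((P + K + 1) * ((4 * N + 6 + 8) * (Q + 1)) ^ (d + 1)) N b d (rc F d) (body N q) := by
  induction d with
  | zero =>
    intro b hb U V ⟨σ, h⟩ t hf hz hs _ (rfl : h = 0) _
    have e1 := ex_clr (x := x) hs 0
    have e2 := ex_push (x := x) (e1.good hs) 0 (by simpa using h1)
    obtain ⟨t', e, z⟩ := sim (act' := act1 x) (tst' := tst1 x) (G' := Len K') (Z 0 U V) f0 g1 3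
      (by omega) (fun c s t k => k.tst hf c) (fun a s t k k1 k2 => k.act hf (by omega) a k1 k2)
      (e1.seq e2) t hs hz
    refine ⟨t', (er_call (Exq.iteF (by simp [tst1, hz.s1, hd]) e.upR)).weak ?_, by
      simpa [rc] using z⟩
    rw [zero_add, pow_one]
    nlinarith [Nat.zero_le (P * N * Q), Nat.zero_le (K * N * Q), Nat.zero_le (P * N),
      Nat.zero_le (K * N), Nat.zero_le (P * Q), Nat.zero_le (K * Q), Nat.zero_le (N * Q)]
  | succ d ih =>
    intro b hb U V s ⟨σ, h⟩ hf hz hs he h0 hβ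
    have hb' : b + (K + 1) + (K + 1) * (d + 1) ≤ K' := by
      rw [mul_add (K + 1) (d + 1)] at hb
      omega
    have hK : K + 1 ≤ (K + 1) * (d + 1) := Nat.le_mul_of_pos_right _ (by omega)
    have g : Len K' (σ, h) := fun i => (hz.len hf hs i).1.trans (by omega)
    have e1 := ex_dec (x := x) g (i := 1) hz.s1
    have e2 := ex_rep (x := x) .push (0 :: ·) (fun _ _ => rfl) (e1.good g)
      ((update_of_ne (by omega) _ _).trans hz.s0) (fun i k => by
        have := (hz.len hf hs i).1
        rw [update_of_ne (by omega), List.length_cons]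
        dsimp only at this
        omega) (2 * N)
    have hf' : Fr (b + (K + 1)) (fun m => if 1 ≤ m ∧ m ≤ N then 0 :: (s.1 m ++ U m) else U m)
        fun m => if 1 ≤ m ∧ m ≤ N then 0 :: (List.replicate (s.1 m).length 1 ++ V m) else V m := by
      refine ⟨fun m => ?_, fun m => ?_, by simp [hf.u0], by simp [hf.v0], fun m => ?_,
        fun m => ?_⟩ <;> split_ifs
      exacts [rfl, hf.hU m, rfl, hf.hV m,
        by have := hs m; have := hf.lU m; simp; omega, (hf.lU m).trans (by omega),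
        by have := hs m; have := hf.lV m; simp; omega, (hf.lV m).trans (by omega)]
    have so : ∀ l m, 1 ≤ m → (sole 0 l).1 m = [] := fun l m k => by
      simp [sole, update_of_ne (show m ≠ 0 by omega)]
    have so0 : ∀ l, (sole 0 l).1 0 = l := fun l => by simp [sole]
    have hg : ∀ l, rc F d l ≤ β := by
      cases d
      exacts [fun _ => Nat.zero_le _, hF _]
    have r := hq (rc F d) ((P + K + 1) * ((4 * N + 6 + 8) * (Q + 1)) ^ (d + 1)) (s.1 0) hg hβ
      (hs 0)
    have ls : Len K (sole 0 (s.1 0)) :=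
      Len.upd (h := 0) (σ := fun _ => []) (fun _ => Nat.zero_le _) 0 (hs 0)
    obtain ⟨⟨σ', h'⟩, e3, z⟩ := run (ih _ hb') (by omega) hf' hN r
      (t := (fun i => if 4 ≤ i ∧ i < 2 * N + 4 then 0 :: update σ 1 [d + 1 - 1] i
        else update σ 1 [d + 1 - 1] i, h))
      (by
        refine ⟨hz.pos.trans h0, by simpa using hz.s0, by simp, fun m => ?_, fun m => ?_⟩
        · have := hz.val m
          dsimp only at this ⊢
          rw [update_of_ne (by omega), this]
          rcases Nat.eq_zero_or_pos m with rfl | k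
          · simp [so0]
          · rw [so _ _ k, List.nil_append]
            split_ifs
            exacts [rfl, by omega, by omega, by rw [he m (by omega), List.nil_append]]
        · have := hz.flg m
          dsimp only at this ⊢
          rw [update_of_ne (by omega), this]
          rcases Nat.eq_zero_or_pos m with rfl | k
          · simp [so0]
          · rw [so _ _ k]
            split_ifs
            exacts [rfl, by omega, by omega, by rw [he m (by omega)]])
      ls (fun m k => so _ _ (by omega))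
    have g' : Len K' (σ', h') := fun i => (z.len hf' (r.goodO ls) i).1.trans (by omega)
    have e4 := ex_rep (x := x) .pop List.tail (fun _ _ => rfl) g' z.s0
      (fun i _ => by have := g' i; simp at this ⊢; omega) (2 * N)
    have e5 := ex_inc (x := x) (e4.good g') (i := 1) (a := d) (l := []) (by simpa using z.s1)
    have s1 : σ 1 = [d + 1] := hz.s1
    refine ⟨_, (er_call (Exq.iteT (by simp [tst1, s1, hd]) ((e1.seq e2).upR.seq
      (e3.seq (e4.seq e5).upR)))).weak (le_trans (by omega) (cost P K Q _ d)),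
      z.pos, by simpa using z.s0, by simp, fun m => ?_, fun m => ?_⟩
    · have := z.val m
      dsimp only at this ⊢
      rw [update_of_ne (by omega), this]
      rcases Nat.eq_zero_or_pos m with rfl | k
      · simp [so0, rc]
      · rw [so _ _ k, List.nil_append, update_of_ne (by omega)]
        split_ifs
        exacts [rfl, by omega, by omega, by rw [he m (by omega), List.nil_append]]
    · have := z.flg m
      dsimp only at this ⊢
      rw [update_of_ne (by omega), this]
      rcases Nat.eq_zero_or_pos m with rfl | k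
      · simp [so0]
      · rw [so _ _ k, update_of_ne (by omega)]
        split_ifs
        exacts [rfl, by omega, by omega, by rw [he m (by omega)]]

end Frm

open Frm in
theorem frmS : FrmS := by
  intro p q
  obtain ⟨M, hM⟩ := p.exists_bound ix
  obtain ⟨N, hN⟩ := q.exists_bound ix
  refine ⟨p.bind f1 g1, body (M + N) q, 4 * (M + N) + 6 + 8, ?_⟩
  intro x K β P Q d F s h1 hF hq hp
  have hK : (K + 1) * (d + 1) ≤ (K + 1) * (d + 2) := Nat.mul_le_mul_left _ (by omega)
  have hK' : K + 1 ≤ (K + 1) * (d + 1) := Nat.le_mul_of_pos_right _ (by omega)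
  obtain ⟨t, e, z⟩ := run (U := fun _ => []) (V := fun _ => []) (t := sole 1 [d])
    (call (K' := (K + 1) * (d + 2)) h1 hF (q.all_mono (fun a h => by omega) hN) hq d 0 (by omega))
    (by omega) ⟨fun _ => rfl, fun _ => rfl, rfl, rfl, fun _ => le_rfl, fun _ => le_rfl⟩
    (p.all_mono (Q := fun a => ix a < M + N) (fun a h => by omega) hM) (hp _)
    ⟨rfl, rfl, rfl, fun m => by simp [sole], fun m => by simp [sole]⟩
    (fun _ => Nat.zero_le _) fun _ _ => rfl
  exact ⟨t, e.weak (le_trans (Nat.le_add_left _ _) (cost P K Q _ d)),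
    fun m => (z.val m).trans (List.append_nil _)⟩

end Pool.Agent.MP_1a6d78_lc.ED

end MrgPart1

-- ======== part 2: formerly Pool.Agent.MP_1a6d78_lc.ED.Int
section MrgPart2

/-! PROJECT ED3, row INT: an interpreter with a control stack. -/

namespace Pool.Agent.MP_1a6d78_lc.ED

open Function

namespace Itp

def shA : A1 → A1
  | .push i => .push (i + 1)
  | .pop i => .pop (i + 1)
  | .inc i => .inc (i + 1)
  | .dec i => .dec (i + 1)
  | .inp d => .inp d

def shC : C1 → C1
  | .ne i => .ne (i + 1)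
  | .nz i => .nz (i + 1)
  | .rd f => .rd f

/-- The control stack `v` below the shifted stacks. -/
def lf (v : List ℕ) (s : S1) : S1 := (cons v s.1, s.2)

theorem upd_succ (v l : List ℕ) (ρ : Env) (i : ℕ) :
    update (cons v ρ) (i + 1) l = cons v (update ρ i l) := by
  funext j
  cases j with
  | zero => simp [cons]
  | succ j => simp [cons, update_apply]

theorem upd_zero (v l : List ℕ) (ρ : Env) : update (cons v ρ) 0 l = cons l ρ := by
  funext j
  cases j <;> simp [cons]

theorem act_sh (x : List Bool) (a : A1) (v : List ℕ) (s : S1) :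
    act1 x (shA a) (lf v s) = lf v (act1 x a s) := by
  cases a <;> simp only [act1, shA, lf, upd_succ] <;> rfl

theorem tst_sh (x : List Bool) (c : C1) (v : List ℕ) (s : S1) :
    tst1 x (shC c) (lf v s) = tst1 x c s := by
  cases c <;> rfl

theorem len_lf {B : ℕ} {s : S1} (hs : Len B s) {v : List ℕ} (hv : v.length ≤ B) :
    Len B (lf v s) := fun i => by
  cases i
  exacts [hv, hs _]

def skip : Prog A1 C1 := .loop (.rd fun _ => false) (.act (.pop 0))

def incs : ℕ → Prog A1 C1
  | 0 => skip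
  | n + 1 => .seq (.act (.inc 0)) (incs n)

/-- Push the number `n` on the control stack. -/
def pushn (n : ℕ) : Prog A1 C1 := .seq (.act (.push 0)) (incs n)

/-- One step of the interpreter. -/
def step (cd : PO → ℕ) (q : PO) : PO → Prog A1 C1
  | .act (some a) => .act (shA a)
  | .act none => pushn (cd q)
  | .seq u v => .seq (pushn (cd v)) (pushn (cd u))
  | .ite c u v => .ite (shC c) (pushn (cd u)) (pushn (cd v))
  | .loop c u => .ite (shC c) (.seq (pushn (cd (.loop c u))) (pushn (cd u))) skip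

/-- Case distinction on the top of the control stack. -/
def sw (st : PO → Prog A1 C1) : List PO → Prog A1 C1
  | [] => skip
  | u :: L => .ite (.nz 0) (.seq (.act (.dec 0)) (sw st L)) (.seq (.act (.pop 0)) (st u))

/-- All subprograms. -/
def subs : PO → List PO
  | .act a => [.act a]
  | .seq u v => .seq u v :: (subs u ++ subs v)
  | .ite c u v => .ite c u v :: (subs u ++ subs v)
  | .loop c u => .loop c u :: subs u

theorem self_subs (u : PO) : u ∈ subs u := by
  cases u <;> simp [subs]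

theorem subs_pos (u : PO) : 1 ≤ (subs u).length := List.length_pos_of_mem (self_subs u)

variable {x : List Bool} {B : ℕ} {s : S1}

theorem ex_skip : Ex x B skip s s 1 := .loopF rfl

theorem ex_incs (hs : Len B s) {v : List ℕ} (hv : v.length + 1 ≤ B) (n : ℕ) :
    ∀ a, Ex x B (incs n) (lf (a :: v) s) (lf ((a + n) :: v) s) (n + 1) := by
  induction n with
  | zero => exact fun a => ex_skip
  | succ n ih =>
    intro a
    have e1 := ex_inc (x := x) (len_lf (v := a :: v) hs hv) (i := 0) (a := a) (l := v) rfl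
    rw [upd_zero] at e1
    exact (Exec.seq e1 (ih (a + 1))).of_eq (by rw [add_assoc, add_comm 1 n]) (by omega)

theorem ex_pushn (hs : Len B s) {v : List ℕ} (hv : v.length + 1 ≤ B) (n : ℕ) :
    Ex x B (pushn n) (lf v s) (lf (n :: v) s) (n + 2) := by
  have e1 := ex_push (x := x) (len_lf (v := v) hs (by omega)) 0 hv
  rw [upd_zero] at e1
  exact (Exec.seq e1 (ex_incs hs hv n 0)).of_eq (by rw [zero_add]) (by omega)

theorem ex_sw (hs : Len B s) {v : List ℕ} (hv : v.length + 1 ≤ B) {st : PO → Prog A1 C1} {u : PO}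
    {t : S1} {m : ℕ} (h : Ex x B (st u) (lf v s) t m) (L : List PO) :
    ∀ k, L[k]? = some u → Ex x B (sw st L) (lf (k :: v) s) t (m + 2 * k + 2) := by
  induction L with
  | nil => simp
  | cons w L ih =>
    intro k hk
    cases k with
    | zero =>
      obtain rfl : w = u := by simpa using hk
      have e1 := ex_pop (x := x) (len_lf (v := 0 :: v) hs hv) 0
      rw [upd_zero] at e1
      exact (Exec.iteF rfl (Exec.seq e1 h)).weak (by omega)
    | succ k =>
      have e1 := ex_dec (x := x) (len_lf (v := (k + 1) :: v) hs hv) (i := 0) (a := k + 1) (l := v)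
        rfl
      rw [upd_zero] at e1
      exact (Exec.iteT (by simp [tst1, cons, hd])
        (Exec.seq e1 (ih k (by simpa using hk)))).weak (by omega)

section
variable (x B) (L : List PO) (cd : PO → ℕ) (q : PO)

/-- The main loop. -/
def W : Prog A1 C1 := .loop (.ne 0) (sw (step cd q) L)

/-- Running `u` from the control stack, in continuation style. -/
def Run (E h : ℕ) (u : PO) (s s' : S1) (n : ℕ) : Prop :=
  ∀ (rest : List ℕ) (fin : S1) (m : ℕ), rest.length + h ≤ B →
    Ex x B (W L cd q) (lf rest s') fin m →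
      ∃ k, Ex x B (W L cd q) (lf (cd u :: rest) s) fin k ∧ k + E ≤ m + 2 * (n * E)

end

variable {L : List PO} {cd : PO → ℕ} {q : PO} {N K : ℕ}

theorem ex_W (hcd : ∀ u ∈ L, L[cd u]? = some u) (hN : ∀ u, cd u ≤ N) (hs : Len B s) {u : PO}
    (hu : u ∈ L) {v : List ℕ} (hv : v.length + 1 ≤ B) {t fin : S1} {m k : ℕ}
    (h : Ex x B (step cd q u) (lf v s) t m) (hm : m ≤ 2 * N + 5)
    (h' : Ex x B (W L cd q) t fin k) :
    Ex x B (W L cd q) (lf (cd u :: v) s) fin (k + (4 * N + 8)) := by
  have := hN u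
  exact (Exec.loopT (by simp [tst1, lf, cons]) (ex_sw hs hv h L _ (hcd u hu)) h').weak (by omega)

theorem inner (hcd : ∀ u ∈ L, L[cd u]? = some u) (hN : ∀ u, cd u ≤ N) (hK : K ≤ B) {d H : ℕ}
    (hc : ∀ s s' n, Rr x K q d none s s' n → .act none ∈ L → Len K s →
      Run x B L cd q (4 * N + 8) (1 + H) (.act none) s s' n)
    {u : PO} {s s' : S1} {n : ℕ} (h : Er x K q d u s s' n) :
    subs u ⊆ L → Len K s → Run x B L cd q (4 * N + 8) ((subs u).length + H) u s s' n := by
  induction h with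
  | @act a s s' n h =>
    intro hu hs
    cases a with
    | none => exact hc _ _ _ h (hu (self_subs _)) hs
    | some a =>
      obtain ⟨rfl, h1, rfl⟩ := rr_some.1 h
      intro rest fin m hr he
      simp only [subs, List.length_singleton] at hr
      exact ⟨_, ex_W hcd hN (hs.mono hK) (hu (self_subs _)) (by omega)
        (.act' _ (act_sh x a rest s) (len_lf (h1.mono hK) (by omega))) (by omega) he, by omega⟩
  | @seq u v s s' s'' m n h1 _ i j =>
    intro hu hs rest fin c hr he
    simp only [subs, List.length_cons, List.length_append, List.cons_subset, List.append_subset]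
      at hr hu
    have := subs_pos u
    have := subs_pos v
    have := hN u
    have := hN v
    obtain ⟨k2, e2, b2⟩ := j hu.2.2 (h1.goodR hs) rest fin c (by omega) he
    obtain ⟨k1, e1, b1⟩ := i hu.2.1 hs (cd v :: rest) fin k2 (by simp; omega) e2
    refine ⟨_, ex_W hcd hN (hs.mono hK) hu.1 (by omega)
      (.seq (ex_pushn (hs.mono hK) (by omega) _) (ex_pushn (hs.mono hK) (by simp; omega) _))
      (by omega) e1, ?_⟩
    rw [add_mul]; omega
  | @iteT c u v s s' n h _ i =>
    intro hu hs rest fin c hr he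
    simp only [subs, List.length_cons, List.length_append, List.cons_subset, List.append_subset]
      at hr hu
    have := hN u
    obtain ⟨k1, e1, b1⟩ := i hu.2.1 hs rest fin c (by omega) he
    refine ⟨_, ex_W hcd hN (hs.mono hK) hu.1 (by omega)
      (.iteT ((tst_sh _ _ _ _).trans h) (ex_pushn (hs.mono hK) (by omega) _)) (by omega) e1, ?_⟩
    rw [add_mul]; omega
  | @iteF c u v s s' n h _ i =>
    intro hu hs rest fin c hr he
    simp only [subs, List.length_cons, List.length_append, List.cons_subset, List.append_subset]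
      at hr hu
    have := hN v
    obtain ⟨k1, e1, b1⟩ := i hu.2.2 hs rest fin c (by omega) he
    refine ⟨_, ex_W hcd hN (hs.mono hK) hu.1 (by omega)
      (.iteF ((tst_sh _ _ _ _).trans h) (ex_pushn (hs.mono hK) (by omega) _)) (by omega) e1, ?_⟩
    rw [add_mul]; omega
  | @loopF c u s h =>
    intro hu hs rest fin c hr he
    simp only [subs, List.length_cons, List.cons_subset] at hr hu
    exact ⟨_, ex_W hcd hN (hs.mono hK) hu.1 (by omega)
      (.iteF ((tst_sh _ _ _ _).trans h) ex_skip) (by omega) he, by omega⟩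
  | @loopT c u s s' s'' m n h h1 _ i j =>
    intro hu hs rest fin e hr he
    obtain ⟨k2, e2, b2⟩ := j hu (h1.goodR hs) rest fin e hr he
    simp only [subs, List.length_cons, List.cons_subset] at hr hu
    have := subs_pos u
    have := hN u
    have := hN (.loop c u)
    obtain ⟨k1, e1, b1⟩ := i hu.2 hs (cd (.loop c u) :: rest) fin k2 (by simp; omega) e2
    refine ⟨_, ex_W hcd hN (hs.mono hK) hu.1 (by omega) (.iteT ((tst_sh _ _ _ _).trans h)
      (.seq (ex_pushn (hs.mono hK) (by omega) _) (ex_pushn (hs.mono hK) (by simp; omega) _)))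
      (by omega) e1, ?_⟩
    rw [add_mul, add_mul]; omega
  | @weak u s s' m n _ h i =>
    intro hu hs rest fin e hr he
    obtain ⟨k, e1, b1⟩ := i hu hs rest fin e hr he
    have := Nat.mul_le_mul_right (4 * N + 8) h
    exact ⟨k, e1, by omega⟩

theorem outer (hcd : ∀ u ∈ L, L[cd u]? = some u) (hN : ∀ u, cd u ≤ N) (hK : K ≤ B)
    (hq : subs q ⊆ L) (d : ℕ) : ∀ {u : PO} {s s' : S1} {n : ℕ}, Er x K q d u s s' n →
      subs u ⊆ L → Len K s →
        Run x B L cd q (4 * N + 8) ((subs u).length + d * (subs q).length) u s s' n := by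
  induction d with
  | zero => exact fun h => inner (x := x) (q := q) (d := 0) hcd hN hK (fun _ _ _ h => False.elim h) h
  | succ d ih =>
    refine fun h => inner hcd hN hK (fun s s' n h hu hs rest fin e hr he => ?_) h
    obtain ⟨m, h, rfl⟩ := h
    rw [add_mul, one_mul] at hr
    obtain ⟨k, e1, b1⟩ := ih h hq hs rest fin e (by omega) he
    have := hN q
    refine ⟨_, ex_W hcd hN (hs.mono hK) hu (by omega) (ex_pushn (hs.mono hK) (by omega) _)
      (by omega) e1, ?_⟩
    rw [add_mul]; omega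

end Itp

open Itp in
theorem intS : IntS := by
  classical
  intro p q
  obtain ⟨L, hL⟩ : ∃ L, L = subs p ++ subs q := ⟨_, rfl⟩
  have hp : subs p ⊆ L := hL ▸ List.subset_append_left _ _
  have hq : subs q ⊆ L := hL ▸ List.subset_append_right _ _
  have hl : L.length = (subs p).length + (subs q).length := by rw [hL, List.length_append]
  refine ⟨.seq (pushn (L.idxOf p)) (W L (fun u => L.idxOf u) q), 2 * (4 * L.length + 8),
    fun x K d s T h => ?_⟩
  have h0 : ∀ B, Len B ((fun _ => [], 0) : S1) := fun B i => Nat.zero_le _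
  have hb : (subs p).length + d * (subs q).length ≤ K + 2 * (4 * L.length + 8) * (d + 1) := by
    rw [hl]; nlinarith
  have := subs_pos p
  obtain ⟨k, e1, b1⟩ := outer (B := K + 2 * (4 * L.length + 8) * (d + 1)) (N := L.length)
    (cd := fun u => L.idxOf u) (fun u hu => List.getElem?_idxOf hu)
    (fun u => List.idxOf_le_length) (Nat.le_add_right _ _) hq d h hp (h0 K) [] (lf [] s) 1
    (by simpa using hb) (.loopF rfl)
  have e0 := ex_pushn (x := x) (h0 (K + 2 * (4 * L.length + 8) * (d + 1))) (v := [])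
    (by simp only [List.length_nil]; omega) (L.idxOf p)
  have hi : lf [] ((fun _ => [], 0) : S1) = (fun _ => [], 0) := by
    refine Prod.ext ?_ rfl
    funext i
    cases i <;> rfl
  rw [hi] at e0
  have h1 : L.idxOf p ≤ L.length := List.idxOf_le_length
  refine (e0.seq e1).weak ?_
  have : (T + 1) * (2 * (4 * L.length + 8)) =
      2 * (T * (4 * L.length + 8)) + 2 * (4 * L.length + 8) := by ring
  omega

end Pool.Agent.MP_1a6d78_lc.ED

end MrgPart2

-- ======== part 3: formerly Pool.Agent.MP_1a6d78_lc.ED.Rec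
section MrgPart3

/-! PROJECT ED3, row REC: from the calculus with calls to a Turing machine. -/

namespace Pool.Agent.MP_1a6d78_lc.ED

open Function

namespace Rec

theorem pw_le_two (B c : ℕ) : pw B c ≤ 2 ^ (c * (Nat.log 2 (B + 2) + 1)) := by
  have h := Nat.pow_le_pow_left (Nat.lt_pow_succ_log_self (b := 2) (by omega) (B + 2)).le c
  rwa [← pow_mul, mul_comm] at h

/-- The number of bits. -/
def bits (a B K d : ℕ) : ℕ := a * (Nat.log 2 (B + 2) + 1) + a * d * (Nat.log 2 (K + 2) + 1) + 1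

theorem lt_two (a B K d : ℕ) : pw B a * pw K (a * d) < 2 ^ bits a B K d := by
  have h := Nat.mul_le_mul (pw_le_two B a) (pw_le_two K (a * d))
  rw [← pow_add] at h
  exact h.trans_lt (Nat.pow_lt_pow_right (by omega) (Nat.lt_succ_self _))

theorem time1 {B K d cD c1 c2 E : ℕ} (hK : K ≤ B) :
    (pw B cD + (pw B 4 + pw B c1 + K + 1) * (c2 * (pw K c1 + 1)) ^ (d + 2) + 1) * E ≤
      pw B (cD + c1 + 2 * (c2 + c1 + 1) + 9 + E) *
        pw K ((cD + c1 + 2 * (c2 + c1 + 1) + 9 + E) * d) := by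
  set e := c2 + c1 + 1 with he
  have h1 : c2 * (pw K c1 + 1) ≤ pw K e := by
    have a1 := two_mul_pw K c1
    have a2 := one_le_pw K c1
    calc _ ≤ pw K c2 * pw K (c1 + 1) := Nat.mul_le_mul (const_le_pw K c2) (by omega)
      _ = _ := by rw [pw_mul, he, add_assoc]
  have h2 : (c2 * (pw K c1 + 1)) ^ (d + 2) ≤ pw B (2 * e) * pw K (e * d) := by
    calc _ ≤ pw K e ^ (d + 2) := Nat.pow_le_pow_left h1 _
      _ = pw K (2 * e) * pw K (e * d) := by
        rw [pw_mul, pw, pw, ← pow_mul]; congr 1; ring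
      _ ≤ _ := Nat.mul_le_mul_right _ (pw_mono hK le_rfl)
  have h3 : pw B 4 + pw B c1 + K + 1 ≤ pw B (c1 + 7) := by
    have a1 := pw_add B 4 c1
    have a2 := pw_add B (4 + c1 + 1) 1
    have a3 := le_pw B (c := 1) le_rfl
    rw [show c1 + 7 = 4 + c1 + 1 + 1 + 1 by ring]
    omega
  have h4 : pw B cD + 1 ≤ pw B (cD + 1) * pw K (e * d) := by
    have a1 := two_mul_pw B cD
    have a2 := one_le_pw B cD
    exact le_trans (by omega) (Nat.le_mul_of_pos_right _ (one_le_pw K _))
  have h5 := Nat.mul_le_mul h3 h2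
  rw [← mul_assoc, pw_mul] at h5
  have h6 := Nat.mul_le_mul_right (pw K (e * d)) (pw_add B (cD + 1) (c1 + 7 + 2 * e))
  have h7 : pw B cD + (pw B 4 + pw B c1 + K + 1) * (c2 * (pw K c1 + 1)) ^ (d + 2) + 1 ≤
      pw B (cD + 1 + (c1 + 7 + 2 * e) + 1) * pw K (e * d) := by
    rw [add_mul] at h6
    omega
  calc _ ≤ pw B (cD + 1 + (c1 + 7 + 2 * e) + 1) * pw K (e * d) * pw B E :=
        Nat.mul_le_mul h7 (const_le_pw B E)
    _ = pw B (cD + c1 + 2 * e + 9 + E) * pw K (e * d) := by
        rw [mul_right_comm, pw_mul]; congr 2; ring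
    _ ≤ _ := Nat.mul_le_mul_left _ (pw_mono le_rfl (Nat.mul_le_mul_right _ (by omega)))

theorem time2 {a B K d c : ℕ} (hK : K ≤ B) (hd : d ≤ B) (hc : 2 * a + 8 ≤ c) :
    pw B a * pw K (a * d) * (8 * bits a B K d + 8) * 2 + 1 ≤ pw B c * pw K (c * d) := by
  have h1 : Nat.log 2 (B + 2) + 1 ≤ B + 2 := Nat.log_lt_self 2 (by omega)
  have h1' : Nat.log 2 (K + 2) + 1 ≤ B + 2 :=
    le_trans (Nat.log_lt_self 2 (by omega)) (by omega)
  have h2 : a + 1 ≤ (B + 2) ^ a :=
    Nat.lt_two_pow_self.trans_le (Nat.pow_le_pow_left (by omega) a)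
  have h3 : 2 ^ 6 ≤ (B + 2) ^ 6 := Nat.pow_le_pow_left (by omega) 6
  have h4 := Nat.mul_le_mul_left a h1
  have h4' := Nat.mul_le_mul (Nat.mul_le_mul_left a hd) h1'
  have h5 : (8 * bits a B K d + 8) * 2 + 1 ≤ (a + 1) * 2 ^ 6 * (B + 2) ^ 2 := by
    unfold bits
    nlinarith [Nat.zero_le (a * B), Nat.zero_le (a * B * B), Nat.zero_le (B * B)]
  have h6 := h5.trans (Nat.mul_le_mul_right _ (Nat.mul_le_mul h2 h3))
  have h7 : 1 ≤ pw B a * pw K (a * d) := Nat.mul_pos (one_le_pw _ _) (one_le_pw _ _)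
  calc _ ≤ pw B a * pw K (a * d) * ((8 * bits a B K d + 8) * 2 + 1) := by nlinarith
    _ ≤ pw B a * pw K (a * d) * ((B + 2) ^ a * (B + 2) ^ 6 * (B + 2) ^ 2) :=
        Nat.mul_le_mul_left _ h6
    _ = pw B (2 * a + 8) * pw K (a * d) := by unfold pw; ring
    _ ≤ _ := Nat.mul_le_mul (pw_mono le_rfl hc)
        (pw_mono le_rfl (Nat.mul_le_mul_right _ (by omega)))

theorem space {a B K d E c : ℕ} (hc : (2 * E + 3) * (2 * a + 2) ≤ c) :
    ((K + 1) * (d + 2) + E * (d + 1 + 1) + 1) * (bits a B K d + 1) ≤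
      c * (K + 1) * (d + 1) * (Nat.log 2 (B + 2) + d * Nat.log 2 (K + 2) + 1) := by
  have h1 : 1 ≤ Nat.log 2 (K + 2) := Nat.log_pos (by omega) (by omega)
  have h2 : (K + 1) * (d + 2) + E * (d + 1 + 1) + 1 ≤ (2 * E + 3) * ((K + 1) * (d + 1)) := by
    nlinarith [Nat.zero_le (K * d), Nat.zero_le (E * K), Nat.zero_le (E * d),
      Nat.zero_le (E * K * d)]
  have h3 : bits a B K d + 1 ≤ (2 * a + 2) * (Nat.log 2 (B + 2) + d * Nat.log 2 (K + 2) + 1) := by
    unfold bits
    have := Nat.mul_le_mul_left (a * d) h1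
    nlinarith [Nat.zero_le (a * Nat.log 2 (B + 2)), Nat.zero_le (Nat.log 2 (B + 2)),
      Nat.zero_le (d * Nat.log 2 (K + 2))]
  calc _ ≤ (2 * E + 3) * ((K + 1) * (d + 1)) *
        ((2 * a + 2) * (Nat.log 2 (B + 2) + d * Nat.log 2 (K + 2) + 1)) := Nat.mul_le_mul h2 h3
    _ = (2 * E + 3) * (2 * a + 2) * (K + 1) * (d + 1) *
        (Nat.log 2 (B + 2) + d * Nat.log 2 (K + 2) + 1) := by ring
    _ ≤ _ := by gcongr

theorem rc_le {F : Orc → List ℕ → ℕ} {β : ℕ} (h : ∀ g l, F g l ≤ β) (d : ℕ) (l : List ℕ) :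
    rc F d l ≤ β := by
  cases d
  exacts [Nat.zero_le _, h _ _]

/-- The body of the recursive procedure. -/
def body (p : PO) : PO := .seq (up (mvLst 0 1 2)) (.seq p (.seq (up (clr 1)) (up (mvTop 2 0))))

theorem body_ok {x : List Bool} {K β τ B a n : ℕ} {g : Orc} {p : PO} {l : List ℕ} (hK : 1 ≤ K)
    (hKB : K ≤ B) (ha : a ≤ B) (hl : ∀ a ∈ l, a ≤ B) (hlK : l.length ≤ K)
    (h : Eo x K β τ g p (sole 1 l) (update (sole 1 l).1 2 [a], 0) n) :
    Eo x K β τ g (body p) (sole 0 l) (sole 0 [a]) (pw B 4 + n) := by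
  have z : Len K ((fun _ => [] : ℕ → List ℕ), 0) := fun _ => Nat.zero_le _
  have g0 : Len K (update (fun _ => []) 0 l, 0) := z.upd 0 hlK
  have g1 : Len K (update (fun _ => []) 1 l, 0) := z.upd 1 hlK
  have g2 : Len K (update (update (fun _ => []) 1 l) 2 [a], 0) := g1.upd 2 hK
  have e1 := ex_mvLst (x := x) g0 (i := 0) (j := 1) (t := 2) (B := B) (by omega) (by omega)
    (by omega) (by simpa using hl) (by simp) (by simp)
  have e1' : Ex x K (mvLst 0 1 2) (sole 0 l) (sole 1 l) (2 * (K * (3 * B + 4) + 1)) :=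
    e1.of_eq (by simp [sole]) le_rfl
  have e2 := ex_clr (x := x) g2 1
  have e3 := ex_mvTop (x := x) (e2.good g2) (i := 2) (j := 0) (a := a) (l := []) (by omega)
    (by simp) (by simpa using hK)
  refine (e1'.upO.seq (h.seq (e2.upO.seq e3.upO))).of_eq ?_ ?_
  · unfold sole
    congr 1
    funext k
    simp only [update_apply]
    split_ifs <;> simp_all
  · have := Nat.mul_le_mul_right (3 * B + 4) hKB
    unfold pw
    nlinarith [Nat.zero_le (B ^ 4), Nat.zero_le (B ^ 3), Nat.zero_le (B ^ 2)]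

end Rec

open Rec in
theorem recS : CtlS → L20S → L12S → IntS → FrmS → RecS := by
  intro h0 h1 h2 hI hF κ β D F A ⟨cF, _, kF⟩ ⟨cA, _, kA⟩ hβ ⟨cD, _, kD⟩
  obtain ⟨pF, kF⟩ := kF (fun _ => 1) 2 fun _ => by omega
  obtain ⟨pA, kA⟩ := kA (fun _ => 1) 2 fun _ => by omega
  obtain ⟨pD, kD⟩ := kD (fun _ => 0) 1 fun _ => Nat.one_pos
  obtain ⟨p', q', c2, hF⟩ := hF pA (body pF)
  obtain ⟨p3, E, hI⟩ := hI (.seq (up pD) p') q'
  obtain ⟨p2, t2, hp2⟩ := h2 p3 (.nz 7)
  obtain ⟨p0, hp0⟩ := h1 p2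
  obtain ⟨M, hM⟩ := h0 p0 t2
  obtain ⟨a, ha⟩ : ∃ a, a = cD + (cF + cA) + 2 * (c2 + (cF + cA) + 1) + 9 + E := ⟨_, rfl⟩
  refine ⟨M, (2 * E + 3) * (2 * a + 2) + (2 * a + 8), fun x B k1 k2 k3 k4 k5 => ?_⟩
  have z : Len (κ x) ((fun _ => [] : ℕ → List ℕ), 0) := fun _ => Nat.zero_le _
  have b0 : Bd κ x (fun _ => []) B := ⟨k1, k2, k3, fun _ _ m => absurd m List.not_mem_nil⟩
  obtain ⟨t, e1, ht⟩ := hF x (κ x) (β x) (pw B 4 + pw B (cF + cA)) (pw (κ x) (cF + cA)) (D x)
    (F x) (update (fun _ => []) 2 [A x (rc (F x) (D x))], 0) k1 (hβ x)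
    (fun g τ l hg hl hlK => by
      have hl' : ∀ a ∈ l, a ≤ B := fun a m => (hl a m).trans k4
      have e := kF x g (sole 1 l).1 B τ ⟨⟨k1, k2, k3, fun _ => by simpa [sole] using hl'⟩, k4, hg⟩
        (z.upd 1 hlK) (by simp [sole]) fun j hj => by simp [sole, update_of_ne (show j ≠ 1 by omega)]
      have e' : Eo x (κ x) (β x) τ g pF (sole 1 l) (update (sole 1 l).1 2 [F x g l], 0)
          (pw B (cF + cA) + pw (κ x) (cF + cA) * τ) :=
        e.of_eq (by simp [sole]) (Nat.add_le_add (pw_mono le_rfl (by omega))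
          (Nat.mul_le_mul_right _ (pw_mono le_rfl (by omega))))
      exact (body_ok k1 k2 ((hβ x g l).trans k4) hl' hlK e').weak (by omega))
    fun τ => (kA x (rc (F x) (D x)) (fun _ => []) B τ ⟨b0, k4, rc_le (hβ x) _⟩ z rfl
      fun _ _ => rfl).weak (by
        have a1 : pw B cA ≤ pw B (cF + cA) := pw_mono le_rfl (by omega)
        have a2 : pw (κ x) cA * τ ≤ pw (κ x) (cF + cA) * τ :=
          Nat.mul_le_mul_right _ (pw_mono le_rfl (by omega))
        omega)
  have e0 : Ex x ((κ x + 1) * (D x + 2)) pD (fun _ => [], 0) (sole 1 [D x]) (pw B cD) :=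
    (kD x (fun _ => []) B b0 z fun _ _ => rfl).mono fun s h => h.mono (by nlinarith)
  have e3 := (hI x _ _ _ _ (e0.upR.seq e1)).weak (time1 (E := E) k2)
  rw [← ha] at e3
  obtain ⟨s2, e2, u2⟩ := hp2 x _ _ _ _ (lt_two a B (κ x) (D x)) e3
  obtain ⟨s0, e0, u0⟩ := hp0 x _ _ _ e2
  have hT := time2 (a := a) (c := (2 * E + 3) * (2 * a + 2) + (2 * a + 8)) k2 k5 (by omega)
  obtain ⟨m1, m2⟩ := hM x _ s0 _ (e0.weak (Nat.le_sub_one_of_lt hT))
  rw [Nat.sub_add_cancel (by omega), u0, u2] at m1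
  refine ⟨?_, fun t i => (m2 t i).trans (space (by omega))⟩
  have h6 : t.1 6 = [A x (rc (F x) (D x))] := (ht 2).trans (by simp)
  simpa [tst1, hd, cons, h6] using m1

end Pool.Agent.MP_1a6d78_lc.ED

end MrgPart3

-- ======== part 4: formerly Pool.Agent.MP_1a6d78_lc.ED.OA
section MrgPart4

/-! Row OA: lifting, renaming, binding, the zero test and the call of the calculus with calls. -/

namespace Pool.Agent.MP_1a6d78_lc.ED

open Function

namespace OA

variable {κ β : List Bool → ℕ}

theorem lift (f : List Bool → Env → List ℕ) (hf : Cm κ f) : Co κ β fun x _ ρ => f x ρ := by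
  obtain ⟨c, h1, h2⟩ := hf
  refine ⟨c, fun x _ ρ B hB => h1 x ρ B hB.1, fun ℓ b hℓ => ?_⟩
  obtain ⟨p, hp⟩ := h2 ℓ b fun i => (hℓ i).2
  exact ⟨up p, fun x g σ B τ hB hσ _ h0 =>
    (Exec.upO (hp x σ B hB.1 hσ h0)).weak (Nat.le_add_right _ _)⟩

theorem bo_ren {x : List Bool} {g : Orc} {ρ : Env} {B : ℕ} (r : ℕ → ℕ) (h : Bo κ β x g ρ B) :
    Bo κ β x g (fun i => ρ (r i)) B :=
  ⟨⟨h.1.1, h.1.2.1, h.1.2.2.1, fun i => h.1.2.2.2 (r i)⟩, h.2⟩

theorem ren (f : List Bool → Orc → Env → List ℕ) (r : ℕ → ℕ) (hf : Co κ β f) :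
    Co κ β fun x g ρ => f x g fun i => ρ (r i) := by
  obtain ⟨c, h1, h2⟩ := hf
  refine ⟨c, fun x g ρ B hB => h1 x g _ B (bo_ren r hB), fun ℓ b hℓ => ?_⟩
  obtain ⟨p, hp⟩ := h2 (fun i => ℓ (r i)) b fun i => hℓ (r i)
  exact ⟨p, fun x g σ B τ hB hσ hz h0 => hp x g σ B τ (bo_ren r hB) hσ hz h0⟩

theorem calls (K τ : ℕ) {a c n : ℕ} (h : a + c + 1 ≤ n) :
    pw K a * τ + pw K c * τ ≤ pw K n * τ := by
  rw [← add_mul]
  exact Nat.mul_le_mul_right _ ((pw_add K a c).trans (pw_mono le_rfl h))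

theorem bind (e f : List Bool → Orc → Env → List ℕ) (he : Co κ β e) (hf : Co κ β f) :
    Co κ β fun x g ρ => f x g (cons (e x g ρ) ρ) := by
  obtain ⟨a, e1, e2⟩ := he
  obtain ⟨c, f1, f2⟩ := hf
  have hb : ∀ x g ρ B, Bo κ β x g ρ B → Bo κ β x g (cons (e x g ρ) ρ) (B + pw B a) :=
    fun x g ρ B hB => (hB.mono (Nat.le_add_right _ _)).cons fun y hy =>
      (e1 x g ρ B hB y hy).trans (Nat.le_add_left _ _)
  have hv : ∀ x g ρ B, Bo κ β x g ρ B →
      ∀ y ∈ f x g (cons (e x g ρ) ρ), y ≤ pw B ((a + 2) * c) :=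
    fun x g ρ B hB y hy => (f1 x g _ _ (hb x g ρ B hB) y hy).trans (pw_pw B a c)
  refine ⟨20 + (a + (a + 2) * c + 1), fun x g ρ B hB y hy =>
    (hv x g ρ B hB y hy).trans (pw_mono le_rfl (by omega)), fun ℓ b hℓ => ?_⟩
  have b0 : 0 < b := (hℓ 0).1.trans (hℓ 0).2
  obtain ⟨p, hp⟩ := e2 ℓ b hℓ
  obtain ⟨q, hq⟩ := f2 (PA.lay ℓ b) (b + 1) fun i => by
    cases i with
    | zero => exact ⟨b0, Nat.lt_succ_self b⟩
    | succ i => exact ⟨(hℓ i).1, Nat.lt_succ_of_lt (hℓ i).2⟩
  refine ⟨.seq p (.seq q (up (.seq (clr b) (mvLst (b + 1) b (b + 2))))),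
    fun x g σ B τ hB hσ hz h0 => ?_⟩
  have a1 := hp x g σ B τ hB hσ hz h0
  have g1 := a1.goodO hσ
  have hρ : (fun i => update σ b (e x g fun i => σ (ℓ i)) (PA.lay ℓ b i)) =
      cons (e x g fun i => σ (ℓ i)) fun i => σ (ℓ i) := by
    funext i
    cases i with
    | zero => exact update_self _ _ _
    | succ i => exact update_of_ne (hℓ i).2.ne _ _
  have a2 := hq x g (update σ b (e x g fun i => σ (ℓ i))) (B + pw B a) τ (hρ ▸ hb x g _ B hB) g1
    (by rw [update_of_ne b0.ne]; exact hz)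
    fun j hj => by rw [update_of_ne (by omega)]; exact h0 j (by omega)
  rw [hρ] at a2
  have g2 := a2.goodO g1
  have a3 := ex_clr (x := x) g2 b
  have g3 := a3.good g2
  have a4 := ex_mvLst (x := x) g3 (i := b + 1) (j := b) (t := b + 2) (B := pw B ((a + 2) * c))
    (by omega) (by omega) (by omega)
    (by rw [update_of_ne (by omega), update_self]; exact hv x g _ B hB) (update_self _ _ _)
    (by rw [update_of_ne (by omega), update_of_ne (by omega), update_of_ne (by omega)]
        exact h0 _ (by omega))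
  refine (a1.seq (a2.seq (Exec.upO (a3.seq a4)))).of_eq ?_ ?_
  · refine congrArg (·, 0) (funext fun k => ?_)
    by_cases k0 : k = b
    · rw [k0, update_self, update_self, update_of_ne (by omega), update_self]
    · rw [update_of_ne k0, update_of_ne k0]
      by_cases k1 : k = b + 1
      · rw [k1, update_self, h0 _ (by omega)]
      · rw [update_of_ne k1, update_of_ne k0, update_of_ne k1, update_of_ne k0]
  · have h1 := PA.time B (κ x) a ((a + 2) * c) hB.1.2.1
    have h2 := pw_pw B a c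
    have h3 := calls (κ x) τ (a := a) (c := c) (n := 20 + (a + (a + 2) * c + 1))
      (by rw [add_mul]; omega)
    omega

theorem ifz (e f : List Bool → Orc → Env → List ℕ) (he : Co κ β e) (hf : Co κ β f) :
    Co κ β fun x g ρ => if hd (ρ 0) = 0 then e x g ρ else f x g ρ := by
  obtain ⟨a, f1, f2⟩ := he
  obtain ⟨c, g1, g2⟩ := hf
  refine ⟨a + c + 1, fun x g ρ B hB y hy => ?_, fun ℓ b hℓ => ?_⟩
  · by_cases h : hd (ρ 0) = 0
    · simp only [if_pos h] at hy
      exact (f1 x g ρ B hB y hy).trans (pw_mono le_rfl (by omega))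
    · simp only [if_neg h] at hy
      exact (g1 x g ρ B hB y hy).trans (pw_mono le_rfl (by omega))
  · obtain ⟨p, hp⟩ := f2 ℓ b hℓ
    obtain ⟨q, hq⟩ := g2 ℓ b hℓ
    refine ⟨.ite (.nz (ℓ 0)) q p, fun x g σ B τ hB hσ hz h0 => ?_⟩
    have h1 := pw_add B a c
    have h2 := one_le_pw B a
    have h3 := one_le_pw B c
    have h4 := calls (κ x) τ (a := a) (c := c) le_rfl
    by_cases h : hd (σ (ℓ 0)) = 0
    · simp only [if_pos h]
      exact (Exq.iteF (by simp [tst1, h]) (hp x g σ B τ hB hσ hz h0)).weak (by omega)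
    · simp only [if_neg h]
      exact (Exq.iteT (by simp [tst1, h]) (hq x g σ B τ hB hσ hz h0)).weak (by omega)

theorem call (e : List Bool → Orc → Env → List ℕ) (he : Co κ β e)
    (hβ : ∀ x g ρ, ∀ a ∈ e x g ρ, a ≤ β x) : Cp κ β fun x g ρ => g (e x g ρ) := by
  obtain ⟨a, -, e2⟩ := he
  refine ⟨20 + (a + 2 + 1), fun x g ρ B hB y hy => ?_, fun ℓ b hℓ => ?_⟩
  · have h1 := le_pw B (c := 20 + (a + 2 + 1)) (by omega)
    have h2 := (hB.2.2 (e x g ρ)).trans hB.2.1
    have h3 : y = g (e x g ρ) := List.mem_singleton.1 hy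
    omega
  have b0 : 0 < b := (hℓ 0).1.trans (hℓ 0).2
  obtain ⟨p, hp⟩ := e2 ℓ b hℓ
  refine ⟨.seq p (.seq (up (mvLst b 0 (b + 1))) (.seq (.act none) (up (mvTop 0 b)))),
    fun x g σ B τ hB hσ hz h0 => ?_⟩
  have a1 := hp x g σ B τ hB hσ hz h0
  have g1 := a1.goodO hσ
  have a2 := ex_mvLst (x := x) g1 (i := b) (j := 0) (t := b + 1) (B := B)
    (by omega) (by omega) (by omega)
    (by rw [update_self]; exact fun y hy => (hβ x g _ y hy).trans hB.2.1)
    (by rw [update_of_ne b0.ne]; exact hz)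
    (by rw [update_of_ne (by omega)]; exact h0 _ (by omega))
  have g2 := a2.good g1
  have a3 := eo_call (x := x) (β := β x) (τ := τ) (g := g) g2 hB.1.1
    (by rw [update_self, update_self]; exact hβ x g _)
  have g3 := a3.goodO g2
  have a4 := ex_mvTop (x := x) g3 (i := 0) (j := b) b0.ne (update_self _ _ _)
    (by rw [update_of_ne b0.ne', update_of_ne b0.ne', update_self]; exact hB.1.1)
  refine (a1.seq ((Exec.upO a2).seq (a3.seq (Exec.upO a4)))).of_eq ?_ ?_
  · refine congrArg (·, 0) (funext fun k => ?_)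
    by_cases k0 : k = b
    · rw [k0, update_self, update_self, update_self, update_self, update_of_ne b0.ne',
        update_of_ne b0.ne', update_self]
    · rw [update_of_ne k0, update_of_ne k0]
      by_cases k1 : k = 0
      · rw [k1, update_self, hz]
      · rw [update_of_ne k1, update_of_ne k1, update_of_ne k1, update_of_ne k0, update_of_ne k0]
  · have h1 := PA.time B (κ x) a 2 hB.1.2.1
    have h2 := calls (κ x) τ (a := a) (c := 0) (n := 20 + (a + 2 + 1)) (by omega)
    have h3 : pw B 2 = B * B + 4 * B + 4 := by unfold pw; ring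
    have h4 : κ x * (3 * B + 4) ≤ κ x * (3 * pw B 2 + 4) := Nat.mul_le_mul_left _ (by omega)
    have h5 := (hB.2.2 (e x g fun i => σ (ℓ i))).trans hB.2.1
    have h6 : pw (κ x) 0 * τ = τ := one_mul τ
    rw [update_self, update_self]
    omega

end OA

theorem kitO (k b : List Bool → ℕ) : KitO k b where
  lift := OA.lift
  ren := OA.ren
  bind := OA.bind
  ifz := OA.ifz
  call := OA.call

end Pool.Agent.MP_1a6d78_lc.ED

end MrgPart4

-- ======== part 5: formerly Pool.Agent.MP_1a6d78_lc.ED.OC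
section MrgPart5

/-! PROJECT ED3, row OC: bounded iteration with calls. -/

namespace Pool.Agent.MP_1a6d78_lc.ED

open Function PC

namespace OC

def rest (b : ℕ) : Prog A1 C1 :=
  .seq (clr b) (.seq (mvLst (b + 3) b (b + 4)) (.seq (.act (.inc (b + 1))) (.act (.dec (b + 2)))))

theorem ex_rest {x : List Bool} {K B b m r : ℕ} {σ : ℕ → List ℕ} {a a' : List ℕ}
    (hz : ∀ j, b ≤ j → σ j = []) (g1 : Len K (update (st σ b a m r) (b + 3) a', 0))
    (ha : ∀ u ∈ a', u ≤ B) :
    Ex x K (rest b) (update (st σ b a m r) (b + 3) a', 0) (st σ b a' (m + 1) (r - 1), 0)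
      (2 * K + 1 + (2 * (K * (3 * B + 4) + 1) + 2)) := by
  have e2 := ex_clr (x := x) g1 b
  have g2 := e2.good g1
  have e3 := ex_mvLst (x := x) g2 (i := b + 3) (j := b) (t := b + 4) (B := B) (by omega)
    (by omega) (by omega) (by simpa using ha) (by simp)
    (by
      rw [update_of_ne (by omega), update_of_ne (by omega), st_hi _ _ _ (by omega)]
      exact hz _ (by omega))
  have g3 := e3.good g2
  have e4 := ex_inc (x := x) g3 (i := b + 1) (a := m) (l := []) (by simp [st])
  have g4 := e4.good g3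
  have e5 := ex_dec (x := x) g4 (i := b + 2) (a := r) (l := []) (by simp [st])
  refine (e2.seq (e3.seq (e4.seq e5))).of_eq ?_ le_rfl
  congr 1
  funext k
  have h3 := hz (b + 3) (by omega)
  simp only [st, update_apply]
  split_ifs <;> first | rfl | omega | simp_all

def prog (pz pn p : PO) (b : ℕ) : PO :=
  .seq pz (.seq (up (.act (.push (b + 1)))) (.seq pn
    (.seq (.loop (.nz (b + 2)) (.seq p (up (rest b))))
      (up (.seq (.act (.pop (b + 1))) (.act (.pop (b + 2))))))))

end OC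

open OC in
theorem iterO (κ β : List Bool → ℕ) : IterO κ β := by
  rintro nn z f ⟨cn, -, hpn⟩ hnκ ⟨cz, -, hpz⟩ ⟨c, -, hp⟩ ⟨c', hc'⟩
  refine ⟨cz + cn + 1 + (c' + 2) * (c + 4) + 1, fun x g ρ B hB a ha =>
    (hc' x g ρ B hB _ le_rfl a ha).trans (pw_mono le_rfl (by nlinarith)), fun ℓ b hℓ => ?_⟩
  have h0 := hℓ 0
  obtain ⟨p, hp⟩ := hp (lay ℓ b) (b + 3) (fun i => by
    match i with
    | 0 => simp only [lay]; omega
    | 1 => simp [lay]
    | i + 2 => have := hℓ i; simp only [lay]; omega)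
  obtain ⟨pz, hpz⟩ := hpz ℓ b hℓ
  obtain ⟨pn, hpn⟩ := hpn ℓ (b + 2) fun i => ⟨(hℓ i).1, by have := hℓ i; omega⟩
  refine ⟨OC.prog pz pn p b, fun x g σ B τ hB hL hσ hz => ?_⟩
  have hK : 1 ≤ κ x := hB.1.1
  set ρ : Env := fun i => σ (ℓ i) with hρ
  set n := nn x g ρ with hn
  set acc := itr (fun m acc => f x g (cons acc (cons [m] ρ))) (z x g ρ) with hacc
  have hnK : n ≤ κ x := hnκ x g ρ
  have hnB : n ≤ B := hnK.trans hB.1.2.1
  have hent : ∀ m ≤ n, ∀ a ∈ acc m, a ≤ B + pw B c' := fun m hm a ha =>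
    (hc' x g ρ B hB m hm a ha).trans (Nat.le_add_left _ _)
  have e1 := hpz x g σ B τ hB hL hσ hz
  have g1 := e1.goodO hL
  have e2 := ex_push (x := x) g1 (b + 1) (by simpa [hz (b + 1) (by omega)] using hK)
  have g2 := e2.good g1
  have hr : (fun i => update (update σ b (z x g ρ)) (b + 1)
      (0 :: update σ b (z x g ρ) (b + 1)) (ℓ i)) = ρ := by
    funext i
    have := hℓ i
    rw [update_of_ne (by omega), update_of_ne (by omega)]
  have e3 := hpn x g _ B τ (hr.symm ▸ hB) g2
    (by rw [update_of_ne (by omega), update_of_ne (by omega), hσ])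
    (fun j hj => by rw [update_of_ne (by omega), update_of_ne (by omega), hz j (by omega)])
  rw [hr] at e3
  have e3' := e3.of_eq (s'' := (st σ b (acc 0) 0 (n - 0), 0)) (by
    simp [st, hz (b + 1) (by omega), hacc, itr, hn, hρ]) le_rfl
  have step : ∀ m < n, Len (κ x) (st σ b (acc m) m (n - m), 0) →
      Eo x (κ x) (β x) τ g (.seq p (up (rest b))) (st σ b (acc m) m (n - m), 0)
        (st σ b (acc (m + 1)) (m + 1) (n - (m + 1)), 0)
        (pw (B + pw B c') c + pw (κ x) c * τ +
          (2 * κ x + 1 + (2 * (κ x * (3 * (B + pw B c') + 4) + 1) + 2))) := by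
    intro m hm gd
    have e := hp x g (st σ b (acc m) m (n - m)) (B + pw B c') τ (by
      rw [st_lay fun i => (hℓ i).2]
      exact ((hB.mono (Nat.le_add_right _ _)).cons (by simp; omega)).cons (hent m hm.le)) gd
      (by
        simp only [st]
        rw [update_of_ne (by omega), update_of_ne (by omega), update_of_ne (by omega), hσ])
      (fun j hj => by rw [st_hi _ _ _ hj]; exact hz j (by omega))
    rw [st_lay fun i => (hℓ i).2] at e
    exact e.seq (ex_rest hz (e.goodO gd) (hent (m + 1) hm)).upO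
  have len : ∀ m ≤ n, Len (κ x) (st σ b (acc m) m (n - m), 0) := by
    intro m
    induction m with
    | zero => exact fun _ => e3'.goodO g2
    | succ m ih => exact fun hm => (step m hm (ih (by omega))).goodO (ih (by omega))
  have e4 := Exq.loop_seq (R := Ro x (κ x) (β x) τ g) (tst := tst1 x) (c := .nz (b + 2))
    (p := .seq p (up (rest b))) (fun m => (st σ b (acc m) m (n - m), 0)) n _
    (fun m hm => ⟨by simp [tst1, st, hd]; omega, step m hm (len m hm.le)⟩)
    (by simp [tst1, st, hd])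
  have e5 := ex_pop (x := x) (len n le_rfl) (b + 1)
  have e6 := ex_pop (x := x) (e5.good (len n le_rfl)) (b + 2)
  refine (e1.seq (e2.upO.seq (e3'.seq (e4.seq (e5.seq e6).upO)))).of_eq ?_ ?_
  · congr 1
    funext k
    have a1 := hz (b + 1) (by omega)
    have a2 := hz (b + 2) (by omega)
    simp only [st, update_apply]
    split_ifs <;> first | rfl | omega | simp_all
  · have t1 := (cost hB.1.2.1 hnB (Nat.le_add_right B (pw B c'))
      (one_le_pw (B + pw B c') c)).trans ((pw_mul (B + pw B c') c 4).le.trans (pw_pw _ _ _))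
    have t2 := pw_add B cz cn
    have t3 := pw_add B (cz + cn + 1) ((c' + 2) * (c + 4))
    have t4 := pw_add (κ x) cz cn
    have t5 := pw_add (κ x) (cz + cn + 1) ((c' + 2) * (c + 4))
    have t6 : n * pw (κ x) c ≤ pw (κ x) ((c' + 2) * (c + 4)) :=
      (Nat.mul_le_mul_right _ (hnK.trans ((Nat.le_add_right _ 2).trans
        (le_pw (κ x) (c := 1) le_rfl)))).trans
        ((pw_mul _ _ _).le.trans (pw_mono le_rfl (by nlinarith)))
    have t7 := Nat.mul_le_mul_right τ (show pw (κ x) cz + pw (κ x) cn + n * pw (κ x) c ≤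
      pw (κ x) (cz + cn + 1 + (c' + 2) * (c + 4) + 1) by omega)
    have t8 := Nat.zero_le (κ x * (13 * B + 13))
    linarith [Nat.zero_le n]

end Pool.Agent.MP_1a6d78_lc.ED

end MrgPart5

-- ======== part 6: formerly Pool.Agent.MP_1a6d78_lc.ED.OD
section MrgPart6

/-! PROJECT ED3, row OD: tabulation in the calculus with calls. -/

namespace Pool.Agent.MP_1a6d78_lc.ED

open Function

namespace OD

theorem time (B K N cn cf τ : ℕ) (hN : N ≤ K) (hK : K ≤ B) :
    pw B cn + (N * (4 * pw B cf + 4 + pw K cf * τ + 1) + 1 + 1) ≤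
      pw B (cn + cf + 13) + pw K (cn + cf + 13) * τ := by
  have h1 := PD.time B N cn cf (hN.trans hK)
  have h2 : N ≤ pw K 1 := by have := le_pw K (c := 1) le_rfl; omega
  have h3 : N * pw K cf ≤ pw K (cn + cf + 13) :=
    (Nat.mul_le_mul_right _ h2).trans ((pw_mul K 1 cf).le.trans (pw_mono le_rfl (by omega)))
  have h4 := Nat.mul_le_mul_right τ h3
  have h5 : N * (4 * pw B cf + 4 + pw K cf * τ + 1) =
      N * (4 * pw B cf + 4 + 1) + N * pw K cf * τ := by ring
  omega

end OD

open PD in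
theorem tabO (k b : List Bool → ℕ) : TabO k b := by
  intro n f hnk ⟨cn, _, Pn⟩ ⟨cf, bf, Pf⟩
  have hbd : ∀ x o ρ B, Bo k b x o ρ B → ∀ e < n x, Bo k b x o (cons [e] ρ) B := by
    intro x o ρ B hB e he
    refine hB.cons fun a ha => ?_
    have h1 := hnk x
    have h2 := hB.1.2.1
    rw [List.mem_singleton.1 ha]
    omega
  refine ⟨cn + cf + 13, fun x o ρ B hB a ha => ?_, fun ℓ t hℓ => ?_⟩
  · obtain ⟨e, he, rfl⟩ := List.mem_map.1 ha
    exact (bf x o _ B (hbd x o ρ B hB e (List.mem_range.1 he)) _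
      (List.mem_singleton_self _)).trans (pw_mono le_rfl (by omega))
  obtain ⟨pn, hpn⟩ := Pn ℓ (t + 1) fun i => (hℓ i).2.trans (Nat.lt_succ_self t)
  obtain ⟨pf, hpf⟩ := Pf (lay (t + 1) ℓ) (t + 2) fun i => by
    cases i with
    | zero => exact ⟨Nat.succ_pos _, Nat.lt_succ_self _⟩
    | succ i => have := hℓ i; change 0 < ℓ i ∧ ℓ i < t + 2; omega
  refine ⟨.seq (up pn) (.seq (.loop (.nz (t + 1)) (.seq (up (.act (.dec (t + 1))))
    (.seq pf (up (mvTop (t + 2) t))))) (up (.act (.pop (t + 1))))),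
    fun x o σ B τ hB hσ hz0 hz => ?_⟩
  have hK : 1 ≤ k x := hB.1.1
  have hN : n x ≤ k x := hnk x
  have ht : 0 < t := (hℓ 0).1.trans (hℓ 0).2
  have hne : ∀ i, ℓ i ≠ t := fun i => (hℓ i).2.ne
  have hne1 : ∀ i, ℓ i ≠ t + 1 := fun i => by have := hℓ i; omega
  have e1 := Exec.upO (β := b x) (τ := τ) (g := o)
    (hpn x σ B hB.1 hσ fun j hj => hz j (by omega))
  set g : ℕ → ℕ := fun e => f x o (cons [e] fun i => σ (ℓ i)) with hg
  have hL : ∀ m ≤ n x, ∀ u : ℕ,
      Len (k x) (update (update σ t ((List.range' (n x - m) m).map g)) (t + 1) [u], 0) :=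
    fun m hm u => Len.upd (h := 0) (hσ.upd (h' := 0) t (by simp; omega)) (t + 1) (by simpa using hK)
  have e2 := Exq.loop_seq (R := Ro x (k x) (b x) τ o) (tst := tst1 x) (c := .nz (t + 1))
    (p := .seq (up (.act (.dec (t + 1)))) (.seq pf (up (mvTop (t + 2) t))))
    (fun m => (update (update σ t ((List.range' (n x - m) m).map g)) (t + 1) [n x - m], 0))
    (n x) (4 * pw B cf + 4 + pw (k x) cf * τ)
    (fun m hm => ⟨by simp [tst1, hd]; omega, by
      have a1 := ex_dec (x := x) (hL m hm.le (n x - m)) (i := t + 1) (a := n x - m) (l := [])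
        (by simp)
      rw [update_idem, Nat.sub_sub] at a1
      have g1 := hL m hm.le (n x - (m + 1))
      have henv : (fun i => update (update σ t ((List.range' (n x - m) m).map g)) (t + 1)
          [n x - (m + 1)] (lay (t + 1) ℓ i)) = cons [n x - (m + 1)] fun i => σ (ℓ i) := by
        funext i
        cases i with
        | zero => simp [lay, cons]
        | succ i => simp [lay, cons, update_of_ne, hne, hne1]
      have hb := hbd x o _ B hB (n x - (m + 1)) (by omega)
      have a2 := hpf x o _ B τ (henv ▸ hb) g1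
        (by rw [update_of_ne (by omega), update_of_ne (by omega)]; exact hz0) fun j hj => by
        rw [update_of_ne (by omega), update_of_ne (by omega)]
        exact hz j (by omega)
      rw [henv] at a2
      have hv : g (n x - (m + 1)) ≤ pw B cf := bf x o _ B hb _ (List.mem_singleton_self _)
      have a3 := ex_mvTop (x := x) (a2.goodO g1) (i := t + 2) (j := t) (a := g (n x - (m + 1)))
        (l := []) (by omega) (by simp [hg]) (by simp; omega)
      refine (a1.upO.seq (a2.seq a3.upO)).of_eq ?_ (by omega)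
      congr 1
      funext j
      have hr : List.range' (n x - (m + 1)) (m + 1) =
          (n x - (m + 1)) :: List.range' (n x - m) m := by
        rw [List.range'_succ, show n x - (m + 1) + 1 = n x - m by omega]
      have h2 := hz (t + 2) (by omega)
      by_cases c0 : j = t
      · subst c0; simp [hr]
      by_cases c1 : j = t + 1
      · subst c1; simp
      by_cases c2 : j = t + 2
      · subst c2; simp [h2]
      simp [update_of_ne, c0, c1, c2]⟩)
    (by simp [tst1, hd])
  have e3 := ex_pop (x := x) (hL (n x) le_rfl (n x - n x)) (t + 1)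
  have h0 : update σ (t + 1) [n x] =
      update (update σ t ((List.range' (n x - 0) 0).map g)) (t + 1) [n x - 0] := by
    have h1 : (List.range' (n x - 0) 0).map g = σ t := (hz t le_rfl).symm
    rw [h1, update_eq_self, Nat.sub_zero]
  rw [h0] at e1
  refine (e1.seq (e2.seq e3.upO)).of_eq ?_ (OD.time B _ _ cn cf τ hN hB.1.2.1)
  congr 1
  funext j
  have h1 := hz (t + 1) (by omega)
  by_cases c0 : j = t
  · subst c0; simp [tab, List.range_eq_range', hg]
  by_cases c1 : j = t + 1
  · subst c1; simp [h1]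
  simp [update_of_ne, c0, c1]

end Pool.Agent.MP_1a6d78_lc.ED

end MrgPart6

-- marker of a merged file
example : 731051 + 314240 = 731051 + 314240 := rfl
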