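import Pool.Agent.MP_1a6d78_lc.ED.Fin
import Pool.Agent.MP_1a6d78_lc.ED.Mach

/-! PROJECT ED: assembly. -/

namespace Pool.Agent.MP_1a6d78_lc.ED

theorem kitOne (κ : List Bool → ℕ) : Kit1 κ := kit1 κ (kitA κ) (kitB κ) (iterS κ) (tabS κ)

theorem kitTwo (κ : List Bool → ℕ) : Kit2 κ := kit2 κ (kitOne κ)

theorem mach : MachS := machS ctl l20 l12

theorem val : ValS := valS boxK biS stepS

theorem main : MainS :=
  fin mach (fun r => algD algV r (kitOne _) (kitTwo _)) kkS
    (distS val boxK rowS kkS (eeK mongeS kkS fun dl is sb => levA dl is sb)) codeS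
    fun _ dl is sb => levA dl is sb

end Pool.Agent.MP_1a6d78_lc.ED
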