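import Pool.Agent.MP_1a6d78_lc.ED.Spec
import Mathlib.Algebra.BigOperators.Group.Finset.Basic
import Mathlib.Order.Interval.Finset.Nat
import Mathlib.Data.List.GetD

-- ======== part 0: formerly Pool.Agent.MP_1a6d78_lc.ED.Ctl
section MrgPart0

/-! ROW CTL: a structured tape program is a Turing machine. -/

namespace Pool.Agent.MP_1a6d78_lc.ED

open Function

namespace CtlR

section
variable {A C : Type}

/-- Control points of a program. -/
def Ctl : Prog A C → Type
  | .act _ => Unit
  | .seq p q => Ctl p ⊕ Ctl q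
  | .ite _ p q => Unit ⊕ Ctl p ⊕ Ctl q
  | .loop _ p => Unit ⊕ Ctl p

theorem fin_ctl : ∀ p : Prog A C, Finite (Ctl p)
  | .act _ => inferInstanceAs (Finite Unit)
  | .seq p q => by
      have := fin_ctl p
      have := fin_ctl q
      exact inferInstanceAs (Finite (Ctl p ⊕ Ctl q))
  | .ite _ p q => by
      have := fin_ctl p
      have := fin_ctl q
      exact inferInstanceAs (Finite (Unit ⊕ Ctl p ⊕ Ctl q))
  | .loop _ p => by
      have := fin_ctl p
      exact inferInstanceAs (Finite (Unit ⊕ Ctl p))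

/-- The first control point. -/
def st : (p : Prog A C) → Ctl p
  | .act _ => ()
  | .seq p _ => Sum.inl (st p)
  | .ite _ _ _ => Sum.inl ()
  | .loop _ _ => Sum.inl ()

/-- The action to do and the next control point (`none`: finished). -/
def nx (τ : C → Bool) : (p : Prog A C) → Ctl p → Option A × Option (Ctl p)
  | .act a, _ => (some a, none)
  | .seq p q, Sum.inl c => ((nx τ p c).1, some ((nx τ p c).2.elim (Sum.inr (st q)) Sum.inl))
  | .seq _ q, Sum.inr c => ((nx τ q c).1, (nx τ q c).2.map Sum.inr)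
  | .ite b p q, Sum.inl _ =>
      (none, some (if τ b then Sum.inr (Sum.inl (st p)) else Sum.inr (Sum.inr (st q))))
  | .ite _ p _, Sum.inr (Sum.inl c) =>
      ((nx τ p c).1, (nx τ p c).2.map fun d => Sum.inr (Sum.inl d))
  | .ite _ _ q, Sum.inr (Sum.inr c) =>
      ((nx τ q c).1, (nx τ q c).2.map fun d => Sum.inr (Sum.inr d))
  | .loop b p, Sum.inl _ => (none, if τ b then some (Sum.inr (st p)) else none)
  | .loop _ p, Sum.inr c => ((nx τ p c).1, some ((nx τ p c).2.elim (Sum.inl ()) Sum.inr))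

/-- A bound for the weights of the tests of a program. -/
def bd (ix : C → ℕ) : Prog A C → ℕ
  | .act _ => 0
  | .seq p q => bd ix p + bd ix q
  | .ite b p q => ix b + bd ix p + bd ix q
  | .loop b p => ix b + bd ix p

theorem nx_congr (ix : C → ℕ) (k : ℕ) (τ τ' : C → Bool) (h : ∀ c, ix c ≤ k → τ c = τ' c) :
    ∀ (p : Prog A C) (c : Ctl p), bd ix p ≤ k → nx τ p c = nx τ' p c
  | .act _, _, _ => rfl
  | .seq p q, Sum.inl c, hb => by
      simp only [bd] at hb
      simp only [nx, nx_congr ix k τ τ' h p c (by omega)]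
  | .seq p q, Sum.inr c, hb => by
      simp only [bd] at hb
      simp only [nx, nx_congr ix k τ τ' h q c (by omega)]
  | .ite b p q, Sum.inl _, hb => by
      simp only [bd] at hb
      simp only [nx, h b (by omega)]
  | .ite b p q, Sum.inr (Sum.inl c), hb => by
      simp only [bd] at hb
      simp only [nx, nx_congr ix k τ τ' h p c (by omega)]
  | .ite b p q, Sum.inr (Sum.inr c), hb => by
      simp only [bd] at hb
      simp only [nx, nx_congr ix k τ τ' h q c (by omega)]
  | .loop b p, Sum.inl _, hb => by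
      simp only [bd] at hb
      simp only [nx, h b (by omega)]
  | .loop b p, Sum.inr c, hb => by
      simp only [bd] at hb
      simp only [nx, nx_congr ix k τ τ' h p c (by omega)]

variable {S Q : Type} (act : A → S → S) (tst : C → S → Bool) (G : S → Prop)
  (N : Q → (C → Bool) → Option A × Q)

/-- One step of a flowchart. -/
def stp (a : Q × S) : Q × S :=
  ((N a.1 fun c => tst c a.2).2, (N a.1 fun c => tst c a.2).1.elim a.2 fun b => act b a.2)

/-- `b` is reached from `a` in at most `n` steps, through good states. -/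
def Rch (a b : Q × S) (n : ℕ) : Prop :=
  G a.2 → ∃ m ≤ n, (stp act tst N)^[m] a = b ∧ ∀ t ≤ m, G ((stp act tst N)^[t] a).2

variable {act tst G N}

theorem Rch.trans {a b c : Q × S} {m n : ℕ} (h1 : Rch act tst G N a b m)
    (h2 : Rch act tst G N b c n) : Rch act tst G N a c (m + n) := by
  intro ha
  obtain ⟨m1, l1, e1, g1⟩ := h1 ha
  obtain ⟨m2, l2, e2, g2⟩ := h2 (by rw [← e1]; exact g1 m1 le_rfl)
  refine ⟨m2 + m1, by omega, by rw [iterate_add_apply, e1, e2], fun t ht => ?_⟩
  by_cases hl : t ≤ m1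
  · exact g1 t hl
  · obtain ⟨u, rfl⟩ : ∃ u, t = u + m1 := ⟨t - m1, by omega⟩
    rw [iterate_add_apply, e1]
    exact g2 u (by omega)

theorem Rch.one {a b : Q × S} (h : stp act tst N a = b) (hg : G a.2 → G b.2) :
    Rch act tst G N a b 1 := by
  intro ha
  refine ⟨1, le_rfl, h, fun t ht => ?_⟩
  obtain rfl | rfl : t = 0 ∨ t = 1 := by omega
  · exact ha
  · rw [iterate_one, h]
    exact hg ha

theorem Rch.ctl {q q' : Q} {s : S} (h : stp act tst N (q, s) = (q', s)) :
    Rch act tst G N (q, s) (q', s) 1 := Rch.one h id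

theorem Rch.le {a b : Q × S} {m n : ℕ} (h : Rch act tst G N a b m) (hl : m ≤ n) :
    Rch act tst G N a b n := fun ha => by
  obtain ⟨u, l, r⟩ := h ha
  exact ⟨u, l.trans hl, r⟩

/-- The program `p` sits in the flowchart `N` with exit `e`. -/
def Emb (N : Q → (C → Bool) → Option A × Q) (p : Prog A C) (j : Ctl p → Q) (e : Q) : Prop :=
  ∀ c τ, N (j c) τ = ((nx τ p c).1, (nx τ p c).2.elim e j)

theorem exec_rch {p : Prog A C} {s s' : S} {n : ℕ} (h : Exec act tst G p s s' n) :
    ∀ (j : Ctl p → Q) (e : Q), Emb N p j e → Rch act tst G N (j (st p), s) (e, s') n := by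
  induction h with
  | act a s hg =>
    intro j e hE
    refine Rch.one ?_ fun _ => hg
    simp only [stp, hE _ _]
    rfl
  | @seq p q s s' s'' m n _ _ ih1 ih2 =>
    intro j e hE
    refine (ih1 (fun c => j (Sum.inl c)) (j (Sum.inr (st q))) fun c τ => ?_).trans
      (ih2 (fun c => j (Sum.inr c)) e fun c τ => ?_)
    · rw [hE]
      simp only [nx]
      cases (nx τ p c).2 <;> rfl
    · rw [hE]
      simp only [nx]
      cases (nx τ q c).2 <;> rfl
  | @iteT c p q s s' n ht _ ih =>
    intro j e hE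
    rw [Nat.add_comm]
    refine (Rch.ctl (q' := j (Sum.inr (Sum.inl (st p)))) ?_).trans
      (ih (fun c => j (Sum.inr (Sum.inl c))) e fun c τ => ?_)
    · simp only [stp, hE _ _, st, nx, ht]
      rfl
    · rw [hE]
      simp only [nx]
      cases (nx τ p c).2 <;> rfl
  | @iteF c p q s s' n ht _ ih =>
    intro j e hE
    rw [Nat.add_comm]
    refine (Rch.ctl (q' := j (Sum.inr (Sum.inr (st q)))) ?_).trans
      (ih (fun c => j (Sum.inr (Sum.inr c))) e fun c τ => ?_)
    · simp only [stp, hE _ _, st, nx, ht]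
      rfl
    · rw [hE]
      simp only [nx]
      cases (nx τ q c).2 <;> rfl
  | @loopF c p s ht =>
    intro j e hE
    refine Rch.one ?_ id
    simp only [stp, hE _ _, st, nx, ht]
    rfl
  | @loopT c p s s' s'' m n ht _ _ ih1 ih2 =>
    intro j e hE
    rw [Nat.add_comm]
    refine (Rch.ctl (q' := j (Sum.inr (st p))) ?_).trans
      ((ih1 (fun c => j (Sum.inr c)) (j (Sum.inl ())) fun c τ => ?_).trans (ih2 j e hE))
    · simp only [stp, hE _ _, st, nx, ht]
      rfl
    · rw [hE]
      simp only [nx]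
      cases (nx τ p c).2 <;> rfl
  | weak _ hl ih => exact fun j e hE => (ih j e hE).le hl

end

/-- Number of tapes a test needs. -/
def ix : C0 → ℕ
  | .sc i _ => i + 1
  | .rd _ => 0

/-- A test read off the scanned symbols. -/
def tk (k : ℕ) (r : Option Bool) (γ : Fin k → Sym) : C0 → Bool
  | .sc i f => if h : i < k then f (γ ⟨i, h⟩) else false
  | .rd f => f r

def im : Option A0 → SignType
  | some (.inp d) => d
  | _ => 0

def wv : Option A0 → ℕ → Sym → Sym × SignType
  | some (.mv j d), i, g => (g, if i = j then d else 0)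
  | some (.wr j γ), i, g => (if i = j then γ else g, 0)
  | _, _, g => (g, 0)

/-- The machine of a flowchart. -/
def mk (k : ℕ) {Q : Type} (hQ : Finite Q) (N : Q → (C0 → Bool) → Option A0 × Q)
    (out : Q → Option Bool) (q0 : Q) : TM where
  k := k
  Q := Q
  Γ := Sym
  finQ := hQ
  finΓ := inferInstance
  blank := none
  start := q0
  out := out
  δ := fun q r γ => ((N q (tk k r γ)).2, im (N q (tk k r γ)).1,
    fun i => wv (N q (tk k r γ)).1 i (γ i))

theorem move_zero (p : ℕ) : move p 0 = p := by simp [move]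

section
variable {k : ℕ} {Q : Type} {hQ : Finite Q} {N : Q → (C0 → Bool) → Option A0 × Q}
  {out : Q → Option Bool} {q0 : Q}

def cf (k : ℕ) (hQ : Finite Q) (N : Q → (C0 → Bool) → Option A0 × Q)
    (out : Q → Option Bool) (q0 : Q) (a : Q × S0) : (mk k hQ N out q0).Cfg :=
  ⟨a.1, a.2.pos, fun i => a.2.tape i.1, fun i => a.2.head i.1⟩

theorem pos_stp (x : List Bool) (a : Q × S0) (hp : a.2.pos ≤ x.length) :
    (stp (act0 x) (tst0 x) N a).2.pos ≤ x.length := by
  simp only [stp]
  rcases (N a.1 fun c => tst0 x c a.2).1 with _ | _ | _ | _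
  · exact hp
  · exact hp
  · exact hp
  · exact min_le_right _ _

theorem step_cf (hN : ∀ q τ τ', (∀ c, ix c ≤ k → τ c = τ' c) → N q τ = N q τ')
    (ho : ∀ q τ, (out q).isSome = true → N q τ = (none, q)) (x : List Bool) (a : Q × S0)
    (hp : a.2.pos ≤ x.length) :
    (mk k hQ N out q0).step x (cf k hQ N out q0 a) =
      cf k hQ N out q0 (stp (act0 x) (tst0 x) N a) := by
  obtain ⟨q, s⟩ := a
  unfold TM.step
  by_cases h : (out q).isSome = true
  · rw [if_pos (by exact h)]
    simp only [stp, ho q _ h]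
    rfl
  · rw [if_neg (by exact h)]
    have e : N q (tk k x[s.pos]? fun i => s.tape i.1 (s.head i.1)) = N q fun c => tst0 x c s := by
      refine hN q _ _ fun c hc => ?_
      cases c with
      | sc i f =>
        have hi : i < k := hc
        simp only [tk, tst0, dif_pos hi]
      | rd f => rfl
    simp only [mk, cf, stp, e]
    have hp' : min s.pos x.length = s.pos := min_eq_left hp
    rcases (N q fun c => tst0 x c s).1 with _ | ⟨j, d⟩ | ⟨j, γ⟩ | d
    · simp only [im, wv, move_zero, hp', update_eq_self, Option.elim]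
    · simp only [im, wv, move_zero, hp', update_eq_self, Option.elim, act0]
      congr 1
      funext i
      by_cases hi : i.1 = j
      · subst hi
        simp
      · simp [hi, move_zero]
    · simp only [im, wv, move_zero, hp', Option.elim, act0]
      congr 1
      funext i
      by_cases hi : i.1 = j
      · subst hi
        simp
      · simp [hi]
    · simp only [im, wv, move_zero, update_eq_self, Option.elim, act0]

theorem run_cf (hN : ∀ q τ τ', (∀ c, ix c ≤ k → τ c = τ' c) → N q τ = N q τ')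
    (ho : ∀ q τ, (out q).isSome = true → N q τ = (none, q)) (x : List Bool) (t : ℕ) :
    (mk k hQ N out q0).run x t =
        cf k hQ N out q0 ((stp (act0 x) (tst0 x) N)^[t] (q0, init0)) ∧
      ((stp (act0 x) (tst0 x) N)^[t] (q0, init0)).2.pos ≤ x.length := by
  induction t with
  | zero => exact ⟨rfl, Nat.zero_le _⟩
  | succ t ih =>
    rw [iterate_succ_apply']
    refine ⟨?_, pos_stp x _ ih.2⟩
    rw [← step_cf hN ho x _ ih.2, ← ih.1]
    unfold TM.run
    rw [iterate_succ_apply']

end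

/-- The flowchart of a program with a final test. -/
def flow (p : Prog A0 C0) (c : C0) :
    Ctl p ⊕ Option Bool → (C0 → Bool) → Option A0 × (Ctl p ⊕ Option Bool)
  | Sum.inl q, τ => ((nx τ p q).1, (nx τ p q).2.elim (Sum.inr none) Sum.inl)
  | Sum.inr none, τ => (none, Sum.inr (some (τ c)))
  | Sum.inr (some b), _ => (none, Sum.inr (some b))

end CtlR

open CtlR in
theorem ctl : CtlS := by
  intro p c
  have := fin_ctl p
  let out : Ctl p ⊕ Option Bool → Option Bool := Sum.elim (fun _ => none) id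
  have hN : ∀ q τ τ', (∀ b, ix b ≤ bd ix p + ix c → τ b = τ' b) →
      flow p c q τ = flow p c q τ' := by
    rintro (q | _ | b) τ τ' h
    · simp only [flow, nx_congr ix _ τ τ' h p q (Nat.le_add_right _ _)]
    · simp only [flow, h c (Nat.le_add_left _ _)]
    · rfl
  have ho : ∀ q τ, (out q).isSome = true → flow p c q τ = (none, q) := by
    rintro (q | _ | b) τ h
    · cases h
    · cases h
    · rfl
  refine ⟨mk (bd ix p + ix c) inferInstance (flow p c) out (Sum.inl (st p)), fun x w s T h => ?_⟩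
  obtain ⟨m, hm, e, g⟩ := exec_rch (N := flow p c) h Sum.inl (Sum.inr none) (fun _ _ => rfl)
    fun _ => Nat.zero_le _
  have fin : ∀ u, (CtlR.stp (act0 x) (tst0 x) (flow p c))^[u + 1 + m]
      (Sum.inl (st p), init0) = (Sum.inr (some (tst0 x c s)), s) := by
    intro u
    rw [iterate_add_apply, e, iterate_succ_apply]
    exact iterate_fixed rfl u
  refine ⟨?_, fun t i => ?_⟩
  · rw [(run_cf hN ho x _).1]
    obtain ⟨u, hu⟩ : ∃ u, T + 1 = u + 1 + m := ⟨T - m, by omega⟩
    rw [hu, fin u]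
    rfl
  · rw [(run_cf hN ho x _).1]
    by_cases ht : t ≤ m
    · exact g t ht i.1
    · obtain ⟨u, rfl⟩ : ∃ u, t = u + 1 + m := ⟨t - m - 1, by omega⟩
      rw [fin u]
      have := g m le_rfl i.1
      rw [e] at this
      exact this

end Pool.Agent.MP_1a6d78_lc.ED

end MrgPart0

-- ======== part 1: formerly Pool.Agent.MP_1a6d78_lc.ED.Ara
section MrgPart1

/-! PROJECT ED, row ARA: structural rules, loops and sums of the closure calculus. -/

namespace Pool.Agent.MP_1a6d78_lc.ED

namespace Ara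

variable {κ : List Bool → ℕ}

theorem congr {f g : List Bool → Env → List ℕ} (h : Cm κ f) (e : ∀ x ρ, f x ρ = g x ρ) :
    Cm κ g := by
  have : f = g := funext fun x => funext fun ρ => e x ρ
  exact this ▸ h

theorem one_le_pw (B c : ℕ) : 1 ≤ pw B c := Nat.one_le_pow _ _ (by omega)

theorem pw_succ (B c : ℕ) : pw B (c + 1) = pw B c * (B + 2) := pow_succ _ _

theorem le_pw_succ (B c : ℕ) : pw B c ≤ pw B (c + 1) := by
  rw [pw_succ]
  exact Nat.le_mul_of_pos_right _ (by omega)

theorem self_le_pw (B c : ℕ) : B ≤ pw B (c + 1) := by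
  rw [pw_succ]
  have := Nat.le_mul_of_pos_left (B + 2) (one_le_pw B c)
  omega

theorem hd_le {l : List ℕ} {B : ℕ} (h : ∀ a ∈ l, a ≤ B) : hd l ≤ B := by
  cases l with
  | nil => exact Nat.zero_le _
  | cons a l => exact h a (List.mem_cons_self ..)

theorem bd_tl {x : List Bool} {ρ : Env} {B : ℕ} (h : Bd κ x ρ B) : Bd κ x (tl ρ) B :=
  ⟨h.1, h.2.1, h.2.2.1, fun i => h.2.2.2 (i + 1)⟩

theorem bd_cons {x : List Bool} {ρ : Env} {B m : ℕ} (h : Bd κ x ρ B) (hm : m ≤ B) :
    Bd κ x (cons [m] ρ) B := by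
  refine ⟨h.1, h.2.1, h.2.2.1, fun i => ?_⟩
  cases i with
  | zero =>
    intro a ha
    rw [List.mem_singleton.1 ha]
    exact hm
  | succ i => exact h.2.2.2 i

/-- The bound for the body of a loop. -/
theorem g_bd {g : List Bool → Env → ℕ → ℕ} (hg : Cn κ fun x ρ => g x (tl ρ) (hd (ρ 0))) :
    ∃ c, ∀ x ρ B, Bd κ x ρ B → ∀ m ≤ B, g x ρ m ≤ pw B c := by
  obtain ⟨c, hc, -⟩ := hg
  exact ⟨c, fun x ρ B h m hm => hc x (cons [m] ρ) B (bd_cons h hm) _ (List.mem_singleton_self _)⟩

theorem tlM (A : KitA κ) {f : List Bool → Env → List ℕ} (h : Cm κ f) :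
    Cm κ fun x ρ => f x (tl ρ) := A.ren f (· + 1) h

theorem un (A : KitA κ) (φ : List Bool → ℕ → ℕ) (op : Cn κ fun x ρ => φ x (hd (ρ 0)))
    {a : List Bool → Env → ℕ} (ha : Cn κ a) : Cn κ fun x ρ => φ x (a x ρ) :=
  A.bind _ _ ha op

theorem hdv (A : KitA κ) (K : KitB κ) (i : ℕ) : Cn κ fun _ ρ => hd (ρ i) :=
  un A (fun _ a => a - 1) K.pred (a := fun _ ρ => hd (ρ i) + 1) (A.ren _ (fun _ => i) K.succ)

/-- Slots of the body of a loop. -/
def rn : ℕ → ℕ
  | 0 => 0
  | 1 => 1
  | i + 2 => i + 4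

theorem iterG (A : KitA κ) (I : IterS κ) {n : List Bool → Env → ℕ}
    {z : List Bool → Env → List ℕ} (f : List Bool → Env → ℕ → List ℕ → List ℕ) (hn : Cn κ n)
    (hz : Cm κ z) (hf : Cm κ fun x ρ => f x (tl (tl ρ)) (hd (ρ 1)) (ρ 0))
    (hb : ∃ c, ∀ x ρ B, Bd κ x ρ B → ∀ l : List ℕ, (∀ a ∈ l, a ≤ B) → ∀ m ≤ B,
      ∀ a ∈ itr (f x ρ) l m, a ≤ pw B c) :
    Cm κ fun x ρ => itr (f x ρ) (z x ρ) (n x ρ) := by
  obtain ⟨c, hc⟩ := hb
  have h1 := I _ (A.ren _ rn hf) ⟨c, fun x ρ B h m hm =>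
    hc x (tl (tl ρ)) B (bd_tl (bd_tl h)) (ρ 1) (h.2.2.2 1) m (hm.trans (hd_le (h.2.2.2 0)))⟩
  exact A.bind _ _ hz (A.bind _ _ (tlM A hn) h1)

theorem itr_hd (f : ℕ → ℕ → ℕ) (l : List ℕ) (m : ℕ) :
    hd (itr (fun m acc => [f m (hd acc)]) l m) = itr f (hd l) m := by
  induction m with
  | zero => rfl
  | succ m ih => rw [itr, itr, ih]; rfl

theorem itr_one (f : ℕ → ℕ → ℕ) (z m : ℕ) :
    itr (fun m acc => [f m (hd acc)]) [z] m = [itr f z m] := by
  cases m with
  | zero => rfl
  | succ m => rw [itr, itr, itr_hd]; rfl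

theorem iterN (A : KitA κ) (I : IterS κ) {n z : List Bool → Env → ℕ}
    (f : List Bool → Env → ℕ → ℕ → ℕ) (hn : Cn κ n) (hz : Cn κ z)
    (hf : Cn κ fun x ρ => f x (tl (tl ρ)) (hd (ρ 1)) (hd (ρ 0)))
    (hb : ∃ c, ∀ x ρ B, Bd κ x ρ B → ∀ z ≤ B, ∀ m ≤ B, itr (f x ρ) z m ≤ pw B c) :
    Cn κ fun x ρ => itr (f x ρ) (z x ρ) (n x ρ) := by
  obtain ⟨c, hc⟩ := hb
  refine congr (iterG A I (fun x ρ m acc => [f x ρ m (hd acc)]) hn hz hf
    ⟨c + 1, fun x ρ B h l hl m hm a ha => ?_⟩) fun x ρ => itr_one _ _ _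
  cases m with
  | zero => exact (hl a ha).trans (self_le_pw B c)
  | succ m =>
    rw [itr, itr_hd, List.mem_singleton] at ha
    rw [ha]
    exact (hc x ρ B h _ (hd_le hl) (m + 1) hm).trans (le_pw_succ B c)

theorem itr_succ (z m : ℕ) : itr (fun _ acc => acc + 1) z m = z + m := by
  induction m with
  | zero => rfl
  | succ m ih => rw [itr, ih]; rfl

theorem itr_pred (z m : ℕ) : itr (fun _ acc => acc - 1) z m = z - m := by
  induction m with
  | zero => rfl
  | succ m ih => rw [itr, ih]; rfl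

theorem itr_sum (g : ℕ → ℕ) (z m : ℕ) :
    itr (fun m acc => acc + g m) z m = z + ∑ i ∈ Finset.range m, g i := by
  induction m with
  | zero => rfl
  | succ m ih => rw [itr, ih, Finset.sum_range_succ, add_assoc]

theorem add (A : KitA κ) (K : KitB κ) (I : IterS κ) {a b : List Bool → Env → ℕ} (ha : Cn κ a)
    (hb : Cn κ b) : Cn κ fun x ρ => a x ρ + b x ρ := by
  refine congr (iterN A I (fun _ _ _ acc => acc + 1) hb ha K.succ
    ⟨2, fun x ρ B _ z hz m hm => ?_⟩) fun x ρ => by simp only [itr_succ]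
  rw [itr_succ, pw]
  nlinarith

theorem sub (A : KitA κ) (K : KitB κ) (I : IterS κ) {a b : List Bool → Env → ℕ} (ha : Cn κ a)
    (hb : Cn κ b) : Cn κ fun x ρ => a x ρ - b x ρ := by
  refine congr (iterN A I (fun _ _ _ acc => acc - 1) hb ha K.pred
    ⟨1, fun x ρ B _ z hz m hm => ?_⟩) fun x ρ => by simp only [itr_pred]
  rw [itr_pred, pw, pow_one]
  omega

theorem itr_bd {α : Type} (P : α → Prop) (f : ℕ → α → α) (z : α) (n : ℕ) (hz : P z)
    (hf : ∀ m < n, ∀ acc, P acc → P (f m acc)) : P (itr f z n) := by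
  induction n with
  | zero => exact hz
  | succ n ih => exact hf n (Nat.lt_succ_self n) _ (ih fun m hm => hf m (by omega))

end Ara

open Ara in
theorem kit1 (κ : List Bool → ℕ) (A : KitA κ) (K : KitB κ) (I : IterS κ) (T : TabS κ) :
    Kit1 κ where
  var := A.var
  tl := fun h => tlM A h
  tlN := fun h => tlM A h
  hdv := hdv A K
  const := fun n => by
    induction n with
    | zero => exact K.zero
    | succ n ih => exact un A (fun _ a => a + 1) K.succ ih
  len := K.len
  bit := fun h => un A bit K.inp h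
  gt := fun hl hi => A.bind _ _ hi (A.bind _ _ (tlM A hl) K.get)
  add := fun ha hb => add A K I ha hb
  sub := fun ha hb => sub A K I ha hb
  ile := fun ha hb hf hg => by
    refine Ara.congr (A.bind _ _ (sub A K I ha hb) (A.ifz _ _ (tlM A hf) (tlM A hg))) fun x ρ => ?_
    change (if _ - _ = 0 then [_] else [_]) = _
    simp only [Nat.sub_eq_zero_iff_le]
    split_ifs <;> rfl
  fold := fun f g hn hz hf hg hb => by
    obtain ⟨c, hc⟩ := g_bd hg
    refine iterN A I f hn hz hf ⟨c + 1, fun x ρ B h z hz m hm => ?_⟩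
    exact itr_bd (· ≤ pw B (c + 1)) _ _ _ (hz.trans (self_le_pw B c)) fun j hj acc hacc =>
      hb x ρ j acc _ hacc ((hc x ρ B h j (by omega)).trans (le_pw_succ B c))
  foldL := fun f g hn hz hf hg hb => by
    obtain ⟨c, hc⟩ := g_bd hg
    refine iterG A I f hn hz hf ⟨c + 1, fun x ρ B h l hl m hm => ?_⟩
    exact itr_bd (fun l : List ℕ => ∀ a ∈ l, a ≤ pw B (c + 1)) _ _ _
      (fun a ha => (hl a ha).trans (self_le_pw B c)) fun j hj acc hacc =>
      hb x ρ j acc _ hacc ((hc x ρ B h j (by omega)).trans (le_pw_succ B c))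
  sum := fun g hn hg => by
    obtain ⟨c, hc⟩ := g_bd hg
    refine Ara.congr (iterN A I (fun x ρ m acc => acc + g x ρ m) hn K.zero
      (add A K I (hdv A K 0) (tlM A hg)) ⟨c + 2, fun x ρ B h z hz m hm => ?_⟩)
      fun x ρ => by simp only [itr_sum, zero_add]
    rw [itr_sum, pw_succ, pw_succ]
    have h1 : ∑ i ∈ Finset.range m, g x ρ i ≤ (Finset.range m).card • pw B c :=
      Finset.sum_le_card_nsmul _ _ _ fun i hi =>
        hc x ρ B h i (by have := Finset.mem_range.1 hi; omega)
    rw [Finset.card_range, smul_eq_mul] at h1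
    have h2 := Nat.mul_le_mul_right (pw B c) hm
    have h3 := Nat.le_mul_of_pos_right B (one_le_pw B c)
    nlinarith [Nat.zero_le (pw B c * B * B), Nat.zero_le (pw B c)]
  tab := fun f h1 h2 h3 => T _ _ h1 h2 h3

end Pool.Agent.MP_1a6d78_lc.ED

end MrgPart1

-- ======== part 2: formerly Pool.Agent.MP_1a6d78_lc.ED.Arb
section MrgPart2

/-! Row ARB: arithmetic derived from `Kit1`. -/

namespace Pool.Agent.MP_1a6d78_lc.ED

variable {κ : List Bool → ℕ}

theorem Cn.of_eq {f g : List Bool → Env → ℕ} (h : Cn κ f) (e : ∀ x ρ, f x ρ = g x ρ) : Cn κ g := by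
  have : f = g := funext fun x => funext fun ρ => e x ρ
  exact this ▸ h

theorem div_eq_sum (a b : ℕ) (hb : 0 < b) :
    ∑ m ∈ Finset.range a, (if (m + 1) * b ≤ a then 1 else 0) = a / b := by
  have h : ∀ n, ∑ m ∈ Finset.range n, (if (m + 1) * b ≤ a then 1 else 0) = min n (a / b) := by
    intro n
    induction n with
    | zero => simp
    | succ n ih =>
      rw [Finset.sum_range_succ, ih]
      have := Nat.le_div_iff_mul_le (x := n + 1) (y := a) hb
      split_ifs with k
      · have := this.2 k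
        omega
      · have : ¬ n + 1 ≤ a / b := fun t => k (this.1 t)
        omega
  rw [h]
  exact min_eq_right (Nat.div_le_self a b)

theorem Kit1.mul' (K : Kit1 κ) {a b : List Bool → Env → ℕ} (ha : Cn κ a) (hb : Cn κ b) :
    Cn κ fun x ρ => a x ρ * b x ρ :=
  (K.sum (fun x ρ _ => b x ρ) ha (K.tlN hb)).of_eq fun x ρ => by simp

theorem Kit1.div' (K : Kit1 κ) {a b : List Bool → Env → ℕ} (ha : Cn κ a) (hb : Cn κ b) :
    Cn κ fun x ρ => a x ρ / b x ρ := by
  have h1 : Cn κ fun x ρ => ∑ m ∈ Finset.range (a x ρ),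
      (if (m + 1) * b x ρ ≤ a x ρ then 1 else 0) :=
    K.sum (fun x ρ m => if (m + 1) * b x ρ ≤ a x ρ then 1 else 0) ha
      (K.ile (K.mul' (K.add (K.hdv 0) (K.const 1)) (K.tlN hb)) (K.tlN ha) (K.const 1) (K.const 0))
  refine (K.ile hb (K.const 0) (K.const 0) h1).of_eq fun x ρ => ?_
  split_ifs with k
  · rw [Nat.le_zero.1 k, Nat.div_zero]
  · exact div_eq_sum _ _ (by omega)

theorem kit2 (κ : List Bool → ℕ) : Kit1 κ → Kit2 κ := by
  intro K
  refine ⟨K.mul', ?_, K.div', ?_, ?_, ?_, ?_⟩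
  · intro a e ha
    induction e with
    | zero => exact (K.const 1).of_eq fun x ρ => by simp
    | succ e ih => exact (K.mul' ih ha).of_eq fun x ρ => (pow_succ _ _).symm
  · intro a b ha hb
    refine (K.sub ha (K.mul' hb (K.div' ha hb))).of_eq fun x ρ => ?_
    have := Nat.mod_add_div (a x ρ) (b x ρ)
    omega
  · intro a b ha hb
    exact (K.ile ha hb ha hb).of_eq fun x ρ => (min_def _ _).symm
  · intro a b ha hb
    exact (K.ile ha hb hb ha).of_eq fun x ρ => (max_def _ _).symm
  · intro a b f g ha hb hf hg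
    refine (K.ile ha hb (K.ile hb ha hf hg) hg).of_eq fun x ρ => ?_
    split_ifs <;> first | rfl | omega

end Pool.Agent.MP_1a6d78_lc.ED

end MrgPart2

-- ======== part 3: formerly Pool.Agent.MP_1a6d78_lc.ED.Box
section MrgPart3

/-! Row BOX: optimal paths through a box. -/

namespace Pool.Agent.MP_1a6d78_lc.ED

namespace Box

variable (d : ℕ → ℕ → ℕ → ℕ) (s : ℕ)

theorem opt_le (W : ℕ) (l : ℕ → ℕ) (i x z : ℕ) (h1 : l i ≤ z) (h2 : z < l i + W) :
    opt d s W l (i + 1) x ≤ opt d s W l i z + d (i + 1) z x :=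
  Nat.sInf_le ⟨z, ⟨h1, h2⟩, rfl⟩

theorem opt_ex (W : ℕ) (l : ℕ → ℕ) (i x : ℕ) (hW : 0 < W) :
    ∃ z, l i ≤ z ∧ z < l i + W ∧ opt d s W l (i + 1) x = opt d s W l i z + d (i + 1) z x := by
  have hne : ((fun z => opt d s W l i z + d (i + 1) z x) '' Set.Ico (l i) (l i + W)).Nonempty :=
    ⟨_, l i, ⟨le_rfl, by omega⟩, rfl⟩
  obtain ⟨z, ⟨h1, h2⟩, h3⟩ := Nat.sInf_mem hne
  exact ⟨z, h1, h2, h3.symm⟩

theorem monge (hd : Mon d) (W : ℕ) (l l' : ℕ → ℕ) (i x x' : ℕ) (hW : 0 < W)
    (hl : ∀ m < i, l m ≤ l' m) (hx : x ≤ x') :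
    opt d s W l i x + opt d s W l' i x' ≤ opt d s W l i x' + opt d s W l' i x := by
  induction i generalizing x x' with
  | zero =>
    show d 0 s x + d 0 s x' ≤ d 0 s x' + d 0 s x
    omega
  | succ i ih =>
    obtain ⟨z, a1, a2, a3⟩ := opt_ex d s W l i x' hW
    obtain ⟨z', b1, b2, b3⟩ := opt_ex d s W l' i x hW
    have hi := hl i (Nat.lt_succ_self i)
    rcases Nat.le_total z z' with h | h
    · have c1 := opt_le d s W l i x z a1 a2
      have c2 := opt_le d s W l' i x' z' b1 b2
      have c3 := hd (i + 1) z z' x x' h hx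
      omega
    · have c1 := opt_le d s W l i x z' (by omega) (by omega)
      have c2 := opt_le d s W l' i x' z (by omega) (by omega)
      have c3 := ih z' z (fun m hm => hl m (by omega)) h
      omega

theorem sub (W W' : ℕ) (l l' : ℕ → ℕ) (i x : ℕ) (hW : 0 < W')
    (hl : ∀ m < i, l m ≤ l' m ∧ l' m + W' ≤ l m + W) :
    opt d s W l i x ≤ opt d s W' l' i x := by
  induction i generalizing x with
  | zero => exact le_rfl
  | succ i ih =>
    obtain ⟨z, a1, a2, a3⟩ := opt_ex d s W' l' i x hW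
    have hi := hl i (Nat.lt_succ_self i)
    have c1 := opt_le d s W l i x z (by omega) (by omega)
    have c2 := ih z (fun m hm => hl m (by omega))
    omega

theorem congr (W : ℕ) (l l' : ℕ → ℕ) (i x : ℕ) (hl : ∀ m < i, l m = l' m) :
    opt d s W l i x = opt d s W l' i x := by
  induction i generalizing x with
  | zero => rfl
  | succ i ih =>
    have e : opt d s W l i = opt d s W l' i := funext fun z => ih z fun m hm => hl m (by omega)
    show sInf ((fun z => opt d s W l i z + d (i + 1) z x) '' Set.Ico (l i) (l i + W)) =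
      sInf ((fun z => opt d s W l' i z + d (i + 1) z x) '' Set.Ico (l' i) (l' i + W))
    rw [e, hl i (Nat.lt_succ_self i)]

theorem cst_succ (l : ℕ → ℕ) (i x : ℕ) :
    cst d s l (i + 1) x = cst d s l i (l i) + d (i + 1) (l i) x := by
  unfold cst
  rw [Finset.sum_range_succ _ (i + 1), if_neg (Nat.succ_ne_zero i), if_pos rfl,
    Nat.add_sub_cancel]
  refine congrArg (· + d (i + 1) (l i) x) (Finset.sum_congr rfl fun j hj => ?_)
  have hj' := Finset.mem_range.1 hj
  rw [if_neg (show j ≠ i + 1 by omega)]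
  by_cases h : j = i
  · rw [if_pos h, h]
  · rw [if_neg h]

theorem one (l : ℕ → ℕ) (i x : ℕ) : opt d s 1 l i x = cst d s l i x := by
  induction i generalizing x with
  | zero =>
    show d 0 s x = _
    simp [cst]
  | succ i ih =>
    obtain ⟨z, a1, a2, a3⟩ := opt_ex d s 1 l i x Nat.one_pos
    have e : z = l i := by omega
    rw [a3, e, ih, cst_succ]

end Box

theorem boxK (d : ℕ → ℕ → ℕ → ℕ) (s : ℕ) : BoxK d s where
  monge := Box.monge d s
  congr := Box.congr d s
  one := Box.one d s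
  sub := Box.sub d s

end Pool.Agent.MP_1a6d78_lc.ED

end MrgPart3

-- ======== part 4: formerly Pool.Agent.MP_1a6d78_lc.ED.Bi
section MrgPart4

/-! PROJECT ED, row BI: the least best box is monotone in the target. -/

namespace Pool.Agent.MP_1a6d78_lc.ED

namespace Bi

theorem gt_tab {n e : ℕ} (f : ℕ → ℕ) (h : e < n) : gt (tab n f) e = f e := by
  simp [gt, tab, List.getD_eq_getElem?_getD, h]

/-- The fold returns the least minimiser. -/
theorem least (g : ℕ → ℕ) (n : ℕ) :
    itr (fun a acc => if g acc ≤ g a then acc else a) 0 n ≤ n - 1 ∧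
    (∀ a < n, g (itr (fun a acc => if g acc ≤ g a then acc else a) 0 n) ≤ g a) ∧
    ∀ a < itr (fun a acc => if g acc ≤ g a then acc else a) 0 n,
      g (itr (fun a acc => if g acc ≤ g a then acc else a) 0 n) < g a := by
  induction n with
  | zero => simp [itr]
  | succ n ih =>
    rw [itr]
    generalize itr (fun a acc => if g acc ≤ g a then acc else a) 0 n = b at ih
    obtain ⟨h1, h2, h3⟩ := ih
    split_ifs with h
    · refine ⟨by omega, fun a ha => ?_, h3⟩
      rcases Nat.lt_succ_iff_lt_or_eq.1 ha with ha | rfl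
      · exact h2 a ha
      · exact h
    · refine ⟨by omega, fun a ha => ?_, fun a ha => ?_⟩
      · rcases Nat.lt_succ_iff_lt_or_eq.1 ha with ha | rfl
        · have := h2 a ha
          omega
        · exact le_rfl
      · have := h2 a ha
        omega

end Bi

theorem biS : BiS := by
  intro d s k w j f B T hM hB hw hj hI hf
  have e : ∀ y, bi k f T j y = itr (fun a acc =>
      if opt d s w (fun m => gt T (acc * k + m)) j y ≤ opt d s w (fun m => gt T (a * k + m)) j y
      then acc else a) 0 (1 + j * (k - 1)) := by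
    intro y
    have e1 : ∀ a, f (rowOf k T a) j y = opt d s w (fun m => gt T (a * k + m)) j y := fun a => by
      rw [hf]
      exact hB.congr w _ _ j y fun m hm => Bi.gt_tab _ (by omega)
    simp only [bi, e1]
  have L := fun y => Bi.least (fun a => opt d s w (fun m => gt T (a * k + m)) j y)
    (1 + j * (k - 1))
  simp only [← e] at L
  have lt : ∀ y, bi k f T j y < 1 + j * (k - 1) := fun y => by
    have := (L y).1
    omega
  refine ⟨lt, fun y => (L y).2.1, fun y y' hy => ?_⟩
  by_contra hc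
  have h1 := (L y).2.2 _ (not_le.1 hc)
  have h2 := (L y').2.1 _ (lt y)
  have h3 := hB.monge hM w (fun m => gt T (bi k f T j y' * k + m))
    (fun m => gt T (bi k f T j y * k + m)) j y y' hw
    (hI.chain _ _ (not_le.1 hc).le (lt y)) hy
  omega

end Pool.Agent.MP_1a6d78_lc.ED

end MrgPart4

-- ======== part 5: formerly Pool.Agent.MP_1a6d78_lc.ED.Val
section MrgPart5

/-! PROJECT ED, row VAL: the recursion on the width of the boxes. -/

namespace Pool.Agent.MP_1a6d78_lc.ED

namespace ValRow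

theorem gt_tab (n : ℕ) (f : ℕ → ℕ) (e : ℕ) (h : e < n) : gt (tab n f) e = f e := by
  unfold gt tab
  rw [List.getD_eq_getElem?_getD, List.getElem?_map, List.getElem?_range h]
  rfl

theorem inv_zero (d : ℕ → ℕ → ℕ → ℕ) (s k w : ℕ) (B T : List ℕ) : Inv d s k w B 0 T :=
  ⟨fun _ _ _ _ m hm => absurd hm (Nat.not_lt_zero m),
    fun _ _ m hm => absurd hm (Nat.not_lt_zero m),
    fun _ => ⟨0, by omega, le_rfl⟩⟩

end ValRow

open ValRow in
theorem valS (hBox : ∀ d s, BoxK d s) (hBi : BiS) (hStep : StepS) : ValS := by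
  intro d s k hM hk t
  induction t with
  | zero =>
    intro B i x _
    rw [pow_zero, (hBox d s).one]
    rfl
  | succ t ih =>
    intro B i x hi
    have hw : 0 < k ^ t := Nat.pow_pos hk
    have hI : ∀ j ≤ k, Inv d s k (k ^ t) B j (tbl k (k ^ t) (Val k s d t) B j) := by
      intro j
      induction j with
      | zero => exact fun _ => inv_zero _ _ _ _ _ _
      | succ j ihj =>
        intro hj
        have hT := ihj (by omega)
        exact hStep d s k (k ^ t) j (Val k s d t) B _ (hBox d s) hw (by omega) hT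
          (hBi d s k (k ^ t) j (Val k s d t) B _ hM (hBox d s) hw (by omega) hT
            fun l y => ih l j y (by omega))
    have hT := hI i hi
    have hb := hBi d s k (k ^ t) i (Val k s d t) B _ hM (hBox d s) hw hi hT
      fun l y => ih l i y hi
    simp only [Val]
    obtain ⟨T, hT'⟩ : ∃ T, T = tbl k (k ^ t) (Val k s d t) B i := ⟨_, rfl⟩
    rw [← hT'] at hT hb ⊢
    obtain ⟨b, hb'⟩ : ∃ b, b = bi k (Val k s d t) T i := ⟨_, rfl⟩
    rw [← hb'] at hb ⊢
    rw [ih _ i x hi, (hBox d s).congr (k ^ t) (gt (rowOf k T (b x)))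
      (fun m => gt T (b x * k + m)) i x fun m hm => gt_tab _ _ _ (by omega), pow_succ']
    refine le_antisymm ?_ ?_
    · obtain ⟨a, ha, h⟩ := hT.cover x
      exact le_trans (hb.best x a ha) h
    · exact (hBox d s).sub _ _ _ _ i x hw fun m hm => hT.inside (b x) (hb.lt x) m hm

end Pool.Agent.MP_1a6d78_lc.ED

end MrgPart5

-- ======== part 6: formerly Pool.Agent.MP_1a6d78_lc.ED.LevA
section MrgPart6

/-! PROJECT ED, row LEVA: `lev` is the least cost of an alignment. -/

namespace Pool.Agent.MP_1a6d78_lc.ED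

variable {α : Type} {dl is : α → ℕ} {sb : α → α → ℕ}

theorem align_nil_left (v : List α) : Align dl is sb [] v (v.map is).sum := by
  induction v with
  | nil => exact Align.nil
  | cons b v ih => simpa using Align.ins b ih

theorem align_lev (u : List α) : ∀ v : List α, Align dl is sb u v (lev dl is sb u v) := by
  induction u with
  | nil => intro v; rw [lev]; exact align_nil_left v
  | cons a u ihu =>
    intro v
    induction v with
    | nil => rw [lev]; exact Align.del a (ihu [])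
    | cons b v ihv =>
      rw [lev]
      rcases min_choice (dl a + lev dl is sb u (b :: v))
        (min (is b + lev dl is sb (a :: u) v) (sb a b + lev dl is sb u v)) with h | h
      · rw [h]; exact Align.del a (ihu _)
      · rw [h]
        rcases min_choice (is b + lev dl is sb (a :: u) v) (sb a b + lev dl is sb u v) with h' | h'
        · rw [h']; exact Align.ins b ihv
        · rw [h']; exact Align.sub a b (ihu _)

theorem lev_del (a : α) (u v : List α) :
    lev dl is sb (a :: u) v ≤ dl a + lev dl is sb u v := by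
  cases v with
  | nil => rw [lev]
  | cons b v => rw [lev]; exact min_le_left _ _

theorem lev_ins (b : α) (u v : List α) :
    lev dl is sb u (b :: v) ≤ is b + lev dl is sb u v := by
  cases u with
  | nil => rw [lev, lev]; simp
  | cons a u => rw [lev]; exact (min_le_right _ _).trans (min_le_left _ _)

theorem lev_sub (a b : α) (u v : List α) :
    lev dl is sb (a :: u) (b :: v) ≤ sb a b + lev dl is sb u v := by
  rw [lev]; exact (min_le_right _ _).trans (min_le_right _ _)

theorem lev_le {u v : List α} {c : ℕ} (h : Align dl is sb u v c) : lev dl is sb u v ≤ c := by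
  induction h with
  | nil => rw [lev]; simp
  | del a _ ih => exact (lev_del a _ _).trans (Nat.add_le_add_left ih _)
  | ins b _ ih => exact (lev_ins b _ _).trans (Nat.add_le_add_left ih _)
  | sub a b _ ih => exact (lev_sub a b _ _).trans (Nat.add_le_add_left ih _)

theorem align_append {u v u' v' : List α} {c c' : ℕ} (h : Align dl is sb u v c)
    (h' : Align dl is sb u' v' c') : Align dl is sb (u ++ u') (v ++ v') (c + c') := by
  induction h with
  | nil => simpa using h'
  | del a _ ih => rw [Nat.add_assoc]; exact Align.del a ih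
  | ins b _ ih => rw [Nat.add_assoc]; exact Align.ins b ih
  | sub a b _ ih => rw [Nat.add_assoc]; exact Align.sub a b ih

theorem align_split {z w : List α} {c : ℕ} (h : Align dl is sb z w c) :
    ∀ u u', z = u ++ u' → ∃ v v' c₁ c₂, w = v ++ v' ∧ Align dl is sb u v c₁ ∧
      Align dl is sb u' v' c₂ ∧ c = c₁ + c₂ := by
  induction h with
  | nil =>
    intro u u' e
    obtain ⟨rfl, rfl⟩ := List.append_eq_nil_iff.1 e.symm
    exact ⟨[], [], 0, 0, rfl, Align.nil, Align.nil, rfl⟩
  | del a h ih =>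
    intro u u' e
    cases u with
    | nil =>
      obtain rfl : _ = u' := e
      exact ⟨[], _, 0, _, rfl, Align.nil, Align.del a h, (Nat.zero_add _).symm⟩
    | cons a' u =>
      obtain ⟨rfl, e'⟩ := List.cons.inj e
      obtain ⟨v, v', c₁, c₂, e1, h1, h2, e2⟩ := ih u u' e'
      exact ⟨v, v', _, c₂, e1, Align.del a h1, h2, by omega⟩
  | ins b h ih =>
    intro u u' e
    obtain ⟨v, v', c₁, c₂, e1, h1, h2, e2⟩ := ih u u' e
    exact ⟨b :: v, v', _, c₂, by rw [e1]; rfl, Align.ins b h1, h2, by omega⟩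
  | sub a b h ih =>
    intro u u' e
    cases u with
    | nil =>
      obtain rfl : _ = u' := e
      exact ⟨[], _, 0, _, rfl, Align.nil, Align.sub a b h, (Nat.zero_add _).symm⟩
    | cons a' u =>
      obtain ⟨rfl, e'⟩ := List.cons.inj e
      obtain ⟨v, v', c₁, c₂, e1, h1, h2, e2⟩ := ih u u' e'
      exact ⟨b :: v, v', _, c₂, by rw [e1]; rfl, Align.sub a b h1, h2, by omega⟩

theorem align_drop {P : ℕ} (hP : ∀ a, dl a ≤ P) {u w : List α} {c : ℕ}
    (h : Align dl is sb u w c) :
    ∀ v₁ b v₂, w = v₁ ++ b :: v₂ → lev dl is sb u (v₁ ++ v₂) ≤ c + P := by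
  induction h with
  | nil => intro v₁ b v₂ e; simp at e
  | del a _ ih =>
    intro v₁ b v₂ e
    have := ih v₁ b v₂ e
    exact (lev_del a _ _).trans (by omega)
  | ins b' h ih =>
    intro v₁ b v₂ e
    cases v₁ with
    | nil =>
      obtain ⟨_, rfl⟩ := List.cons.inj e
      have := lev_le h
      simp only [List.nil_append]
      omega
    | cons b'' v₁ =>
      obtain ⟨rfl, e'⟩ := List.cons.inj e
      have := ih v₁ b v₂ e'
      rw [List.cons_append]
      exact (lev_ins b' _ _).trans (by omega)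
  | sub a b' h ih =>
    intro v₁ b v₂ e
    cases v₁ with
    | nil =>
      obtain ⟨_, rfl⟩ := List.cons.inj e
      have h1 := lev_le h
      have h2 := hP a
      simp only [List.nil_append]
      exact (lev_del a _ _).trans (by omega)
    | cons b'' v₁ =>
      obtain ⟨rfl, e'⟩ := List.cons.inj e
      have := ih v₁ b v₂ e'
      rw [List.cons_append]
      exact (lev_sub a b' _ _).trans (by omega)

theorem lev_drop_mid {P : ℕ} (hP : ∀ a, dl a ≤ P) (u v₁ m v₂ : List α) :
    lev dl is sb u (v₁ ++ v₂) ≤ lev dl is sb u (v₁ ++ (m ++ v₂)) + m.length * P := by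
  induction m with
  | nil => simp
  | cons b m ih =>
    have := align_drop hP (align_lev (dl := dl) (is := is) (sb := sb) u (v₁ ++ b :: (m ++ v₂)))
      v₁ b (m ++ v₂) rfl
    rw [List.length_cons, Nat.succ_mul, List.cons_append]
    omega

theorem levA {α : Type} (dl is : α → ℕ) (sb : α → α → ℕ) : LevA dl is sb where
  align u v t := ⟨fun ⟨_, hc, h⟩ => (lev_le h).trans hc, fun h => ⟨_, h, align_lev u v⟩⟩
  app u u' v v' := lev_le (align_append (align_lev u v) (align_lev u' v'))
  split u u' w := by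
    obtain ⟨v, v', c₁, c₂, e1, h1, h2, e2⟩ :=
      align_split (align_lev (dl := dl) (is := is) (sb := sb) (u ++ u') w) u u' rfl
    refine ⟨v, v', e1, le_antisymm ?_ ?_⟩
    · rw [e1]; exact lev_le (align_append (align_lev u v) (align_lev u' v'))
    · rw [e2]; exact Nat.add_le_add (lev_le h1) (lev_le h2)
  nil u := by
    induction u with
    | nil => rw [lev]; simp
    | cons a u ih => rw [lev, ih]; simp
  drop P u v₁ v v₂ hP := by
    have h1 := lev_drop_mid (is := is) (sb := sb) hP u v v₂ []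
    have h2 := lev_drop_mid (is := is) (sb := sb) hP u [] v₁ (v ++ v₂)
    simp only [List.append_nil, List.nil_append] at h1 h2
    rw [List.append_assoc, Nat.add_mul]
    omega

end Pool.Agent.MP_1a6d78_lc.ED

end MrgPart6

-- ======== part 7: formerly Pool.Agent.MP_1a6d78_lc.ED.Monge
section MrgPart7

/-! Row MONGE: the quadrangle inequality for the weighted edit distance. -/

namespace Pool.Agent.MP_1a6d78_lc.ED

namespace Monge

variable {α : Type} (dl is : α → ℕ) (sb : α → α → ℕ)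

theorem le_ins (u : List α) (b : α) (v : List α) :
    lev dl is sb u (b :: v) ≤ is b + lev dl is sb u v := by
  cases u with
  | nil => simp [lev]
  | cons a u =>
    rw [lev]
    exact (min_le_right _ _).trans (min_le_left _ _)

theorem le_del (a : α) (u v : List α) :
    lev dl is sb (a :: u) v ≤ dl a + lev dl is sb u v := by
  cases v with
  | nil => rw [lev]
  | cons b v =>
    rw [lev]
    exact min_le_left _ _

theorem le_sub (a b : α) (u v : List α) :
    lev dl is sb (a :: u) (b :: v) ≤ sb a b + lev dl is sb u v := by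
  rw [lev]
  exact (min_le_right _ _).trans (min_le_right _ _)

theorem three (a b : α) (u v : List α) :
    lev dl is sb (a :: u) (b :: v) = dl a + lev dl is sb u (b :: v) ∨
      lev dl is sb (a :: u) (b :: v) = is b + lev dl is sb (a :: u) v ∨
      lev dl is sb (a :: u) (b :: v) = sb a b + lev dl is sb u v := by
  rw [lev]
  omega

/-- The first row of an optimal path. -/
theorem first (a : α) (u w : List α) :
    ∃ (p q : List α) (c : ℕ), w = p ++ q ∧ lev dl is sb (a :: u) w = c + lev dl is sb u q ∧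
      ∀ q', lev dl is sb (a :: u) (p ++ q') ≤ c + lev dl is sb u q' := by
  induction w with
  | nil =>
    refine ⟨[], [], dl a, rfl, ?_, fun q' => le_del dl is sb a u q'⟩
    rw [lev]
  | cons b v ih =>
    rcases three dl is sb a b u v with h | h | h
    · exact ⟨[], b :: v, dl a, rfl, h, fun q' => le_del dl is sb a u q'⟩
    · obtain ⟨p, q, c, hv, hc, hq⟩ := ih
      refine ⟨b :: p, q, is b + c, by rw [hv, List.cons_append], by omega, fun q' => ?_⟩
      have h1 := le_ins dl is sb (a :: u) b (p ++ q')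
      have h2 := hq q'
      rw [List.cons_append]
      omega
    · exact ⟨[b], v, sb a b, rfl, h, fun q' => le_sub dl is sb a b u q'⟩

theorem main (u w1 w2 w3 : List α) :
    lev dl is sb u (w1 ++ w2) + lev dl is sb u (w2 ++ w3) ≤
      lev dl is sb u (w1 ++ w2 ++ w3) + lev dl is sb u w2 := by
  induction u generalizing w1 w2 w3 with
  | nil =>
    simp only [lev, List.map_append, List.sum_append]
    omega
  | cons a u ihu =>
    induction w1 with
    | nil =>
      simp only [List.nil_append]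
      omega
    | cons b w1 ih =>
      obtain ⟨p, q, c, hv, hc, hq⟩ := first dl is sb a u w2
      have h3 := hq (q ++ w3)
      rw [← List.append_assoc, ← hv] at h3
      simp only [List.cons_append]
      rcases three dl is sb a b u (w1 ++ w2 ++ w3) with h | h | h
      · have h1 := le_del dl is sb a u (b :: (w1 ++ w2))
        have h2 := ihu (b :: (w1 ++ p)) q w3
        have e : b :: (w1 ++ p) ++ q = b :: (w1 ++ w2) := by
          rw [hv, List.cons_append, List.append_assoc]
        rw [e, List.cons_append] at h2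
        omega
      · have h1 := le_ins dl is sb (a :: u) b (w1 ++ w2)
        omega
      · have h1 := le_sub dl is sb a b u (w1 ++ w2)
        have h2 := ihu (w1 ++ p) q w3
        have e : w1 ++ p ++ q = w1 ++ w2 := by rw [hv, List.append_assoc]
        rw [e] at h2
        omega

end Monge

theorem mongeS : MongeS := fun dl is sb u w1 w2 w3 => Monge.main dl is sb u w1 w2 w3

end Pool.Agent.MP_1a6d78_lc.ED

end MrgPart7

-- ======== part 8: formerly Pool.Agent.MP_1a6d78_lc.ED.Ee
section MrgPart8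

/-! PROJECT ED, row EE: the penalised distance is Monge, subadditive and splits. -/

namespace Pool.Agent.MP_1a6d78_lc.ED

namespace Ee

/-- The columns `a, ..., b - 1`. -/
def R (a b : ℕ) : List ℕ := List.range' a (b - a)

theorem R_self (a : ℕ) : R a a = [] := by simp [R]

theorem R_len (a b : ℕ) : (R a b).length = b - a := by simp [R]

theorem R_app {a z b : ℕ} (h1 : a ≤ z) (h2 : z ≤ b) : R a z ++ R z b = R a b := by
  obtain ⟨m, rfl⟩ := Nat.exists_eq_add_of_le h1
  obtain ⟨n, rfl⟩ := Nat.exists_eq_add_of_le h2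
  rw [R, R, R, Nat.add_sub_cancel_left, Nat.add_sub_cancel_left, List.range'_append_1,
    Nat.add_assoc, Nat.add_sub_cancel_left]

theorem pen {m n l : ℕ} (P : ℕ) (h : m = n + l) : m * P = n * P + l * P := by
  rw [h, Nat.add_mul]

theorem sum_range' (f : ℕ → ℕ) (o n : ℕ) :
    ((List.range' o n).map f).sum = ∑ t ∈ Finset.range n, f (o + t) := by
  induction n with
  | zero => simp
  | succ n ih =>
    rw [← List.range'_append_1, List.map_append, List.sum_append, ih, Finset.sum_range_succ]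
    simp

section
variable {dl is : ℕ → ℕ} {sb : ℕ → ℕ → ℕ}

/-- The penalised distance for a list of rows. -/
def E (dl is : ℕ → ℕ) (sb : ℕ → ℕ → ℕ) (P : ℕ) (U : List ℕ) (a b : ℕ) : ℕ :=
  if a ≤ b then lev dl is sb U (R a b) else lev dl is sb U [] + (a - b) * P

theorem dropL (hL : LevA dl is sb) {P : ℕ} (hP : ∀ a, dl a ≤ P) (U : List ℕ) {a a' b : ℕ}
    (h1 : a ≤ a') (h2 : a' ≤ b) :
    lev dl is sb U (R a' b) ≤ lev dl is sb U (R a b) + (a' - a) * P := by
  have := hL.drop P U (R a a') (R a' b) [] hP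
  rwa [List.append_nil, R_app h1 h2, R_len, List.length_nil, Nat.add_zero] at this

theorem dropR (hL : LevA dl is sb) {P : ℕ} (hP : ∀ a, dl a ≤ P) (U : List ℕ) {a b b' : ℕ}
    (h1 : a ≤ b) (h2 : b ≤ b') :
    lev dl is sb U (R a b) ≤ lev dl is sb U (R a b') + (b' - b) * P := by
  have := hL.drop P U [] (R a b) (R b b') hP
  rwa [List.nil_append, R_app h1 h2, R_len, List.length_nil, Nat.zero_add] at this

theorem dropA (hL : LevA dl is sb) {P : ℕ} (hP : ∀ a, dl a ≤ P) (U : List ℕ) {a b : ℕ}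
    (h1 : a ≤ b) : lev dl is sb U [] ≤ lev dl is sb U (R a b) + (b - a) * P := by
  have := dropR hL hP U (le_refl a) h1
  rwa [R_self] at this

theorem monge (hM : MongeS) (U : List ℕ) {a a' b b' : ℕ} (h1 : a ≤ a') (h2 : a' ≤ b)
    (h3 : b ≤ b') : lev dl is sb U (R a b) + lev dl is sb U (R a' b') ≤
      lev dl is sb U (R a b') + lev dl is sb U (R a' b) := by
  have := hM dl is sb U (R a a') (R a' b) (R b b')
  rwa [R_app h1 h2, R_app h2 h3, R_app (h1.trans h2) h3] at this

theorem mon (hM : MongeS) (hL : LevA dl is sb) {P : ℕ} (hP : ∀ a, dl a ≤ P) (U : List ℕ)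
    {a a' b b' : ℕ} (ha : a ≤ a') (hb : b ≤ b') :
    E dl is sb P U a b + E dl is sb P U a' b' ≤ E dl is sb P U a b' + E dl is sb P U a' b := by
  unfold E
  by_cases h1 : a' ≤ b
  · rw [if_pos (by omega), if_pos (by omega), if_pos (by omega), if_pos h1]
    exact monge hM U ha h1 hb
  rw [if_neg h1]
  by_cases h2 : a ≤ b
  · rw [if_pos h2, if_pos (show a ≤ b' by omega)]
    by_cases h3 : a' ≤ b'
    · rw [if_pos h3]
      have e1 := monge (dl := dl) (is := is) (sb := sb) hM U h2 (le_refl b) hb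
      have e2 := dropL hL hP U (show b ≤ a' by omega) h3
      rw [R_self] at e1
      omega
    · rw [if_neg h3]
      have e1 := dropR hL hP U h2 hb
      have e2 := pen P (show a' - b = (a' - b') + (b' - b) by omega)
      omega
  rw [if_neg h2]
  by_cases h3 : a' ≤ b'
  · rw [if_pos h3, if_pos (show a ≤ b' by omega)]
    have e1 := dropL hL hP U ha h3
    have e2 := pen P (show a' - b = (a' - a) + (a - b) by omega)
    omega
  rw [if_neg h3]
  by_cases h4 : a ≤ b'
  · rw [if_pos h4]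
    have e1 := dropA hL hP U h4
    have e2 := pen P (show a' - b = (a' - a) + (a - b) by omega)
    have e3 := pen P (show a' - a = (a' - b') + (b' - a) by omega)
    omega
  · rw [if_neg h4]
    have e2 := pen P (show a' - b = (a' - a) + (a - b) by omega)
    have e3 := pen P (show a' - b' = (a' - a) + (a - b') by omega)
    omega

theorem tri (hL : LevA dl is sb) {P : ℕ} (hP : ∀ a, dl a ≤ P) (U V : List ℕ) (a z b : ℕ) :
    E dl is sb P (U ++ V) a b ≤ E dl is sb P U a z + E dl is sb P V z b := by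
  have e0 := hL.app U V [] []
  have eL := hL.app U V (R a b) []
  have eR := hL.app U V [] (R a b)
  rw [List.append_nil] at e0 eL
  rw [List.nil_append] at eR
  unfold E
  by_cases h1 : a ≤ z
  · rw [if_pos h1]
    by_cases h2 : z ≤ b
    · rw [if_pos h2, if_pos (h1.trans h2), ← R_app h1 h2]
      exact hL.app _ _ _ _
    rw [if_neg h2]
    by_cases h3 : a ≤ b
    · rw [if_pos h3]
      have e1 := dropR hL hP U h3 (show b ≤ z by omega)
      omega
    · rw [if_neg h3]
      have e1 := dropA hL hP U h1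
      have e2 := pen P (show z - b = (z - a) + (a - b) by omega)
      omega
  rw [if_neg h1]
  by_cases h2 : z ≤ b
  · rw [if_pos h2]
    by_cases h3 : a ≤ b
    · rw [if_pos h3]
      have e1 := dropL hL hP V (show z ≤ a by omega) h3
      omega
    · rw [if_neg h3]
      have e1 := dropA hL hP V h2
      have e2 := pen P (show a - z = (a - b) + (b - z) by omega)
      omega
  · rw [if_neg h2, if_neg (show ¬ a ≤ b by omega)]
    have e2 := pen P (show a - b = (a - z) + (z - b) by omega)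
    omega

theorem spl (hL : LevA dl is sb) (P : ℕ) (U V : List ℕ) {a b : ℕ} (h : a ≤ b) :
    ∃ z, a ≤ z ∧ z ≤ b ∧
      E dl is sb P (U ++ V) a b = E dl is sb P U a z + E dl is sb P V z b := by
  obtain ⟨v, v', e1, e2⟩ := hL.split U V (R a b)
  obtain ⟨m, hm, rfl, rfl⟩ := List.range'_eq_append_iff.1 e1
  refine ⟨a + m, by omega, by omega, ?_⟩
  unfold E
  rw [if_pos h, if_pos (by omega), if_pos (by omega), e2, R, R, Nat.add_sub_cancel_left,
    Nat.mul_one, Nat.sub_sub]

end

/-- The rows `o, ..., o + h - 1`, clipped. -/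
def U (x : List Bool) (o h : ℕ) : List ℕ := List.range' o (min h (num x 1 - o))

theorem U_add (x : List Bool) (o h h' : ℕ) : U x o (h + h') = U x o h ++ U x (o + h) h' := by
  unfold U
  by_cases hc : h ≤ num x 1 - o
  · rw [min_eq_left hc, List.range'_append_1]
    congr 1
    omega
  · rw [show min h' (num x 1 - (o + h)) = 0 by omega, List.range'_zero, List.append_nil]
    congr 1
    omega

theorem ee_eq {x : List Bool} (hL : LevA (dlx x) (isx x) (sbx x)) (o h a b : ℕ) :
    ee x o h a b = E (dlx x) (isx x) (sbx x) x.length (U x o h) a b := by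
  rw [ee, E, hL.nil, U, sum_range']
  rfl

end Ee

theorem eeK (hM : MongeS) (hK : KkS) (hL : ∀ (dl is : ℕ → ℕ) sb, LevA dl is sb) :
    ∀ x, EeK x := by
  intro x
  have h := hL (dlx x) (isx x) (sbx x)
  have hP : ∀ a, dlx x a ≤ x.length := fun a => (hK 1 x le_rfl).2.2.2 _
  refine ⟨fun o n a a' b b' ha hb => ?_, fun o n n' a z b => ?_, fun o n n' a b hab => ?_⟩
  · simp only [Ee.ee_eq h]
    exact Ee.mon hM h hP _ ha hb
  · simp only [Ee.ee_eq h, Ee.U_add]
    exact Ee.tri h hP _ _ a z b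
  · simp only [Ee.ee_eq h, Ee.U_add]
    exact Ee.spl h _ _ _ hab

end Pool.Agent.MP_1a6d78_lc.ED

end MrgPart8

-- ======== part 9: formerly Pool.Agent.MP_1a6d78_lc.ED.Row
section MrgPart9

/-! PROJECT ED, row ROWKK: the distance for one row and the parameter `kk`. -/

namespace Pool.Agent.MP_1a6d78_lc.ED

namespace RowKk

theorem le_itr_min (g : ℕ → ℕ) (z0 t n : ℕ) :
    t ≤ itr (fun z acc => min acc (g z)) z0 n ↔ t ≤ z0 ∧ ∀ z < n, t ≤ g z := by
  induction n with
  | zero => simp [itr]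
  | succ n ih =>
    simp only [itr, le_min_iff, ih]
    constructor
    · rintro ⟨⟨h0, h1⟩, h2⟩
      refine ⟨h0, fun z hz => ?_⟩
      rcases Nat.lt_succ_iff_lt_or_eq.1 hz with h | h
      · exact h1 z h
      · exact h ▸ h2
    · rintro ⟨h0, h1⟩
      exact ⟨⟨h0, fun z hz => h1 z (Nat.lt_succ_of_lt hz)⟩, h1 n (Nat.lt_succ_self n)⟩

/-- Sum of `is` over `a, ..., a + n - 1`. -/
def sI (is : ℕ → ℕ) (a n : ℕ) : ℕ := ∑ t ∈ Finset.range n, is (a + t)

theorem sI_zero (is : ℕ → ℕ) (a : ℕ) : sI is a 0 = 0 := by simp [sI]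

theorem sI_succ (is : ℕ → ℕ) (a n : ℕ) : sI is a (n + 1) = is a + sI is (a + 1) n := by
  unfold sI
  rw [Finset.sum_range_succ', Nat.add_zero, Nat.add_comm]
  congr 1
  refine Finset.sum_congr rfl fun t _ => ?_
  congr 1
  omega

theorem lev_nil (dl is : ℕ → ℕ) (sb : ℕ → ℕ → ℕ) (n : ℕ) :
    ∀ a, lev dl is sb [] (List.range' a n) = sI is a n := by
  induction n with
  | zero => intro a; simp [lev, sI]
  | succ n ih =>
    intro a
    have h := ih (a + 1)
    rw [lev] at h ⊢
    rw [List.range'_succ, List.map_cons, List.sum_cons, h, sI_succ]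

theorem le_lev_one (dl is : ℕ → ℕ) (sb : ℕ → ℕ → ℕ) (o n : ℕ) :
    ∀ a t, t ≤ lev dl is sb [o] (List.range' a n) ↔ t ≤ dl o + sI is a n ∧
      ∀ z < n, t ≤ sI is a z + sb o (a + z) + sI is (a + z + 1) (n - (z + 1)) := by
  induction n with
  | zero => intro a t; simp [lev, sI]
  | succ n ih =>
    intro a t
    have h0 : lev dl is sb [] (a :: List.range' (a + 1) n) = sI is a (n + 1) := by
      rw [← List.range'_succ]; exact lev_nil dl is sb (n + 1) a
    have h1 := lev_nil dl is sb n (a + 1)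
    have h2 := ih (a + 1) (t - is a)
    have h3 : t ≤ is a + lev dl is sb [o] (List.range' (a + 1) n) ↔
        t - is a ≤ lev dl is sb [o] (List.range' (a + 1) n) := by omega
    rw [List.range'_succ, lev, h0, h1, le_min_iff, le_min_iff, h3, h2]
    constructor
    · rintro ⟨e0, ⟨_, e2⟩, e3⟩
      refine ⟨e0, fun z hz => ?_⟩
      rcases z with _ | z
      · simpa [sI_zero] using e3
      · have e := e2 z (by omega)
        have p1 : a + (z + 1) = a + 1 + z := by omega
        have p2 : n + 1 - (z + 1 + 1) = n - (z + 1) := by omega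
        rw [sI_succ, p1, p2]
        omega
    · rintro ⟨e0, e1⟩
      refine ⟨e0, ⟨?_, fun z hz => ?_⟩, ?_⟩
      · rw [sI_succ] at e0; omega
      · have e := e1 (z + 1) (by omega)
        have p1 : a + (z + 1) = a + 1 + z := by omega
        have p2 : n + 1 - (z + 1 + 1) = n - (z + 1) := by omega
        rw [sI_succ, p1, p2] at e
        omega
      · simpa [sI_zero] using e1 0 (by omega)

theorem kk_inv (r L : ℕ) (hr : 1 ≤ r) (n : ℕ) :
    1 ≤ itr (fun m acc => if m ^ r ≤ L then m + 1 else acc) 0 (n + 1) ∧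
    (itr (fun m acc => if m ^ r ≤ L then m + 1 else acc) 0 (n + 1) - 1) ^ r ≤ L ∧
    itr (fun m acc => if m ^ r ≤ L then m + 1 else acc) 0 (n + 1) ≤ n + 1 ∧
    ∀ m, itr (fun m acc => if m ^ r ≤ L then m + 1 else acc) 0 (n + 1) ≤ m → m ≤ n →
      L < m ^ r := by
  have h0 : 0 ^ r = 0 := Nat.zero_pow (by omega)
  induction n with
  | zero =>
    have e : itr (fun m acc => if m ^ r ≤ L then m + 1 else acc) 0 (0 + 1) = 1 := by
      simp [itr, h0]
    rw [e]
    refine ⟨le_rfl, by simp [h0], le_rfl, fun m h1 h2 => by omega⟩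
  | succ n ih =>
    obtain ⟨i1, i2, i3, i4⟩ := ih
    have e : itr (fun m acc => if m ^ r ≤ L then m + 1 else acc) 0 (n + 1 + 1) =
        if (n + 1) ^ r ≤ L then n + 1 + 1
        else itr (fun m acc => if m ^ r ≤ L then m + 1 else acc) 0 (n + 1) := rfl
    rw [e]
    by_cases h : (n + 1) ^ r ≤ L
    · rw [if_pos h]
      refine ⟨by omega, by simpa using h, le_rfl, fun m h1 h2 => by omega⟩
    · rw [if_neg h]
      refine ⟨i1, i2, by omega, fun m h1 h2 => ?_⟩
      rcases Nat.lt_or_ge m (n + 1) with h3 | h3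
      · exact i4 m h1 (by omega)
      · have : m = n + 1 := by omega
        rw [this]; omega

theorem num_le (x : List Bool) (i : ℕ) : num x i ≤ x.length := by
  unfold num
  calc ∑ p ∈ Finset.range x.length, (if zc x p = i then bit x p else 0)
      ≤ ∑ _p ∈ Finset.range x.length, 1 := by
        refine Finset.sum_le_sum fun p _ => ?_
        unfold bit
        split_ifs <;> omega
    _ = x.length := by simp

end RowKk

open RowKk

theorem rowS : RowS := by
  intro x o a b hab
  unfold row dd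
  by_cases h : o + 1 ≤ num x 1
  · rw [if_pos h]
    have e : min 1 (num x 1 - o) = 1 := by omega
    rw [e]
    refine eq_of_forall_le_iff fun t => ?_
    have e1 : List.range' o 1 = [o] := rfl
    rw [e1, le_lev_one, le_itr_min (fun z => insS x a (a + z) + sbx x o (a + z) +
      insS x (a + z + 1) b)]
    refine and_congr Iff.rfl (forall_congr' fun z => forall_congr' fun _ => ?_)
    have p1 : a + z - a = z := by omega
    have p2 : b - (a + z + 1) = b - a - (z + 1) := by omega
    simp only [insS, sI, p1, p2]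
  · rw [if_neg h]
    have e : min 1 (num x 1 - o) = 0 := by omega
    rw [e]
    exact (lev_nil (dlx x) (isx x) (sbx x) (b - a) a).symm

theorem kkS : KkS := by
  intro r x hr
  obtain ⟨i1, i2, i3, i4⟩ := kk_inv r x.length hr x.length
  refine ⟨i1, ?_, i2, num_le x⟩
  change kk r x ≤ x.length + 1 at i3
  rcases Nat.lt_or_ge x.length (kk r x) with h | h
  · exact lt_of_lt_of_le h (Nat.le_self_pow (by omega) _)
  · exact i4 (kk r x) le_rfl h

end Pool.Agent.MP_1a6d78_lc.ED

end MrgPart9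

-- ======== part 10: formerly Pool.Agent.MP_1a6d78_lc.ED.Dist
section MrgPart10

/-! PROJECT ED, row DIST: the recursion computes the distance. -/

namespace Pool.Agent.MP_1a6d78_lc.ED

namespace Dst

theorem gt_tab {n e : ℕ} (f : ℕ → ℕ) (h : e < n) : gt (tab n f) e = f e := by
  simp [gt, tab, List.getD, h]

theorem chain {x : List Bool} (E : EeK x) {o h q W a : ℕ} (ha : a ≤ q) (hW : q < W) (i : ℕ) :
    ∀ y, a ≤ y → opt (fun j u v => ee x (o + j * h) h (min u q) (min v q)) a W (fun _ => a) i y =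
      ee x o ((i + 1) * h) a (min y q) := by
  induction i with
  | zero =>
    intro y _
    simp only [opt, zero_mul, add_zero, zero_add, one_mul, min_eq_left ha]
  | succ i ih =>
    intro y hy
    obtain ⟨z, z1, z2, z3⟩ := E.spl o ((i + 1) * h) h a (min y q) (le_min hy ha)
    have zq : z ≤ q := z2.trans (min_le_right _ _)
    have e : (i + 1 + 1) * h = (i + 1) * h + h := by ring
    have hm : ee x o ((i + 1 + 1) * h) a (min y q) ∈
        (fun z => opt (fun j u v => ee x (o + j * h) h (min u q) (min v q)) a W (fun _ => a) i z +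
          ee x (o + (i + 1) * h) h (min z q) (min y q)) '' Set.Ico a (a + W) :=
      ⟨z, ⟨z1, by omega⟩, by simp only [ih z z1, min_eq_left zq, e, z3]⟩
    refine le_antisymm (Nat.sInf_le hm) ?_
    obtain ⟨z', hz', e'⟩ := Nat.sInf_mem ⟨_, hm⟩
    refine le_of_le_of_eq ?_ e'
    simp only [ih z' hz'.1, e]
    exact E.tri _ _ _ _ _ _

end Dst

open Dst in
theorem distS : ValS → (∀ d s, BoxK d s) → RowS → KkS → (∀ x, EeK x) → DistS := by
  intro hV hB hR hK hE r x s o a b hr
  obtain ⟨k1, k2, -, k4⟩ := hK r x hr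
  induction s generalizing o a b with
  | zero =>
    simp only [Dist, ee, pow_zero]
    split_ifs with h
    · exact hR x o _ _ h
    · rfl
  | succ s ih =>
    by_cases h : min a (num x 2) ≤ min b (num x 2)
    · have e : (fun i => Dist r x s (o + i * kk r x ^ s)) = fun j u v =>
          ee x (o + j * kk r x ^ s) (kk r x ^ s) (min u (num x 2)) (min v (num x 2)) := by
        funext j u v
        exact ih _ _ _
      have m : Mon fun j u v =>
          ee x (o + j * kk r x ^ s) (kk r x ^ s) (min u (num x 2)) (min v (num x 2)) :=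
        fun j u u' v v' hu hv =>
          (hE x).mon _ _ _ _ _ _ (min_le_min_right _ hu) (min_le_min_right _ hv)
      simp only [Dist, if_pos h]
      rw [e, hV _ _ _ m k1 r _ _ _ (Nat.sub_le _ _),
        (hB _ _).congr _ (gt (tab (kk r x) fun _ => min a (num x 2))) (fun _ => min a (num x 2))
          (kk r x - 1) _ (fun j hj => gt_tab (fun _ => min a (num x 2)) (by omega)),
        chain (hE x) (min_le_right _ _) ((k4 2).trans_lt k2) _ _ h, Nat.sub_add_cancel k1,
        min_eq_left (min_le_right b _), pow_succ']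
    · simp only [Dist, ee, if_neg h]

end Pool.Agent.MP_1a6d78_lc.ED

end MrgPart10

-- ======== part 11: formerly Pool.Agent.MP_1a6d78_lc.ED.Code
section MrgPart11

/-! PROJECT ED, row CODE: reading an instance off its code. -/

namespace Pool.Agent.MP_1a6d78_lc.ED

namespace Code

theorem bit_succ (b : Bool) (x : List Bool) (p : ℕ) : bit (b :: x) (p + 1) = bit x p := by
  simp [bit]

theorem zc_succ (b : Bool) (x : List Bool) (p : ℕ) :
    zc (b :: x) (p + 1) = zc x p + (1 - bit (b :: x) 0) := by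
  simp only [zc, Finset.sum_range_succ', bit_succ]

theorem num_cons (b : Bool) (x : List Bool) (i : ℕ) : num (b :: x) i =
    (∑ p ∈ Finset.range x.length, if zc x p + (1 - bit (b :: x) 0) = i then bit x p else 0) +
      if 0 = i then bit (b :: x) 0 else 0 := by
  simp only [num, List.length_cons, Finset.sum_range_succ', bit_succ, zc_succ]
  rfl

theorem num_true (x : List Bool) (i : ℕ) :
    num (true :: x) i = num x i + if 0 = i then 1 else 0 := by
  rw [num_cons]
  rfl

theorem num_false_zero (x : List Bool) : num (false :: x) 0 = 0 := by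
  rw [num_cons]
  simp [bit]

theorem num_false_succ (x : List Bool) (i : ℕ) : num (false :: x) (i + 1) = num x i := by
  rw [num_cons]
  simp [bit, num]

theorem num_rep_zero (a : ℕ) (x : List Bool) :
    num (List.replicate a true ++ false :: x) 0 = a := by
  induction a with
  | zero => exact num_false_zero x
  | succ a ih => rw [List.replicate_succ, List.cons_append, num_true, ih, if_pos rfl]

theorem num_rep_succ (a : ℕ) (x : List Bool) (i : ℕ) :
    num (List.replicate a true ++ false :: x) (i + 1) = num x i := by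
  induction a with
  | zero => exact num_false_succ x i
  | succ a ih =>
    rw [List.replicate_succ, List.cons_append, num_true, ih, if_neg (by omega), Nat.add_zero]

theorem num_unary (l : List ℕ) (i : ℕ) : num (unary l) i = l.getD i 0 := by
  induction l generalizing i with
  | nil => simp [unary, num]
  | cons a l ih =>
    have e : unary (a :: l) = List.replicate a true ++ false :: unary l := by simp [unary]
    rw [e]
    cases i with
    | zero => exact num_rep_zero a _
    | succ i => rw [num_rep_succ, ih, List.getD_cons_succ]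

theorem getD_right (l l' : List ℕ) {n : ℕ} (h : l.length = n) (i : ℕ) :
    (l ++ l').getD (n + i) 0 = l'.getD i 0 := by
  subst h
  rw [List.getD_append_right _ _ _ _ (Nat.le_add_right _ _), Nat.add_sub_cancel_left]

theorem getD_flatten {m : ℕ} (L : List (List ℕ)) (h : ∀ l ∈ L, l.length = m) (a b : ℕ)
    (hb : b < m) : L.flatten.getD (a * m + b) 0 = (L.getD a []).getD b 0 := by
  induction L generalizing a with
  | nil => simp
  | cons l L ih =>
    have hl := h l List.mem_cons_self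
    rw [List.flatten_cons]
    cases a with
    | zero =>
      rw [Nat.zero_mul, Nat.zero_add, List.getD_append _ _ _ _ (by omega), List.getD_cons_zero]
    | succ a =>
      rw [show (a + 1) * m + b = m + (a * m + b) by ring, getD_right _ _ hl, List.getD_cons_succ,
        ih fun l hl => h l (List.mem_cons_of_mem _ hl)]

theorem getD_ofFn {α : Type} {m : ℕ} (f : Fin m → α) (a : Fin m) (z : α) :
    (List.ofFn f).getD a z = f a := by
  simp [List.getD_eq_getElem?_getD]

theorem getD_val {m : ℕ} {u : List (Fin m)} {i : ℕ} {a : Fin m} (h : u[i]? = some a) :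
    i < (u.map Fin.val).length ∧ (u.map Fin.val).getD i 0 = a := by
  refine ⟨by rw [List.length_map]; exact (List.getElem?_eq_some_iff.1 h).1, ?_⟩
  rw [List.getD_eq_getElem?_getD, List.getElem?_map, h]
  rfl

theorem lev_rel {α β : Type} {dl is : α → ℕ} {sb : α → α → ℕ} {dl' is' : β → ℕ}
    {sb' : β → β → ℕ} {R S : α → β → Prop} (h1 : ∀ i a, R i a → dl i = dl' a)
    (h2 : ∀ j b, S j b → is j = is' b) (h3 : ∀ i a j b, R i a → S j b → sb i j = sb' a b)
    {p : List α} {u : List β} (hp : List.Forall₂ R p u) {q : List α} {v : List β}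
    (hq : List.Forall₂ S q v) : lev dl is sb p q = lev dl' is' sb' u v := by
  induction hp generalizing q v with
  | nil =>
    rw [lev, lev]
    induction hq with
    | nil => rfl
    | cons h _ ih => rw [List.map_cons, List.map_cons, List.sum_cons, List.sum_cons, ih, h2 _ _ h]
  | cons hR _ ih =>
    induction hq with
    | nil => rw [lev, lev, ih List.Forall₂.nil, h1 _ _ hR]
    | cons hS hq ih' =>
      rw [lev, lev, ih (List.Forall₂.cons hS hq), ih hq, ih', h1 _ _ hR, h2 _ _ hS,
        h3 _ _ _ _ hR hS]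

theorem idx {α : Type} (u : List α) :
    List.Forall₂ (fun i a => u[i]? = some a) (List.range' 0 u.length) u := by
  refine List.forall₂_of_length_eq_of_get (by simp) fun i h1 h2 => ?_
  simp

end Code

open Code in
theorem codeS : CodeS := by
  intro m del ins sub u v t
  obtain ⟨x, hx⟩ : ∃ x, x = code del ins sub u v t := ⟨_, rfl⟩
  rw [← hx]
  have hn : ∀ i, num x i = ([m, u.length, v.length, t] ++ (u.map Fin.val ++ (v.map Fin.val ++
      (List.ofFn del ++ (List.ofFn ins ++ (List.ofFn fun a => List.ofFn (sub a)).flatten))))).getD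
        i 0 := fun i => by
    rw [hx, code, num_unary]
    simp only [List.append_assoc]
  have n0 : num x 0 = m := hn 0
  have n1 : num x 1 = u.length := hn 1
  have n2 : num x 2 = v.length := hn 2
  have n3 : num x 3 = t := hn 3
  have lu : (u.map Fin.val).length = u.length := List.length_map _
  have lv : (v.map Fin.val).length = v.length := List.length_map _
  have nu : ∀ (i : ℕ) (a : Fin m), u[i]? = some a → num x (4 + i) = a := fun i a h => by
    rw [hn, getD_right _ _ (n := 4) rfl, List.getD_append _ _ _ _ (getD_val h).1, (getD_val h).2]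
  have nv : ∀ (j : ℕ) (b : Fin m), v[j]? = some b → num x (4 + u.length + j) = b := fun j b h => by
    rw [hn, Nat.add_assoc, getD_right _ _ (n := 4) rfl, getD_right _ _ lu,
      List.getD_append _ _ _ _ (getD_val h).1, (getD_val h).2]
  refine ⟨n1, n3, fun h hh => ?_⟩
  rw [dd, n1, n2, Nat.sub_zero, Nat.sub_zero, min_eq_right hh]
  refine lev_rel (fun i a h => ?_) (fun j b h => ?_) (fun i a j b h h' => ?_) (idx u) (idx v)
  · rw [dlx, n1, n2, nu i a h, hn, Nat.add_assoc, Nat.add_assoc, getD_right _ _ (n := 4) rfl,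
      getD_right _ _ lu, getD_right _ _ lv,
      List.getD_append _ _ _ _ (by rw [List.length_ofFn]; exact a.2), getD_ofFn]
  · rw [isx, n0, n1, n2, nv j b h, hn, Nat.add_assoc, Nat.add_assoc, Nat.add_assoc,
      getD_right _ _ (n := 4) rfl, getD_right _ _ lu, getD_right _ _ lv, getD_right _ _ List.length_ofFn,
      List.getD_append _ _ _ _ (by rw [List.length_ofFn]; exact b.2), getD_ofFn]
  · rw [sbx, n0, n1, n2, nu i a h, nv j b h', hn, Nat.add_assoc, Nat.add_assoc, Nat.add_assoc,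
      Nat.add_assoc, getD_right _ _ (n := 4) rfl, getD_right _ _ lu, getD_right _ _ lv,
      getD_right _ _ List.length_ofFn, getD_right _ _ List.length_ofFn,
      getD_flatten _ (fun l hl => ?_) _ _ b.2, getD_ofFn, getD_ofFn]
    obtain ⟨c, rfl⟩ := List.mem_ofFn.1 hl
    exact List.length_ofFn

end Pool.Agent.MP_1a6d78_lc.ED

end MrgPart11

-- ======== part 12: formerly Pool.Agent.MP_1a6d78_lc.ED.AlgV
section MrgPart12

/-! PROJECT ED, row ALGV: the width recursion is computable in the closure calculus. -/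

namespace Pool.Agent.MP_1a6d78_lc.ED

namespace AlgV

/-- A family of box evaluators that is computable in substitution form. -/
def PF (κ : List Bool → ℕ) (F : List Bool → ℕ → ℕ → List ℕ → ℕ → ℕ → ℕ) : Prop :=
  ∀ (o s i y : List Bool → Env → ℕ) (B : List Bool → Env → List ℕ),
    Cn κ o → Cn κ s → Cm κ B → Cn κ i → Cn κ y →
      Cn κ fun x ρ => F x (o x ρ) (s x ρ) (B x ρ) (i x ρ) (y x ρ)

theorem gt_le (l : List ℕ) (i b : ℕ) (h : ∀ a ∈ l, a ≤ b) : gt l i ≤ b := by
  unfold gt
  rw [List.getD_eq_getElem?_getD]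
  rcases e : l[i]? with _ | a
  · exact Nat.zero_le b
  · exact h a (List.mem_of_getElem? e)

theorem ts_le (k w : ℕ) (f : List ℕ → ℕ → ℕ → ℕ) (B T : List ℕ) (j r : ℕ) :
    ts k w f B T j r ≤ k := by
  unfold ts
  refine le_trans (Finset.sum_le_card_nsmul _ _ 1 fun t _ => ?_) ?_
  · split_ifs <;> omega
  · rw [Finset.card_range, smul_eq_mul]
    omega

section
variable {κ k : List Bool → ℕ} {F : List Bool → ℕ → ℕ → List ℕ → ℕ → ℕ → ℕ}

theorem row_c (K1 : Kit1 κ) (K2 : Kit2 κ) (hκ : ∀ x, (k x + 1) ^ 3 ≤ κ x)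
    (hk : Cn κ fun x _ => k x) {T : List Bool → Env → List ℕ} {a : List Bool → Env → ℕ}
    (hT : Cm κ T) (ha : Cn κ a) : Cm κ fun x ρ => rowOf (k x) (T x ρ) (a x ρ) := by
  refine K1.tab (n := k) (fun x ρ m => gt (T x ρ) (a x ρ * k x + m)) (fun x => ?_) hk ?_
  · refine le_trans ?_ (hκ x)
    exact le_trans (Nat.le_succ _) (Nat.le_self_pow (by omega) _)
  · exact K1.gt (K1.tl hT) (K1.add (K2.mul (K1.tlN ha) hk) (K1.hdv 0))

theorem bi_c (K1 : Kit1 κ) (K2 : Kit2 κ) (hκ : ∀ x, (k x + 1) ^ 3 ≤ κ x)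
    (hk : Cn κ fun x _ => k x) (hF : PF κ F) {T : List Bool → Env → List ℕ}
    {o s j y : List Bool → Env → ℕ} (ho : Cn κ o) (hs : Cn κ s) (hT : Cm κ T) (hj : Cn κ j)
    (hy : Cn κ y) :
    Cn κ fun x ρ => bi (k x) (F x (o x ρ) (s x ρ)) (T x ρ) (j x ρ) (y x ρ) := by
  refine K1.fold (n := fun x ρ => 1 + j x ρ * (k x - 1)) (z := fun _ _ => 0)
    (fun x ρ a acc => if F x (o x ρ) (s x ρ) (rowOf (k x) (T x ρ) acc) (j x ρ) (y x ρ) ≤
      F x (o x ρ) (s x ρ) (rowOf (k x) (T x ρ) a) (j x ρ) (y x ρ) then acc else a)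
    (fun _ _ m => m) (K1.add (K1.const 1) (K2.mul hj (K1.sub hk (K1.const 1)))) (K1.const 0)
    ?_ (K1.hdv 0) ?_
  · exact K1.ile
      (hF _ _ _ _ _ (K1.tlN (K1.tlN ho)) (K1.tlN (K1.tlN hs))
        (row_c K1 K2 hκ hk (K1.tl (K1.tl hT)) (K1.hdv 0)) (K1.tlN (K1.tlN hj))
        (K1.tlN (K1.tlN hy)))
      (hF _ _ _ _ _ (K1.tlN (K1.tlN ho)) (K1.tlN (K1.tlN hs))
        (row_c K1 K2 hκ hk (K1.tl (K1.tl hT)) (K1.hdv 1)) (K1.tlN (K1.tlN hj))
        (K1.tlN (K1.tlN hy)))
      (K1.hdv 0) (K1.hdv 1)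
  · intro x ρ m acc b h1 h2
    split_ifs
    · exact h1
    · exact h2

theorem ts_c (K1 : Kit1 κ) (K2 : Kit2 κ) (hκ : ∀ x, (k x + 1) ^ 3 ≤ κ x)
    (hk : Cn κ fun x _ => k x) (hF : PF κ F) {B T : List Bool → Env → List ℕ}
    {w o s j r : List Bool → Env → ℕ} (hw : Cn κ w) (ho : Cn κ o) (hs : Cn κ s) (hB : Cm κ B)
    (hT : Cm κ T) (hj : Cn κ j) (hr : Cn κ r) :
    Cn κ fun x ρ => ts (k x) (w x ρ) (F x (o x ρ) (s x ρ)) (B x ρ) (T x ρ) (j x ρ) (r x ρ) := by
  refine K1.sum (n := fun x _ => k x - 1)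
    (fun x ρ t => if bi (k x) (F x (o x ρ) (s x ρ)) (T x ρ) (j x ρ)
      (gt (B x ρ) (j x ρ) + (t + 1) * w x ρ) + (t + 1) ≤ r x ρ then 1 else 0)
    (K1.sub hk (K1.const 1)) ?_
  exact K1.ile
    (K1.add (bi_c K1 K2 hκ hk hF (K1.tlN ho) (K1.tlN hs) (K1.tl hT) (K1.tlN hj)
      (K1.add (K1.gt (K1.tl hB) (K1.tlN hj))
        (K2.mul (K1.add (K1.hdv 0) (K1.const 1)) (K1.tlN hw))))
      (K1.add (K1.hdv 0) (K1.const 1)))
    (K1.tlN hr) (K1.const 1) (K1.const 0)

theorem stp_c (K1 : Kit1 κ) (K2 : Kit2 κ) (hκ : ∀ x, (k x + 1) ^ 3 ≤ κ x)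
    (hk : Cn κ fun x _ => k x) (hF : PF κ F) {B T : List Bool → Env → List ℕ}
    {w o s j e : List Bool → Env → ℕ} (hw : Cn κ w) (ho : Cn κ o) (hs : Cn κ s) (hB : Cm κ B)
    (hT : Cm κ T) (hj : Cn κ j) (he : Cn κ e) :
    Cn κ fun x ρ => stp (k x) (w x ρ) (F x (o x ρ) (s x ρ)) (B x ρ) (T x ρ) (j x ρ) (e x ρ) := by
  have h := ts_c K1 K2 hκ hk hF hw ho hs hB hT hj (K2.div he hk)
  exact K2.ieq (K2.mod he hk) hj (K1.add (K1.gt hB hj) (K2.mul h hw))
    (K1.gt hT (K1.add (K2.mul (K1.sub (K2.div he hk) h) hk) (K2.mod he hk)))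

theorem tbl_c (K1 : Kit1 κ) (K2 : Kit2 κ) (hκ : ∀ x, (k x + 1) ^ 3 ≤ κ x)
    (hk : Cn κ fun x _ => k x) (hF : PF κ F) {B : List Bool → Env → List ℕ}
    {w o s i : List Bool → Env → ℕ} (hw : Cn κ w) (ho : Cn κ o) (hs : Cn κ s) (hB : Cm κ B)
    (hi : Cn κ i) :
    Cm κ fun x ρ => tbl (k x) (w x ρ) (F x (o x ρ) (s x ρ)) (B x ρ) (i x ρ) := by
  have hq : Cn κ fun x _ => (k x + 1) ^ 3 := K2.pow 3 (K1.add hk (K1.const 1))
  refine K1.foldL (n := i) (z := fun x _ => tab ((k x + 1) ^ 3) fun _ => 0)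
    (fun x ρ j T => tab ((k x + 1) ^ 3)
      (stp (k x) (w x ρ) (F x (o x ρ) (s x ρ)) (B x ρ) T j))
    (fun x ρ j => gt (B x ρ) j + k x * w x ρ) hi
    (K1.tab (n := fun x => (k x + 1) ^ 3) (fun _ _ _ => 0) hκ hq (K1.const 0)) ?_ ?_ ?_
  · refine K1.tab (n := fun x => (k x + 1) ^ 3)
      (fun x ρ e => stp (k x) (w x (tl (tl ρ))) (F x (o x (tl (tl ρ))) (s x (tl (tl ρ))))
        (B x (tl (tl ρ))) (ρ 0) (hd (ρ 1)) e) hκ hq ?_
    exact stp_c K1 K2 hκ hk hF (K1.tlN (K1.tlN (K1.tlN hw))) (K1.tlN (K1.tlN (K1.tlN ho)))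
      (K1.tlN (K1.tlN (K1.tlN hs))) (K1.tl (K1.tl (K1.tl hB))) (K1.tl (K1.var 0))
      (K1.tlN (K1.hdv 1)) (K1.hdv 0)
  · exact K1.add (K1.gt (K1.tl hB) (K1.hdv 0)) (K2.mul hk (K1.tlN hw))
  · intro x ρ m acc b h1 h2 a ha
    unfold tab at ha
    obtain ⟨e, -, rfl⟩ := List.mem_map.1 ha
    unfold stp
    split_ifs
    · exact le_trans (Nat.add_le_add_left
        (Nat.mul_le_mul_right _ (ts_le _ _ _ _ _ _ _)) _) h2
    · exact gt_le _ _ _ h1

end

end AlgV

open AlgV in
theorem algV : AlgVS := by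
  intro κ k d K1 K2 hκ hk hd t
  have key : PF κ fun x o s => Val (k x) s (d x o) t := by
    induction t with
    | zero =>
      intro o s i y B ho hs hB hi hy
      refine K1.sum (n := fun x ρ => i x ρ + 1)
        (fun x ρ j => d x (o x ρ) j (if j = 0 then s x ρ else gt (B x ρ) (j - 1))
          (if j = i x ρ then y x ρ else gt (B x ρ) j)) (K1.add hi (K1.const 1)) ?_
      exact hd _ _ _ _ (K1.tlN ho) (K1.hdv 0)
        (K2.ieq (K1.hdv 0) (K1.const 0) (K1.tlN hs)
          (K1.gt (K1.tl hB) (K1.sub (K1.hdv 0) (K1.const 1))))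
        (K2.ieq (K1.hdv 0) (K1.tlN hi) (K1.tlN hy) (K1.gt (K1.tl hB) (K1.hdv 0)))
    | succ t ih =>
      intro o s i y B ho hs hB hi hy
      have hT := tbl_c K1 K2 hκ hk ih (K2.pow t hk) ho hs hB hi
      exact ih _ _ _ _ _ ho hs (row_c K1 K2 hκ hk hT (bi_c K1 K2 hκ hk ih ho hs hT hi hy)) hi hy
  intro o s i y B ho hs hB hi hy
  exact key o s i y B ho hs hB hi hy

end Pool.Agent.MP_1a6d78_lc.ED

end MrgPart12

-- ======== part 13: formerly Pool.Agent.MP_1a6d78_lc.ED.AlgD
section MrgPart13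

/-! PROJECT ED, row ALGD: the edit distance algorithm is computable in the closure calculus. -/

namespace Pool.Agent.MP_1a6d78_lc.ED

namespace AlgD

variable {κ : List Bool → ℕ}

theorem tl2 (K1 : Kit1 κ) {a : List Bool → Env → ℕ} (ha : Cn κ a) :
    Cn κ fun x ρ => a x (tl (tl ρ)) :=
  K1.tlN (f := fun x ρ => a x (tl ρ)) (K1.tlN ha)

theorem zcC (K1 : Kit1 κ) {p : List Bool → Env → ℕ} (hp : Cn κ p) :
    Cn κ fun x ρ => zc x (p x ρ) :=
  K1.sum (fun x _ m => 1 - bit x m) hp (K1.sub (K1.const 1) (K1.bit (K1.hdv 0)))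

theorem numC (K1 : Kit1 κ) (K2 : Kit2 κ) {i : List Bool → Env → ℕ} (hi : Cn κ i) :
    Cn κ fun x ρ => num x (i x ρ) :=
  K1.sum (fun x ρ p => if zc x p = i x ρ then bit x p else 0) K1.len
    (K2.ieq (zcC K1 (K1.hdv 0)) (K1.tlN hi) (K1.bit (K1.hdv 0)) (K1.const 0))

theorem numK (K1 : Kit1 κ) (K2 : Kit2 κ) (n : ℕ) : Cn κ fun x _ => num x n :=
  numC K1 K2 (K1.const n)

theorem dlxC (K1 : Kit1 κ) (K2 : Kit2 κ) {i : List Bool → Env → ℕ} (hi : Cn κ i) :
    Cn κ fun x ρ => dlx x (i x ρ) :=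
  numC K1 K2 (K1.add (K1.add (K1.add (K1.const 4) (numK K1 K2 1)) (numK K1 K2 2))
    (numC K1 K2 (K1.add (K1.const 4) hi)))

theorem isxC (K1 : Kit1 κ) (K2 : Kit2 κ) {j : List Bool → Env → ℕ} (hj : Cn κ j) :
    Cn κ fun x ρ => isx x (j x ρ) :=
  numC K1 K2 (K1.add (K1.add (K1.add (K1.add (K1.const 4) (numK K1 K2 1)) (numK K1 K2 2))
    (numK K1 K2 0)) (numC K1 K2 (K1.add (K1.add (K1.const 4) (numK K1 K2 1)) hj)))

theorem sbxC (K1 : Kit1 κ) (K2 : Kit2 κ) {i j : List Bool → Env → ℕ} (hi : Cn κ i)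
    (hj : Cn κ j) : Cn κ fun x ρ => sbx x (i x ρ) (j x ρ) :=
  numC K1 K2 (K1.add (K1.add (K1.add (K1.add (K1.add (K1.const 4) (numK K1 K2 1))
    (numK K1 K2 2)) (numK K1 K2 0)) (numK K1 K2 0))
    (K1.add (K2.mul (numC K1 K2 (K1.add (K1.const 4) hi)) (numK K1 K2 0))
      (numC K1 K2 (K1.add (K1.add (K1.const 4) (numK K1 K2 1)) hj))))

theorem insC (K1 : Kit1 κ) (K2 : Kit2 κ) {a b : List Bool → Env → ℕ} (ha : Cn κ a)
    (hb : Cn κ b) : Cn κ fun x ρ => insS x (a x ρ) (b x ρ) :=
  K1.sum (fun x ρ t => isx x (a x ρ + t)) (K1.sub hb ha)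
    (isxC K1 K2 (K1.add (K1.tlN ha) (K1.hdv 0)))

theorem delC (K1 : Kit1 κ) (K2 : Kit2 κ) {o h : List Bool → Env → ℕ} (ho : Cn κ o)
    (hh : Cn κ h) : Cn κ fun x ρ => delS x (o x ρ) (h x ρ) :=
  K1.sum (fun x ρ t => dlx x (o x ρ + t)) (K2.min hh (K1.sub (numK K1 K2 1) ho))
    (dlxC K1 K2 (K1.add (K1.tlN ho) (K1.hdv 0)))

theorem kkC (K1 : Kit1 κ) (K2 : Kit2 κ) (r : ℕ) : Cn κ fun x _ => kk r x :=
  K1.fold (fun x _ m acc => if m ^ r ≤ x.length then m + 1 else acc) (fun _ _ m => m + 1)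
    (K1.add K1.len (K1.const 1)) (K1.const 0)
    (K1.ile (K2.pow r (K1.hdv 1)) K1.len (K1.add (K1.hdv 1) (K1.const 1)) (K1.hdv 0))
    (K1.add (K1.hdv 0) (K1.const 1))
    (fun x _ m acc b h1 h2 => by
      split_ifs
      · exact h2
      · exact h1)

theorem rowC (K1 : Kit1 κ) (K2 : Kit2 κ) {o a b : List Bool → Env → ℕ} (ho : Cn κ o)
    (ha : Cn κ a) (hb : Cn κ b) : Cn κ fun x ρ => row x (o x ρ) (a x ρ) (b x ρ) := by
  have haz : Cn κ fun x ρ => a x (tl (tl ρ)) + hd (ρ 1) := K1.add (tl2 K1 ha) (K1.hdv 1)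
  have hf := K1.fold
    (fun x ρ z acc => min acc (insS x (a x ρ) (a x ρ + z) + sbx x (o x ρ) (a x ρ + z) +
      insS x (a x ρ + z + 1) (b x ρ))) (fun _ _ _ => 0)
    (K1.sub hb ha) (K1.add (dlxC K1 K2 ho) (insC K1 K2 ha hb))
    (K2.min (K1.hdv 0) (K1.add (K1.add (insC K1 K2 (tl2 K1 ha) haz)
      (sbxC K1 K2 (tl2 K1 ho) haz)) (insC K1 K2 (K1.add haz (K1.const 1)) (tl2 K1 hb))))
    (K1.const 0) (fun x ρ m acc c h1 _ => (min_le_left _ _).trans h1)
  exact K1.ile (K1.add ho (K1.const 1)) (numK K1 K2 1) hf (insC K1 K2 ha hb)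

theorem distC (hV : AlgVS) (r : ℕ) (K1 : Kit1 κ) (K2 : Kit2 κ)
    (hκ : ∀ x, (kk r x + 1) ^ 3 ≤ κ x) (s : ℕ) :
    ∀ o a b : List Bool → Env → ℕ, Cn κ o → Cn κ a → Cn κ b →
      Cn κ fun x ρ => Dist r x s (o x ρ) (a x ρ) (b x ρ) := by
  induction s with
  | zero =>
    intro o a b ho ha hb
    have ha' := K2.min ha (numK K1 K2 2)
    have hb' := K2.min hb (numK K1 K2 2)
    exact K1.ile ha' hb' (rowC K1 K2 ho ha' hb')
      (K1.add (delC K1 K2 ho (K1.const 1)) (K2.mul (K1.sub ha' hb') K1.len))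
  | succ s ih =>
    intro o a b ho ha hb
    have ha' := K2.min ha (numK K1 K2 2)
    have hb' := K2.min hb (numK K1 K2 2)
    have hk := kkC K1 K2 r
    have hle : ∀ x, kk r x ≤ κ x := fun x =>
      ((Nat.le_succ _).trans (Nat.le_self_pow (by norm_num) _)).trans (hκ x)
    have hB : Cm κ fun x ρ => tab (kk r x) fun _ => min (a x ρ) (num x 2) :=
      K1.tab (fun x ρ _ => min (a x ρ) (num x 2)) hle hk (K1.tlN ha')
    have hv := hV κ (kk r) (fun x o i => Dist r x s (o + i * kk r x ^ s)) K1 K2 hκ hk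
      (fun o i a b ho hi ha hb => ih _ a b (K1.add ho (K2.mul hi (K2.pow s hk))) ha hb)
      r o _ _ _ _ ho ha' hB (K1.sub hk (K1.const 1)) hb'
    exact K1.ile ha' hb' hv
      (K1.add (delC K1 K2 ho (K2.pow (s + 1) hk)) (K2.mul (K1.sub ha' hb') K1.len))

end AlgD

theorem algD : AlgVS → AlgDS := by
  intro hV r K1 K2
  exact K1.ile (AlgD.distC hV r K1 K2 (fun _ => le_rfl) r _ _ _ (K1.const 0) (K1.const 0)
    (AlgD.numK K1 K2 2)) (AlgD.numK K1 K2 3) (K1.const 1) (K1.const 0)

end Pool.Agent.MP_1a6d78_lc.ED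

end MrgPart13

-- ======== part 14: formerly Pool.Agent.MP_1a6d78_lc.ED.Fin
section MrgPart14

/-! PROJECT ED, row FIN: from the modules to the theorem. -/

namespace Pool.Agent.MP_1a6d78_lc.ED

namespace Fn

theorem halt (M : TM) (x : List Bool) {T T' : ℕ} {r : Bool} (h : M.out (M.run x T).q = some r)
    (hT : T ≤ T') : M.run x T' = M.run x T := by
  obtain ⟨j, rfl⟩ := Nat.exists_eq_add_of_le' hT
  have e : M.step x (M.run x T) = M.run x T := by simp [TM.step, h]
  unfold TM.run at e ⊢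
  rw [Function.iterate_add_apply]
  exact Function.iterate_fixed e j

theorem four (n : ℕ) : (n + 2) ^ 3 + 2 ≤ (n + 2) ^ 4 := by
  have : 2 ^ 3 ≤ (n + 2) ^ 3 := Nat.pow_le_pow_left (by omega) 3
  rw [pow_succ (n + 2) 3]
  nlinarith

theorem space {n k r c : ℕ} (hr : 1 ≤ r) (h : n < k ^ r) :
    ((k + 1) ^ 3 + 1) * (c * Nat.log 2 ((n + 2) ^ 3 + 2) + c) ≤ 2 * c * (4 * r + 1) * (k + 1) ^ 4 := by
  have h1 : k ^ r < (k + 1) ^ r := Nat.pow_lt_pow_left (by omega) (by omega)
  have h2 : (k + 1) ^ r ≤ (2 ^ k) ^ r := Nat.pow_le_pow_left Nat.lt_two_pow_self r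
  have h3 : (n + 2) ^ 4 ≤ ((2 ^ k) ^ r) ^ 4 := Nat.pow_le_pow_left (by omega) 4
  rw [← pow_mul, ← pow_mul] at h3
  have h4 : Nat.log 2 ((n + 2) ^ 3 + 2) ≤ k * (r * 4) :=
    (Nat.log_mono_right ((four n).trans h3)).trans (Nat.log_pow (by norm_num) _).le
  have h5 : (k + 1) ^ 3 + 1 ≤ 2 * (k + 1) ^ 3 := by
    have : 1 ≤ (k + 1) ^ 3 := Nat.one_le_pow _ _ (by omega)
    omega
  have h6 : Nat.log 2 ((n + 2) ^ 3 + 2) + 1 ≤ (4 * r + 1) * (k + 1) := by nlinarith
  calc _ = ((k + 1) ^ 3 + 1) * (c * (Nat.log 2 ((n + 2) ^ 3 + 2) + 1)) := by ring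
    _ ≤ (2 * (k + 1) ^ 3) * (c * ((4 * r + 1) * (k + 1))) :=
      Nat.mul_le_mul h5 (Nat.mul_le_mul_left _ h6)
    _ = _ := by ring

theorem root {n k r : ℕ} {ε : ℝ} (hε : 0 < ε) (hr : 1 ≤ r) (h4 : 4 / ε ≤ r)
    (h : (k - 1) ^ r ≤ n) : (((k + 1) ^ 4 : ℕ) : ℝ) ≤ 81 * ((n : ℝ) + 1) ^ ε := by
  have n0 : (1 : ℝ) ≤ (n : ℝ) + 1 := le_add_of_nonneg_left (Nat.cast_nonneg n)
  have y1 : (1 : ℝ) ≤ ((n : ℝ) + 1) ^ (ε / 4) := Real.one_le_rpow n0 (by positivity)
  have y4 : (((n : ℝ) + 1) ^ (ε / 4)) ^ 4 = ((n : ℝ) + 1) ^ ε := by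
    rw [← Real.rpow_natCast, ← Real.rpow_mul (by linarith)]
    congr 1
    push_cast
    ring
  have yr : (n : ℝ) + 1 ≤ (((n : ℝ) + 1) ^ (ε / 4)) ^ r := by
    rw [← Real.rpow_natCast, ← Real.rpow_mul (by linarith)]
    refine (Real.rpow_one _).ge.trans (Real.rpow_le_rpow_of_exponent_le n0 ?_)
    rw [div_le_iff₀ hε] at h4
    linarith
  have a : (((k - 1 : ℕ) : ℝ)) ^ r ≤ n := by exact_mod_cast h
  have b : ((k - 1 : ℕ) : ℝ) ≤ ((n : ℝ) + 1) ^ (ε / 4) :=
    le_of_pow_le_pow_left₀ (n := r) (by omega) (by linarith) (by linarith)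
  have c : ((k + 1 : ℕ) : ℝ) ≤ ((k - 1 : ℕ) : ℝ) + 2 := by exact_mod_cast (by omega)
  have d : ((k + 1 : ℕ) : ℝ) ≤ 3 * ((n : ℝ) + 1) ^ (ε / 4) := by linarith
  rw [Nat.cast_pow, ← y4]
  refine (pow_le_pow_left₀ (Nat.cast_nonneg _) d 4).trans (le_of_eq ?_)
  ring

end Fn

open Fn in
theorem fin : MachS → (∀ r, Cn (fun x => (kk r x + 1) ^ 3) fun x _ => ans r x) → KkS → DistS →
    CodeS → (∀ (m : ℕ) (dl is : Fin m → ℕ) sb, LevA dl is sb) → MainS := by
  intro hM hA hK hD hC hL ε hε
  obtain ⟨r, hr, h4⟩ : ∃ r : ℕ, 1 ≤ r ∧ 4 / ε ≤ r :=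
    ⟨⌈4 / ε⌉₊, Nat.ceil_pos.2 (by positivity), Nat.le_ceil _⟩
  obtain ⟨M, c, H⟩ := hM _ (ans r) (hA r)
  refine ⟨M, 4 * c + 2 * c * (4 * r + 1) * 81, fun x => ?_⟩
  obtain ⟨k1, k2, k3, k4⟩ := hK r x hr
  have k5 : kk r x - 1 ≤ x.length := (Nat.le_self_pow (by omega) _).trans k3
  obtain ⟨H1, H2⟩ := H x ((x.length + 2) ^ 3) (Nat.one_le_pow _ _ (by omega))
    (Nat.pow_le_pow_left (by omega) 3)
    ((Nat.le_add_right _ 2).trans (Nat.le_self_pow (by norm_num) _))
  refine ⟨ans r x != 0, ?_, fun t i => ?_, fun m del ins sub u v t hx => ?_⟩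
  · rw [halt M x H1, H1]
    refine (Nat.pow_le_pow_left (four _) c).trans ?_
    rw [← pow_mul]
    exact Nat.pow_le_pow_right (by omega) (Nat.le_add_right _ _)
  · have a : ((M.run x t).head i : ℝ) ≤ ((2 * c * (4 * r + 1) * (kk r x + 1) ^ 4 : ℕ) : ℝ) :=
      Nat.cast_le.2 ((H2 t i).trans (space hr k2))
    have b := root hε hr h4 k3
    have p : (0 : ℝ) ≤ ((x.length : ℝ) + 1) ^ ε := by positivity
    rw [Nat.cast_mul] at a
    refine (a.trans (mul_le_mul_of_nonneg_left b (Nat.cast_nonneg _))).trans ?_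
    rw [← mul_assoc]
    refine mul_le_mul_of_nonneg_right ?_ p
    exact_mod_cast Nat.le_add_left _ _
  · obtain ⟨c1, c2, c3⟩ := hC del ins sub u v t
    rw [← hx] at c1 c2 c3
    rw [(hL m del ins sub).align, ← c3 (kk r x ^ r) (c1 ▸ ((k4 1).trans k2.le)), ans,
      hD r x r 0 0 _ hr, c2, min_self, Nat.zero_min, ee, if_pos (Nat.zero_le _)]
    split_ifs with h <;> simp [h]

end Pool.Agent.MP_1a6d78_lc.ED

end MrgPart14

-- marker of a merged file
example : 731051 + 309770 = 731051 + 309770 := rfl
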