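import Pool.Agent.MP_1a6d78_lc.ED.Spec3
import Pool.Agent.MP_1a6d78_lc.ED.Fin

-- ======== part 0: formerly Pool.Agent.MP_1a6d78_lc.ED.RecW
section MrgPart0

/-! PROJECT ED3, row RECV: the recursion computes the distance. -/

namespace Pool.Agent.MP_1a6d78_lc.ED

namespace RecW

theorem gt_tab {n e : ℕ} (f : ℕ → ℕ) (h : e < n) : gt (tab n f) e = f e := by
  simp [gt, tab, List.getD, h]

/-- The Monge system of the strips. -/
def ds (x : List Bool) (o h : ℕ) (j u v : ℕ) : ℕ :=
  ee3 x (o + j * h) h (min u (num x 2)) (min v (num x 2))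

theorem chain {x : List Bool} (E : Ee3K x) {o h W a : ℕ} (ha : a ≤ num x 2) (hW : num x 2 < W)
    (i : ℕ) : ∀ y, a ≤ y →
      opt (ds x o h) a W (fun _ => a) i y = ee3 x o ((i + 1) * h) a (min y (num x 2)) := by
  induction i with
  | zero =>
    intro y _
    simp only [opt, ds, zero_mul, add_zero, zero_add, one_mul, min_eq_left ha]
  | succ i ih =>
    intro y hy
    obtain ⟨z, z1, z2, z3⟩ := E.spl o ((i + 1) * h) h a (min y (num x 2)) (le_min hy ha)
    have zq : z ≤ num x 2 := z2.trans (min_le_right _ _)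
    have e : (i + 1 + 1) * h = (i + 1) * h + h := by ring
    have hm : ee3 x o ((i + 1 + 1) * h) a (min y (num x 2)) ∈
        (fun z => opt (ds x o h) a W (fun _ => a) i z + ds x o h (i + 1) z y) ''
          Set.Ico a (a + W) :=
      ⟨z, ⟨z1, by omega⟩, by simp only [ih z z1, ds, min_eq_left zq, e, z3]⟩
    refine le_antisymm (Nat.sInf_le hm) ?_
    obtain ⟨z', hz', e'⟩ := Nat.sInf_mem ⟨_, hm⟩
    refine le_of_le_of_eq ?_ e'
    simp only [ih z' hz'.1, ds, e]
    exact E.tri _ _ _ _ _ _ (le_min hz'.1 ha) (le_min hy ha) (min_le_right _ _)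

theorem fn3_pk (k : List Bool → ℕ) (x : List Bool) (g : Orc) (h w o a i y : ℕ) (B : List ℕ) :
    fn3 k x g (pk k x h w o a i y B) = min (bx x) (bod k x g (min (bx x) h) (min (bx x) w)
      (min (bx x) o) (min (bx x) a) (min (min (bx x) i) (k x)) (min (bx x) y)
      (tab (k x) fun m => min (bx x) (gt B m))) := by
  have e : ∀ e < k x + 6, gt (pk k x h w o a i y B) e = _ := fun e he => gt_tab _ he
  have e6 : (tab (k x) fun m => gt (pk k x h w o a i y B) (6 + m)) =
      tab (k x) fun m => min (bx x) (gt B m) := by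
    refine List.map_congr_left fun m hm => ?_
    have := List.mem_range.1 hm
    rw [e _ (by omega), if_neg (by omega), if_neg (by omega), if_neg (by omega),
      if_neg (by omega), if_neg (by omega), if_neg (by omega), Nat.add_sub_cancel_left]
  rw [fn3, e6, e 0 (by omega), e 1 (by omega), e 2 (by omega), e 3 (by omega), e 4 (by omega),
    e 5 (by omega)]
  rfl

end RecW

open RecW in
theorem recW : VstepS → (∀ d s, ClipK d s) → (∀ d s, BoxK d s) → Row3S → Kk3S →
    (∀ x, Ee3K x) → RecVS := by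
  intro hV hC hB hR hK hE k x k2 kn
  obtain ⟨w1, w2, w3, -, w5⟩ := hK k x k2
  have E := hE x
  have hq := w5 2
  have p1 : x.length + 2 ≤ (x.length + 2) ^ 3 := Nat.le_self_pow (by omega) _
  have b1 : (x.length + 2) * (2 * (x.length + 2) ^ 3) ≤ bx x := by
    have : 2 * (x.length + 2) ≤ (x.length + 2) ^ 3 := by
      nlinarith [Nat.zero_le (x.length ^ 3), Nat.zero_le (x.length ^ 2)]
    calc _ = 2 * (x.length + 2) * (x.length + 2) ^ 3 := by ring
      _ ≤ (x.length + 2) ^ 3 * (x.length + 2) ^ 3 := Nat.mul_le_mul_right _ this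
      _ = bx x := by rw [bx]; ring
  have b2 : 2 * (x.length + 2) ^ 3 ≤ bx x := le_trans (Nat.le_mul_of_pos_left _ (by omega)) b1
  have b3 : ww k x ≤ bx x := by
    have := Nat.mul_le_mul_right x.length kn
    have := Nat.mul_le_mul_left (x.length + 2) p1
    nlinarith
  have b4 : num x 2 ≤ bx x := by omega
  have mq : ∀ a, min (min (bx x) a) (num x 2) = min a (num x 2) := fun a => by omega
  have pk1 : ∀ s, 0 < k x ^ s := fun s => Nat.pow_pos (by omega)
  have pk2 : ∀ s, k x ^ (s + 1) / k x = k x ^ s := fun s => by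
    rw [pow_succ, Nat.mul_div_cancel _ (by omega)]
  have pk3 : ∀ s, 2 ≤ k x ^ (s + 1) := fun s => k2.trans (Nat.le_self_pow (by omega) _)
  have pk4 : ∀ s ≤ rr k x, k x ^ s ≤ bx x := fun s hs =>
    (Nat.pow_le_pow_right (by omega) hs).trans (w1 ▸ b3)
  have VV : ∀ s, (∀ d o a i b B, 1 + s * (rr k x + 2) ≤ d → o + k x ^ s ≤ ww k x →
      rc (fn3 k x) d (pk k x (k x ^ s) 0 o a i b B) =
        ee3 x o (k x ^ s) (min a (num x 2)) (min b (num x 2))) →
      ∀ o a, o + k x ^ (s + 1) ≤ ww k x → a ≤ num x 2 → ∀ t ≤ rr k x, ∀ d i y B,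
        1 + s * (rr k x + 2) + t + 1 ≤ d → i ≤ k x - 1 →
        rc (fn3 k x) d (pk k x (k x ^ s) (k x ^ t) o a i y B) =
          opt (ds x o (k x ^ s)) a (k x ^ t) (gt B) i y := by
    intro s hD o a ho ha
    have hs : k x ^ s ≤ k x ^ (s + 1) := Nat.pow_le_pow_right (by omega) (by omega)
    have fin : ∀ t i y B, i ≤ k x - 1 → min (bx x) (opt (ds x o (k x ^ s)) a (k x ^ t)
        (gt (tab (k x) fun m => min (bx x) (gt B m))) i (min (bx x) y)) =
        opt (ds x o (k x ^ s)) a (k x ^ t) (gt B) i y := by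
      intro t i y B hi
      rw [(hB _ _).congr _ (gt (tab (k x) fun m => min (bx x) (gt B m)))
        (fun m => min (bx x) (gt B m)) i _
        (fun m hm => gt_tab (fun m => min (bx x) (gt B m)) (by omega)),
        (hC _ _).clip (num x 2) (bx x) _ (fun j a b => by simp [ds]) b4 (pk1 t)]
      refine min_eq_right (((hC _ _).bound _ _ (fun j a b =>
        E.bound _ _ _ _ (min_le_right _ _) (min_le_right _ _)) (pk1 t) _ _ _).trans ?_)
      exact le_trans (Nat.mul_le_mul_right _ (by omega)) b1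
    intro t
    induction t with
    | zero =>
      intro _ d i y B hd hi
      obtain ⟨d, rfl⟩ : ∃ d', d = d' + 1 := ⟨d - 1, by omega⟩
      rw [← fin 0 i y B hi, rc, fn3_pk, min_eq_right (show k x ^ s ≤ bx x by omega),
        min_eq_right (show o ≤ bx x by omega), min_eq_right (show a ≤ bx x by omega),
        min_eq_right (pk4 0 (Nat.zero_le _)), show min (min (bx x) i) (k x) = i by omega,
        pow_zero, bod, if_neg (by omega), if_pos le_rfl, (hB _ _).one]
      congr 1
      refine Finset.sum_congr rfl fun j hj => hD d _ _ _ _ _ (by omega) ?_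
      have := Finset.mem_range.1 hj
      have : (j + 1) * k x ^ s ≤ k x * k x ^ s := Nat.mul_le_mul_right _ (by omega)
      rw [pow_succ'] at ho
      nlinarith
    | succ t ih =>
      intro ht d i y B hd hi
      obtain ⟨d, rfl⟩ : ∃ d', d = d' + 1 := ⟨d - 1, by omega⟩
      have := pk3 t
      rw [← fin (t + 1) i y B hi, rc, fn3_pk, min_eq_right (show k x ^ s ≤ bx x by omega),
        min_eq_right (show o ≤ bx x by omega), min_eq_right (show a ≤ bx x by omega),
        min_eq_right (pk4 _ ht), show min (min (bx x) i) (k x) = i by omega,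
        bod, if_neg (by omega), if_neg (by omega), pk2, pow_succ',
        hV (ds x o (k x ^ s)) a _ _ _ _ _ _ (fun j u u' v v' hu hv =>
          E.mon _ _ _ _ _ _ (min_le_min_right _ hu) (min_le_min_right _ hv) (min_le_right _ _)
            (min_le_right _ _)) (pk1 t) (by omega)
          fun l j y hj => ih (by omega) d j y l (by omega) (by omega)]
  have DD : ∀ s ≤ rr k x, ∀ d o a i b B, 1 + s * (rr k x + 2) ≤ d → o + k x ^ s ≤ ww k x →
      rc (fn3 k x) d (pk k x (k x ^ s) 0 o a i b B) =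
        ee3 x o (k x ^ s) (min a (num x 2)) (min b (num x 2)) := by
    intro s
    induction s with
    | zero =>
      intro _ d o a i b B hd ho
      obtain ⟨d, rfl⟩ : ∃ d', d = d' + 1 := ⟨d - 1, by omega⟩
      rw [← min_eq_right ((E.bound o _ _ _ (min_le_right a _) (min_le_right b _)).trans b2), rc,
        fn3_pk, min_eq_right (pk4 0 (Nat.zero_le _)), min_eq_right (show o ≤ bx x by omega),
        Nat.min_zero, bod, if_pos rfl, mq, mq, pow_zero, if_pos le_rfl, ee3]
      split_ifs with h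
      · rw [hR x o _ _ h]
      · rfl
    | succ s ih =>
      intro hs d o a i b B hd ho
      obtain ⟨d, rfl⟩ : ∃ d', d = d' + 1 := ⟨d - 1, by omega⟩
      have := pk3 s
      rw [← min_eq_right ((E.bound o _ _ _ (min_le_right a _) (min_le_right b _)).trans b2), rc,
        fn3_pk, min_eq_right (pk4 _ hs), min_eq_right (show o ≤ bx x by omega),
        Nat.min_zero, bod, if_pos rfl, mq, mq, if_neg (show ¬ k x ^ (s + 1) ≤ 1 by omega)]
      congr 1
      split_ifs with h
      · rw [pk2, w1, VV s (ih (by omega)) o _ ho (min_le_right _ _) _ le_rfl d _ _ _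
          (by rw [add_mul] at hd; omega) le_rfl,
          (hB _ _).congr _ (gt (tab (k x) fun _ => min a (num x 2))) (fun _ => min a (num x 2))
            (k x - 1) _ (fun m hm => gt_tab (fun _ => min a (num x 2)) (by omega)),
          chain E (min_le_right _ _) (by omega) _ _ h, Nat.sub_add_cancel (by omega),
          min_eq_left (min_le_right b _), pow_succ']
      · rw [ee3, if_neg h]
  have := DD (rr k x) le_rfl ((rr k x + 1) ^ 2) 0 0 0 (num x 2) (tab (k x) fun _ => 0)
    (by nlinarith) (by omega)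
  rw [← w1] at this
  rw [this, Nat.zero_min, min_self, ee3, if_pos (Nat.zero_le _)]

end Pool.Agent.MP_1a6d78_lc.ED

end MrgPart0

-- ======== part 1: formerly Pool.Agent.MP_1a6d78_lc.ED.Ee3
section MrgPart1

/-! PROJECT ED3, row EE3: the penalised grid distance. -/

namespace Pool.Agent.MP_1a6d78_lc.ED

namespace Ee3

theorem split {m n l : ℕ} (P : ℕ) (h : m = n + l) : m * P = n * P + l * P := by
  rw [h, Nat.add_mul]

theorem one {m : ℕ} (P : ℕ) (h : 1 ≤ m) : P ≤ m * P := Nat.le_mul_of_pos_left P h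

/-- The abstract Monge extension. -/
theorem mon {g : ℕ → ℕ → ℕ} {P q : ℕ} (hP : ∀ a b, b ≤ q → g a b ≤ P)
    (hM : ∀ a a' b b', a ≤ a' → a' ≤ b → b ≤ b' → g a b + g a' b' ≤ g a b' + g a' b)
    {a a' b b' : ℕ} (ha : a ≤ a') (hb : b ≤ b') (hq : b' ≤ q) :
    ((if a ≤ b then g a b else g b b + (a - b) * P) +
      if a' ≤ b' then g a' b' else g b' b' + (a' - b') * P) ≤
    (if a ≤ b' then g a b' else g b' b' + (a - b') * P) +
      if a' ≤ b then g a' b else g b b + (a' - b) * P := by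
  by_cases h1 : a' ≤ b
  · rw [if_pos (by omega), if_pos (by omega), if_pos (by omega), if_pos h1]
    exact hM _ _ _ _ ha h1 hb
  rw [if_neg h1]
  have p1 := hP a' b' hq
  have p2 := hP b' b' hq
  by_cases h2 : a ≤ b
  · rw [if_pos h2, if_pos (show a ≤ b' by omega)]
    have e1 := hM a b b b' h2 le_rfl hb
    by_cases h3 : a' ≤ b'
    · rw [if_pos h3]
      have := one P (show 1 ≤ a' - b by omega)
      omega
    · rw [if_neg h3]
      rcases hb.eq_or_lt with rfl | hb
      · exact le_rfl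
      · have e2 := split P (show a' - b = (a' - b') + (b' - b) by omega)
        have := one P (show 1 ≤ b' - b by omega)
        omega
  rw [if_neg h2]
  have e2 := split P (show a' - b = (a' - a) + (a - b) by omega)
  by_cases h3 : a' ≤ b'
  · rw [if_pos h3, if_pos (show a ≤ b' by omega)]
    rcases ha.eq_or_lt with rfl | ha
    · omega
    · have := one P (show 1 ≤ a' - a by omega)
      omega
  rw [if_neg h3]
  by_cases h4 : a ≤ b'
  · rw [if_pos h4]
    have e3 := split P (show a' - a = (a' - b') + (b' - a) by omega)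
    rcases h4.eq_or_lt with rfl | h4
    · omega
    · have := one P (show 1 ≤ b' - a by omega)
      omega
  · rw [if_neg h4]
    have e3 := split P (show a' - b' = (a' - a) + (a - b') by omega)
    omega

theorem col_eq {x : List Bool} (hG : GdK (wt x 0) (wt x 1) (wt x 2)) (o h b : ℕ) :
    col x o h b = dd3 x o h b b := by
  rw [dd3, Nat.sub_self, hG.col, col]
  refine Finset.sum_congr rfl fun t ht => ?_
  have := Finset.mem_range.1 ht
  rw [min_eq_left (by omega)]

theorem dd_le {x : List Bool} (hG : GdK (wt x 0) (wt x 1) (wt x 2))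
    (hn : ∀ i, num x i ≤ x.length) (o h a b : ℕ) (hb : b ≤ num x 2) :
    dd3 x o h a b ≤ 2 * x.length * x.length := by
  refine (hG.bound x.length (fun _ _ => hn _) (fun _ _ => hn _) _ _ _ _).trans
    (Nat.mul_le_mul_right _ ?_)
  have := hn 1
  have := hn 2
  omega

end Ee3

open Ee3 in
theorem ee3K : GmonS → (∀ V H D, GdK V H D) → (∀ x i, num x i ≤ x.length) → ∀ x, Ee3K x := by
  intro hM hG hn x
  have G := hG (wt x 0) (wt x 1) (wt x 2)
  have r1 : ∀ o h h', min (h + h') (num x 1 - o) =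
      min h (num x 1 - o) + min h' (num x 1 - (o + h)) := fun o h h' => by omega
  have r2 : ∀ o h, min (o + h) (num x 1) = min o (num x 1) + min h (num x 1 - o) :=
    fun o h => by omega
  refine ⟨fun o h a a' b b' ha hb _ hq => ?_, fun o h h' a z b hz hb hq => ?_,
    fun o h h' a b hab => ?_, fun o h a b ha hb => ?_⟩
  · simp only [ee3, pen, col_eq G]
    refine mon (g := dd3 x o h) (dd_le G (hn x) o h) (fun a a' b b' h1 h2 h3 => ?_) ha hb hq
    have := hM (wt x 0) (wt x 1) (wt x 2) (min h (num x 1 - o)) (min o (num x 1)) a (a' - a)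
      (b - a') (b' - b)
    rwa [show a' - a + (b - a') = b - a by omega, show b - a' + (b' - b) = b' - a' by omega,
      show b - a + (b' - b) = b' - a by omega, show a + (a' - a) = a' by omega] at this
  · simp only [ee3, if_pos hz, if_pos hb]
    split_ifs with h1
    · have := G.app (min h (num x 1 - o)) (min h' (num x 1 - (o + h))) (z - a) (b - z)
        (min o (num x 1)) a
      rwa [← r1, ← r2, show z - a + (b - z) = b - a by omega,
        show a + (z - a) = z by omega] at this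
    · have := dd_le G (hn x) o (h + h') a b hq
      have := one (2 * x.length * x.length) (show 1 ≤ z - b by omega)
      unfold pen
      omega
  · obtain ⟨z, hz, e⟩ := G.split (min h (num x 1 - o)) (min h' (num x 1 - (o + h))) (b - a)
      (min o (num x 1)) a
    refine ⟨a + z, by omega, by omega, ?_⟩
    rw [← r1, ← r2] at e
    simp only [ee3, if_pos hab, if_pos (Nat.le_add_right a z),
      if_pos (show a + z ≤ b by omega), dd3, e, Nat.add_sub_cancel_left, Nat.sub_sub]
  · have h1 := dd_le G (hn x) o h a b hb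
    have h2 := dd_le G (hn x) o h b b hb
    have h3 : (a - b) * (2 * x.length * x.length) ≤ x.length * (2 * x.length * x.length) :=
      Nat.mul_le_mul_right _ (by have := hn x 2; omega)
    simp only [ee3, pen, col_eq G]
    split_ifs <;> nlinarith [Nat.zero_le (x.length * x.length), Nat.zero_le x.length]

end Pool.Agent.MP_1a6d78_lc.ED

end MrgPart1

-- ======== part 2: formerly Pool.Agent.MP_1a6d78_lc.ED.Gmon
section MrgPart2

/-! Row GMON: the quadrangle inequality for walks in a weighted grid. -/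

namespace Pool.Agent.MP_1a6d78_lc.ED

namespace Gmon

variable (V H D : ℕ → ℕ → ℕ)

theorem le_h (n m o a : ℕ) :
    gd V H D n (m + 1) o a ≤ H o (a + 1) + gd V H D n m o (a + 1) := by
  cases n with
  | zero => rw [gd]
  | succ n =>
    rw [gd]
    exact (min_le_right _ _).trans (min_le_left _ _)

theorem le_v (n m o a : ℕ) :
    gd V H D (n + 1) m o a ≤ V (o + 1) a + gd V H D n m (o + 1) a := by
  cases m with
  | zero => rw [gd]
  | succ m =>
    rw [gd]
    exact min_le_left _ _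

theorem le_d (n m o a : ℕ) :
    gd V H D (n + 1) (m + 1) o a ≤ D (o + 1) (a + 1) + gd V H D n m (o + 1) (a + 1) := by
  rw [gd]
  exact (min_le_right _ _).trans (min_le_right _ _)

theorem three (n m o a : ℕ) :
    gd V H D (n + 1) (m + 1) o a = V (o + 1) a + gd V H D n (m + 1) (o + 1) a ∨
      gd V H D (n + 1) (m + 1) o a = H o (a + 1) + gd V H D (n + 1) m o (a + 1) ∨
      gd V H D (n + 1) (m + 1) o a = D (o + 1) (a + 1) + gd V H D n m (o + 1) (a + 1) := by
  rw [gd]
  omega

/-- The first row of an optimal walk. -/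
theorem first (n m o a : ℕ) :
    ∃ p q c : ℕ, m = p + q ∧ gd V H D (n + 1) m o a = c + gd V H D n q (o + 1) (a + p) ∧
      ∀ q', gd V H D (n + 1) (p + q') o a ≤ c + gd V H D n q' (o + 1) (a + p) := by
  induction m generalizing a with
  | zero =>
    refine ⟨0, 0, V (o + 1) a, rfl, by rw [gd, add_zero], fun q' => ?_⟩
    rw [zero_add]
    exact le_v V H D n q' o a
  | succ m ih =>
    rcases three V H D n m o a with h | h | h
    · refine ⟨0, m + 1, V (o + 1) a, (zero_add _).symm, h, fun q' => ?_⟩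
      rw [zero_add]
      exact le_v V H D n q' o a
    · obtain ⟨p, q, c, hv, hc, hq⟩ := ih (a + 1)
      have e : a + (p + 1) = a + 1 + p := by omega
      refine ⟨p + 1, q, H o (a + 1) + c, by omega, by rw [e]; omega, fun q' => ?_⟩
      have h1 := le_h V H D (n + 1) (p + q') o a
      have h2 := hq q'
      rw [e, show p + 1 + q' = p + q' + 1 by omega]
      omega
    · refine ⟨1, m, D (o + 1) (a + 1), add_comm _ _, h, fun q' => ?_⟩
      rw [add_comm 1 q']
      exact le_d V H D n q' o a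

theorem row (m m' o a : ℕ) :
    gd V H D 0 (m + m') o a = gd V H D 0 m o a + gd V H D 0 m' o (a + m) := by
  induction m generalizing a with
  | zero => rw [zero_add, gd, zero_add, add_zero]
  | succ m ih =>
    rw [show m + 1 + m' = m + m' + 1 by omega, gd, gd, ih, show a + (m + 1) = a + 1 + m by omega]
    omega

theorem main (n o a m₁ m₂ m₃ : ℕ) :
    gd V H D n (m₁ + m₂) o a + gd V H D n (m₂ + m₃) o (a + m₁) ≤
      gd V H D n (m₁ + m₂ + m₃) o a + gd V H D n m₂ o (a + m₁) := by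
  induction n generalizing o a m₁ m₂ m₃ with
  | zero =>
    simp only [row, add_assoc]
    omega
  | succ n ihn =>
    induction m₁ generalizing a with
    | zero =>
      simp only [zero_add, add_zero]
      omega
    | succ m₁ ih =>
      obtain ⟨p, q, c, rfl, hc, hq⟩ := first V H D n m₂ o (a + (m₁ + 1))
      have h3 := hq (q + m₃)
      have e1 : m₁ + 1 + (p + q) = m₁ + (p + q) + 1 := by omega
      have e2 : m₁ + (p + q) + 1 + m₃ = m₁ + (p + q) + m₃ + 1 := by omega
      rw [← add_assoc p q m₃] at h3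
      rw [e1, e2]
      rcases three V H D n (m₁ + (p + q) + m₃) o a with h | h | h
      · have h1 := le_v V H D n (m₁ + (p + q) + 1) o a
        have h2 := ihn (o + 1) a (m₁ + 1 + p) q m₃
        rw [add_assoc (m₁ + 1) p q, e1, e2, ← add_assoc a (m₁ + 1) p] at h2
        omega
      · have h1 := le_h V H D (n + 1) (m₁ + (p + q)) o a
        have h2 := ih (a + 1)
        rw [show a + 1 + m₁ = a + (m₁ + 1) by omega] at h2
        omega
      · have h1 := le_d V H D n (m₁ + (p + q)) o a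
        have h2 := ihn (o + 1) (a + 1) (m₁ + p) q m₃
        rw [add_assoc m₁ p q, show a + 1 + (m₁ + p) = a + (m₁ + 1) + p by omega] at h2
        omega

end Gmon

theorem gmonS : GmonS := fun V H D n o a m₁ m₂ m₃ => Gmon.main V H D n o a m₁ m₂ m₃

end Pool.Agent.MP_1a6d78_lc.ED

end MrgPart2

-- ======== part 3: formerly Pool.Agent.MP_1a6d78_lc.ED.Gd
section MrgPart3

/-! PROJECT ED3, row GD: least cost walks in weighted grids. -/

namespace Pool.Agent.MP_1a6d78_lc.ED

namespace Gd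

variable (V H D : ℕ → ℕ → ℕ)

theorem e00 (o a : ℕ) : gd V H D 0 0 o a = 0 := by rw [gd]

theorem e10 (n o a : ℕ) :
    gd V H D (n + 1) 0 o a = V (o + 1) a + gd V H D n 0 (o + 1) a := by rw [gd]

theorem e01 (m o a : ℕ) :
    gd V H D 0 (m + 1) o a = H o (a + 1) + gd V H D 0 m o (a + 1) := by rw [gd]

theorem e11 (n m o a : ℕ) : gd V H D (n + 1) (m + 1) o a =
    min (V (o + 1) a + gd V H D n (m + 1) (o + 1) a)
      (min (H o (a + 1) + gd V H D (n + 1) m o (a + 1))
        (D (o + 1) (a + 1) + gd V H D n m (o + 1) (a + 1))) := by rw [gd]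

theorem down (n m o a : ℕ) :
    gd V H D (n + 1) m o a ≤ V (o + 1) a + gd V H D n m (o + 1) a := by
  cases m with
  | zero => rw [e10]
  | succ m => rw [e11]; omega

theorem right (n m o a : ℕ) :
    gd V H D n (m + 1) o a ≤ H o (a + 1) + gd V H D n m o (a + 1) := by
  cases n with
  | zero => rw [e01]
  | succ n => rw [e11]; omega

theorem diag (n m o a : ℕ) :
    gd V H D (n + 1) (m + 1) o a ≤ D (o + 1) (a + 1) + gd V H D n m (o + 1) (a + 1) := by
  rw [e11]; omega

theorem app (n' m' n : ℕ) : ∀ m o a, gd V H D (n + n') (m + m') o a ≤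
    gd V H D n m o a + gd V H D n' m' (o + n) (a + m) := by
  induction n with
  | zero =>
    intro m
    induction m with
    | zero => intro o a; simp [e00]
    | succ m ih =>
      intro o a
      have h1 := ih o (a + 1)
      have h2 := right V H D (0 + n') (m + m') o a
      rw [e01, show m + 1 + m' = m + m' + 1 by omega, show a + (m + 1) = a + 1 + m by omega]
      omega
  | succ n ihn =>
    intro m
    rw [show n + 1 + n' = n + n' + 1 by omega]
    induction m with
    | zero =>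
      intro o a
      have h1 := ihn 0 (o + 1) a
      have h2 := down V H D (n + n') (0 + m') o a
      rw [e10, show o + (n + 1) = o + 1 + n by omega]
      omega
    | succ m ih =>
      intro o a
      have h1 := ihn (m + 1) (o + 1) a
      have h2 := down V H D (n + n') (m + 1 + m') o a
      have h3 := ih o (a + 1)
      have h4 := right V H D (n + n' + 1) (m + m') o a
      have h5 := ihn m (o + 1) (a + 1)
      have h6 := diag V H D (n + n') (m + m') o a
      rw [show o + (n + 1) = o + 1 + n by omega] at h3 ⊢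
      rw [show m + 1 + m' = m + m' + 1 by omega, show a + (m + 1) = a + 1 + m by omega] at *
      rw [e11 V H D n m]
      omega

theorem cut (n' n : ℕ) : ∀ m o a, ∃ z ≤ m,
    gd V H D n z o a + gd V H D n' (m - z) (o + n) (a + z) ≤ gd V H D (n + n') m o a := by
  induction n with
  | zero => intro m o a; exact ⟨0, by omega, by simp [e00]⟩
  | succ n ihn =>
    intro m
    rw [show n + 1 + n' = n + n' + 1 by omega]
    have dn : ∀ m o a, ∃ z ≤ m, gd V H D (n + 1) z o a +
        gd V H D n' (m - z) (o + (n + 1)) (a + z) ≤ V (o + 1) a + gd V H D (n + n') m (o + 1) a :=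
      fun m o a => by
        obtain ⟨z, h1, h2⟩ := ihn m (o + 1) a
        have h3 := down V H D n z o a
        refine ⟨z, h1, ?_⟩
        rw [show o + (n + 1) = o + 1 + n by omega]
        omega
    induction m with
    | zero =>
      intro o a
      rw [e10]
      exact dn 0 o a
    | succ m ih =>
      intro o a
      rw [e11]
      rcases min_choice (V (o + 1) a + gd V H D (n + n') (m + 1) (o + 1) a)
        (min (H o (a + 1) + gd V H D (n + n' + 1) m o (a + 1))
          (D (o + 1) (a + 1) + gd V H D (n + n') m (o + 1) (a + 1))) with e | e <;> rw [e]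
      · exact dn (m + 1) o a
      rcases min_choice (H o (a + 1) + gd V H D (n + n' + 1) m o (a + 1))
          (D (o + 1) (a + 1) + gd V H D (n + n') m (o + 1) (a + 1)) with e | e <;> rw [e]
      · obtain ⟨z, h1, h2⟩ := ih o (a + 1)
        have h3 := right V H D (n + 1) z o a
        refine ⟨z + 1, by omega, ?_⟩
        rw [show m + 1 - (z + 1) = m - z by omega, show a + (z + 1) = a + 1 + z by omega]
        omega
      · obtain ⟨z, h1, h2⟩ := ihn m (o + 1) (a + 1)
        have h3 := diag V H D n z o a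
        refine ⟨z + 1, by omega, ?_⟩
        rw [show m + 1 - (z + 1) = m - z by omega, show a + (z + 1) = a + 1 + z by omega,
          show o + (n + 1) = o + 1 + n by omega]
        omega

theorem col (n : ℕ) : ∀ o a, gd V H D n 0 o a = ∑ t ∈ Finset.range n, V (o + t + 1) a := by
  induction n with
  | zero => intro o a; simp [e00]
  | succ n ih =>
    intro o a
    rw [e10, ih, Finset.sum_range_succ', add_comm]
    congr 1
    exact Finset.sum_congr rfl fun t _ => by rw [show o + 1 + t + 1 = o + (t + 1) + 1 by omega]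

theorem bound (w : ℕ) (hV : ∀ i j, V i j ≤ w) (hH : ∀ i j, H i j ≤ w) (n : ℕ) :
    ∀ m o a, gd V H D n m o a ≤ (n + m) * w := by
  induction n with
  | zero =>
    intro m
    induction m with
    | zero => intro o a; simp [e00]
    | succ m ih =>
      intro o a
      have h1 := ih o (a + 1)
      have h2 := hH o (a + 1)
      rw [e01, ← add_assoc, add_mul _ 1]
      omega
  | succ n ih =>
    intro m o a
    have h1 := ih m (o + 1) a
    have h2 := hV (o + 1) a
    have h3 := down V H D n m o a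
    rw [show n + 1 + m = n + m + 1 by omega, add_mul _ 1]
    omega

end Gd

theorem gdK (V H D : ℕ → ℕ → ℕ) : GdK V H D where
  app n n' m m' o a := Gd.app V H D n' m' n m o a
  split n n' m o a := by
    obtain ⟨z, h1, h2⟩ := Gd.cut V H D n' n m o a
    have h3 := Gd.app V H D n' (m - z) n z o a
    rw [show z + (m - z) = m by omega] at h3
    exact ⟨z, h1, le_antisymm h3 h2⟩
  col n o a := Gd.col V H D n o a
  bound w hV hH n m o a := Gd.bound V H D w hV hH n m o a

end Pool.Agent.MP_1a6d78_lc.ED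

end MrgPart3

-- ======== part 4: formerly Pool.Agent.MP_1a6d78_lc.ED.Row3
section MrgPart4

/-! PROJECT ED3, row ROW3: the distance for one row of a weighted grid and the parameters. -/

namespace Pool.Agent.MP_1a6d78_lc.ED

namespace Row3

/-- Cost of `n` steps to the right in row `o` from column `a`. -/
def sH (H : ℕ → ℕ → ℕ) (o a n : ℕ) : ℕ := ∑ t ∈ Finset.range n, H o (a + t + 1)

theorem sH_zero (H : ℕ → ℕ → ℕ) (o a : ℕ) : sH H o a 0 = 0 := rfl

theorem sH_succ (H : ℕ → ℕ → ℕ) (o a n : ℕ) :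
    sH H o a (n + 1) = H o (a + 1) + sH H o (a + 1) n := by
  unfold sH
  rw [Finset.sum_range_succ', Nat.add_zero, Nat.add_comm]
  congr 1
  refine Finset.sum_congr rfl fun t _ => ?_
  congr 1
  omega

theorem gd_zero (V H D : ℕ → ℕ → ℕ) (o m : ℕ) : ∀ a, gd V H D 0 m o a = sH H o a m := by
  induction m with
  | zero => intro a; rw [gd, sH_zero]
  | succ m ih => intro a; rw [gd, ih, sH_succ]

theorem le_gd_one (V H D : ℕ → ℕ → ℕ) (o m : ℕ) :
    ∀ a t, t ≤ gd V H D 1 m o a ↔ t ≤ V (o + 1) a + sH H (o + 1) a m ∧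
      ∀ z < m, t ≤ min (sH H o a z + D (o + 1) (a + z + 1))
        (sH H o a (z + 1) + V (o + 1) (a + z + 1)) + sH H (o + 1) (a + z + 1) (m - (z + 1)) := by
  induction m with
  | zero => intro a t; rw [gd, gd, sH_zero]; simp
  | succ m ih =>
    intro a t
    have h2 := ih (a + 1) (t - H o (a + 1))
    have h3 : t ≤ H o (a + 1) + gd V H D 1 m o (a + 1) ↔
        t - H o (a + 1) ≤ gd V H D 1 m o (a + 1) := by omega
    rw [gd, gd_zero, gd_zero, le_min_iff, le_min_iff, Nat.zero_add, h3, h2]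
    constructor
    · rintro ⟨e0, ⟨e1, e2⟩, e3⟩
      refine ⟨e0, fun z hz => ?_⟩
      rcases z with _ | z
      · simp only [Nat.add_zero, Nat.zero_add, Nat.add_sub_cancel, sH_succ H o a 0, sH_zero]
        omega
      · have e := e2 z (by omega)
        have p1 : a + (z + 1) = a + 1 + z := by omega
        have p2 : m + 1 - (z + 1 + 1) = m - (z + 1) := by omega
        rw [sH_succ H o a z, sH_succ H o a (z + 1), p1, p2]
        omega
    · rintro ⟨e0, e1⟩
      have e2 := e1 0 (by omega)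
      simp only [Nat.add_zero, Nat.add_sub_cancel, sH_succ H o a 0, sH_zero] at e2
      refine ⟨e0, ⟨by omega, fun z hz => ?_⟩, by omega⟩
      have e := e1 (z + 1) (by omega)
      have p1 : a + (z + 1) = a + 1 + z := by omega
      have p2 : m + 1 - (z + 1 + 1) = m - (z + 1) := by omega
      rw [sH_succ H o a z, sH_succ H o a (z + 1), p1, p2] at e
      omega

theorem pc_inv (k : List Bool → ℕ) (x : List Bool) (m : ℕ) :
    ∀ r, r = ∑ j ∈ Finset.range m, (if pc k x j ≤ x.length then 1 else 0) →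
      pc k x m = k x ^ r ∧ pc k x m ≤ k x * x.length + 1 ∧ (x.length < pc k x m ∨ r = m) ∧
        (r = 0 ∨ k x ^ (r - 1) ≤ x.length) := by
  induction m with
  | zero =>
    rintro r rfl
    exact ⟨rfl, Nat.le_add_left 1 _, Or.inr rfl, Or.inl rfl⟩
  | succ m ih =>
    rintro r rfl
    obtain ⟨i1, i2, i3, i4⟩ := ih _ rfl
    have e : pc k x (m + 1) = if pc k x m ≤ x.length then pc k x m * k x else pc k x m := rfl
    rw [e, Finset.sum_range_succ]
    by_cases h : pc k x m ≤ x.length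
    · rw [if_pos h, if_pos h]
      refine ⟨by rw [pow_succ, ← i1], ?_, Or.inr (by omega), Or.inr ?_⟩
      · rw [Nat.mul_comm]
        exact (Nat.mul_le_mul_left _ h).trans (Nat.le_succ _)
      · rw [Nat.add_sub_cancel, ← i1]
        exact h
    · rw [if_neg h, if_neg h]
      exact ⟨i1, i2, Or.inl (by omega), i4⟩

end Row3

open Row3

theorem row3S : Row3S := by
  intro x o a b hab
  unfold row3 dd3
  by_cases h : o + 1 ≤ num x 1
  · rw [if_pos h]
    have e : min 1 (num x 1 - o) = 1 := by omega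
    have e1 : min o (num x 1) = o := by omega
    rw [e, e1]
    refine eq_of_forall_le_iff fun t => ?_
    rw [le_gd_one, RowKk.le_itr_min (fun z =>
      min (hsum x o a (a + z) + wt x 2 (o + 1) (a + z + 1))
        (hsum x o a (a + z + 1) + wt x 0 (o + 1) (a + z + 1)) + hsum x (o + 1) (a + z + 1) b)]
    refine and_congr Iff.rfl (forall_congr' fun z => forall_congr' fun _ => ?_)
    have p1 : a + z - a = z := by omega
    have p2 : b - (a + z + 1) = b - a - (z + 1) := by omega
    have p3 : a + z + 1 - a = z + 1 := by omega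
    simp only [hsum, sH, p1, p2, p3]
  · rw [if_neg h]
    have e : min 1 (num x 1 - o) = 0 := by omega
    have e1 : min o (num x 1) = num x 1 := by omega
    rw [e, e1]
    exact (gd_zero _ _ _ _ _ a).symm

theorem kk3S : Kk3S := by
  intro k x hk
  obtain ⟨i1, i2, i3, i4⟩ := pc_inv k x x.length (rr k x) rfl
  refine ⟨i1, ?_, i2, ?_, RowKk.num_le x⟩
  · rcases i3 with h | h
    · exact h
    · unfold ww
      rw [i1, h]
      exact Nat.lt_pow_self hk
  · rcases i4 with h | h
    · omega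
    · have := Nat.le_log_of_pow_le hk h
      omega

end Pool.Agent.MP_1a6d78_lc.ED

end MrgPart4

-- ======== part 5: formerly Pool.Agent.MP_1a6d78_lc.ED.Code3
section MrgPart5

/-! PROJECT ED3, row CODE3: reading a weighted grid off its code. -/

namespace Pool.Agent.MP_1a6d78_lc.ED

namespace Code3

section
variable {α : Type} {dn rt dg : α → α → ℕ} {V H D : ℕ → ℕ → ℕ}

/-- The weights agree with the tables on the grid with corner `(o, s)`. -/
def Ok (dn rt dg : α → α → ℕ) (V H D : ℕ → ℕ → ℕ) (p q : List α) (o s : ℕ) : Prop :=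
  ∀ i j a b, p[i]? = some a → q[j]? = some b →
    V (o + i) (s + j) = dn a b ∧ H (o + i) (s + j) = rt a b ∧ D (o + i) (s + j) = dg a b

theorem Ok.down {a : α} {p q : List α} {o s : ℕ} (h : Ok dn rt dg V H D (a :: p) q o s) :
    Ok dn rt dg V H D p q (o + 1) s := fun i j a' b' h1 h2 => by
  rw [Nat.add_assoc, Nat.add_comm 1 i]
  exact h (i + 1) j a' b' h1 h2

theorem Ok.right {b : α} {p q : List α} {o s : ℕ} (h : Ok dn rt dg V H D p (b :: q) o s) :
    Ok dn rt dg V H D p q o (s + 1) := fun i j a' b' h1 h2 => by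
  rw [Nat.add_assoc, Nat.add_comm 1 j]
  exact h i (j + 1) a' b' h1 h2

theorem gd_down (n m o s : ℕ) :
    gd V H D (n + 1) m o s ≤ V (o + 1) s + gd V H D n m (o + 1) s := by
  cases m with
  | zero => rw [gd]
  | succ m => rw [gd]; exact min_le_left _ _

theorem gd_right (n m o s : ℕ) :
    gd V H D n (m + 1) o s ≤ H o (s + 1) + gd V H D n m o (s + 1) := by
  cases n with
  | zero => rw [gd]
  | succ n => rw [gd]; exact (min_le_right _ _).trans (min_le_left _ _)

theorem gd_diag (n m o s : ℕ) :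
    gd V H D (n + 1) (m + 1) o s ≤ D (o + 1) (s + 1) + gd V H D n m (o + 1) (s + 1) := by
  rw [gd]
  exact (min_le_right _ _).trans (min_le_right _ _)

theorem le_walk {a b : α} {u v : List α} {c : ℕ} (h : Walk dn rt dg a u b v c) :
    ∀ o s, Ok dn rt dg V H D (a :: u) (b :: v) o s → gd V H D u.length v.length o s ≤ c := by
  induction h with
  | nil a b => intro o s _; simp [gd]
  | down a a' b _ ih =>
    intro o s k
    rw [← (k 1 0 a' b rfl rfl).1]
    exact (gd_down _ _ _ _).trans (Nat.add_le_add_left (ih _ _ k.down) _)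
  | right a b b' _ ih =>
    intro o s k
    rw [← (k 0 1 a b' rfl rfl).2.1]
    exact (gd_right _ _ _ _).trans (Nat.add_le_add_left (ih _ _ k.right) _)
  | diag a a' b b' _ ih =>
    intro o s k
    rw [← (k 1 1 a' b' rfl rfl).2.2]
    exact (gd_diag _ _ _ _).trans (Nat.add_le_add_left (ih _ _ k.down.right) _)

theorem walk_gd (u : List α) : ∀ (v : List α) (a b : α) (o s : ℕ),
    Ok dn rt dg V H D (a :: u) (b :: v) o s →
      Walk dn rt dg a u b v (gd V H D u.length v.length o s) := by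
  induction u with
  | nil =>
    intro v
    induction v with
    | nil => intro a b o s _; simpa [gd] using Walk.nil a b
    | cons b' v ih =>
      intro a b o s k
      have e : H o (s + 1) = rt a b' := (k 0 1 a b' rfl rfl).2.1
      rw [List.length_nil, List.length_cons, gd, e]
      exact .right a b b' (ih a b' o (s + 1) k.right)
  | cons a' u ih =>
    intro v
    induction v with
    | nil =>
      intro a b o s k
      have e : V (o + 1) s = dn a' b := (k 1 0 a' b rfl rfl).1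
      rw [List.length_nil, List.length_cons, gd, e]
      exact .down a a' b (ih [] a' b (o + 1) s k.down)
    | cons b' v ih' =>
      intro a b o s k
      have e1 : V (o + 1) s = dn a' b := (k 1 0 a' b rfl rfl).1
      have e2 : H o (s + 1) = rt a b' := (k 0 1 a b' rfl rfl).2.1
      have e3 : D (o + 1) (s + 1) = dg a' b' := (k 1 1 a' b' rfl rfl).2.2
      have w1 := Walk.down a a' b (ih (b' :: v) a' b (o + 1) s k.down)
      have w2 := Walk.right a b b' (ih' a b' o (s + 1) k.right)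
      have w3 := Walk.diag a a' b b' (ih v a' b' (o + 1) (s + 1) k.down.right)
      rw [List.length_cons, List.length_cons, gd, e1, e2, e3]
      rw [List.length_cons] at w1 w2
      rcases min_choice (dn a' b + gd V H D u.length (v.length + 1) (o + 1) s)
        (min (rt a b' + gd V H D (u.length + 1) v.length o (s + 1))
          (dg a' b' + gd V H D u.length v.length (o + 1) (s + 1))) with e | e
      · rwa [e]
      · rw [e]
        rcases min_choice (rt a b' + gd V H D (u.length + 1) v.length o (s + 1))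
          (dg a' b' + gd V H D u.length v.length (o + 1) (s + 1)) with e | e
        · rwa [e]
        · rwa [e]

end

theorem rows {m : ℕ} (f : Fin m → Fin m → ℕ) :
    ∀ l ∈ List.ofFn fun a => List.ofFn (f a), l.length = m := fun l hl => by
  obtain ⟨c, rfl⟩ := List.mem_ofFn.1 hl
  exact List.length_ofFn

theorem table_len {m : ℕ} (f : Fin m → Fin m → ℕ) : (table f).length = m * m := by
  simp [table, List.length_flatten, List.map_ofFn, Function.comp_def]

theorem table_get {m : ℕ} (f : Fin m → Fin m → ℕ) (a b : Fin m) :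
    (table f).getD (a * m + b) 0 = f a b := by
  rw [table, Code.getD_flatten _ (rows f) _ _ b.2, Code.getD_ofFn, Code.getD_ofFn]

theorem idx_lt {m : ℕ} (a b : Fin m) : a * m + b < m * m := by
  have := a.2
  have := b.2
  nlinarith

end Code3

open Code Code3 in
theorem code3S : Code3S := by
  intro m dn rt dg a u b v t x hx h hh
  have hn : ∀ i, num x i = ([m, u.length, v.length, t] ++ ((a :: u).map Fin.val ++
      ((b :: v).map Fin.val ++ (table dn ++ (table rt ++ table dg))))).getD i 0 := fun i => by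
    rw [hx, gridCode, num_unary]
    simp only [List.append_assoc]
  have n0 : num x 0 = m := hn 0
  have n1 : num x 1 = u.length := hn 1
  have n2 : num x 2 = v.length := hn 2
  have n3 : num x 3 = t := hn 3
  have lu : ((a :: u).map Fin.val).length = u.length + 1 := List.length_map _
  have lv : ((b :: v).map Fin.val).length = v.length + 1 := List.length_map _
  have nu : ∀ (i : ℕ) (c : Fin m), (a :: u)[i]? = some c → num x (4 + i) = c := fun i c h => by
    rw [hn, getD_right _ _ (n := 4) rfl, List.getD_append _ _ _ _ (getD_val h).1, (getD_val h).2]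
  have nv : ∀ (j : ℕ) (c : Fin m), (b :: v)[j]? = some c → num x (5 + u.length + j) = c :=
    fun j c h => by
      rw [hn, show 5 + u.length + j = 4 + (u.length + 1 + j) by omega,
        getD_right _ _ (n := 4) rfl, getD_right _ _ lu,
        List.getD_append _ _ _ _ (getD_val h).1, (getD_val h).2]
  have nw : ∀ (e i j : ℕ) (a' b' : Fin m), (a :: u)[i]? = some a' → (b :: v)[j]? = some b' →
      wt x e i j = (table dn ++ (table rt ++ table dg)).getD (e * (m * m) + (a' * m + b')) 0 :=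
    fun e i j a' b' h h' => by
      rw [wt, n0, n1, n2, nu i a' h, nv j b' h', hn,
        show 6 + u.length + v.length + e * (m * m) + (a' * m + b') =
          4 + (u.length + 1 + (v.length + 1 + (e * (m * m) + (a' * m + b')))) by omega,
        getD_right _ _ (n := 4) rfl, getD_right _ _ lu, getD_right _ _ lv]
  have k : Ok dn rt dg (wt x 0) (wt x 1) (wt x 2) (a :: u) (b :: v) 0 0 := by
    intro i j a' b' h h'
    have l := idx_lt a' b'
    rw [Nat.zero_add, Nat.zero_add, nw 0 i j a' b' h h', nw 1 i j a' b' h h', nw 2 i j a' b' h h']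
    refine ⟨?_, ?_, ?_⟩
    · rw [Nat.zero_mul, Nat.zero_add, List.getD_append _ _ _ _ (by rwa [table_len]), table_get]
    · rw [Nat.one_mul, getD_right _ _ (table_len dn),
        List.getD_append _ _ _ _ (by rwa [table_len]), table_get]
    · rw [Nat.two_mul, Nat.add_assoc, getD_right _ _ (table_len dn),
        getD_right _ _ (table_len rt), table_get]
  rw [n1] at hh
  rw [dd3, n1, n2, n3, Nat.sub_zero, Nat.sub_zero, min_eq_right hh, Nat.zero_min]
  exact ⟨fun h => ⟨_, h, walk_gd u v a b 0 0 k⟩, fun ⟨d, h1, h2⟩ => (le_walk h2 0 0 k).trans h1⟩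

end Pool.Agent.MP_1a6d78_lc.ED

end MrgPart5

-- ======== part 6: formerly Pool.Agent.MP_1a6d78_lc.ED.Vstep
section MrgPart6

/-! PROJECT ED3, row VSTEP: one refinement of the width; clipping. -/

namespace Pool.Agent.MP_1a6d78_lc.ED

open ValRow in
theorem vstepS (hBox : ∀ d s, BoxK d s) (hBi : BiS) (hStep : StepS) : VstepS := by
  intro d s k w f B i x hM hw hi hf
  have hI : ∀ j ≤ i, Inv d s k w B j (tbl k w f B j) := by
    intro j
    induction j with
    | zero => exact fun _ => inv_zero _ _ _ _ _ _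
    | succ j ihj =>
      intro hj
      have hT := ihj (by omega)
      exact hStep d s k w j f B _ (hBox d s) hw (by omega) hT
        (hBi d s k w j f B _ hM (hBox d s) hw (by omega) hT fun l y => hf l j y (by omega))
  have hT := hI i le_rfl
  have hb := hBi d s k w i f B _ hM (hBox d s) hw hi hT fun l y => hf l i y le_rfl
  unfold rfn
  obtain ⟨T, hT'⟩ : ∃ T, T = tbl k w f B i := ⟨_, rfl⟩
  rw [← hT'] at hT hb ⊢
  obtain ⟨b, hb'⟩ : ∃ b, b = bi k f T i := ⟨_, rfl⟩
  rw [← hb'] at hb ⊢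
  rw [hf _ i x le_rfl, (hBox d s).congr w (gt (rowOf k T (b x)))
    (fun m => gt T (b x * k + m)) i x fun m hm => gt_tab _ _ _ (by omega)]
  refine le_antisymm ?_ ?_
  · obtain ⟨a, ha, h⟩ := hT.cover x
    exact le_trans (hb.best x a ha) h
  · exact (hBox d s).sub _ _ _ _ i x hw fun m hm => hT.inside (b x) (hb.lt x) m hm

namespace Vstep

variable {d : ℕ → ℕ → ℕ → ℕ} {q : ℕ}

theorem d_eq (h : ∀ j a b, d j a b = d j (min a q) (min b q)) (j : ℕ) {a a' b b' : ℕ}
    (ha : min a q = min a' q) (hb : min b q = min b' q) : d j a b = d j a' b' := by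
  rw [h j a b, h j a' b', ha, hb]

theorem opt_eq (h : ∀ j a b, d j a b = d j (min a q) (min b q)) (s w : ℕ) (l : ℕ → ℕ) (i : ℕ)
    {y y' : ℕ} (hy : min y q = min y' q) : opt d s w l i y = opt d s w l i y' := by
  cases i with
  | zero => exact d_eq h 0 rfl hy
  | succ i =>
    have e : (fun z => opt d s w l i z + d (i + 1) z y) =
        fun z => opt d s w l i z + d (i + 1) z y' :=
      funext fun z => by rw [d_eq h (i + 1) rfl hy]
    show sInf ((fun z => opt d s w l i z + d (i + 1) z y) '' Set.Ico (l i) (l i + w)) =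
      sInf ((fun z => opt d s w l i z + d (i + 1) z y') '' Set.Ico (l i) (l i + w))
    rw [e]

theorem clip0 (h : ∀ j a b, d j a b = d j (min a q) (min b q)) (s : ℕ) {β w : ℕ} (hq : q ≤ β)
    (hw : 0 < w) (l : ℕ → ℕ) (i y : ℕ) :
    opt d s w (fun m => min β (l m)) i y = opt d s w l i y := by
  induction i generalizing y with
  | zero => rfl
  | succ i ih =>
    obtain ⟨z, a1, a2, a3⟩ := Box.opt_ex d s w l i y hw
    obtain ⟨z', b1, b2, b3⟩ := Box.opt_ex d s w (fun m => min β (l m)) i y hw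
    rcases Nat.le_total (l i) β with k | k
    · have c1 := Box.opt_le d s w l i y z' (by omega) (by omega)
      have c2 := Box.opt_le d s w (fun m => min β (l m)) i y z
        (show min β (l i) ≤ z by omega) (show z < min β (l i) + w by omega)
      have e1 := ih z
      have e2 := ih z'
      omega
    · have m : min z q = min z' q := by omega
      rw [a3, b3, ih z', opt_eq h s w l i m, d_eq h (i + 1) m rfl]

end Vstep

theorem clipK (d : ℕ → ℕ → ℕ → ℕ) (s : ℕ) : ClipK d s where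
  clip q β w h hq hw l i y := by
    rw [Vstep.clip0 h s hq hw]
    exact Vstep.opt_eq h s w l i (by omega)
  bound M w h hw l i y := by
    induction i generalizing y with
    | zero =>
      have := h 0 s y
      show d 0 s y ≤ _
      omega
    | succ i ih =>
      obtain ⟨z, _, _, a3⟩ := Box.opt_ex d s w l i y hw
      have e1 := ih z
      have e2 := h (i + 1) z y
      rw [a3, Nat.add_mul (i + 1), Nat.one_mul]
      omega

end Pool.Agent.MP_1a6d78_lc.ED

end MrgPart6

-- ======== part 7: formerly Pool.Agent.MP_1a6d78_lc.ED.Ora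
section MrgPart7

/-! PROJECT ED3, row ORA: the derived rules of the calculus with calls. -/

namespace Pool.Agent.MP_1a6d78_lc.ED

namespace Ora

variable {κ β : List Bool → ℕ}

theorem congr {f f' : List Bool → Orc → Env → List ℕ} (h : Co κ β f)
    (e : ∀ x g ρ, f x g ρ = f' x g ρ) : Co κ β f' := by
  have : f = f' := funext fun x => funext fun g => funext fun ρ => e x g ρ
  exact this ▸ h

theorem pw_le {B c c' : ℕ} (h : c ≤ c') : pw B c ≤ pw B c' :=
  Nat.pow_le_pow_right (by omega) h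

/-- The bound for the body of a loop. -/
theorem h_bd {h : List Bool → Orc → Env → ℕ → ℕ}
    (hh : Cp κ β fun x g ρ => h x g (tl ρ) (hd (ρ 0))) :
    ∃ c, ∀ x g ρ B, Bo κ β x g ρ B → ∀ m ≤ B, h x g ρ m ≤ pw B c := by
  obtain ⟨c, hc, -⟩ := hh
  exact ⟨c, fun x g ρ B k m hm =>
    hc x g (cons [m] ρ) B ⟨Ara.bd_cons k.1 hm, k.2⟩ _ (List.mem_singleton_self _)⟩

theorem tlM (O : KitO κ β) {f : List Bool → Orc → Env → List ℕ} (h : Co κ β f) :
    Co κ β fun x g ρ => f x g (tl ρ) := O.ren f (· + 1) h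

theorem op2 (O : KitO κ β) (φ : ℕ → ℕ → ℕ) {a b : List Bool → Orc → Env → ℕ}
    (h : Cn κ fun _ ρ => φ (hd (ρ 0)) (hd (ρ 1))) (ha : Cp κ β a) (hb : Cp κ β b) :
    Cp κ β fun x g ρ => φ (a x g ρ) (b x g ρ) :=
  O.bind _ _ hb (O.bind _ _ (tlM O ha) (O.lift _ h))

theorem ifz (O : KitO κ β) {a e f : List Bool → Orc → Env → ℕ} (ha : Cp κ β a) (he : Cp κ β e)
    (hf : Cp κ β f) : Cp κ β fun x g ρ => if a x g ρ = 0 then e x g ρ else f x g ρ := by
  refine congr (O.bind _ _ ha (O.ifz _ _ (tlM O he) (tlM O hf))) fun x g ρ => ?_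
  change (if a x g ρ = 0 then [e x g ρ] else [f x g ρ]) = [if a x g ρ = 0 then _ else _]
  split_ifs <;> rfl

theorem iterN (I : IterO κ β) {n z : List Bool → Orc → Env → ℕ}
    (f : List Bool → Orc → Env → ℕ → ℕ → ℕ) (hn : Cp κ β n) (hk : ∀ x g ρ, n x g ρ ≤ κ x)
    (hz : Cp κ β z) (hf : Cp κ β fun x g ρ => f x g (tl (tl ρ)) (hd (ρ 1)) (hd (ρ 0)))
    (hb : ∃ c, ∀ x g ρ B, Bo κ β x g ρ B → ∀ m ≤ B, itr (f x g ρ) (z x g ρ) m ≤ pw B c) :
    Cp κ β fun x g ρ => itr (f x g ρ) (z x g ρ) (n x g ρ) := by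
  obtain ⟨c, hc⟩ := hb
  refine congr (I n _ _ hn hk hz hf ⟨c, fun x g ρ B h m hm a ha => ?_⟩)
    fun x g ρ => Ara.itr_one (f x g ρ) _ _
  have e := Ara.itr_one (f x g ρ) (z x g ρ) m
  rw [List.mem_singleton.1 (e ▸ ha : a ∈ [itr (f x g ρ) (z x g ρ) m])]
  exact hc x g ρ B h m (hm.trans ((hk x g ρ).trans h.1.2.1))

end Ora

open Ora in
theorem kitP (k b : List Bool → ℕ) : Kit1 k → Kit2 k → KitO k b → IterO k b → TabO k b →
    KitP k b := by
  intro A K O I T
  have add : ∀ {u v : List Bool → Orc → Env → ℕ}, Cp k b u → Cp k b v →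
      Cp k b fun x g ρ => u x g ρ + v x g ρ :=
    fun hu hv => op2 O (· + ·) (A.add (A.hdv 0) (A.hdv 1)) hu hv
  have sub : ∀ {u v : List Bool → Orc → Env → ℕ}, Cp k b u → Cp k b v →
      Cp k b fun x g ρ => u x g ρ - v x g ρ :=
    fun hu hv => op2 O (· - ·) (A.sub (A.hdv 0) (A.hdv 1)) hu hv
  exact
  { var := fun i => O.lift _ (A.var i)
    hdv := fun i => O.lift _ (A.hdv i)
    const := fun n => O.lift _ (A.const n)
    liftN := fun h => O.lift _ h
    tl := fun h => tlM O h
    tlN := fun h => tlM O h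
    op3 := fun φ _ _ _ h ha hb he =>
      O.bind _ _ he (O.bind _ _ (tlM O hb) (O.bind _ _ (tlM O (tlM O ha)) (O.lift _ h)))
    gt := fun hl hi => O.bind _ _ hi (O.bind _ _ (tlM O hl) (O.lift _ (A.gt (A.var 0) (A.hdv 1))))
    add := add
    sub := sub
    mul := fun hu hv => op2 O (· * ·) (K.mul (A.hdv 0) (A.hdv 1)) hu hv
    div := fun hu hv => op2 O (· / ·) (K.div (A.hdv 0) (A.hdv 1)) hu hv
    mod := fun hu hv => op2 O (· % ·) (K.mod (A.hdv 0) (A.hdv 1)) hu hv
    min := fun hu hv => op2 O min (K.min (A.hdv 0) (A.hdv 1)) hu hv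
    ile := fun hu hv he hf => Ora.congr (ifz O (sub hu hv) he hf) fun x g ρ => by
      simp only [Nat.sub_eq_zero_iff_le]
    ieq := fun hu hv he hf => Ora.congr (ifz O (add (sub hu hv) (sub hv hu)) he hf) fun x g ρ => by
      simp only [Nat.add_eq_zero_iff, Nat.sub_eq_zero_iff_le, ← Nat.le_antisymm_iff]
    call := fun he h => O.call _ he h
    fold := fun f h hn hk hz hf hh hb => by
      obtain ⟨c, hc⟩ := h_bd hh
      have hz' := hz
      obtain ⟨c', hc', -⟩ := hz'
      refine iterN I f hn hk hz hf ⟨c + c', fun x g ρ B q m hm => ?_⟩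
      exact Ara.itr_bd (· ≤ pw B (c + c')) _ _ _
        ((hc' x g ρ B q _ (List.mem_singleton_self _)).trans (pw_le (by omega)))
        fun j hj acc hacc => hb x g ρ j acc _ hacc
          ((hc x g ρ B q j (by omega)).trans (pw_le (by omega)))
    foldL := fun f h hn hk hz hf hh hb => by
      obtain ⟨c, hc⟩ := h_bd hh
      have hz' := hz
      obtain ⟨c', hc', -⟩ := hz'
      refine I _ _ _ hn hk hz hf ⟨c + c', fun x g ρ B q m hm => ?_⟩
      have hm' := hm.trans ((hk x g ρ).trans q.1.2.1)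
      exact Ara.itr_bd (fun l : List ℕ => ∀ a ∈ l, a ≤ pw B (c + c')) (f x g ρ) _ _
        (fun a ha => (hc' x g ρ B q a ha).trans (pw_le (by omega)))
        fun j hj acc hacc => hb x g ρ j acc _ hacc
          ((hc x g ρ B q j (by omega)).trans (pw_le (by omega)))
    sum := fun h hn hk hh => by
      obtain ⟨c, hc⟩ := h_bd hh
      refine Ora.congr (iterN I (fun x g ρ m acc => acc + h x g ρ m) hn hk
        (O.lift _ (A.const 0)) (add (O.lift _ (A.hdv 0)) (tlM O hh))
        ⟨c + 1, fun x g ρ B q m hm => ?_⟩) fun x g ρ => by simp only [Ara.itr_sum, zero_add]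
      rw [Ara.itr_sum, Ara.pw_succ, zero_add]
      have h1 : ∑ i ∈ Finset.range m, h x g ρ i ≤ (Finset.range m).card • pw B c :=
        Finset.sum_le_card_nsmul _ _ _ fun i hi =>
          hc x g ρ B q i (by have := Finset.mem_range.1 hi; omega)
      rw [Finset.card_range, smul_eq_mul, mul_comm] at h1
      exact h1.trans (Nat.mul_le_mul_left _ (by omega))
    tab := fun f h1 h2 h3 => T _ _ h1 h2 h3 }

end Pool.Agent.MP_1a6d78_lc.ED

end MrgPart7

-- ======== part 8: formerly Pool.Agent.MP_1a6d78_lc.ED.Alg0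
section MrgPart8

/-! PROJECT ED3, row ALG0: the parts of the algorithm without calls, and the bounds. -/

namespace Pool.Agent.MP_1a6d78_lc.ED

namespace Alg0

open AlgD

variable {κ : List Bool → ℕ}

/-- Powers of `q`, frozen once they exceed `t`. -/
def fp (q t m : ℕ) : ℕ := itr (fun _ acc => if acc ≤ t then acc * q else acc) 1 m

theorem fpC (K1 : Kit1 κ) (K2 : Kit2 κ) {q t m : List Bool → Env → ℕ} (hq : Cn κ q)
    (ht : Cn κ t) (hm : Cn κ m) : Cn κ fun x ρ => fp (q x ρ) (t x ρ) (m x ρ) :=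
  K1.fold (fun x ρ _ acc => if acc ≤ t x ρ then acc * q x ρ else acc)
    (fun x ρ _ => t x ρ * q x ρ) hm (K1.const 1)
    (K1.ile (K1.hdv 0) (tl2 K1 ht) (K2.mul (K1.hdv 0) (tl2 K1 hq)) (K1.hdv 0))
    (K2.mul (K1.tlN ht) (K1.tlN hq))
    (fun x ρ m acc b h1 h2 => by
      split_ifs with h
      · exact (Nat.mul_le_mul_right _ h).trans h2
      · exact h1)

theorem fp_cases (t m : ℕ) : fp 2 t m = 2 ^ m ∨ (t < fp 2 t m ∧ t < 2 ^ m) := by
  induction m with
  | zero => exact Or.inl rfl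
  | succ m ih =>
    have e : fp 2 t (m + 1) = if fp 2 t m ≤ t then fp 2 t m * 2 else fp 2 t m := rfl
    rw [e, pow_succ]
    split_ifs <;> omega

theorem count (a L : ℕ) : (∑ m ∈ Finset.range a, if m + 1 ≤ L then 1 else 0) = min a L := by
  induction a with
  | zero => simp
  | succ a ih =>
    rw [Finset.sum_range_succ, ih]
    split_ifs <;> omega

theorem log_eq (a : ℕ) :
    Nat.log 2 a = ∑ m ∈ Finset.range a, if fp 2 a (m + 1) ≤ a then 1 else 0 := by
  have h : ∀ m ∈ Finset.range a, (if fp 2 a (m + 1) ≤ a then 1 else 0) =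
      if m + 1 ≤ Nat.log 2 a then 1 else 0 := by
    intro m hm
    have ha : a ≠ 0 := by
      have := Finset.mem_range.1 hm
      omega
    refine if_congr ?_ rfl rfl
    rw [Nat.le_log_iff_pow_le (by norm_num) ha]
    have := fp_cases a (m + 1)
    omega
  rw [Finset.sum_congr rfl h, count, min_eq_right (Nat.log_le_self 2 a)]

theorem sqrt_eq (a : ℕ) :
    Nat.sqrt a = ∑ m ∈ Finset.range a, if (m + 1) ^ 2 ≤ a then 1 else 0 := by
  have h : ∀ m ∈ Finset.range a, (if (m + 1) ^ 2 ≤ a then 1 else 0) =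
      if m + 1 ≤ Nat.sqrt a then 1 else 0 :=
    fun m _ => if_congr Nat.le_sqrt'.symm rfl rfl
  rw [Finset.sum_congr rfl h, count, min_eq_right (Nat.sqrt_le_self a)]

theorem exp_eq (n e : ℕ) : min n (2 ^ e) = min n (fp 2 n e) := by
  have := fp_cases n e
  omega

theorem logC (K1 : Kit1 κ) (K2 : Kit2 κ) {a : List Bool → Env → ℕ} (ha : Cn κ a) :
    Cn κ fun x ρ => Nat.log 2 (a x ρ) := by
  simp only [log_eq]
  exact K1.sum (fun x ρ m => if fp 2 (a x ρ) (m + 1) ≤ a x ρ then 1 else 0) ha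
    (K1.ile (fpC K1 K2 (K1.const 2) (K1.tlN ha) (K1.add (K1.hdv 0) (K1.const 1))) (K1.tlN ha)
      (K1.const 1) (K1.const 0))

theorem sqrtC (K1 : Kit1 κ) (K2 : Kit2 κ) {a : List Bool → Env → ℕ} (ha : Cn κ a) :
    Cn κ fun x ρ => Nat.sqrt (a x ρ) := by
  simp only [sqrt_eq]
  exact K1.sum (fun x ρ m => if (m + 1) ^ 2 ≤ a x ρ then 1 else 0) ha
    (K1.ile (K2.pow 2 (K1.add (K1.hdv 0) (K1.const 1))) (K1.tlN ha) (K1.const 1) (K1.const 0))

theorem expC (K1 : Kit1 κ) (K2 : Kit2 κ) {n e : List Bool → Env → ℕ} (hn : Cn κ n)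
    (he : Cn κ e) : Cn κ fun x ρ => min (n x ρ) (2 ^ e x ρ) := by
  simp only [exp_eq]
  exact K2.min hn (fpC K1 K2 (K1.const 2) hn he)

theorem wtC (K1 : Kit1 κ) (K2 : Kit2 κ) (e : ℕ) {i j : List Bool → Env → ℕ} (hi : Cn κ i)
    (hj : Cn κ j) : Cn κ fun x ρ => wt x e (i x ρ) (j x ρ) :=
  numC K1 K2 (K1.add (K1.add (K1.add (K1.add (K1.const 6) (numK K1 K2 1)) (numK K1 K2 2))
    (K2.mul (K1.const e) (K2.mul (numK K1 K2 0) (numK K1 K2 0))))
    (K1.add (K2.mul (numC K1 K2 (K1.add (K1.const 4) hi)) (numK K1 K2 0))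
      (numC K1 K2 (K1.add (K1.add (K1.const 5) (numK K1 K2 1)) hj))))

theorem hsumC (K1 : Kit1 κ) (K2 : Kit2 κ) {o a b : List Bool → Env → ℕ} (ho : Cn κ o)
    (ha : Cn κ a) (hb : Cn κ b) : Cn κ fun x ρ => hsum x (o x ρ) (a x ρ) (b x ρ) :=
  K1.sum (fun x ρ t => wt x 1 (o x ρ) (a x ρ + t + 1)) (K1.sub hb ha)
    (wtC K1 K2 1 (K1.tlN ho) (K1.add (K1.add (K1.tlN ha) (K1.hdv 0)) (K1.const 1)))

theorem colC (K1 : Kit1 κ) (K2 : Kit2 κ) {o h b : List Bool → Env → ℕ} (ho : Cn κ o)
    (hh : Cn κ h) (hb : Cn κ b) : Cn κ fun x ρ => col x (o x ρ) (h x ρ) (b x ρ) :=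
  K1.sum (fun x ρ t => wt x 0 (o x ρ + t + 1) (b x ρ)) (K2.min hh (K1.sub (numK K1 K2 1) ho))
    (wtC K1 K2 0 (K1.add (K1.add (K1.tlN ho) (K1.hdv 0)) (K1.const 1)) (K1.tlN hb))

theorem row3C (K1 : Kit1 κ) (K2 : Kit2 κ) {o a b : List Bool → Env → ℕ} (ho : Cn κ o)
    (ha : Cn κ a) (hb : Cn κ b) : Cn κ fun x ρ => row3 x (o x ρ) (a x ρ) (b x ρ) := by
  have haz : Cn κ fun x ρ => a x (tl (tl ρ)) + hd (ρ 1) := K1.add (tl2 K1 ha) (K1.hdv 1)
  have haz1 := K1.add haz (K1.const 1)
  have ho2 := tl2 K1 ho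
  have ho21 := K1.add ho2 (K1.const 1)
  have ho1 := K1.add ho (K1.const 1)
  have hf := K1.fold
    (fun x ρ z acc => min acc
      (min (hsum x (o x ρ) (a x ρ) (a x ρ + z) + wt x 2 (o x ρ + 1) (a x ρ + z + 1))
        (hsum x (o x ρ) (a x ρ) (a x ρ + z + 1) + wt x 0 (o x ρ + 1) (a x ρ + z + 1)) +
        hsum x (o x ρ + 1) (a x ρ + z + 1) (b x ρ))) (fun _ _ _ => 0)
    (K1.sub hb ha) (K1.add (wtC K1 K2 0 ho1 ha) (hsumC K1 K2 ho1 ha hb))
    (K2.min (K1.hdv 0) (K1.add
      (K2.min (K1.add (hsumC K1 K2 ho2 (tl2 K1 ha) haz) (wtC K1 K2 2 ho21 haz1))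
        (K1.add (hsumC K1 K2 ho2 (tl2 K1 ha) haz1) (wtC K1 K2 0 ho21 haz1)))
      (hsumC K1 K2 ho21 haz1 (tl2 K1 hb))))
    (K1.const 0) (fun x ρ m acc c h1 _ => (min_le_left _ _).trans h1)
  exact K1.ile ho1 (numK K1 K2 1) hf (hsumC K1 K2 (numK K1 K2 1) ha hb)

end Alg0

theorem alg0K (kap k : List Bool → ℕ) :
    Kit1 kap → Kit2 kap → Cn kap (fun x _ => k x) → Alg0K kap k := fun K1 K2 hk =>
  { numC := AlgD.numK K1 K2
    wwC := Alg0.fpC K1 K2 hk K1.len K1.len
    rrC := K2.pow 2 (K1.add (K1.sum (fun x _ m => if pc k x m ≤ x.length then 1 else 0) K1.len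
      (K1.ile (Alg0.fpC K1 K2 hk K1.len (K1.hdv 0)) K1.len (K1.const 1) (K1.const 0)))
      (K1.const 1))
    bxC := K2.pow 6 (K1.add K1.len (K1.const 2))
    rowC := Alg0.row3C K1 K2 (K1.hdv 0) (K1.hdv 1) (K1.hdv 2)
    colC := Alg0.colC K1 K2 (K1.hdv 0) (K1.hdv 1) (K1.hdv 2)
    penC := K2.mul (K2.mul (K1.const 2) K1.len) K1.len }

theorem bndS : BndS := by
  intro κ e K1 K2
  induction e with
  | len => exact K1.len
  | mul e e' h h' => exact K2.mul h h'
  | log e h => exact Alg0.logC K1 K2 h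
  | sqrt e h => exact Alg0.sqrtC K1 K2 h
  | exp e h => exact Alg0.expC K1 K2 K1.len h

end Pool.Agent.MP_1a6d78_lc.ED

end MrgPart8

-- ======== part 9: formerly Pool.Agent.MP_1a6d78_lc.ED.AlgR
section MrgPart9

/-! PROJECT ED3, row ALGR: one refinement of the width is computable in the calculus with calls. -/

namespace Pool.Agent.MP_1a6d78_lc.ED

namespace AlgR

abbrev Nm : Type := List Bool → Orc → Env → ℕ
abbrev Ls : Type := List Bool → Orc → Env → List ℕ
abbrev Fm : Type := List Bool → Orc → ℕ → ℕ → ℕ → ℕ → List ℕ → ℕ → ℕ → ℕ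

/-- The standing hypotheses. -/
structure Hy (κ β k : List Bool → ℕ) (f : Fm) : Prop where
  K : KitP κ β
  le : ∀ x, (k x + 1) ^ 3 ≤ κ x
  kc : Cn κ fun x _ => k x
  qc : Cn κ fun x _ => (k x + 1) ^ 3
  fc : ∀ (h w o a i y : Nm) (B : Ls), Cp κ β h → Cp κ β w → Cp κ β o → Cp κ β a → Cp κ β i →
    Cp κ β y → Co κ β B → Cp κ β fun x g ρ =>
      f x g (h x g ρ) (w x g ρ) (o x g ρ) (a x g ρ) (B x g ρ) (i x g ρ) (y x g ρ)

/-- The four parameters. -/
structure Par (κ β : List Bool → ℕ) (h w o a : Nm) : Prop where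
  ph : Cp κ β h
  pw : Cp κ β w
  po : Cp κ β o
  pa : Cp κ β a

theorem itr_congr {α : Type} {f f' : ℕ → α → α} (z : α) (n : ℕ) (h : ∀ m < n, f m = f' m) :
    itr f z n = itr f' z n := by
  induction n with
  | zero => rfl
  | succ n ih =>
    show f n (itr f z n) = f' n (itr f' z n)
    rw [ih fun m hm => h m (by omega), h n (by omega)]

section
variable {κ β k : List Bool → ℕ} {f : Fm} {h w o a : Nm}

theorem Par.tl (P : Par κ β h w o a) (K : KitP κ β) :
    Par κ β (fun x g ρ => h x g (tl ρ)) (fun x g ρ => w x g (tl ρ)) (fun x g ρ => o x g (tl ρ))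
      fun x g ρ => a x g (tl ρ) :=
  ⟨K.tlN P.ph, K.tlN P.pw, K.tlN P.po, K.tlN P.pa⟩

theorem Hy.kp (H : Hy κ β k f) : Cp κ β fun x _ _ => k x := H.K.liftN H.kc

theorem Hy.k_le (H : Hy κ β k f) (x : List Bool) : k x ≤ κ x :=
  le_trans (le_trans (Nat.le_succ _) (Nat.le_self_pow (by omega) _)) (H.le x)

theorem Hy.ap (H : Hy κ β k f) (P : Par κ β h w o a) {B : Ls} {i y : Nm} (hB : Co κ β B)
    (hi : Cp κ β i) (hy : Cp κ β y) : Cp κ β fun x g ρ =>
      f x g (h x g ρ) (w x g ρ) (o x g ρ) (a x g ρ) (B x g ρ) (i x g ρ) (y x g ρ) :=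
  H.fc _ _ _ _ _ _ _ P.ph P.pw P.po P.pa hi hy hB

theorem row_c (H : Hy κ β k f) {T : Ls} {r : Nm} (hT : Co κ β T) (hr : Cp κ β r) :
    Co κ β fun x g ρ => rowOf (k x) (T x g ρ) (r x g ρ) :=
  H.K.tab (n := k) (fun x g ρ m => gt (T x g ρ) (r x g ρ * k x + m)) H.k_le H.kc
    (H.K.gt (H.K.tl hT) (H.K.add (H.K.mul (H.K.tlN hr) H.kp) (H.K.hdv 0)))

theorem bi_c (H : Hy κ β k f) (P : Par κ β h w o a) {T : Ls} {j y : Nm} (hT : Co κ β T)
    (hj : Cp κ β j) (hjk : ∀ x g ρ, j x g ρ ≤ k x) (hy : Cp κ β y) : Cp κ β fun x g ρ =>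
      bi (k x) (f x g (h x g ρ) (w x g ρ) (o x g ρ) (a x g ρ)) (T x g ρ) (j x g ρ) (y x g ρ) := by
  have K := H.K
  refine K.fold (n := fun x g ρ => 1 + j x g ρ * (k x - 1)) (z := fun _ _ _ => 0)
    (fun x g ρ r acc => if f x g (h x g ρ) (w x g ρ) (o x g ρ) (a x g ρ)
        (rowOf (k x) (T x g ρ) acc) (j x g ρ) (y x g ρ) ≤
      f x g (h x g ρ) (w x g ρ) (o x g ρ) (a x g ρ) (rowOf (k x) (T x g ρ) r) (j x g ρ) (y x g ρ)
        then acc else r)
    (fun _ _ _ m => m) (K.add (K.const 1) (K.mul hj (K.sub H.kp (K.const 1)))) ?_ (K.const 0)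
    ?_ (K.hdv 0) ?_
  · intro x g ρ
    refine le_trans ?_ (H.le x)
    have h1 : j x g ρ * (k x - 1) ≤ k x * k x := Nat.mul_le_mul (hjk x g ρ) (Nat.sub_le _ _)
    have h2 : (k x + 1) ^ 3 = 1 + k x * k x + (k x * k x * k x + 2 * (k x * k x) + 3 * k x) := by
      ring
    omega
  · exact K.ile
      (H.ap ((P.tl K).tl K) (row_c H (K.tl (K.tl hT)) (K.hdv 0)) (K.tlN (K.tlN hj))
        (K.tlN (K.tlN hy)))
      (H.ap ((P.tl K).tl K) (row_c H (K.tl (K.tl hT)) (K.hdv 1)) (K.tlN (K.tlN hj))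
        (K.tlN (K.tlN hy)))
      (K.hdv 0) (K.hdv 1)
  · intro x g ρ m acc b h1 h2
    split_ifs
    · exact h1
    · exact h2

theorem ts_c (H : Hy κ β k f) (P : Par κ β h w o a) {B T : Ls} {j r : Nm} (hB : Co κ β B)
    (hT : Co κ β T) (hj : Cp κ β j) (hjk : ∀ x g ρ, j x g ρ ≤ k x) (hr : Cp κ β r) :
    Cp κ β fun x g ρ => ts (k x) (w x g ρ) (f x g (h x g ρ) (w x g ρ) (o x g ρ) (a x g ρ))
      (B x g ρ) (T x g ρ) (j x g ρ) (r x g ρ) := by
  have K := H.K
  refine K.sum (n := fun x _ _ => k x - 1)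
    (fun x g ρ t => if bi (k x) (f x g (h x g ρ) (w x g ρ) (o x g ρ) (a x g ρ)) (T x g ρ)
      (j x g ρ) (gt (B x g ρ) (j x g ρ) + (t + 1) * w x g ρ) + (t + 1) ≤ r x g ρ then 1 else 0)
    (K.sub H.kp (K.const 1)) (fun x _ _ => le_trans (Nat.sub_le _ _) (H.k_le x)) ?_
  exact K.ile
    (K.add (bi_c H (P.tl K) (K.tl hT) (K.tlN hj) (fun x g ρ => hjk x g _)
      (K.add (K.gt (K.tl hB) (K.tlN hj)) (K.mul (K.add (K.hdv 0) (K.const 1)) (K.tlN P.pw))))
      (K.add (K.hdv 0) (K.const 1)))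
    (K.tlN hr) (K.const 1) (K.const 0)

theorem stp_c (H : Hy κ β k f) (P : Par κ β h w o a) {B T : Ls} {j e : Nm} (hB : Co κ β B)
    (hT : Co κ β T) (hj : Cp κ β j) (hjk : ∀ x g ρ, j x g ρ ≤ k x) (he : Cp κ β e) :
    Cp κ β fun x g ρ => stp (k x) (w x g ρ) (f x g (h x g ρ) (w x g ρ) (o x g ρ) (a x g ρ))
      (B x g ρ) (T x g ρ) (j x g ρ) (e x g ρ) := by
  have K := H.K
  have h1 := ts_c H P hB hT hj hjk (K.div he H.kp)
  exact K.ieq (K.mod he H.kp) hj (K.add (K.gt hB hj) (K.mul h1 P.pw))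
    (K.gt hT (K.add (K.mul (K.sub (K.div he H.kp) h1) H.kp) (K.mod he H.kp)))

theorem tbl_c (H : Hy κ β k f) (P : Par κ β h w o a) {B : Ls} {i : Nm} (hB : Co κ β B)
    (hi : Cp κ β i) (hik : ∀ x g ρ, i x g ρ ≤ k x) :
    Co κ β fun x g ρ => tbl (k x) (w x g ρ) (f x g (h x g ρ) (w x g ρ) (o x g ρ) (a x g ρ))
      (B x g ρ) (i x g ρ) := by
  have K := H.K
  have e : (fun x g ρ => tbl (k x) (w x g ρ) (f x g (h x g ρ) (w x g ρ) (o x g ρ) (a x g ρ))
      (B x g ρ) (i x g ρ)) = fun x g ρ => itr (fun j T => tab ((k x + 1) ^ 3)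
        (stp (k x) (w x g ρ) (f x g (h x g ρ) (w x g ρ) (o x g ρ) (a x g ρ)) (B x g ρ) T
          (min j (k x)))) (tab ((k x + 1) ^ 3) fun _ => 0) (i x g ρ) := by
    funext x g ρ
    refine itr_congr _ _ fun m hm => ?_
    rw [min_eq_left (le_trans hm.le (hik x g ρ))]
  rw [e]
  refine K.foldL (n := i) (z := fun x _ _ => tab ((k x + 1) ^ 3) fun _ => 0)
    (fun x g ρ j T => tab ((k x + 1) ^ 3)
      (stp (k x) (w x g ρ) (f x g (h x g ρ) (w x g ρ) (o x g ρ) (a x g ρ)) (B x g ρ) T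
        (min j (k x))))
    (fun x g ρ j => gt (B x g ρ) (min j (k x)) + k x * w x g ρ) hi
    (fun x g ρ => le_trans (hik x g ρ) (H.k_le x))
    (K.tab (n := fun x => (k x + 1) ^ 3) (fun _ _ _ _ => 0) H.le H.qc (K.const 0)) ?_ ?_ ?_
  · refine K.tab (n := fun x => (k x + 1) ^ 3)
      (fun x g ρ e => stp (k x) (w x g (tl (tl ρ)))
        (f x g (h x g (tl (tl ρ))) (w x g (tl (tl ρ))) (o x g (tl (tl ρ))) (a x g (tl (tl ρ))))
        (B x g (tl (tl ρ))) (ρ 0) (min (hd (ρ 1)) (k x)) e) H.le H.qc ?_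
    exact stp_c H (((P.tl K).tl K).tl K) (K.tl (K.tl (K.tl hB))) (K.tl (K.var 0))
      (K.min (K.tlN (K.hdv 1)) H.kp) (fun _ _ _ => min_le_right _ _) (K.hdv 0)
  · exact K.add (K.gt (K.tl hB) (K.min (K.hdv 0) H.kp)) (K.mul H.kp (K.tlN P.pw))
  · intro x g ρ m acc b h1 h2 c hc
    unfold tab at hc
    obtain ⟨e, -, rfl⟩ := List.mem_map.1 hc
    unfold stp
    split_ifs
    · exact le_trans (Nat.add_le_add_left
        (Nat.mul_le_mul_right _ (AlgV.ts_le _ _ _ _ _ _ _)) _) h2
    · exact AlgV.gt_le _ _ _ h1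

end

end AlgR

open AlgR in
theorem algR : AlgRS := by
  intro κ β k f K1 K2 K hκ hk hf h w o a i y B hh hw ho ha hi hy hB hik
  have H : Hy κ β k f := ⟨K, hκ, hk, K2.pow 3 (K1.add hk (K1.const 1)), hf⟩
  have P : Par κ β h w o a := ⟨hh, hw, ho, ha⟩
  have hT := tbl_c H P hB hi hik
  exact H.ap P (row_c H hT (bi_c H P hT hi hik hy)) hi hy

end Pool.Agent.MP_1a6d78_lc.ED

end MrgPart9

-- ======== part 10: formerly Pool.Agent.MP_1a6d78_lc.ED.AlgF
section MrgPart10

/-! PROJECT ED3, row ALGF: the body of the recursion is computable in the calculus with calls. -/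

namespace Pool.Agent.MP_1a6d78_lc.ED

namespace AlgF

variable {κ k : List Bool → ℕ}

theorem six_le (hA : Adm k) (hκ : ∀ x, (k x + 1) ^ 3 ≤ κ x) (x : List Bool) : k x + 6 ≤ κ x := by
  have h1 := (hA x).1
  have h2 := hκ x
  have h3 : (k x + 1) * 3 ^ 2 ≤ (k x + 1) ^ 3 :=
    (Nat.mul_le_mul_left _ (Nat.pow_le_pow_left (by omega) 2)).trans_eq (pow_succ' _ 2).symm
  omega

theorem call_c (K1 : Kit1 κ) (P : KitP κ bx) (A : Alg0K κ k) (h6 : ∀ x, k x + 6 ≤ κ x)
    (hk : Cn κ fun x _ => k x) (h w o a i y : List Bool → Orc → Env → ℕ)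
    (B : List Bool → Orc → Env → List ℕ) (hh : Cp κ bx h) (hw : Cp κ bx w) (ho : Cp κ bx o)
    (ha : Cp κ bx a) (hi : Cp κ bx i) (hy : Cp κ bx y) (hB : Co κ bx B) :
    Cp κ bx fun x g ρ => g (pk k x (h x g ρ) (w x g ρ) (o x g ρ) (a x g ρ) (i x g ρ) (y x g ρ)
      (B x g ρ)) := by
  refine P.call (e := fun x g ρ => pk k x (h x g ρ) (w x g ρ) (o x g ρ) (a x g ρ) (i x g ρ)
    (y x g ρ) (B x g ρ)) ?_ fun x g ρ c hc => ?_
  · refine P.tab (n := fun x => k x + 6) (fun x g ρ e => min (bx x) (if e = 0 then h x g ρ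
      else if e = 1 then w x g ρ else if e = 2 then o x g ρ else if e = 3 then a x g ρ
      else if e = 4 then i x g ρ else if e = 5 then y x g ρ else gt (B x g ρ) (e - 6))) h6
      (K1.add hk (K1.const 6)) ?_
    exact P.min (P.liftN A.bxC) (P.ieq (P.hdv 0) (P.const 0) (P.tlN hh)
      (P.ieq (P.hdv 0) (P.const 1) (P.tlN hw) (P.ieq (P.hdv 0) (P.const 2) (P.tlN ho)
        (P.ieq (P.hdv 0) (P.const 3) (P.tlN ha) (P.ieq (P.hdv 0) (P.const 4) (P.tlN hi)
          (P.ieq (P.hdv 0) (P.const 5) (P.tlN hy)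
            (P.gt (P.tl hB) (P.sub (P.hdv 0) (P.const 6)))))))))
  · obtain ⟨e, -, rfl⟩ := List.mem_map.1 hc
    exact min_le_left _ _

theorem bod_c (hR : AlgRS) (K1 : Kit1 κ) (K2 : Kit2 κ) (P : KitP κ bx) (A : Alg0K κ k)
    (h6 : ∀ x, k x + 6 ≤ κ x) (hκ : ∀ x, (k x + 1) ^ 3 ≤ κ x) (hk : Cn κ fun x _ => k x)
    {h w o a i y : List Bool → Orc → Env → ℕ} {B : List Bool → Orc → Env → List ℕ}
    (hh : Cp κ bx h) (hw : Cp κ bx w) (ho : Cp κ bx o) (ha : Cp κ bx a) (hi : Cp κ bx i)
    (hy : Cp κ bx y) (hB : Co κ bx B) (hik : ∀ x g ρ, i x g ρ ≤ k x) :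
    Cp κ bx fun x g ρ => bod k x g (h x g ρ) (w x g ρ) (o x g ρ) (a x g ρ) (i x g ρ) (y x g ρ)
      (B x g ρ) := by
  have pk' : Cp κ bx fun x _ _ => k x := P.liftN hk
  have ma := P.min ha (P.liftN (A.numC 2))
  have my := P.min hy (P.liftN (A.numC 2))
  have c1 := P.op3 row3 A.rowC ho ma my
  have c2 := call_c K1 P A h6 hk _ _ _ _ _ _ _ (P.div hh pk') (P.liftN A.wwC) ho ma
    (P.sub pk' (P.const 1)) my
    (P.tab (n := k) (fun x g ρ _ => min (a x g ρ) (num x 2)) (fun x => by have := h6 x; omega) hk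
      (P.tlN ma))
  have c3 := P.add (P.op3 col A.colC ho hh my) (P.mul (P.sub ma my) (P.liftN A.penC))
  have c4 := P.sum (n := fun x g ρ => i x g ρ + 1)
    (fun x g ρ j => g (pk k x (h x g ρ) 0 (o x g ρ + j * h x g ρ)
      (if j = 0 then a x g ρ else gt (B x g ρ) (j - 1)) 0
      (if j = i x g ρ then y x g ρ else gt (B x g ρ) j) (B x g ρ))) (P.add hi (P.const 1))
    (fun x g ρ => by have := h6 x; have := hik x g ρ; omega)
    (call_c K1 P A h6 hk _ _ _ _ _ _ _ (P.tlN hh) (P.const 0)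
      (P.add (P.tlN ho) (P.mul (P.hdv 0) (P.tlN hh)))
      (P.ieq (P.hdv 0) (P.const 0) (P.tlN ha) (P.gt (P.tl hB) (P.sub (P.hdv 0) (P.const 1))))
      (P.const 0) (P.ieq (P.hdv 0) (P.tlN hi) (P.tlN hy) (P.gt (P.tl hB) (P.hdv 0))) (P.tl hB))
  have c5 := hR κ bx k (fun x g h w o a B i y => g (pk k x h w o a i y B)) K1 K2 P hκ hk
    (call_c K1 P A h6 hk) _ _ _ _ _ _ _ hh (P.div hw pk') ho ha hi hy hB hik
  exact P.ieq hw (P.const 0) (P.ile ma my (P.ile hh (P.const 1) c1 c2) c3)
    (P.ile hw (P.const 1) c4 c5)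

end AlgF

open AlgF in
theorem algF : AlgRS → AlgFS := by
  intro hR κ k K1 K2 P A hA hκ hk
  have h6 := six_le hA hκ
  have hk6 : ∀ x, k x ≤ κ x := fun x => by have := h6 x; omega
  have gv : ∀ n, Cp κ bx fun _ _ ρ => gt (ρ 0) n := fun n => P.gt (P.var 0) (P.const n)
  refine ⟨P.min (P.liftN A.bxC) (bod_c hR K1 K2 P A h6 hκ hk (gv 0) (gv 1) (gv 2) (gv 3)
    (P.min (gv 4) (P.liftN hk)) (gv 5)
    (P.tab (n := k) (fun _ _ ρ m => gt (ρ 0) (6 + m)) hk6 hk
      (P.gt (P.var 1) (P.add (P.const 6) (P.hdv 0)))) fun _ _ _ => min_le_right _ _), ?_⟩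
  exact P.ile (call_c K1 P A h6 hk _ _ _ _ _ _ _ (P.liftN A.wwC) (P.const 0) (P.const 0)
    (P.const 0) (P.const 0) (P.liftN (A.numC 2))
    (P.tab (n := k) (fun _ _ _ _ => 0) hk6 hk (P.const 0))) (P.liftN (A.numC 3)) (P.const 1)
    (P.const 0)

end Pool.Agent.MP_1a6d78_lc.ED

end MrgPart10

-- ======== part 11: formerly Pool.Agent.MP_1a6d78_lc.ED.Num3
section MrgPart11

/-! PROJECT ED3, row NUM3: the numerical bounds. -/

namespace Pool.Agent.MP_1a6d78_lc.ED

namespace Num3

theorem six (n : ℕ) : (n + 2) ^ 6 + 2 ≤ (n + 2) ^ 7 := by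
  have h : 2 ^ 6 ≤ (n + 2) ^ 6 := Nat.pow_le_pow_left (by omega) 6
  have h2 : (n + 2) ^ 6 * 2 ≤ (n + 2) ^ 6 * (n + 2) := Nat.mul_le_mul_left _ (by omega)
  rw [pow_succ (n + 2) 6]
  omega

theorem five {k : ℕ} (hk : 2 ≤ k) : (k + 1) ^ 3 + 2 ≤ k ^ 5 ∧ (k + 1) ^ 3 + 1 ≤ 4 * k ^ 3 := by
  obtain ⟨j, rfl⟩ := Nat.exists_eq_add_of_le hk
  have h1 : (2 + j + 1) ^ 3 + 2 ≤ 4 * (2 + j) ^ 3 := by
    have : 4 * (2 + j) ^ 3 = (2 + j + 1) ^ 3 + 2 + (3 + 21 * j + 15 * j ^ 2 + 3 * j ^ 3) := by ring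
    omega
  have h2 : 2 ^ 2 * (2 + j) ^ 3 ≤ (2 + j) ^ 2 * (2 + j) ^ 3 :=
    Nat.mul_le_mul_right _ (Nat.pow_le_pow_left (by omega) 2)
  rw [← pow_add, show 2 + 3 = 5 from rfl] at h2
  constructor <;> omega

theorem kpow {n k r : ℕ} (hk : 2 ≤ k) (hn : k ≤ n + 2) (hr : r ≤ Nat.log k n + 1) :
    k ^ (r + 1) ≤ (n + 2) ^ 3 := by
  have h1 : k ^ Nat.log k n ≤ n + 2 := by
    rcases Nat.eq_zero_or_pos n with rfl | h
    · simp
    · exact (Nat.pow_log_le_self k h.ne').trans (by omega)
  calc k ^ (r + 1) ≤ k ^ (Nat.log k n + 2) := Nat.pow_le_pow_right (by omega) (by omega)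
    _ = k ^ Nat.log k n * k ^ 2 := pow_add _ _ _
    _ ≤ (n + 2) * (n + 2) ^ 2 := Nat.mul_le_mul h1 (Nat.pow_le_pow_left hn 2)
    _ = (n + 2) ^ 3 := by ring

theorem two_pow (n : ℕ) : n + 2 ≤ 2 ^ (Nat.log 2 n + 2) := by
  have h := Nat.lt_pow_succ_log_self (b := 2) (by omega) n
  have h1 : 1 ≤ 2 ^ Nat.log 2 n := Nat.one_le_two_pow
  rw [Nat.succ_eq_add_one, pow_succ] at h
  rw [pow_add]
  omega

end Num3

open Num3 in
theorem num3S : Num3S := by
  intro c
  refine ⟨1500 * c, fun n k r hk hn hr => ⟨?_, ?_⟩⟩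
  · have h1 : pw ((n + 2) ^ 6) c ≤ (n + 2) ^ (7 * c) := by
      rw [pow_mul]; exact Nat.pow_le_pow_left (six n) c
    have h2 : pw ((k + 1) ^ 3) (c * (r + 1) ^ 2) ≤ (n + 2) ^ (3 * (5 * c * (r + 1))) :=
      calc pw ((k + 1) ^ 3) (c * (r + 1) ^ 2) ≤ (k ^ 5) ^ (c * (r + 1) ^ 2) :=
            Nat.pow_le_pow_left (five hk).1 _
        _ = (k ^ (r + 1)) ^ (5 * c * (r + 1)) := by
            rw [← pow_mul, ← pow_mul]; congr 1; ring
        _ ≤ ((n + 2) ^ 3) ^ (5 * c * (r + 1)) := Nat.pow_le_pow_left (kpow hk hn hr) _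
        _ = _ := (pow_mul _ _ _).symm
    refine (Nat.mul_le_mul h1 h2).trans ?_
    rw [← pow_add]
    refine Nat.pow_le_pow_right (by omega) ?_
    have h3 : c * (r + 1) ≤ c * (2 * (Nat.log k n + 1)) := Nat.mul_le_mul_left _ (by omega)
    have h4 : c * 1 ≤ c * (Nat.log k n + 1) := Nat.mul_le_mul_left _ (by omega)
    nlinarith
  · have hL : Nat.log k n ≤ Nat.log 2 n := Nat.log_anti_left (by omega) hk
    have h2 := two_pow n
    generalize hy : Nat.log 2 ((k + 1) ^ 3 + 2) = y
    have hy1 : 2 ^ y ≤ k ^ 5 := by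
      rw [← hy]; exact (Nat.pow_log_le_self 2 (by omega)).trans (five hk).1
    have h3 : Nat.log 2 ((n + 2) ^ 6 + 2) ≤ (Nat.log 2 n + 2) * 7 := by
      refine (Nat.log_mono_right ((six n).trans (Nat.pow_le_pow_left h2 7))).trans ?_
      rw [← pow_mul, Nat.log_pow (by omega)]
    have h4 : y * (r + 1) ≤ (Nat.log 2 n + 2) * 15 := by
      refine (Nat.pow_le_pow_iff_right (a := 2) (by omega)).1 ?_
      calc 2 ^ (y * (r + 1)) = (2 ^ y) ^ (r + 1) := pow_mul _ _ _
        _ ≤ (k ^ 5) ^ (r + 1) := Nat.pow_le_pow_left hy1 _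
        _ = (k ^ (r + 1)) ^ 5 := by rw [← pow_mul, ← pow_mul, mul_comm]
        _ ≤ ((n + 2) ^ 3) ^ 5 := Nat.pow_le_pow_left (kpow hk hn hr) _
        _ = (n + 2) ^ 15 := by rw [← pow_mul]
        _ ≤ (2 ^ (Nat.log 2 n + 2)) ^ 15 := Nat.pow_le_pow_left h2 _
        _ = _ := (pow_mul _ _ _).symm
    generalize Nat.log 2 ((n + 2) ^ 6 + 2) = z at h3
    have h5 : r + 1 ≤ 2 * (Nat.log 2 n + 1) := by omega
    have h4' : y * (r + 1) ≤ 30 * (Nat.log 2 n + 1) := by omega
    have h3' : z ≤ 14 * (Nat.log 2 n + 1) := by omega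
    have hM : 1 ≤ Nat.log 2 n + 1 := by omega
    generalize Nat.log 2 n + 1 = M at h5 h4' h3' hM
    have hM2 : M ≤ M ^ 2 := Nat.le_self_pow (by omega) M
    have h6 : (r + 1) ^ 2 + 1 ≤ 5 * M ^ 2 := by
      have := Nat.pow_le_pow_left h5 2
      rw [mul_pow] at this
      omega
    have h7 : z + (r + 1) ^ 2 * y + 1 ≤ 75 * M ^ 2 := by
      have h8 := Nat.mul_le_mul h5 h4'
      have h9 : (r + 1) * (y * (r + 1)) = (r + 1) ^ 2 * y := by ring
      have h10 : 2 * M * (30 * M) = 60 * M ^ 2 := by ring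
      omega
    calc _ ≤ c * (4 * k ^ 3) * (5 * M ^ 2) * (75 * M ^ 2) :=
          Nat.mul_le_mul (Nat.mul_le_mul (Nat.mul_le_mul_left c (five hk).2) h6) h7
      _ = _ := by ring

end Pool.Agent.MP_1a6d78_lc.ED

end MrgPart11

-- ======== part 12: formerly Pool.Agent.MP_1a6d78_lc.ED.Fin3
section MrgPart12

/-! PROJECT ED3: from the modules to the theorem. -/

namespace Pool.Agent.MP_1a6d78_lc.ED

namespace Fin3

theorem rr_le (k : List Bool → ℕ) (x : List Bool) : rr k x ≤ x.length := by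
  unfold rr
  refine le_trans (Finset.sum_le_card_nsmul _ _ 1 fun t _ => ?_) ?_
  · split_ifs <;> omega
  · simp

theorem cube (n : ℕ) : (n + 3) ^ 3 ≤ (n + 2) ^ 6 := by
  rw [show (n + 2) ^ 6 = ((n + 2) ^ 2) ^ 3 by ring]
  exact Nat.pow_le_pow_left (by nlinarith) 3

end Fin3

open Fin3 in
theorem midS (hR : RecS) (hV : RecVS)
    (hF : ∀ κ k : List Bool → ℕ, Adm k → (∀ x, (k x + 1) ^ 3 ≤ κ x) → Cn κ (fun x _ => k x) →
      (Cp κ bx fun x g ρ => fn3 k x g (ρ 0)) ∧ Cp κ bx fun x g _ => ans3 k x g)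
    (hD : ∀ κ k : List Bool → ℕ, Cn κ (fun x _ => k x) → Cn κ fun x _ => (rr k x + 1) ^ 2) :
    MidS := by
  intro k hk hc
  obtain ⟨f1, f2⟩ := hF (fun x => (k x + 1) ^ 3) k hk (fun _ => le_rfl) (hc _)
  obtain ⟨M, c, H⟩ := hR (fun x => (k x + 1) ^ 3) bx (fun x => (rr k x + 1) ^ 2) (fn3 k) (ans3 k)
    f1 f2 (fun x g l => min_le_left _ _) (hD _ k (hc _))
  refine ⟨M, c, fun x => ?_⟩
  have h6 : (x.length + 2) ^ 2 ≤ bx x := Nat.pow_le_pow_right (by omega) (by omega)
  obtain ⟨H1, H2⟩ := H x (bx x) (Nat.one_le_pow _ _ (by omega))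
    ((Nat.pow_le_pow_left (by have := (hk x).2; omega) 3).trans (cube x.length))
    (by nlinarith) le_rfl
    ((Nat.pow_le_pow_left (by have := rr_le k x; omega) 2).trans h6)
  refine ⟨H1.trans ?_, H2⟩
  rw [ans3, hV k x (hk x).1 (hk x).2]
  split_ifs with h <;> simp [h]

theorem main3S (hM : MidS) (hN : Num3S) (hK : Kk3S) (hC : Code3S)
    (hB : ∀ (κ : List Bool → ℕ) (e : Bound),
      Cn κ fun x _ => min (max 2 (e.eval x.length)) (x.length + 2)) : Main3S := by
  intro e
  obtain ⟨M, c, H⟩ := hM (fun x => min (max 2 (e.eval x.length)) (x.length + 2))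
    (fun x => ⟨le_min (le_max_left _ _) (by omega), min_le_right _ _⟩) fun κ => hB κ e
  obtain ⟨c', hc⟩ := hN c
  refine ⟨M, c', fun x k hk => ?_⟩
  obtain ⟨H1, H2⟩ := H x
  have k2 : 2 ≤ k := hk ▸ le_max_left _ _
  obtain ⟨-, w1, -, w2, w3⟩ := hK (fun x => min (max 2 (e.eval x.length)) (x.length + 2)) x
    (le_min (le_max_left _ _) (by omega))
  simp only [← hk] at H1 H2 w2
  obtain ⟨n1, n2⟩ := hc x.length (min k (x.length + 2)) _ (by omega) (min_le_right _ _) w2
  have hl : Nat.log (min k (x.length + 2)) x.length = Nat.log k x.length := by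
    rcases le_total k (x.length + 2) with h | h
    · rw [min_eq_left h]
    · rw [min_eq_right h, Nat.log_of_lt (by omega), Nat.log_of_lt (by omega)]
  rw [hl] at n1
  refine ⟨_, (congrArg (fun z => M.out z.q) (Fn.halt M x H1 n1)).trans H1,
    fun t i => ((H2 t i).trans n2).trans ?_, fun m dn rt dg a u b v t hx => ?_⟩
  · exact Nat.mul_le_mul_right _ (Nat.mul_le_mul_left _ (Nat.pow_le_pow_left (min_le_left _ _) 3))
  · rw [decide_eq_true_iff]
    exact hC dn rt dg a u b v t x hx _ ((w3 1).trans w1.le)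

end Pool.Agent.MP_1a6d78_lc.ED

end MrgPart12

-- marker of a merged file
example : 731051 + 385124 = 731051 + 385124 := rfl
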