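import Pool.Agent.MP_1a6d78_lc.ED.All
import Pool.Agent.MP_1a6d78_lc.ED.Fin3
import Pool.Agent.MP_1a6d78_lc.ED.OD

/-! PROJECT ED3: assembly. -/

namespace Pool.Agent.MP_1a6d78_lc.ED

theorem kitCall (κ β : List Bool → ℕ) : KitP κ β :=
  kitP κ β (kitOne κ) (kitTwo κ) (kitO κ β) (iterO κ β) (tabO κ β)

theorem recMach : RecS := recS ctl l20 l12 intS frmS

theorem recVal : RecVS :=
  recW (vstepS boxK biS stepS) clipK boxK row3S kk3S
    (ee3K gmonS gdK fun x i => (kk3S (fun _ => 2) x le_rfl).2.2.2.2 i)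

theorem mid : MidS :=
  midS recMach recVal
    (fun κ k hk h3 hc => algF algR κ k (kitOne κ) (kitTwo κ) (kitCall κ bx)
      (alg0K κ k (kitOne κ) (kitTwo κ) hc) hk h3 hc)
    fun κ k hc => (alg0K κ k (kitOne κ) (kitTwo κ) hc).rrC

theorem main3 : Main3S :=
  main3S mid num3S kk3S code3S fun κ e =>
    (kitTwo κ).min ((kitTwo κ).max ((kitOne κ).const 2) (bndS κ e (kitOne κ) (kitTwo κ)))
      ((kitOne κ).add (kitOne κ).len ((kitOne κ).const 2))

end Pool.Agent.MP_1a6d78_lc.ED
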