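import Pool.Agent.MP_1a6d78_lc.ED.Spec

/-! PROJECT ED: basic rules for `Exec`, the simulation lemma, small programs on stacks of numbers. -/

namespace Pool.Agent.MP_1a6d78_lc.ED

open Function

section
variable {A C S : Type} {act : A → S → S} {tst : C → S → Bool} {G : S → Prop}

theorem Exec.of_eq {p : Prog A C} {s s' s'' : S} {m n : ℕ} (h : Exec act tst G p s s' m)
    (he : s' = s'') (hm : m ≤ n) : Exec act tst G p s s'' n := he ▸ h.weak hm

theorem Exec.seq' {p q : Prog A C} {s s' s'' : S} {m n k : ℕ} (h : Exec act tst G p s s' m)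
    (h' : Exec act tst G q s' s'' n) (hk : m + n ≤ k) : Exec act tst G (.seq p q) s s'' k :=
  (h.seq h').weak hk

theorem Exec.act' (a : A) {s s' : S} (he : act a s = s') (h : G s') :
    Exec act tst G (.act a) s s' 1 := he ▸ Exec.act a s (he ▸ h)

theorem Exec.good {p : Prog A C} {s s' : S} {n : ℕ} (h : Exec act tst G p s s' n) (hs : G s) :
    G s' := by
  induction h with
  | act a s h => exact h
  | seq _ _ i j => exact j (i hs)
  | iteT _ _ i => exact i hs
  | iteF _ _ i => exact i hs
  | loopF _ => exact hs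
  | loopT _ _ _ i j => exact j (i hs)
  | weak _ _ i => exact i hs

theorem Exec.mono {G' : S → Prop} (hG : ∀ s, G s → G' s) {p : Prog A C} {s s' : S} {n : ℕ}
    (h : Exec act tst G p s s' n) : Exec act tst G' p s s' n := by
  induction h with
  | act a s h => exact .act a s (hG _ h)
  | seq _ _ i j => exact .seq i j
  | iteT h _ i => exact .iteT h i
  | iteF h _ i => exact .iteF h i
  | loopF h => exact .loopF h
  | loopT h _ _ i j => exact .loopT h i j
  | weak _ h i => exact .weak i h

/-- A loop along a sequence of states. -/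
theorem Exec.loop_seq {c : C} {p : Prog A C} (F : ℕ → S) (n D : ℕ)
    (h : ∀ m < n, tst c (F m) = true ∧ Exec act tst G p (F m) (F (m + 1)) D)
    (he : tst c (F n) = false) : Exec act tst G (.loop c p) (F 0) (F n) (n * (D + 1) + 1) := by
  induction n generalizing F with
  | zero => exact (Exec.loopF he).weak (by simp)
  | succ n ih =>
    have h0 := h 0 (Nat.succ_pos n)
    exact (Exec.loopT h0.1 h0.2 (ih (fun m => F (m + 1)) (fun m hm => h (m + 1) (by omega))
      he)).weak (by nlinarith)

/-- The simulation lemma. -/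
theorem sim {A' C' S' : Type} {act' : A' → S' → S'} {tst' : C' → S' → Bool} {G' : S' → Prop}
    (R : S → S' → Prop) (f : A → Prog A' C') (g : C → C') (D : ℕ) (hD : 1 ≤ D)
    (ht : ∀ c s t, R s t → tst' (g c) t = tst c s)
    (ha : ∀ a s t, R s t → G s → G (act a s) →
      ∃ t', Exec act' tst' G' (f a) t t' D ∧ R (act a s) t')
    {p : Prog A C} {s s' : S} {n : ℕ} (h : Exec act tst G p s s' n) :
    ∀ t, G s → R s t → ∃ t', Exec act' tst' G' (p.bind f g) t t' (n * D) ∧ R s' t' := by
  induction h with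
  | act a s h => intro t hs hr; simpa [Prog.bind] using ha a s t hr hs h
  | seq h1 _ i j =>
    intro t hs hr
    obtain ⟨t1, e1, r1⟩ := i t hs hr
    obtain ⟨t2, e2, r2⟩ := j t1 (h1.good hs) r1
    exact ⟨t2, e1.seq' e2 (by rw [add_mul]), r2⟩
  | iteT h _ i =>
    intro t hs hr
    obtain ⟨t1, e1, r1⟩ := i t hs hr
    exact ⟨t1, (Exec.iteT ((ht _ _ _ hr).trans h) e1).weak (by nlinarith), r1⟩
  | iteF h _ i =>
    intro t hs hr
    obtain ⟨t1, e1, r1⟩ := i t hs hr
    exact ⟨t1, (Exec.iteF ((ht _ _ _ hr).trans h) e1).weak (by nlinarith), r1⟩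
  | loopF h =>
    intro t _ hr
    exact ⟨t, (Exec.loopF ((ht _ _ _ hr).trans h)).weak (by omega), hr⟩
  | loopT h h1 _ i j =>
    intro t hs hr
    obtain ⟨t1, e1, r1⟩ := i t hs hr
    obtain ⟨t2, e2, r2⟩ := j t1 (h1.good hs) r1
    exact ⟨t2, (Exec.loopT ((ht _ _ _ hr).trans h) e1 e2).weak (by nlinarith), r2⟩
  | weak _ h i =>
    intro t hs hr
    obtain ⟨t1, e1, r1⟩ := i t hs hr
    exact ⟨t1, e1.weak (Nat.mul_le_mul_right _ h), r1⟩

end

/-- All numbers are at most `B`. -/
def Ent (B : ℕ) (s : S1) : Prop := ∀ i, ∀ a ∈ s.1 i, a ≤ B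

theorem Ent.mono {B B' : ℕ} {s : S1} (h : Ent B s) (hB : B ≤ B') : Ent B' s :=
  fun i a ha => (h i a ha).trans hB

theorem ent_act (x : List Bool) (a : A1) {B : ℕ} {s : S1} (h : Ent B s) :
    Ent (B + 1) (act1 x a s) := by
  have key : ∀ (i : ℕ) (l : List ℕ), (∀ a ∈ l, a ≤ B + 1) → Ent (B + 1) (update s.1 i l, s.2) := by
    intro i l hl j a ha
    by_cases hj : j = i
    · subst hj; exact hl a (by simpa using ha)
    · exact (h j a (by simpa [update_of_ne hj] using ha)).trans (Nat.le_succ B)
  cases a with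
  | push i =>
    exact key i _ fun a ha => by
      rcases List.mem_cons.1 ha with rfl | ha
      exacts [Nat.zero_le _, (h i a ha).trans (Nat.le_succ B)]
  | pop i => exact key i _ fun a ha => (h i a (List.mem_of_mem_tail ha)).trans (Nat.le_succ B)
  | inc i =>
    refine key i _ fun a ha => ?_
    have := h i
    rcases hs : s.1 i with _ | ⟨b, l⟩ <;> simp_all
    rcases ha with rfl | ha
    exacts [by omega, (this.2 a ha).trans (Nat.le_succ B)]
  | dec i =>
    refine key i _ fun a ha => ?_
    have := h i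
    rcases hs : s.1 i with _ | ⟨b, l⟩ <;> simp_all
    rcases ha with rfl | ha
    exacts [by omega, (this.2 a ha).trans (Nat.le_succ B)]
  | inp d => exact h.mono (Nat.le_succ B)

/-- Numbers grow by at most one per step. -/
theorem Exec.ent {x : List Bool} {G : S1 → Prop} {p : Prog A1 C1} {s s' : S1} {n : ℕ}
    (h : Exec (act1 x) (tst1 x) G p s s' n) : ∀ B T, Ent B s → B + n ≤ T →
      Exec (act1 x) (tst1 x) (fun s => G s ∧ Ent T s) p s s' n ∧ Ent (B + n) s' := by
  induction h with
  | act a s h => exact fun B T hB hT => ⟨.act a s ⟨h, (ent_act x a hB).mono hT⟩, ent_act x a hB⟩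
  | @seq _ _ _ _ _ m n _ _ i j =>
    intro B T hB hT
    have a := i B T hB (by omega)
    have b := j (B + m) T a.2 (by omega)
    exact ⟨.seq a.1 b.1, b.2.mono (by omega)⟩
  | iteT h _ i =>
    intro B T hB hT
    have a := i B T hB (by omega)
    exact ⟨.iteT h a.1, a.2.mono (by omega)⟩
  | iteF h _ i =>
    intro B T hB hT
    have a := i B T hB (by omega)
    exact ⟨.iteF h a.1, a.2.mono (by omega)⟩
  | loopF h => exact fun B T hB _ => ⟨.loopF h, hB.mono (by omega)⟩
  | @loopT _ _ _ _ _ m n h _ _ i j =>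
    intro B T hB hT
    have a := i B T hB (by omega)
    have b := j (B + m) T a.2 (by omega)
    exact ⟨.loopT h a.1 b.1, b.2.mono (by omega)⟩
  | weak _ h i =>
    intro B T hB hT
    have a := i B T hB (by omega)
    exact ⟨.weak a.1 h, a.2.mono (by omega)⟩

/-! ### Polynomial bounds -/

theorem pw_mono {B B' c c' : ℕ} (hB : B ≤ B') (hc : c ≤ c') : pw B c ≤ pw B' c' :=
  (Nat.pow_le_pow_left (by omega) c).trans (Nat.pow_le_pow_right (by omega) hc)

theorem one_le_pw (B c : ℕ) : 1 ≤ pw B c := Nat.one_le_pow _ _ (by omega)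

theorem le_pw (B : ℕ) {c : ℕ} (hc : 1 ≤ c) : B + 2 ≤ pw B c :=
  Nat.le_self_pow (by omega) _

theorem pw_mul (B a b : ℕ) : pw B a * pw B b = pw B (a + b) := (pow_add _ _ _).symm

theorem two_mul_pw (B c : ℕ) : 2 * pw B c ≤ pw B (c + 1) := by
  unfold pw; rw [pow_succ]; nlinarith [Nat.zero_le ((B + 2) ^ c), Nat.zero_le B]

theorem pw_add (B a b : ℕ) : pw B a + pw B b ≤ pw B (a + b + 1) := by
  have h1 : pw B a ≤ pw B (a + b) := pw_mono le_rfl (by omega)
  have h2 : pw B b ≤ pw B (a + b) := pw_mono le_rfl (by omega)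
  have := two_mul_pw B (a + b)
  omega

theorem const_le_pw (B n : ℕ) : n ≤ pw B n :=
  (Nat.lt_two_pow_self (n := n)).le.trans (Nat.pow_le_pow_left (by omega) n)

/-- `B + pw B a` is the usual new bound. -/
theorem pw_pw (B a b : ℕ) : pw (B + pw B a) b ≤ pw B ((a + 2) * b) := by
  have h := pw_add B 1 a
  have h1 := le_pw B (c := 1) le_rfl
  have : B + pw B a + 2 ≤ pw B (a + 2) := by rw [show a + 2 = 1 + a + 1 by ring]; omega
  calc pw (B + pw B a) b ≤ pw B (a + 2) ^ b := Nat.pow_le_pow_left this b
    _ = pw B ((a + 2) * b) := (pow_mul _ _ _).symm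

theorem Bd.mono {κ : List Bool → ℕ} {x : List Bool} {ρ : Env} {B B' : ℕ} (h : Bd κ x ρ B)
    (hB : B ≤ B') : Bd κ x ρ B' :=
  ⟨h.1, h.2.1.trans hB, h.2.2.1.trans hB, fun i a ha => (h.2.2.2 i a ha).trans hB⟩

theorem Bd.cons {κ : List Bool → ℕ} {x : List Bool} {ρ : Env} {B : ℕ} (h : Bd κ x ρ B)
    {v : List ℕ} (hv : ∀ a ∈ v, a ≤ B) : Bd κ x (cons v ρ) B :=
  ⟨h.1, h.2.1, h.2.2.1, fun i => by cases i; exacts [hv, h.2.2.2 _]⟩

theorem hd_le {l : List ℕ} {B : ℕ} (h : ∀ a ∈ l, a ≤ B) : hd l ≤ B := by
  cases l <;> simp_all [hd]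

/-! ### Small programs -/

theorem Len.upd {α : Type} {K h h' : ℕ} {σ : ℕ → List α} (hσ : Len K (σ, h)) (i : ℕ) {l : List α}
    (hl : l.length ≤ K) : Len K (update σ i l, h') := by
  intro j
  by_cases hj : j = i
  · subst hj; simpa using hl
  · simpa [update_of_ne hj] using hσ j

variable {x : List Bool} {K h : ℕ} {σ : ℕ → List ℕ}

theorem ex_push (hσ : Len K (σ, h)) (i : ℕ) (hi : (σ i).length + 1 ≤ K) :
    Ex x K (.act (.push i)) (σ, h) (update σ i (0 :: σ i), h) 1 :=
  .act' _ rfl (hσ.upd i hi)

theorem ex_pop (hσ : Len K (σ, h)) (i : ℕ) :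
    Ex x K (.act (.pop i)) (σ, h) (update σ i (σ i).tail, h) 1 :=
  .act' _ rfl (hσ.upd i (by have := hσ i; simp at this ⊢; omega))

theorem ex_inc (hσ : Len K (σ, h)) {i a : ℕ} {l : List ℕ} (hi : σ i = a :: l) :
    Ex x K (.act (.inc i)) (σ, h) (update σ i ((a + 1) :: l), h) 1 :=
  .act' _ (by simp [act1, hi]) (hσ.upd i (by simpa [hi] using hσ i))

theorem ex_dec (hσ : Len K (σ, h)) {i a : ℕ} {l : List ℕ} (hi : σ i = a :: l) :
    Ex x K (.act (.dec i)) (σ, h) (update σ i ((a - 1) :: l), h) 1 :=
  .act' _ (by simp [act1, hi]) (hσ.upd i (by simpa [hi] using hσ i))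

/-- Empty stack `i`. -/
def clr (i : ℕ) : Prog A1 C1 := .loop (.ne i) (.act (.pop i))

theorem ex_clr (hσ : Len K (σ, h)) (i : ℕ) :
    Ex x K (clr i) (σ, h) (update σ i [], h) (2 * K + 1) := by
  have := Exec.loop_seq (act := act1 x) (tst := tst1 x) (G := Len K) (c := .ne i)
    (p := .act (.pop i)) (fun m => (update σ i ((σ i).drop m), h)) (σ i).length 1
    (fun m hm => ⟨by simpa [tst1] using hm, (ex_pop (hσ.upd i (by
      have := hσ i; simp at this ⊢; omega)) i).of_eq (by simp) le_rfl⟩) (by simp [tst1])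
  have h2 : (σ i).length ≤ K := hσ i
  simpa [clr] using this.weak (n := 2 * K + 1) (by omega)

/-- Add the top of `i` to the top of `j` and set the top of `i` to zero. -/
def drain (i j : ℕ) : Prog A1 C1 := .loop (.nz i) (.seq (.act (.dec i)) (.act (.inc j)))

theorem ex_drain (hσ : Len K (σ, h)) {i j a b : ℕ} {l l' : List ℕ} (hij : i ≠ j)
    (hi : σ i = a :: l) (hj : σ j = b :: l') :
    Ex x K (drain i j) (σ, h) (update (update σ i (0 :: l)) j ((b + a) :: l'), h) (3 * a + 1) := by
  have hl : l.length + 1 ≤ K := by simpa [hi] using hσ i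
  have hl' : l'.length + 1 ≤ K := by simpa [hj] using hσ j
  have := Exec.loop_seq (act := act1 x) (tst := tst1 x) (G := Len K) (c := .nz i)
    (p := .seq (.act (.dec i)) (.act (.inc j)))
    (fun m => (update (update σ i ((a - m) :: l)) j ((b + m) :: l'), h)) a 2
    (fun m hm => ⟨by simp [tst1, hd, update_of_ne hij]; omega, by
      have h1 : Len K (update (update σ i ((a - m) :: l)) j ((b + m) :: l'), h) :=
        Len.upd (h := h) (hσ.upd i (by simpa using hl)) j (by simpa using hl')
      have e1 := ex_dec (x := x) h1 (i := i) (a := a - m) (l := l) (by simp [update_of_ne hij])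
      have e2 := ex_inc (x := x) (e1.good h1) (i := j) (a := b + m) (l := l')
        (by simp [update_of_ne hij.symm])
      refine (e1.seq e2).of_eq ?_ le_rfl
      congr 1
      funext k
      simp only [update_apply]
      split_ifs <;> simp [add_assoc, Nat.sub_sub]⟩)
    (by simp [tst1, hd, update_of_ne hij])
  have h0 : update (update σ i (a :: l)) j (b :: l') = σ := by rw [← hi, ← hj]; simp
  simpa [drain, h0] using this.weak (n := 3 * a + 1) (by omega)

/-- Move the top number of `i` to a new cell of `j`. -/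
def mvTop (i j : ℕ) : Prog A1 C1 := .seq (.act (.push j)) (.seq (drain i j) (.act (.pop i)))

theorem ex_mvTop (hσ : Len K (σ, h)) {i j a : ℕ} {l : List ℕ} (hij : i ≠ j) (hi : σ i = a :: l)
    (hj : (σ j).length + 1 ≤ K) :
    Ex x K (mvTop i j) (σ, h) (update (update σ i l) j (a :: σ j), h) (3 * a + 3) := by
  have e1 := ex_push (x := x) hσ j hj
  have e2 := ex_drain (x := x) (e1.good hσ) hij (a := a) (l := l) (b := 0) (l' := σ j)
    (by simp [update_of_ne hij, hi]) (by simp)
  have e3 := ex_pop (x := x) (e2.good (e1.good hσ)) i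
  refine (e1.seq (e2.seq e3)).of_eq ?_ (by omega)
  congr 1
  funext k
  by_cases h1 : k = j
  · subst h1; simp [update_of_ne hij.symm]
  · by_cases h2 : k = i
    · subst h2; simp [update_of_ne h1]
    · simp [update_of_ne h1, update_of_ne h2]

/-- Move all of `i` on top of `j` (reversed). -/
def mvAll (i j : ℕ) : Prog A1 C1 := .loop (.ne i) (mvTop i j)

theorem ex_mvAll (hσ : Len K (σ, h)) {i j B : ℕ} (hij : i ≠ j) (hB : ∀ a ∈ σ i, a ≤ B)
    (hj : (σ i).length + (σ j).length ≤ K) :
    Ex x K (mvAll i j) (σ, h) (update (update σ i []) j ((σ i).reverse ++ σ j), h)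
      (K * (3 * B + 4) + 1) := by
  have := Exec.loop_seq (act := act1 x) (tst := tst1 x) (G := Len K) (c := .ne i) (p := mvTop i j)
    (fun m => (update (update σ i ((σ i).drop m)) j (((σ i).take m).reverse ++ σ j), h))
    (σ i).length (3 * B + 3)
    (fun m hm => ⟨by simpa [tst1, update_of_ne hij] using hm, by
      have h1 : Len K (update (update σ i ((σ i).drop m)) j (((σ i).take m).reverse ++ σ j), h) :=
        Len.upd (h := h) (hσ.upd i (by simp; omega)) j (by simp; omega)
      have hb := hB _ (List.getElem_mem hm)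
      refine (ex_mvTop (x := x) h1 hij (a := (σ i)[m]) (l := (σ i).drop (m + 1))
        (by simp [update_of_ne hij]) (by simp; omega)).of_eq ?_ (by omega)
      congr 1
      funext k
      have ht : ((σ i).take (m + 1)).reverse = (σ i)[m] :: ((σ i).take m).reverse := by
        rw [List.take_succ_eq_append_getElem hm, List.reverse_append]; rfl
      simp only [update_apply, if_true, ht]
      split_ifs <;> rfl⟩)
    (by simp [tst1, update_of_ne hij])
  have h2 : (σ i).length * (3 * B + 3 + 1) ≤ K * (3 * B + 4) := Nat.mul_le_mul_right _ (by omega)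
  simpa [mvAll] using this.weak (n := K * (3 * B + 4) + 1) (by omega)

/-- Copy the top number of `i` (0 if empty) to a new cell of `j`; `t` is scratch. -/
def cpTop (i j t : ℕ) : Prog A1 C1 :=
  .seq (.act (.push j)) (.seq (.act (.push t)) (.seq
    (.loop (.nz i) (.seq (.act (.dec i)) (.seq (.act (.inc j)) (.act (.inc t)))))
    (.seq (drain t i) (.act (.pop t)))))

theorem ex_cpTop (hσ : Len K (σ, h)) {i j t : ℕ} (hij : i ≠ j) (hit : i ≠ t) (hjt : j ≠ t)
    (hj : (σ j).length + 1 ≤ K) (ht : (σ t).length + 1 ≤ K) :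
    Ex x K (cpTop i j t) (σ, h) (update σ j (hd (σ i) :: σ j), h) (7 * hd (σ i) + 5) := by
  have e1 := ex_push (x := x) hσ j hj
  have g1 := e1.good hσ
  have e2 := ex_push (x := x) g1 t (by simpa [update_of_ne hjt.symm] using ht)
  have g2 := e2.good g1
  rcases hi : σ i with _ | ⟨a, l⟩
  · refine (e1.seq (e2.seq ((Exec.loopF (by simp [tst1, hd, hi, update_of_ne, hij, hit])).seq
      ((Exec.loopF (by simp [tst1, hd])).seq (ex_pop g2 t))))).of_eq ?_ (by simp)
    congr 1
    funext k
    simp only [update_apply]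
    split_ifs <;> simp_all [hd]
  · have hl : l.length + 1 ≤ K := by simpa [hi] using hσ i
    have hL : ∀ u v w : ℕ, Len K
        (update (update (update σ i (u :: l)) j (v :: σ j)) t (w :: σ t), h) := fun u v w =>
      Len.upd (h := h) (Len.upd (h := h) (hσ.upd (h' := h) i (by simpa using hl)) j
        (by simpa using hj)) t (by simpa using ht)
    have e3 := Exec.loop_seq (act := act1 x) (tst := tst1 x) (G := Len K) (c := .nz i)
      (p := .seq (.act (.dec i)) (.seq (.act (.inc j)) (.act (.inc t))))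
      (fun m => (update (update (update σ i ((a - m) :: l)) j (m :: σ j)) t (m :: σ t), h)) a 3
      (fun m hm => ⟨by simp [tst1, hd, update_of_ne, hij, hit]; omega, by
        have a1 := ex_dec (x := x) (hL (a - m) m m) (i := i) (a := a - m) (l := l)
          (by simp [update_of_ne, hij, hit])
        have a2 := ex_inc (x := x) (a1.good (hL _ _ _)) (i := j) (a := m) (l := σ j)
          (by simp [update_of_ne, hij.symm, hjt])
        have a3 := ex_inc (x := x) (a2.good (a1.good (hL _ _ _))) (i := t) (a := m) (l := σ t)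
          (by simp [update_of_ne, hit.symm, hjt.symm])
        refine (a1.seq (a2.seq a3)).of_eq ?_ le_rfl
        congr 1
        funext k
        simp only [update_apply]
        split_ifs <;> simp_all [Nat.sub_sub]⟩)
      (by simp [tst1, hd, update_of_ne, hij, hit])
    have e4 := ex_drain (x := x) (hL (a - a) a a) hit.symm (a := a) (l := σ t) (b := a - a)
      (l' := l) (by simp) (by simp [update_of_ne, hij, hit])
    have e5 := ex_pop (x := x) (e4.good (hL _ _ _)) t
    have h0 : update (update σ j (0 :: σ j)) t (0 :: update σ j (0 :: σ j) t) =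
        update (update (update σ i ((a - 0) :: l)) j (0 :: σ j)) t (0 :: σ t) := by
      rw [Nat.sub_zero, ← hi]; simp [update_of_ne hjt.symm]
    rw [h0] at e2
    refine (e1.seq (e2.seq (e3.seq (e4.seq e5)))).of_eq ?_ (by simp [hd]; omega)
    congr 1
    funext k
    simp only [update_apply]
    split_ifs <;> simp_all [hd]

/-- Move the list on `i` to the empty stack `j` in the same order; `t` is empty scratch. -/
def mvLst (i j t : ℕ) : Prog A1 C1 := .seq (mvAll i t) (mvAll t j)

theorem ex_mvLst (hσ : Len K (σ, h)) {i j t B : ℕ} (hij : i ≠ j) (hit : i ≠ t) (hjt : j ≠ t)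
    (hB : ∀ a ∈ σ i, a ≤ B) (hj : σ j = []) (ht : σ t = []) :
    Ex x K (mvLst i j t) (σ, h) (update (update σ i []) j (σ i), h) (2 * (K * (3 * B + 4) + 1)) := by
  have hi : (σ i).length ≤ K := hσ i
  have e1 := ex_mvAll (x := x) hσ hit hB (by simpa [ht] using hi)
  have e2 := ex_mvAll (x := x) (e1.good hσ) hjt.symm (B := B) (by simpa [ht] using hB)
    (by simpa [ht, hj, update_of_ne, hjt, hij.symm] using hi)
  refine (e1.seq e2).of_eq ?_ (by omega)
  congr 1
  funext k
  simp only [update_apply]
  split_ifs <;> simp_all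

/-- Copy the list on `i` to the empty stack `j`; `t`, `t'` are empty scratch. -/
def cpLst (i j t t' : ℕ) : Prog A1 C1 :=
  .seq (mvAll i t) (.loop (.ne t) (.seq (cpTop t j t') (mvTop t i)))

theorem ex_cpLst (hσ : Len K (σ, h)) {i j t t' B : ℕ} (hij : i ≠ j) (hit : i ≠ t) (hit' : i ≠ t')
    (hjt : j ≠ t) (hjt' : j ≠ t') (htt : t ≠ t') (hK : 1 ≤ K) (hB : ∀ a ∈ σ i, a ≤ B)
    (hj : σ j = []) (ht : σ t = []) (ht' : σ t' = []) :
    Ex x K (cpLst i j t t') (σ, h) (update σ j (σ i), h) (K * (13 * B + 13) + 2) := by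
  have hi : (σ i).length ≤ K := hσ i
  have e1 := ex_mvAll (x := x) hσ hit hB (by simpa [ht] using hi)
  set r := (σ i).reverse with hr
  have hrl : r.length ≤ K := by simpa [hr] using hi
  have e2 := Exec.loop_seq (act := act1 x) (tst := tst1 x) (G := Len K) (c := .ne t)
    (p := .seq (cpTop t j t') (mvTop t i))
    (fun m => (update (update (update σ i (r.take m).reverse) j (r.take m).reverse) t (r.drop m), h))
    r.length (10 * B + 8)
    (fun m hm => ⟨by simpa [tst1] using hm, by
      have g : Len K (update (update (update σ i (r.take m).reverse) j (r.take m).reverse) t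
          (r.drop m), h) :=
        Len.upd (h := h) (Len.upd (h := h) (hσ.upd (h' := h) i (by simp; omega)) j
          (by simp; omega)) t (by simp; omega)
      have hb : r[m] ≤ B := hB _ (List.mem_reverse.1 (List.getElem_mem hm))
      have hd' : hd (r.drop m) = r[m] := by rw [List.drop_eq_getElem_cons hm]; rfl
      have a1 := ex_cpTop (x := x) g hjt.symm htt hjt' (by simp [update_of_ne, hjt]; omega)
        (by simpa [update_of_ne, htt.symm, hjt'.symm, hit'.symm, ht'] using hK)
      have a2 := ex_mvTop (x := x) (a1.good g) hit.symm (a := r[m]) (l := r.drop (m + 1))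
        (by simp [update_of_ne, hjt.symm]) (by simp [update_of_ne, hij, hit]; omega)
      refine (a1.seq a2).of_eq ?_ (by simp only [update_self, hd']; omega)
      congr 1
      funext k
      simp only [update_apply, if_true, List.take_succ_eq_append_getElem hm, hd']
      split_ifs <;> simp_all⟩)
    (by simp [tst1])
  have h0 : update (update σ i []) t (r ++ σ t) =
      update (update (update σ i (r.take 0).reverse) j (r.take 0).reverse) t (r.drop 0) := by
    funext k
    simp only [update_apply]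
    split_ifs <;> simp_all
  rw [h0] at e1
  have h2 : r.length * (10 * B + 8 + 1) ≤ K * (10 * B + 9) := Nat.mul_le_mul_right _ hrl
  have hrr : r.reverse = σ i := List.reverse_reverse _
  simp only [List.take_length, List.drop_length, hrr] at e2
  refine (e1.seq e2).of_eq ?_ (by nlinarith)
  congr 1
  funext k
  simp only [update_apply]
  split_ifs <;> simp_all

end Pool.Agent.MP_1a6d78_lc.ED
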