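import Mathlib.Data.Nat.Log
import Mathlib.Data.Nat.Sqrt
import Pool.Agent.MP_1a6d78_lc.ED.Defs

/-! Alignments whose step costs depend on the pair of letters; a family of bounds. -/

namespace Pool.Agent.MP_1a6d78_lc.ED

/-- `Walk dn rt dg a u b v c`: a monotone lattice walk of total cost `c` in the grid whose rows
carry the letters of `a :: u` and whose columns carry the letters of `b :: v`, from the first
corner to the last.  A step down, right or diagonally into a point with row letter `a'` and column
letter `b'` costs `dn a' b'`, `rt a' b'` or `dg a' b'`. -/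
inductive Walk {α : Type} (dn rt dg : α → α → ℕ) : α → List α → α → List α → ℕ → Prop
  | nil (a b : α) : Walk dn rt dg a [] b [] 0
  | down (a a' b : α) {u v : List α} {c : ℕ} :
      Walk dn rt dg a' u b v c → Walk dn rt dg a (a' :: u) b v (dn a' b + c)
  | right (a b b' : α) {u v : List α} {c : ℕ} :
      Walk dn rt dg a u b' v c → Walk dn rt dg a u b (b' :: v) (rt a b' + c)
  | diag (a a' b b' : α) {u v : List α} {c : ℕ} :
      Walk dn rt dg a' u b' v c → Walk dn rt dg a (a' :: u) b (b' :: v) (dg a' b' + c)

/-- A table, row by row. -/
def table {m : ℕ} (f : Fin m → Fin m → ℕ) : List ℕ := (List.ofFn fun a => List.ofFn (f a)).flatten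

/-- The code of an instance: alphabet size, lengths, threshold, the two words, the cost tables. -/
def gridCode {m : ℕ} (dn rt dg : Fin m → Fin m → ℕ) (a : Fin m) (u : List (Fin m)) (b : Fin m)
    (v : List (Fin m)) (t : ℕ) : List Bool :=
  unary ([m, u.length, v.length, t] ++ (a :: u).map Fin.val ++ (b :: v).map Fin.val ++
    table dn ++ table rt ++ table dg)

/-- Expressions in the input length. -/
inductive Bound : Type
  | len
  | mul (e e' : Bound)
  | log (e : Bound)
  | sqrt (e : Bound)
  | exp (e : Bound)

/-- The value of an expression at input length `n`. -/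
def Bound.eval (n : ℕ) : Bound → ℕ
  | .len => n
  | .mul e e' => e.eval n * e'.eval n
  | .log e => Nat.log 2 (e.eval n)
  | .sqrt e => Nat.sqrt (e.eval n)
  | .exp e => min n (2 ^ e.eval n)

end Pool.Agent.MP_1a6d78_lc.ED
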