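import Pool.Agent.MP_1a6d78_lc.ED.Spec3

/-! PROJECT ED3, row RECV: the recursion with fuel computes the distance. -/

namespace Pool.Agent.MP_1a6d78_lc.ED

namespace RecV

theorem gt_tab {n e : ℕ} (f : ℕ → ℕ) (h : e < n) : gt (tab n f) e = f e := by
  simp [gt, tab, List.getD, h]

theorem tab_congr {n : ℕ} {f f' : ℕ → ℕ} (h : ∀ m < n, f m = f' m) : tab n f = tab n f' :=
  List.map_congr_left fun m hm => h m (List.mem_range.1 hm)

theorem unfold (k : List Bool → ℕ) (x : List Bool) (d h w o a i y : ℕ) (B : List ℕ) :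
    rc (fn3 k x) (d + 1) (pk k x h w o a i y B) =
      min (bx x) (bod k x (rc (fn3 k x) d) (min (bx x) h) (min (bx x) w) (min (bx x) o)
        (min (bx x) a) (min (min (bx x) i) (k x)) (min (bx x) y)
        (tab (k x) fun m => min (bx x) (gt B m))) := by
  have e : (tab (k x) fun m => gt (pk k x h w o a i y B) (6 + m)) =
      tab (k x) fun m => min (bx x) (gt B m) := tab_congr fun m hm => by
    rw [pk, gt_tab _ (by omega), if_neg (by omega), if_neg (by omega), if_neg (by omega),
      if_neg (by omega), if_neg (by omega), if_neg (by omega), Nat.add_sub_cancel_left]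
  rw [rc, fn3, e, pk, gt_tab _ (by omega), gt_tab _ (by omega), gt_tab _ (by omega),
    gt_tab _ (by omega), gt_tab _ (by omega), gt_tab _ (by omega)]
  rfl

theorem chain {x : List Bool} (E : Ee3K x) {o h W a : ℕ} (ha : a ≤ num x 2) (hW : num x 2 < W)
    (i : ℕ) : ∀ y, a ≤ y →
      opt (fun j u v => ee3 x (o + j * h) h (min u (num x 2)) (min v (num x 2))) a W (fun _ => a)
        i y = ee3 x o ((i + 1) * h) a (min y (num x 2)) := by
  induction i with
  | zero =>
    intro y _
    simp only [opt, zero_mul, add_zero, zero_add, one_mul, min_eq_left ha]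
  | succ i ih =>
    intro y hy
    obtain ⟨z, z1, z2, z3⟩ := E.spl o ((i + 1) * h) h a (min y (num x 2)) (le_min hy ha)
    have zq : z ≤ num x 2 := z2.trans (min_le_right _ _)
    have e : (i + 1 + 1) * h = (i + 1) * h + h := by ring
    have hm : ee3 x o ((i + 1 + 1) * h) a (min y (num x 2)) ∈
        (fun z => opt (fun j u v => ee3 x (o + j * h) h (min u (num x 2)) (min v (num x 2))) a W
          (fun _ => a) i z + ee3 x (o + (i + 1) * h) h (min z (num x 2)) (min y (num x 2))) ''
            Set.Ico a (a + W) :=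
      ⟨z, ⟨z1, by omega⟩, by simp only [ih z z1, min_eq_left zq, e, z3]⟩
    refine le_antisymm (Nat.sInf_le hm) ?_
    obtain ⟨z', hz', e'⟩ := Nat.sInf_mem ⟨_, hm⟩
    refine le_of_le_of_eq ?_ e'
    simp only [ih z' hz'.1, e]
    exact E.tri _ _ _ _ _ _ (le_min hz'.1 ha) (le_min hy ha) (min_le_right _ _)

theorem nums {n k : ℕ} (h : k ≤ n + 2) :
    k * n + 1 ≤ (n + 2) ^ 6 ∧ n + 2 ≤ (n + 2) ^ 6 ∧ k * (2 * (n + 2) ^ 3) ≤ (n + 2) ^ 6 := by
  have a : (n + 2) ^ 2 ≤ (n + 2) ^ 6 := Nat.pow_le_pow_right (by omega) (by omega)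
  refine ⟨le_trans (by nlinarith) a, le_trans (by nlinarith) a, ?_⟩
  calc k * (2 * (n + 2) ^ 3) ≤ (n + 2) * ((n + 2) ^ 2 * (n + 2) ^ 3) :=
        Nat.mul_le_mul h (Nat.mul_le_mul_right _ (by nlinarith))
    _ = _ := by ring

end RecV

open RecV in
theorem recV : VstepS → (∀ d s, ClipK d s) → (∀ d s, BoxK d s) → Row3S → Kk3S →
    (∀ x, Ee3K x) → RecVS := by
  intro hV hC hB hR hK hE k x k2 kn
  obtain ⟨w1, w2, w3, -, w5⟩ := hK k x k2
  obtain ⟨n1, n2, n3⟩ := nums kn
  have E := hE x
  have b1 : ww k x ≤ bx x := w3.trans n1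
  have b2 : num x 2 ≤ bx x := (w5 2).trans ((Nat.le_add_right _ 2).trans n2)
  have b3 : k x ≤ bx x := kn.trans n2
  have b4 : k x * (2 * (x.length + 2) ^ 3) ≤ bx x := n3
  have mq : ∀ a, min (min (bx x) a) (num x 2) = min a (num x 2) := fun a => by omega
  have pos : ∀ s, 0 < k x ^ s := fun s => Nat.pow_pos (by omega)
  have big : ∀ s, ¬ k x ^ (s + 1) ≤ 1 := fun s => by
    have := pos s
    rw [pow_succ]
    nlinarith
  have dv : ∀ s, k x ^ (s + 1) / k x = k x ^ s := fun s => by
    rw [pow_succ, Nat.mul_div_cancel _ (by omega)]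
  have V : ∀ s, (∀ fuel o a i b B, 1 + s * (rr k x + 2) ≤ fuel → o + k x ^ s ≤ ww k x →
      rc (fn3 k x) fuel (pk k x (k x ^ s) 0 o a i b B) =
        ee3 x o (k x ^ s) (min a (num x 2)) (min b (num x 2))) →
      ∀ o a, o + k x ^ (s + 1) ≤ ww k x → a ≤ num x 2 → ∀ t ≤ rr k x, ∀ fuel i y B,
        1 + s * (rr k x + 2) + t + 1 ≤ fuel → i ≤ k x - 1 →
        rc (fn3 k x) fuel (pk k x (k x ^ s) (k x ^ t) o a i y B) =
          opt (fun j u v => ee3 x (o + j * k x ^ s) (k x ^ s) (min u (num x 2)) (min v (num x 2)))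
            a (k x ^ t) (gt B) i y := by
    intro s D o a ho ha
    obtain ⟨d, hd⟩ : ∃ d : ℕ → ℕ → ℕ → ℕ, d = fun j u v =>
      ee3 x (o + j * k x ^ s) (k x ^ s) (min u (num x 2)) (min v (num x 2)) := ⟨_, rfl⟩
    rw [← hd]
    have m : Mon d := fun j u u' v v' hu hv => by
      rw [hd]
      exact E.mon _ _ _ _ _ _ (min_le_min_right _ hu) (min_le_min_right _ hv) (min_le_right _ _)
        (min_le_right _ _)
    have hs : k x ^ s ≤ k x ^ (s + 1) := Nat.pow_le_pow_right (by omega) (by omega)
    have fin : ∀ w i y B, 0 < w → i ≤ k x - 1 →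
        min (bx x) (opt d a w (gt (tab (k x) fun m => min (bx x) (gt B m))) i (min (bx x) y)) =
          opt d a w (gt B) i y := by
      intro w i y B hw hi
      rw [(hB d a).congr w (gt (tab (k x) fun m => min (bx x) (gt B m)))
          (fun m => min (bx x) (gt B m)) i _
          fun m hm => gt_tab (fun m => min (bx x) (gt B m)) (by omega),
        (hC d a).clip (num x 2) (bx x) w
          (fun j u v => by simp only [hd, min_assoc, min_self]) b2 hw]
      refine min_eq_right (((hC d a).bound (2 * (x.length + 2) ^ 3) w (fun j u v => ?_) hw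
        _ _ _).trans ((Nat.mul_le_mul_right _ (by omega)).trans b4))
      rw [hd]
      exact E.bound _ _ _ _ (min_le_right _ _) (min_le_right _ _)
    intro t
    induction t with
    | zero =>
      intro _ fuel i y B hf hi
      obtain ⟨f, rfl⟩ : ∃ f, fuel = f + 1 := ⟨fuel - 1, by omega⟩
      rw [unfold, pow_zero, ← fin 1 i y B one_pos hi, (hB d a).one,
        min_eq_right (show k x ^ s ≤ bx x by omega), min_eq_right (show 1 ≤ bx x by omega),
        min_eq_right (show o ≤ bx x by omega), min_eq_right (show a ≤ bx x by omega),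
        show min (min (bx x) i) (k x) = i by omega, bod, if_neg one_ne_zero, if_pos le_rfl]
      refine congrArg _ (Finset.sum_congr rfl fun j hj => ?_)
      have hj' := Finset.mem_range.1 hj
      rw [hd]
      refine D _ _ _ _ _ _ (by omega) (le_trans ?_ ho)
      rw [add_assoc, ← Nat.succ_mul, pow_succ']
      exact Nat.add_le_add_left (Nat.mul_le_mul_right _ (by omega)) _
    | succ t ih =>
      intro ht fuel i y B hf hi
      obtain ⟨f, rfl⟩ : ∃ f, fuel = f + 1 := ⟨fuel - 1, by omega⟩
      have hw : k x ^ (t + 1) ≤ bx x :=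
        (Nat.pow_le_pow_right (by omega) ht).trans (w1.symm.le.trans b1)
      rw [unfold, ← fin _ i y B (pos _) hi,
        min_eq_right (show k x ^ s ≤ bx x by omega), min_eq_right hw,
        min_eq_right (show o ≤ bx x by omega), min_eq_right (show a ≤ bx x by omega),
        show min (min (bx x) i) (k x) = i by omega, bod, if_neg (pos _).ne', if_neg (big t), dv,
        hV d a (k x) (k x ^ t) _ _ i _ m (pos t) (by omega) fun l j y' hj =>
          ih (by omega) f j y' l (by omega) (by omega), pow_succ']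
  have D : ∀ s, ∀ fuel o a i b B, 1 + s * (rr k x + 2) ≤ fuel → o + k x ^ s ≤ ww k x →
      rc (fn3 k x) fuel (pk k x (k x ^ s) 0 o a i b B) =
        ee3 x o (k x ^ s) (min a (num x 2)) (min b (num x 2)) := by
    have pre : ∀ s f o a i b B, o + k x ^ s ≤ ww k x →
        (min a (num x 2) ≤ min b (num x 2) →
          (if k x ^ s ≤ 1 then row3 x o (min a (num x 2)) (min b (num x 2)) else
            rc (fn3 k x) f (pk k x (k x ^ s / k x) (ww k x) o (min a (num x 2)) (k x - 1)
              (min b (num x 2)) (tab (k x) fun _ => min a (num x 2)))) =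
            ee3 x o (k x ^ s) (min a (num x 2)) (min b (num x 2))) →
        rc (fn3 k x) (f + 1) (pk k x (k x ^ s) 0 o a i b B) =
          ee3 x o (k x ^ s) (min a (num x 2)) (min b (num x 2)) := by
      intro s f o a i b B ho h
      have hb : ee3 x o (k x ^ s) (min a (num x 2)) (min b (num x 2)) ≤ bx x :=
        (E.bound _ _ _ _ (min_le_right _ _) (min_le_right _ _)).trans
          ((Nat.le_mul_of_pos_left _ (by omega)).trans b4)
      rw [unfold, min_eq_right (show k x ^ s ≤ bx x by omega), Nat.min_zero,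
        min_eq_right (show o ≤ bx x by omega), bod, if_pos rfl, mq, mq, ← min_eq_right hb]
      refine congrArg _ ?_
      by_cases c : min a (num x 2) ≤ min b (num x 2)
      · rw [if_pos c, h c]
      · rw [if_neg c, ee3, if_neg c]
    intro s
    induction s with
    | zero =>
      intro fuel o a i b B hf ho
      obtain ⟨f, rfl⟩ : ∃ f, fuel = f + 1 := ⟨fuel - 1, by omega⟩
      refine pre 0 f o a i b B ho fun c => ?_
      rw [pow_zero, if_pos le_rfl, hR x o _ _ c, ee3, if_pos c]
    | succ s ih =>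
      intro fuel o a i b B hf ho
      obtain ⟨f, rfl⟩ : ∃ f, fuel = f + 1 := ⟨fuel - 1, by omega⟩
      refine pre (s + 1) f o a i b B ho fun c => ?_
      rw [Nat.succ_mul] at hf
      rw [if_neg (big s), dv, w1,
        V s ih o _ (w1 ▸ ho) (min_le_right _ _) _ le_rfl f _ _ _ (by omega) le_rfl,
        (hB _ _).congr _ (gt (tab (k x) fun _ => min a (num x 2)))
          (fun _ => min a (num x 2)) (k x - 1) _
          fun j hj => gt_tab (fun _ => min a (num x 2)) (by omega),
        chain E (min_le_right _ _) (w1 ▸ (w5 2).trans_lt w2) _ _ c,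
        Nat.sub_add_cancel (by omega), min_eq_left (min_le_right b _), pow_succ']
  have := D (rr k x) ((rr k x + 1) ^ 2) 0 0 0 (num x 2) (tab (k x) fun _ => 0)
    (le_of_eq (by ring)) (by omega)
  rw [← w1] at this
  rw [this, Nat.zero_min, min_self, ee3, if_pos (Nat.zero_le _)]

end Pool.Agent.MP_1a6d78_lc.ED
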