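import Pool.Agent.MP_1a6d78_lc.ED.Basic
import Pool.Agent.MP_1a6d78_lc.ED.Defs3

/-! PROJECT ED3: recursion, the calculus with calls, weighted grids, module statements. -/

namespace Pool.Agent.MP_1a6d78_lc.ED

open Function

/-! ### Programs with calls (`none` is the call) -/

/-- Big-step semantics with relational actions. -/
inductive Exq {A C S : Type} (R : A → S → S → ℕ → Prop) (tst : C → S → Bool) :
    Prog A C → S → S → ℕ → Prop
  | act {a : A} {s s' : S} {n : ℕ} : R a s s' n → Exq R tst (.act a) s s' n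
  | seq {p q : Prog A C} {s s' s'' : S} {m n : ℕ} : Exq R tst p s s' m →
      Exq R tst q s' s'' n → Exq R tst (.seq p q) s s'' (m + n)
  | iteT {c : C} {p q : Prog A C} {s s' : S} {n : ℕ} : tst c s = true →
      Exq R tst p s s' n → Exq R tst (.ite c p q) s s' (n + 1)
  | iteF {c : C} {p q : Prog A C} {s s' : S} {n : ℕ} : tst c s = false →
      Exq R tst q s s' n → Exq R tst (.ite c p q) s s' (n + 1)
  | loopF {c : C} {p : Prog A C} {s : S} : tst c s = false → Exq R tst (.loop c p) s s 1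
  | loopT {c : C} {p : Prog A C} {s s' s'' : S} {m n : ℕ} : tst c s = true →
      Exq R tst p s s' m → Exq R tst (.loop c p) s' s'' n → Exq R tst (.loop c p) s s'' (m + n + 1)
  | weak {p : Prog A C} {s s' : S} {m n : ℕ} : Exq R tst p s s' m → m ≤ n → Exq R tst p s s' n

abbrev PO : Type := Prog (Option A1) C1

/-- A program without calls. -/
def up (p : Prog A1 C1) : PO := p.bind (fun a => .act (some a)) id

/-- Oracle semantics: a call replaces the list on stack 0 by `[g list]` and costs `τ`. -/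
def Ro (x : List Bool) (K β τ : ℕ) (g : List ℕ → ℕ) : Option A1 → S1 → S1 → ℕ → Prop
  | some a => fun s s' n => s' = act1 x a s ∧ Len K s' ∧ n = 1
  | none => fun s s' n => s.2 = 0 ∧ (∀ a ∈ s.1 0, a ≤ β) ∧
      s' = (update s.1 0 [g (s.1 0)], 0) ∧ Len K s' ∧ n = τ

/-- Recursive semantics: a call runs `q`; `d` bounds the nesting depth. -/
def Rr (x : List Bool) (K : ℕ) (q : PO) : ℕ → Option A1 → S1 → S1 → ℕ → Prop
  | _, some a => fun s s' n => s' = act1 x a s ∧ Len K s' ∧ n = 1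
  | 0, none => fun _ _ _ => False
  | d + 1, none => fun s s' n => ∃ m, Exq (Rr x K q d) (tst1 x) q s s' m ∧ n = m + 1

abbrev Eo (x : List Bool) (K β τ : ℕ) (g : List ℕ → ℕ) : PO → S1 → S1 → ℕ → Prop :=
  Exq (Ro x K β τ g) (tst1 x)

abbrev Er (x : List Bool) (K : ℕ) (q : PO) (d : ℕ) : PO → S1 → S1 → ℕ → Prop :=
  Exq (Rr x K q d) (tst1 x)

/-- Recursion with fuel. -/
def rc (F : (List ℕ → ℕ) → List ℕ → ℕ) : ℕ → List ℕ → ℕ
  | 0 => fun _ => 0
  | d + 1 => F (rc F d)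

/-- Only stack `i` is not empty. -/
def sole (i : ℕ) (l : List ℕ) : S1 := (update (fun _ => []) i l, 0)

/-- INT: an interpreter with a control stack (stack 0; the other stacks are shifted). -/
def IntS : Prop :=
  ∀ p q : PO, ∃ (p' : Prog A1 C1) (D : ℕ), ∀ (x : List Bool) (K d : ℕ) (s : S1) (T : ℕ),
    Er x K q d p (fun _ => [], 0) s T →
      Ex x (K + D * (d + 1)) p' (fun _ => [], 0) (cons [] s.1, s.2) ((T + 1) * D)

/-- FRM: frames.  Stack 1 holds the fuel, virtual stack `m` sits on `2 m + 2` (values) and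
`2 m + 3` (flags). -/
def FrmS : Prop :=
  ∀ p q : PO, ∃ (p' q' : PO) (c : ℕ), ∀ (x : List Bool) (K β P Q d : ℕ)
    (F : (List ℕ → ℕ) → List ℕ → ℕ) (s : S1), 1 ≤ K → (∀ g l, F g l ≤ β) →
    (∀ (g : List ℕ → ℕ) (τ : ℕ) (l : List ℕ), (∀ l, g l ≤ β) → (∀ a ∈ l, a ≤ β) → l.length ≤ K →
      Eo x K β τ g q (sole 0 l) (sole 0 [F g l]) (P + Q * τ)) →
    (∀ τ, Eo x K β τ (rc F d) p (fun _ => [], 0) s (P + Q * τ)) →
      ∃ t, Er x ((K + 1) * (d + 2)) q' (d + 1) p' (sole 1 [d]) t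
        ((P + K + 1) * (c * (Q + 1)) ^ (d + 2)) ∧ ∀ m, t.1 (2 * m + 2) = s.1 m

/-! ### The calculus with calls -/

abbrev Orc : Type := List ℕ → ℕ

/-- Bounds for the environment and the oracle. -/
def Bo (κ β : List Bool → ℕ) (x : List Bool) (g : Orc) (ρ : Env) (B : ℕ) : Prop :=
  Bd κ x ρ B ∧ β x ≤ B ∧ ∀ l, g l ≤ β x

/-- As `Cm`, with polynomially many (in `κ x`) calls; stack 0 is reserved for the calls. -/
def Co (κ β : List Bool → ℕ) (f : List Bool → Orc → Env → List ℕ) : Prop :=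
  ∃ c : ℕ, (∀ x g ρ B, Bo κ β x g ρ B → ∀ a ∈ f x g ρ, a ≤ pw B c) ∧
    ∀ (ℓ : ℕ → ℕ) (b : ℕ), (∀ i, 0 < ℓ i ∧ ℓ i < b) → ∃ p : PO,
      ∀ (x : List Bool) (g : Orc) (σ : ℕ → List ℕ) (B τ : ℕ), Bo κ β x g (fun i => σ (ℓ i)) B →
        Len (κ x) (σ, 0) → σ 0 = [] → (∀ j, b ≤ j → σ j = []) →
          Eo x (κ x) (β x) τ g p (σ, 0) (update σ b (f x g fun i => σ (ℓ i)), 0)
            (pw B c + pw (κ x) c * τ)

def Cp (κ β : List Bool → ℕ) (f : List Bool → Orc → Env → ℕ) : Prop :=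
  Co κ β fun x g ρ => [f x g ρ]

/-- REC: from the calculus with calls to a machine. -/
def RecS : Prop :=
  ∀ (κ β D : List Bool → ℕ) (F : List Bool → Orc → List ℕ → ℕ) (A : List Bool → Orc → ℕ),
    Cp κ β (fun x g ρ => F x g (ρ 0)) → Cp κ β (fun x g _ => A x g) → (∀ x g l, F x g l ≤ β x) →
    Cn κ (fun x _ => D x) → ∃ (M : TM) (c : ℕ), ∀ (x : List Bool) (B : ℕ),
      1 ≤ κ x → κ x ≤ B → x.length ≤ B → β x ≤ B → D x ≤ B →
        M.out (M.run x (pw B c * pw (κ x) (c * D x))).q = some (A x (rc (F x) (D x)) != 0) ∧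
          ∀ t i, (M.run x t).head i ≤
            c * (κ x + 1) * (D x + 1) * (Nat.log 2 (B + 2) + D x * Nat.log 2 (κ x + 2) + 1)

/-- OA -/
structure KitO (κ β : List Bool → ℕ) : Prop where
  lift : ∀ f : List Bool → Env → List ℕ, Cm κ f → Co κ β fun x _ ρ => f x ρ
  ren : ∀ (f : List Bool → Orc → Env → List ℕ) (r : ℕ → ℕ), Co κ β f →
    Co κ β fun x g ρ => f x g fun i => ρ (r i)
  bind : ∀ e f : List Bool → Orc → Env → List ℕ, Co κ β e → Co κ β f →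
    Co κ β fun x g ρ => f x g (cons (e x g ρ) ρ)
  ifz : ∀ e f : List Bool → Orc → Env → List ℕ, Co κ β e → Co κ β f →
    Co κ β fun x g ρ => if hd (ρ 0) = 0 then e x g ρ else f x g ρ
  call : ∀ e : List Bool → Orc → Env → List ℕ, Co κ β e → (∀ x g ρ, ∀ a ∈ e x g ρ, a ≤ β x) →
    Cp κ β fun x g ρ => g (e x g ρ)

/-- OC -/
def IterO (κ β : List Bool → ℕ) : Prop :=
  ∀ (n : List Bool → Orc → Env → ℕ) (z f : List Bool → Orc → Env → List ℕ), Cp κ β n →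
    (∀ x g ρ, n x g ρ ≤ κ x) → Co κ β z → Co κ β f →
    (∃ c, ∀ x g ρ B, Bo κ β x g ρ B → ∀ m ≤ n x g ρ,
      ∀ a ∈ itr (fun m acc => f x g (cons acc (cons [m] ρ))) (z x g ρ) m, a ≤ pw B c) →
    Co κ β fun x g ρ => itr (fun m acc => f x g (cons acc (cons [m] ρ))) (z x g ρ) (n x g ρ)

/-- OD -/
def TabO (κ β : List Bool → ℕ) : Prop :=
  ∀ (n : List Bool → ℕ) (f : List Bool → Orc → Env → ℕ), (∀ x, n x ≤ κ x) →
    Cn κ (fun x _ => n x) → Cp κ β f → Co κ β fun x g ρ => tab (n x) fun e => f x g (cons [e] ρ)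

/-- ORA: the derived rules. -/
structure KitP (κ β : List Bool → ℕ) : Prop where
  var : ∀ i, Co κ β fun _ _ ρ => ρ i
  hdv : ∀ i, Cp κ β fun _ _ ρ => hd (ρ i)
  const : ∀ n, Cp κ β fun _ _ _ => n
  liftN : ∀ {f : List Bool → Env → ℕ}, Cn κ f → Cp κ β fun x _ ρ => f x ρ
  tl : ∀ {f : List Bool → Orc → Env → List ℕ}, Co κ β f → Co κ β fun x g ρ => f x g (tl ρ)
  tlN : ∀ {f : List Bool → Orc → Env → ℕ}, Cp κ β f → Cp κ β fun x g ρ => f x g (ED.tl ρ)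
  op3 : ∀ (φ : List Bool → ℕ → ℕ → ℕ → ℕ) {a b e : List Bool → Orc → Env → ℕ},
    (Cn κ fun x ρ => φ x (hd (ρ 0)) (hd (ρ 1)) (hd (ρ 2))) → Cp κ β a → Cp κ β b → Cp κ β e →
    Cp κ β fun x g ρ => φ x (a x g ρ) (b x g ρ) (e x g ρ)
  gt : ∀ {l : List Bool → Orc → Env → List ℕ} {i : List Bool → Orc → Env → ℕ}, Co κ β l →
    Cp κ β i → Cp κ β fun x g ρ => gt (l x g ρ) (i x g ρ)
  add : ∀ {a b : List Bool → Orc → Env → ℕ}, Cp κ β a → Cp κ β b →
    Cp κ β fun x g ρ => a x g ρ + b x g ρ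
  sub : ∀ {a b : List Bool → Orc → Env → ℕ}, Cp κ β a → Cp κ β b →
    Cp κ β fun x g ρ => a x g ρ - b x g ρ
  mul : ∀ {a b : List Bool → Orc → Env → ℕ}, Cp κ β a → Cp κ β b →
    Cp κ β fun x g ρ => a x g ρ * b x g ρ
  div : ∀ {a b : List Bool → Orc → Env → ℕ}, Cp κ β a → Cp κ β b →
    Cp κ β fun x g ρ => a x g ρ / b x g ρ
  mod : ∀ {a b : List Bool → Orc → Env → ℕ}, Cp κ β a → Cp κ β b →
    Cp κ β fun x g ρ => a x g ρ % b x g ρ
  min : ∀ {a b : List Bool → Orc → Env → ℕ}, Cp κ β a → Cp κ β b →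
    Cp κ β fun x g ρ => min (a x g ρ) (b x g ρ)
  ile : ∀ {a b e f : List Bool → Orc → Env → ℕ}, Cp κ β a → Cp κ β b → Cp κ β e → Cp κ β f →
    Cp κ β fun x g ρ => if a x g ρ ≤ b x g ρ then e x g ρ else f x g ρ
  ieq : ∀ {a b e f : List Bool → Orc → Env → ℕ}, Cp κ β a → Cp κ β b → Cp κ β e → Cp κ β f →
    Cp κ β fun x g ρ => if a x g ρ = b x g ρ then e x g ρ else f x g ρ
  call : ∀ {e : List Bool → Orc → Env → List ℕ}, Co κ β e → (∀ x g ρ, ∀ a ∈ e x g ρ, a ≤ β x) →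
    Cp κ β fun x g ρ => g (e x g ρ)
  fold : ∀ {n z : List Bool → Orc → Env → ℕ} (f : List Bool → Orc → Env → ℕ → ℕ → ℕ)
    (h : List Bool → Orc → Env → ℕ → ℕ), Cp κ β n → (∀ x g ρ, n x g ρ ≤ κ x) → Cp κ β z →
    (Cp κ β fun x g ρ => f x g (ED.tl (ED.tl ρ)) (hd (ρ 1)) (hd (ρ 0))) →
    (Cp κ β fun x g ρ => h x g (ED.tl ρ) (hd (ρ 0))) →
    (∀ x g ρ m acc b, acc ≤ b → h x g ρ m ≤ b → f x g ρ m acc ≤ b) →
    Cp κ β fun x g ρ => itr (f x g ρ) (z x g ρ) (n x g ρ)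
  foldL : ∀ {n : List Bool → Orc → Env → ℕ} {z : List Bool → Orc → Env → List ℕ}
    (f : List Bool → Orc → Env → ℕ → List ℕ → List ℕ) (h : List Bool → Orc → Env → ℕ → ℕ),
    Cp κ β n → (∀ x g ρ, n x g ρ ≤ κ x) → Co κ β z →
    (Co κ β fun x g ρ => f x g (ED.tl (ED.tl ρ)) (hd (ρ 1)) (ρ 0)) →
    (Cp κ β fun x g ρ => h x g (ED.tl ρ) (hd (ρ 0))) →
    (∀ x g ρ m acc b, (∀ a ∈ acc, a ≤ b) → h x g ρ m ≤ b → ∀ a ∈ f x g ρ m acc, a ≤ b) →
    Co κ β fun x g ρ => itr (f x g ρ) (z x g ρ) (n x g ρ)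
  sum : ∀ {n : List Bool → Orc → Env → ℕ} (h : List Bool → Orc → Env → ℕ → ℕ), Cp κ β n →
    (∀ x g ρ, n x g ρ ≤ κ x) → (Cp κ β fun x g ρ => h x g (ED.tl ρ) (hd (ρ 0))) →
    Cp κ β fun x g ρ => ∑ m ∈ Finset.range (n x g ρ), h x g ρ m
  tab : ∀ {n : List Bool → ℕ} (f : List Bool → Orc → Env → ℕ → ℕ), (∀ x, n x ≤ κ x) →
    Cn κ (fun x _ => n x) → (Cp κ β fun x g ρ => f x g (ED.tl ρ) (hd (ρ 0))) →
    Co κ β fun x g ρ => tab (n x) (f x g ρ)

/-! ### Monge systems -/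

/-- One refinement of the width. -/
def rfn (k w : ℕ) (f : List ℕ → ℕ → ℕ → ℕ) (B : List ℕ) (i y : ℕ) : ℕ :=
  f (rowOf k (tbl k w f B i) (bi k f (tbl k w f B i) i y)) i y

/-- VSTEP -/
def VstepS : Prop :=
  ∀ (d : ℕ → ℕ → ℕ → ℕ) (s k w : ℕ) (f : List ℕ → ℕ → ℕ → ℕ) (B : List ℕ) (i y : ℕ), Mon d →
    0 < w → i ≤ k → (∀ l j y, j ≤ i → f l j y = opt d s w (gt l) j y) →
      rfn k w f B i y = opt d s (k * w) (gt B) i y

/-- CLIP (with VSTEP) -/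
structure ClipK (d : ℕ → ℕ → ℕ → ℕ) (s : ℕ) : Prop where
  clip : ∀ q β w : ℕ, (∀ j a b, d j a b = d j (min a q) (min b q)) → q ≤ β → 0 < w →
    ∀ (l : ℕ → ℕ) (i y : ℕ), opt d s w (fun m => min β (l m)) i (min β y) = opt d s w l i y
  bound : ∀ M w : ℕ, (∀ j a b, d j a b ≤ M) → 0 < w →
    ∀ (l : ℕ → ℕ) (i y : ℕ), opt d s w l i y ≤ (i + 1) * M

/-! ### Weighted grids -/

/-- Least cost of a walk from `(o, a)` that goes `n` rows down and `m` columns right. -/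
def gd (V H D : ℕ → ℕ → ℕ) : ℕ → ℕ → ℕ → ℕ → ℕ
  | 0, 0, _, _ => 0
  | n + 1, 0, o, a => V (o + 1) a + gd V H D n 0 (o + 1) a
  | 0, m + 1, o, a => H o (a + 1) + gd V H D 0 m o (a + 1)
  | n + 1, m + 1, o, a => min (V (o + 1) a + gd V H D n (m + 1) (o + 1) a)
      (min (H o (a + 1) + gd V H D (n + 1) m o (a + 1))
        (D (o + 1) (a + 1) + gd V H D n m (o + 1) (a + 1)))

/-- GMON -/
def GmonS : Prop :=
  ∀ (V H D : ℕ → ℕ → ℕ) (n o a m₁ m₂ m₃ : ℕ),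
    gd V H D n (m₁ + m₂) o a + gd V H D n (m₂ + m₃) o (a + m₁) ≤
      gd V H D n (m₁ + m₂ + m₃) o a + gd V H D n m₂ o (a + m₁)

/-- GD -/
structure GdK (V H D : ℕ → ℕ → ℕ) : Prop where
  app : ∀ n n' m m' o a, gd V H D (n + n') (m + m') o a ≤
    gd V H D n m o a + gd V H D n' m' (o + n) (a + m)
  split : ∀ n n' m o a, ∃ z ≤ m, gd V H D (n + n') m o a =
    gd V H D n z o a + gd V H D n' (m - z) (o + n) (a + z)
  col : ∀ n o a, gd V H D n 0 o a = ∑ t ∈ Finset.range n, V (o + t + 1) a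
  bound : ∀ w, (∀ i j, V i j ≤ w) → (∀ i j, H i j ≤ w) → ∀ n m o a, gd V H D n m o a ≤ (n + m) * w

/-- Table `e` of the input at the letters of row `i` and column `j`. -/
def wt (x : List Bool) (e i j : ℕ) : ℕ :=
  num x (6 + num x 1 + num x 2 + e * (num x 0 * num x 0) +
    (num x (4 + i) * num x 0 + num x (5 + num x 1 + j)))

def hsum (x : List Bool) (o a b : ℕ) : ℕ := ∑ t ∈ Finset.range (b - a), wt x 1 o (a + t + 1)

def col (x : List Bool) (o h b : ℕ) : ℕ :=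
  ∑ t ∈ Finset.range (min h (num x 1 - o)), wt x 0 (o + t + 1) b

/-- Distance for one row. -/
def row3 (x : List Bool) (o a b : ℕ) : ℕ :=
  if o + 1 ≤ num x 1 then
    itr (fun z acc => min acc
        (min (hsum x o a (a + z) + wt x 2 (o + 1) (a + z + 1))
          (hsum x o a (a + z + 1) + wt x 0 (o + 1) (a + z + 1)) + hsum x (o + 1) (a + z + 1) b))
      (wt x 0 (o + 1) a + hsum x (o + 1) a b) (b - a)
  else hsum x (num x 1) a b

/-- The true distance. -/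
def dd3 (x : List Bool) (o h a b : ℕ) : ℕ :=
  gd (wt x 0) (wt x 1) (wt x 2) (min h (num x 1 - o)) (b - a) (min o (num x 1)) a

/-- The penalty term for `b < a`. -/
def pen (x : List Bool) (o h a b : ℕ) : ℕ := col x o h b + (a - b) * (2 * x.length * x.length)

def ee3 (x : List Bool) (o h a b : ℕ) : ℕ := if a ≤ b then dd3 x o h a b else pen x o h a b

/-- ROW3 -/
def Row3S : Prop := ∀ (x : List Bool) (o a b : ℕ), a ≤ b → row3 x o a b = dd3 x o 1 a b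

/-- EE3 -/
structure Ee3K (x : List Bool) : Prop where
  mon : ∀ o h a a' b b', a ≤ a' → b ≤ b' → a' ≤ num x 2 → b' ≤ num x 2 →
    ee3 x o h a b + ee3 x o h a' b' ≤ ee3 x o h a b' + ee3 x o h a' b
  tri : ∀ o h h' a z b, a ≤ z → a ≤ b → b ≤ num x 2 →
    ee3 x o (h + h') a b ≤ ee3 x o h a z + ee3 x (o + h) h' z b
  spl : ∀ o h h' a b, a ≤ b →
    ∃ z, a ≤ z ∧ z ≤ b ∧ ee3 x o (h + h') a b = ee3 x o h a z + ee3 x (o + h) h' z b
  bound : ∀ o h a b, a ≤ num x 2 → b ≤ num x 2 → ee3 x o h a b ≤ 2 * (x.length + 2) ^ 3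

/-- CODE3 -/
def Code3S : Prop :=
  ∀ {m : ℕ} (dn rt dg : Fin m → Fin m → ℕ) (a : Fin m) (u : List (Fin m)) (b : Fin m)
    (v : List (Fin m)) (t : ℕ) (x : List Bool), x = gridCode dn rt dg a u b v t →
      ∀ h, num x 1 ≤ h →
        (dd3 x 0 h 0 (num x 2) ≤ num x 3 ↔ ∃ d ≤ t, Walk dn rt dg a u b v d)

/-! ### The recursive algorithm -/

section
variable (k : List Bool → ℕ) (x : List Bool)

/-- Powers of `k x`, frozen once they exceed `|x|`. -/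
def pc (m : ℕ) : ℕ := itr (fun _ acc => if acc ≤ x.length then acc * k x else acc) 1 m

def ww : ℕ := pc k x x.length

def rr : ℕ := ∑ m ∈ Finset.range x.length, if pc k x m ≤ x.length then 1 else 0

def bx (x : List Bool) : ℕ := (x.length + 2) ^ 6

/-- The argument list of a call. -/
def pk (h w o a i y : ℕ) (B : List ℕ) : List ℕ :=
  tab (k x + 6) fun e => min (bx x) (if e = 0 then h else if e = 1 then w else if e = 2 then o
    else if e = 3 then a else if e = 4 then i else if e = 5 then y else gt B (e - 6))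

/-- `w = 0`: distance for `h` rows from row `o`, columns `a`, `y`.  `w > 0`: best path through the
box with left ends `B` and width `w`, strips of height `h`. -/
def bod (g : Orc) (h w o a i y : ℕ) (B : List ℕ) : ℕ :=
  if w = 0 then
    if min a (num x 2) ≤ min y (num x 2) then
      if h ≤ 1 then row3 x o (min a (num x 2)) (min y (num x 2))
      else g (pk k x (h / k x) (ww k x) o (min a (num x 2)) (k x - 1) (min y (num x 2))
        (tab (k x) fun _ => min a (num x 2)))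
    else pen x o h (min a (num x 2)) (min y (num x 2))
  else if w ≤ 1 then
    cst (fun j a' b' => g (pk k x h 0 (o + j * h) a' 0 b' B)) a (gt B) i y
  else rfn (k x) (w / k x) (fun B' i' y' => g (pk k x h (w / k x) o a i' y' B')) B i y

def fn3 (g : Orc) (l : List ℕ) : ℕ :=
  min (bx x) (bod k x g (gt l 0) (gt l 1) (gt l 2) (gt l 3) (min (gt l 4) (k x)) (gt l 5)
    (tab (k x) fun m => gt l (6 + m)))

def ans3 (g : Orc) : ℕ :=
  if g (pk k x (ww k x) 0 0 0 0 (num x 2) (tab (k x) fun _ => 0)) ≤ num x 3 then 1 else 0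

end

/-- Admissible parameters. -/
def Adm (k : List Bool → ℕ) : Prop := ∀ x, 2 ≤ k x ∧ k x ≤ x.length + 2

/-- KK3 -/
def Kk3S : Prop :=
  ∀ (k : List Bool → ℕ) (x : List Bool), 2 ≤ k x → ww k x = k x ^ rr k x ∧ x.length < ww k x ∧
    ww k x ≤ k x * x.length + 1 ∧ rr k x ≤ Nat.log (k x) x.length + 1 ∧ ∀ i, num x i ≤ x.length

/-- RECV -/
def RecVS : Prop :=
  ∀ (k : List Bool → ℕ) (x : List Bool), 2 ≤ k x → k x ≤ x.length + 2 →
    rc (fn3 k x) ((rr k x + 1) ^ 2) (pk k x (ww k x) 0 0 0 0 (num x 2) (tab (k x) fun _ => 0)) =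
      dd3 x 0 (ww k x) 0 (num x 2)

/-- ALG0: the parts without calls. -/
structure Alg0K (κ k : List Bool → ℕ) : Prop where
  numC : ∀ i, Cn κ fun x _ => num x i
  wwC : Cn κ fun x _ => ww k x
  rrC : Cn κ fun x _ => (rr k x + 1) ^ 2
  bxC : Cn κ fun x _ => bx x
  rowC : Cn κ fun x ρ => row3 x (hd (ρ 0)) (hd (ρ 1)) (hd (ρ 2))
  colC : Cn κ fun x ρ => col x (hd (ρ 0)) (hd (ρ 1)) (hd (ρ 2))
  penC : Cn κ fun x _ => 2 * x.length * x.length

/-- ALGR: one refinement, in substitution form. -/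
def AlgRS : Prop :=
  ∀ (κ β k : List Bool → ℕ) (f : List Bool → Orc → ℕ → ℕ → ℕ → ℕ → List ℕ → ℕ → ℕ → ℕ),
    Kit1 κ → Kit2 κ → KitP κ β → (∀ x, (k x + 1) ^ 3 ≤ κ x) → Cn κ (fun x _ => k x) →
    (∀ (h w o a i y : List Bool → Orc → Env → ℕ) (B : List Bool → Orc → Env → List ℕ),
      Cp κ β h → Cp κ β w → Cp κ β o → Cp κ β a → Cp κ β i → Cp κ β y → Co κ β B →
        Cp κ β fun x g ρ =>
          f x g (h x g ρ) (w x g ρ) (o x g ρ) (a x g ρ) (B x g ρ) (i x g ρ) (y x g ρ)) →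
    ∀ (h w o a i y : List Bool → Orc → Env → ℕ) (B : List Bool → Orc → Env → List ℕ),
      Cp κ β h → Cp κ β w → Cp κ β o → Cp κ β a → Cp κ β i → Cp κ β y → Co κ β B →
      (∀ x g ρ, i x g ρ ≤ k x) → Cp κ β fun x g ρ => rfn (k x) (w x g ρ)
        (f x g (h x g ρ) (w x g ρ) (o x g ρ) (a x g ρ)) (B x g ρ) (i x g ρ) (y x g ρ)

/-- ALGF -/
def AlgFS : Prop :=
  ∀ κ k : List Bool → ℕ, Kit1 κ → Kit2 κ → KitP κ bx → Alg0K κ k → Adm k →
    (∀ x, (k x + 1) ^ 3 ≤ κ x) → Cn κ (fun x _ => k x) →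
      (Cp κ bx fun x g ρ => fn3 k x g (ρ 0)) ∧ Cp κ bx fun x g _ => ans3 k x g

/-- BND -/
def BndS : Prop :=
  ∀ (κ : List Bool → ℕ) (e : Bound), Kit1 κ → Kit2 κ → Cn κ fun x _ => e.eval x.length

/-- The result for an admissible computable parameter. -/
def MidS : Prop :=
  ∀ k : List Bool → ℕ, Adm k → (∀ κ, Cn κ fun x _ => k x) → ∃ (M : TM) (c : ℕ), ∀ x : List Bool,
    M.out (M.run x (pw (bx x) c * pw ((k x + 1) ^ 3) (c * (rr k x + 1) ^ 2))).q =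
      some (decide (dd3 x 0 (ww k x) 0 (num x 2) ≤ num x 3)) ∧
    ∀ t i, (M.run x t).head i ≤ c * ((k x + 1) ^ 3 + 1) * ((rr k x + 1) ^ 2 + 1) *
      (Nat.log 2 (bx x + 2) + (rr k x + 1) ^ 2 * Nat.log 2 ((k x + 1) ^ 3 + 2) + 1)

/-- NUM3: the numerical bounds. -/
def Num3S : Prop :=
  ∀ c : ℕ, ∃ c' : ℕ, ∀ n k r : ℕ, 2 ≤ k → k ≤ n + 2 → r ≤ Nat.log k n + 1 →
    pw ((n + 2) ^ 6) c * pw ((k + 1) ^ 3) (c * (r + 1) ^ 2) ≤ (n + 2) ^ (c' * (Nat.log k n + 1)) ∧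
    c * ((k + 1) ^ 3 + 1) * ((r + 1) ^ 2 + 1) *
      (Nat.log 2 ((n + 2) ^ 6 + 2) + (r + 1) ^ 2 * Nat.log 2 ((k + 1) ^ 3 + 2) + 1) ≤
        c' * k ^ 3 * (Nat.log 2 n + 1) ^ 4

/-- The theorem. -/
def Main3S : Prop :=
  ∀ e : Bound, ∃ (M : TM) (c : ℕ), ∀ (x : List Bool) (k : ℕ), k = max 2 (e.eval x.length) →
    ∃ r : Bool, M.out (M.run x ((x.length + 2) ^ (c * (Nat.log k x.length + 1)))).q = some r ∧
      (∀ t i, (M.run x t).head i ≤ c * k ^ 3 * (Nat.log 2 x.length + 1) ^ 4) ∧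
      ∀ (m : ℕ) (dn rt dg : Fin m → Fin m → ℕ) (a : Fin m) (u : List (Fin m)) (b : Fin m)
        (v : List (Fin m)) (t : ℕ), x = gridCode dn rt dg a u b v t →
          (r = true ↔ ∃ d ≤ t, Walk dn rt dg a u b v d)

end Pool.Agent.MP_1a6d78_lc.ED
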